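import Pool.Agent.MUX.StWX2
import Pool.Agent.MUX.StGX
import Pool.Agent.MUX.StXF
import Pool.Agent.TWK.StK2
import Pool.Agent.TWR.St

/-!
# TWT: the transfer block of Theorem C (MP_b78433_nt): common definitions and final statements (helper59)

`k = kk A B` imaginary quadratic, not `ℚ(i)`, `ℚ(√-3)` (normalised lattices exist), `p ≥ 5` a prime which splits in `k`,
`P` a prime above `p`, `V` a valuation ring of `ℂ` above `P`, `R` representatives of the ideal classes with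
normalised lattices `L_i` of good reduction at `V`. `l = 2` or `3`, `B n` the layers of the cyclotomic
`ℤ_l`-extension of `ℚ`, `K / k` finite abelian, `K ≤ RF (idl f)`, `l^h ∣ f`, `p ∤ f`. Levels `f l^N` (`N` = the exponent
of the conductor of the characters of `B n`, `N = n + h`) and `f l^N p`. `F` = the residue field of `V`.

* `kp, eta` : a character of `Gal(K/k)`: its inverse has the value `kp i * eta x` at `(i, x)`.
* `thT` : `(i, x) ↦ kp i * eta x * ψ(N x N b_i)`.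
* `w` : the Teichmüller character of `(O/P)^*` (`TeiP`); `w (star x)` is that of the conjugate of `P`.
* `SST R m th w = Σ_i mu_i Σ_(x mod m, x ∉ cjI P) th i x w(x) ee(pt R m i x; L_i)`; `oneT w x` is `0` on `cjI P`, else `1`.
* `epT eta w x = eta x (w (star x))⁻¹`, a character of `(O/(f cjI P))^*`, odd.
* `BT`, `BP` : the symbol `Σ_c w(c)⁻¹ Φ(x + c/p, y + c/p)`, `Φ = PhiK R (epT eta w) kk / om_(i0)`, and its even part.

FINAL STATEMENTS: `S_KEYA` (block A, helper3), `S_NBD`, `S_BSY` (block C, helper19), `S_CRIT`, `S_GAU`, `S_SYM`, `S_UNIT`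
(helper59). `S_UNIT` is the input of the frame.
-/

set_option autoImplicit false

open WeierstrassCurve Polynomial NumberField IsDedekindDomain

namespace Pool.Agent.TWT

open _root_.MU3 Pool.Agent.MU3A Pool.Agent.MU3B Pool.Agent.MU3C Pool.Agent.RI Pool.Agent.RID
open Pool.Agent.MUX Pool.Agent.MUXU Pool.Agent.MUXW
open Pool.Agent.MU3V (cls Sub GD algDF)
open Pool.Agent.MUXV (GR InK tX)
open OnePoint

noncomputable section

/-! ## Definitions -/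

/-- the standing hypotheses for `p ≥ 5` -/
structure SetG (p : ℕ) (A B : ℤ) (P : Ideal (OO A B)) (V : ValuationSubring ℂ) (f : ℕ) : Prop where
  cq : CQ A B
  pp : p.Prime
  p5 : 5 ≤ p
  hP : IsPN p P
  hV : OverI V P
  pD : ¬ (p : ℤ) ∣ absD A B
  f0 : f ≠ 0
  fp : ¬ p ∣ f
  fD : 2 * absD A B ∣ (f : ℤ)

variable {A B : ℤ} {n : ℕ} {ι : Type}

/-- good reduction at `V` of all the lattices `L_i`, with different reductions -/
structure GRd (V : ValuationSubring ℂ) (R : Reps A B n ι) : Prop where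
  kap : ∀ i, V.valuation (kap (R.L i)) = 1
  dis : ∀ i, V.valuation (1 + 1728 * MUX.kap (R.L i)) = 1
  inj : ∀ i j, V.valuation (MUX.kap (R.L i) - MUX.kap (R.L j)) < 1 → i = j

/-- `w` is the Teichmüller character of `(O/P)^*` -/
structure TeiP (p : ℕ) (P : Ideal (OO A B)) (V : ValuationSubring ℂ) (w : OO A B → ℂ) : Prop where
  one : w 1 = 1
  mul : ∀ x y, w (x * y) = w x * w y
  per : ∀ x y, x - y ∈ P → w x = w y
  zero : ∀ x, w x = 0 ↔ x ∈ P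
  root : ∀ x, x ∉ P → w x ^ (p - 1) = 1
  red : ∀ x, V.valuation (w x - emb x) < 1
  int : ∀ c : ℤ, V.valuation (w (c : OO A B) - c) ≤ V.valuation (p : ℂ)

/-- `kp, eta`: the values `kp i * eta x` of a character, of order prime to `p`, on the ideals `x * cjI (b i)` prime to `f` -/
structure ChD (p f : ℕ) (R : Reps A B n ι) (kp : ι → ℂ) (eta : OO A B → ℂ) : Prop where
  one : eta 1 = 1
  mul : ∀ x y, eta (x * y) = eta x * eta y
  per : ∀ x y, x - y ∈ (idl f : Ideal (OO A B)) → eta x = eta y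
  supp : ∀ x, eta x ≠ 0 ↔ IsCoprime (sp x) (idl f : Ideal (OO A B))
  neg : eta (-1) = 1
  kp0 : kp R.i0 = 1
  fin : ∃ r : ℕ, ¬ p ∣ r ∧ (∀ i, kp i ^ r = 1) ∧ ∀ x, eta x ≠ 0 → eta x ^ r = 1

/-- `(i, x) ↦ kp i * eta x * ψ(N x N b_i)` -/
def thT (R : Reps A B n ι) (kp : ι → ℂ) (eta : OO A B → ℂ) {q : ℕ} (ψ : DirichletCharacter ℂ q)
    (i : ι) (x : OO A B) : ℂ :=
  kp i * eta x * ψ ((nm x * nI (R.b i) : ℤ) : ZMod q)

/-- `0` if `star x ∈ P`, otherwise `1` -/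
def oneT (w : OO A B → ℂ) (x : OO A B) : ℂ := w (star x) * (w (star x))⁻¹

/-- `Σ_i mu_i Σ_(x mod m, x ∉ cjI P) th i x w(x) ee(pt R m i x; L_i)` -/
def SST [Fintype ι] (R : Reps A B n ι) (m : ℕ) (th : ι → OO A B → ℂ) (w : OO A B → ℂ) : ℂ :=
  ∑ i, muX R i * sumMod ((m : ℕ) : OO A B) fun x =>
    th i x * oneT w x * w x * ee (R.L i) (pt R m i x)

/-- the same with the logarithmic derivative of `Θ_a` -/
def SDT [Fintype ι] (R : Reps A B n ι) (m a : ℕ) (th : ι → OO A B → ℂ) (w : OO A B → ℂ) : ℂ :=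
  ∑ i, muX R i * sumMod ((m : ℕ) : OO A B) fun x =>
    th i x * oneT w x * w x * dlX (R.L i) a (pt R m i x)

/-- the character of the theta series -/
def epT (eta : OO A B → ℂ) (w : OO A B → ℂ) (x : OO A B) : ℂ := eta x * (w (star x))⁻¹

/-- the weights of the symbols -/
def kkT (R : Reps A B n ι) (kp : ι → ℂ) (eta : OO A B → ℂ) (i : ι) : ℂ :=
  kp i * (eta ((nI (R.b i) : ℕ) : OO A B))⁻¹

/-- the symbol `Φ` -/
def PhT [Fintype ι] (R : Reps A B n ι) (kp : ι → ℂ) (eta w : OO A B → ℂ)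
    (x y : OnePoint ℚ) : ℂ :=
  PhiK R (epT eta w) (kkT R kp eta) x y / R.om R.i0

/-- its twist by `w⁻¹` on the integers -/
def twT (p : ℕ) (w : OO A B → ℂ) (Q : OnePoint ℚ → OnePoint ℚ → ℂ) (x y : OnePoint ℚ) : ℂ :=
  ∑ c ∈ Finset.range p, (w ((c : ℕ) : OO A B))⁻¹ *
    Q (Pool.Agent.MuSym.mob p c 0 p x) (Pool.Agent.MuSym.mob p c 0 p y)

/-- the even symbol of the rigidity theorem -/
def BP [Fintype ι] (p : ℕ) (R : Reps A B n ι) (kp : ι → ℂ) (eta w : OO A B → ℂ) :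
    OnePoint ℚ → OnePoint ℚ → ℂ :=
  sgnPart 1 (twT p w (PhT R kp eta w))

/-! ## Block A (helper3) -/

/-- (KEYA) the unit `∏_(R ∈ E[P] - 0) Θ(z + R)/Θ(z)^(p-1)` to the first order. -/
def S_KEYA : Prop :=
  ∀ (p : ℕ) (A B : ℤ) (P : Ideal (OO A B)) (V : ValuationSubring ℂ) (f : ℕ),
    SetG p A B P V f → ∀ (ι : Type) [Finite ι] (R : Reps A B (p * f) ι), GRd V R →
    ∀ y0 : OO A B, y0 ∈ cjI P → y0 ∉ P →
    ∃ t0 : ℂ, V.valuation t0 ^ (p - 1) = V.valuation (p : ℂ) ∧ t0 ≠ 0 ∧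
      ∀ (i : ι) (a : ℕ) (H : Finset ℂ), 1 < a → a.Coprime (2 * p) → IsHalf (R.L i) a H →
      ∀ z : ℂ, ¬ InEn V (R.L i) z → ¬ InEn V (R.L i) (2 * z) → ¬ InEn V (R.L i) (a * z) →
        (∀ c : ℕ, V.valuation (ThetaH (R.L i) H (z + c * pt R p i y0)) = 1 ∧
          dlX (R.L i) a (z + c * pt R p i y0) ∈ V) ∧
        V.valuation (∏ c ∈ Finset.Icc 1 (p - 1), ThetaH (R.L i) H (z + c * pt R p i y0) -
            ThetaH (R.L i) H z ^ (p - 1) * (1 - muX R i * t0 *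
              ∑ c ∈ Finset.Icc 1 (p - 1), (c : ℂ) * dlX (R.L i) a (z + c * pt R p i y0))) ≤
          V.valuation (p : ℂ) * V.valuation t0 ∧
        V.valuation t0 * V.valuation (∑ c ∈ Finset.Icc 1 (p - 1),
          (c : ℂ) * dlX (R.L i) a (z + c * pt R p i y0)) ≤ V.valuation (p : ℂ)

/-! ## Block C (helper19) -/

/-- (BSY) `BP` is a symbol, with values in a number field, depleted at the prime divisors of `f`. -/
def S_BSY : Prop :=
  ∀ (p : ℕ) (A B : ℤ) (P : Ideal (OO A B)) (V : ValuationSubring ℂ) (f : ℕ),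
    SetG p A B P V f → TorX A B → ∀ (ι : Type) [Fintype ι] (R : Reps A B (p * f) ι)
    (w : OO A B → ℂ), TeiP p P V w → ∃ (nu : (OO A B → ℂ) → ℤ → ℂ), ∀ (kp : ι → ℂ)
    (eta : OO A B → ℂ), ChD p f R kp eta →
      (∀ d, V.valuation (nu eta d) ≤ 1) ∧ nu eta 1 = 1 ∧
      (∀ d d' : ℤ, (((absD A B).toNat * (p * f) ^ 2 * p ^ 2 : ℕ) : ℤ) ∣ d - d' →
        nu eta d = nu eta d') ∧
      IsSym ((absD A B).toNat * (p * f) ^ 2 * p ^ 2) (nu eta) (BP p R kp eta w) ∧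
      (∃ K : IntermediateField ℚ ℂ, FiniteDimensional ℚ K ∧
        ∀ x : ℚ, BP p R kp eta w ∞ (x : OnePoint ℚ) ∈ K) ∧
      (∀ x : ℚ, BP p R kp eta w ∞ ((-x : ℚ) : OnePoint ℚ) = BP p R kp eta w ∞ (x : OnePoint ℚ)) ∧
      ∀ l : ℕ, l.Prime → l ∣ f → ∀ x : ℚ, ∑ k ∈ Finset.range l,
        BP p R kp eta w ∞ ((x + (k : ℚ) / l : ℚ) : OnePoint ℚ) = 0

/-- (NBD) `BP` is not a boundary symbol modulo `V`. -/
def S_NBD : Prop :=
  ∀ (p : ℕ) (A B : ℤ) (P : Ideal (OO A B)) (V : ValuationSubring ℂ) (f : ℕ),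
    SetG p A B P V f → TorX A B → ∀ (ι : Type) [Fintype ι] (R : Reps A B (p * f) ι), GRd V R →
    ∀ (w : OO A B → ℂ), TeiP p P V w → ∀ (kp : ι → ℂ) (eta : OO A B → ℂ), ChD p f R kp eta →
    ∀ N' : ℕ, N' ≠ 0 → ∃ a b c d : ℤ, a * d - b * c = 1 ∧ (N' : ℤ) ∣ c ∧ (N' : ℤ) ∣ d - 1 ∧
      1 ≤ V.valuation (BP p R kp eta w ∞ (Pool.Agent.MuSym.mob a b c d ∞))

/-! ## Block B and the final theorem (helper59) -/

/-- (GAU) the value of the twisted symbol, `ψ` even and primitive modulo `l^N`: it is a unit times `g(w⁻¹)/p` times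
`SST`, and `v(g(w⁻¹))^(p-1) ≤ v(p)`. -/
def S_GAU : Prop :=
  ∀ (p : ℕ) (A B : ℤ) (P : Ideal (OO A B)) (V : ValuationSubring ℂ) (f : ℕ),
    SetG p A B P V f → ∀ (ι : Type) [Fintype ι] (R : Reps A B (p * f) ι)
    (w : OO A B → ℂ), TeiP p P V w → ∀ (kp : ι → ℂ) (eta : OO A B → ℂ), ChD p f R kp eta →
    ∀ (l N : ℕ), l.Prime → l ∣ f → 2 ≤ N → ∀ ψ : DirichletCharacter ℂ (l ^ N), ψ (-1) = 1 →
    ψ (1 + (l : ZMod (l ^ N)) ^ (N - 1)) ≠ 1 →
    1 ≤ V.valuation (∑ b ∈ Finset.range (l ^ N),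
      ψ⁻¹ (b : ZMod (l ^ N)) *
        BP p R kp eta w ∞ (((b : ℚ) / (l : ℚ) ^ N : ℚ) : OnePoint ℚ)) →
    V.valuation (p : ℂ) ^ (p - 2) ≤
      V.valuation (SST R (f * l ^ N * p) (thT R kp eta ψ) w) ^ (p - 1)

open Pool.Agent.TWR in
/-- (SYM) for infinitely many `n`: the sums `SST` of all characters of the levels `n, …, n + b - 1` are large. -/
def S_SYM : Prop :=
  ∀ (l g h : ℕ), Gen l g h → ∀ (p : ℕ) (A B : ℤ) (P : Ideal (OO A B)) (V : ValuationSubring ℂ)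
    (f : ℕ), SetG p A B P V f → l ∣ f → TorX A B → ∀ (ι : Type) [Fintype ι]
    (R : Reps A B (p * f) ι), GRd V R → ∀ (w : OO A B → ℂ), TeiP p P V w →
    ∀ (J : Type) [Finite J] (kp : J → ι → ℂ) (eta : J → OO A B → ℂ),
    (∀ j, ChD p f R (kp j) (eta j)) → ∀ (b : ℕ), 1 ≤ b → ∀ n0 : ℕ, ∃ n ≥ n0, ∀ s < b, ∀ j,
      ∀ ψ : DirichletCharacter ℂ (l ^ (n + s)), ψ (-1) = 1 →
      ψ (1 + (l : ZMod (l ^ (n + s))) ^ (n + s - 1)) ≠ 1 →
      V.valuation (p : ℂ) ^ (p - 2) ≤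
        V.valuation (SST R (f * l ^ (n + s) * p) (thT R (kp j) (eta j) ψ) w) ^ (p - 1)

/-- the residue class of an element of `V` (of `0` outside `V`) -/
def rsd (V : ValuationSubring ℂ) (x : ℂ) : IsLocalRing.ResidueField V :=
  open Classical in if hx : x ∈ V then IsLocalRing.residue V ⟨x, hx⟩ else 0

/-- (CRIT) from a large sum to a non-power. -/
def S_CRIT : Prop :=
  ∀ (p : ℕ) [Fact p.Prime] (A B : ℤ) (P : Ideal (OO A B)) (V : ValuationSubring ℂ) (f : ℕ),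
    SetG p A B P V f → TorX A B → ∀ (ι : Type) [Fintype ι] (R : Reps A B (p * f) ι), GRd V R →
    ∀ (w : OO A B → ℂ), TeiP p P V w → ∀ (kp : ι → ℂ) (eta : OO A B → ℂ), ChD p f R kp eta →
    ∀ (l N : ℕ), l.Prime → l ∣ f → ∀ ψ : DirichletCharacter ℂ (l ^ N), ψ (-1) = 1 →
    ∀ (a : ℕ), 1 < a → a.Coprime (6 * f * p) →
    V.valuation (1 - (a : ℂ) ^ 2 * thT R kp eta ψ R.i0 a) = 1 →
    (∃ (r : ℕ) (y : OO A B), P ^ r = sp y ∧ V.valuation (1 - thT R kp eta ψ R.i0 y) = 1) →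
    ∀ (H : Finset ℂ), IsHalf (R.L R.i0) a H →
    ∀ (θ : (RF (idl (f * l ^ N * p)) : IntermediateField (kk A B) ℂ)),
    (θ : ℂ) = ThetaH (R.L R.i0) H (pt R (f * l ^ N * p) R.i0 1) →
    ∀ (D : IntermediateField ℚ ℂ) [FiniteDimensional ℚ D] [FiniteDimensional ℚ (kk A B)]
      (h : kk A B ≤ D),
    Sub D (RF (idl (f * l ^ N)) : IntermediateField (kk A B) ℂ) → letI := algC h
    ∀ (χ : (D ≃ₐ[kk A B] D) →* (IsLocalRing.ResidueField V)ˣ),
    (∀ (τ : D ≃ₐ[kk A B] D), ∀ q ∈ XX R (f * l ^ N) h τ,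
      rsd V (thT R kp eta ψ q.1 (Quotient.out q.2)) = (((χ τ)⁻¹ : (IsLocalRing.ResidueField V)ˣ) :
        IsLocalRing.ResidueField V)) →
    (∃ g : D ≃ₐ[kk A B] D, (∀ x : D,
      (x : ℂ) ∈ (RF (⊤ : Ideal (OO A B)) : IntermediateField (kk A B) ℂ) → g x = x) ∧ χ g ≠ 1) →
    ∀ c₀ : D, (c₀ : ℂ) = cW h θ →
    V.valuation (p : ℂ) ^ (p - 2) ≤
      V.valuation (SST R (f * l ^ N * p) (thT R kp eta ψ) w) ^ (p - 1) →
    ∃ t : (IsLocalRing.ResidueField V) →+ ZMod p, ∀ y : D, y ^ p ≠ Pool.Agent.TWK.sE p χ t c₀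

open Pool.Agent.TWR in
/-- (FACT) the characters of `Gal(K B_N / k)` with values in the residue field, in terms of the values `thT` (frame, helper51;
`N + h` is the exponent of the conductor). `J` does not depend on `N`. -/
def S_FACT : Prop :=
  ∀ (l g h : ℕ), Gen l g h → ∀ (p : ℕ) [Fact p.Prime] (A B : ℤ) (P : Ideal (OO A B))
    (V : ValuationSubring ℂ) (f : ℕ), SetG p A B P V f → l ^ h ∣ f → TorX A B →
    ∀ (ι : Type) [Finite ι] (R : Reps A B (p * f) ι)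
    (K : IntermediateField ℚ ℂ) [FiniteDimensional ℚ K], kk A B ≤ K →
    Sub K (RF (idl f) : IntermediateField (kk A B) ℂ) →
    ∀ (Bn : ℕ → IntermediateField ℚ ℂ), (∀ n, IsLayer l n (Bn n)) → Monotone Bn →
    ∃ (J : Type) (_ : Finite J) (kp : J → ι → ℂ) (eta : J → OO A B → ℂ),
      (∀ j, ChD p f R (kp j) (eta j)) ∧
      ∀ (n : ℕ) (hn : kk A B ≤ K ⊔ Bn (n + 1)), letI := algC hn
      ∀ χ : (↥(K ⊔ Bn (n + 1)) ≃ₐ[kk A B] ↥(K ⊔ Bn (n + 1))) →* (IsLocalRing.ResidueField V)ˣ,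
      (∃ g : ↥(K ⊔ Bn (n + 1)) ≃ₐ[kk A B] ↥(K ⊔ Bn (n + 1)),
        (∀ x : ↥(K ⊔ Bn (n + 1)), (x : ℂ) ∈ K ⊔ Bn n → g x = x) ∧ χ g ≠ 1) →
      ∃ (j : J) (ψ : DirichletCharacter ℂ (l ^ (n + 1 + h))), ψ (-1) = 1 ∧
        ψ (1 + (l : ZMod (l ^ (n + 1 + h))) ^ (n + 1 + h - 1)) ≠ 1 ∧
        ∀ (τ : ↥(K ⊔ Bn (n + 1)) ≃ₐ[kk A B] ↥(K ⊔ Bn (n + 1))),
        ∀ q ∈ XX R (f * l ^ (n + 1 + h)) hn τ,
          rsd V (thT R (kp j) (eta j) ψ q.1 (Quotient.out q.2)) =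
            (((χ τ)⁻¹ : (IsLocalRing.ResidueField V)ˣ) : IsLocalRing.ResidueField V)

open Pool.Agent.TWR in
/-- (UNIT) the input of the frame: for infinitely many `n`, on the levels `n + s`, `s < b`, all characters which are not
trivial on `Gal(K B_(n+s+1) / K B_(n+s))` have a part of `c₀` which is not a `p`-th power. -/
def S_UNIT : Prop :=
  ∀ (l g h : ℕ), Gen l g h → ∀ (p : ℕ) [Fact p.Prime] (A B : ℤ) (P : Ideal (OO A B))
    (V : ValuationSubring ℂ) (f : ℕ), SetG p A B P V f → l ^ h ∣ f → TorX A B →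
    ∀ (ι : Type) [Fintype ι] (R : Reps A B (p * f) ι), GRd V R →
    ∀ (K : IntermediateField ℚ ℂ) [FiniteDimensional ℚ K] [FiniteDimensional ℚ (kk A B)],
    kk A B ≤ K → Sub K (RF (idl f) : IntermediateField (kk A B) ℂ) →
    ∀ (Bn : ℕ → IntermediateField ℚ ℂ) [∀ n, FiniteDimensional ℚ ↥(K ⊔ Bn n)],
    (∀ n, IsLayer l n (Bn n)) → Monotone Bn →
    (∀ n, Sub (K ⊔ Bn n) (RF (idl (f * l ^ (n + h))) : IntermediateField (kk A B) ℂ)) →
    ∀ (a : ℕ), 1 < a → a.Coprime (6 * f * p) → ∀ (H : Finset ℂ), IsHalf (R.L R.i0) a H →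
    ∀ (b : ℕ), 1 ≤ b → ∀ n0 : ℕ, ∃ n ≥ n0, ∀ s < b,
    ∀ (θ : (RF (idl (f * l ^ (n + s + 1 + h) * p)) : IntermediateField (kk A B) ℂ)),
    (θ : ℂ) = ThetaH (R.L R.i0) H (pt R (f * l ^ (n + s + 1 + h) * p) R.i0 1) →
    ∀ (h0 : kk A B ≤ K ⊔ Bn (n + s + 1)), letI := algC h0
    ∀ (c₀ : ↥(K ⊔ Bn (n + s + 1))), (c₀ : ℂ) = cW h0 θ →
    ∀ χ : (↥(K ⊔ Bn (n + s + 1)) ≃ₐ[kk A B] ↥(K ⊔ Bn (n + s + 1))) →*
      (IsLocalRing.ResidueField V)ˣ,
      (∃ g : ↥(K ⊔ Bn (n + s + 1)) ≃ₐ[kk A B] ↥(K ⊔ Bn (n + s + 1)),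
        (∀ x : ↥(K ⊔ Bn (n + s + 1)), (x : ℂ) ∈ K ⊔ Bn (n + s) → g x = x) ∧ χ g ≠ 1) →
      ∃ t : (IsLocalRing.ResidueField V) →+ ZMod p, ∀ y : ↥(K ⊔ Bn (n + s + 1)),
        y ^ p ≠ Pool.Agent.TWK.sE p χ t c₀

end

end Pool.Agent.TWT
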