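import Pool.Agent.TWT.DefsT

/-!
# TWT: the final statements with bounded gaps (helper59)

`S_SYMB`, `S_UNITB`: as `S_SYM`, `S_UNIT` of `DefsT.lean`, with `∃ C, ∀ n0, ∃ n ∈ [n0, n0 + C]` in place of
`∀ n0, ∃ n ≥ n0`. `S_SYMB` (helper19) from the bounded gaps of the rigidity theorem (`a_TW3`, `a_TWB3` of helper34);
`S_UNITB` (helper59) from `S_SYMB`, `S_CRIT`, `S_FACT`.
-/

set_option autoImplicit false

open WeierstrassCurve Polynomial NumberField IsDedekindDomain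

namespace Pool.Agent.TWT

open _root_.MU3 Pool.Agent.MU3A Pool.Agent.MU3B Pool.Agent.MU3C Pool.Agent.RI Pool.Agent.RID
open Pool.Agent.MUX Pool.Agent.MUXU Pool.Agent.MUXW
open Pool.Agent.MU3V (cls Sub GD algDF)
open Pool.Agent.MUXV (GR InK tX)
open OnePoint

noncomputable section

open Pool.Agent.TWR in
/-- (SYMB) `S_SYM` with bounded gaps. -/
def S_SYMB : Prop :=
  ∀ (l g h : ℕ), Gen l g h → ∀ (p : ℕ) (A B : ℤ) (P : Ideal (OO A B)) (V : ValuationSubring ℂ)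
    (f : ℕ), SetG p A B P V f → l ∣ f → TorX A B → ∀ (ι : Type) [Fintype ι]
    (R : Reps A B (p * f) ι), GRd V R → ∀ (w : OO A B → ℂ), TeiP p P V w →
    ∀ (J : Type) [Finite J] (kp : J → ι → ℂ) (eta : J → OO A B → ℂ),
    (∀ j, ChD p f R (kp j) (eta j)) → ∀ (b : ℕ), 1 ≤ b → ∃ C : ℕ, ∀ n0 : ℕ, ∃ n : ℕ,
      n0 ≤ n ∧ n ≤ n0 + C ∧ ∀ s < b, ∀ j,
      ∀ ψ : DirichletCharacter ℂ (l ^ (n + s)), ψ (-1) = 1 →
      ψ (1 + (l : ZMod (l ^ (n + s))) ^ (n + s - 1)) ≠ 1 →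
      V.valuation (p : ℂ) ^ (p - 2) ≤
        V.valuation (SST R (f * l ^ (n + s) * p) (thT R (kp j) (eta j) ψ) w) ^ (p - 1)

open Pool.Agent.TWR in
/-- (UNITB) `S_UNIT` with bounded gaps: the input of the frame. -/
def S_UNITB : Prop :=
  ∀ (l g h : ℕ), Gen l g h → ∀ (p : ℕ) [Fact p.Prime] (A B : ℤ) (P : Ideal (OO A B))
    (V : ValuationSubring ℂ) (f : ℕ), SetG p A B P V f → l ^ h ∣ f → TorX A B →
    ∀ (ι : Type) [Fintype ι] (R : Reps A B (p * f) ι), GRd V R →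
    ∀ (K : IntermediateField ℚ ℂ) [FiniteDimensional ℚ K] [FiniteDimensional ℚ (kk A B)],
    kk A B ≤ K → Sub K (RF (idl f) : IntermediateField (kk A B) ℂ) →
    ∀ (Bn : ℕ → IntermediateField ℚ ℂ) [∀ n, FiniteDimensional ℚ ↥(K ⊔ Bn n)],
    (∀ n, IsLayer l n (Bn n)) → Monotone Bn →
    (∀ n, Sub (K ⊔ Bn n) (RF (idl (f * l ^ (n + h))) : IntermediateField (kk A B) ℂ)) →
    ∀ (a : ℕ), 1 < a → a.Coprime (6 * f * p) → ∀ (H : Finset ℂ), IsHalf (R.L R.i0) a H →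
    ∀ (b : ℕ), 1 ≤ b → ∃ C : ℕ, ∀ n0 : ℕ, ∃ n : ℕ, n0 ≤ n ∧ n ≤ n0 + C ∧ ∀ s < b,
    ∀ (θ : (RF (idl (f * l ^ (n + s + 1 + h) * p)) : IntermediateField (kk A B) ℂ)),
    (θ : ℂ) = ThetaH (R.L R.i0) H (pt R (f * l ^ (n + s + 1 + h) * p) R.i0 1) →
    ∀ (h0 : kk A B ≤ K ⊔ Bn (n + s + 1)), letI := algC h0
    ∀ (c₀ : ↥(K ⊔ Bn (n + s + 1))), (c₀ : ℂ) = cW h0 θ →
    ∀ χ : (↥(K ⊔ Bn (n + s + 1)) ≃ₐ[kk A B] ↥(K ⊔ Bn (n + s + 1))) →*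
      (IsLocalRing.ResidueField V)ˣ,
      (∃ g : ↥(K ⊔ Bn (n + s + 1)) ≃ₐ[kk A B] ↥(K ⊔ Bn (n + s + 1)),
        (∀ x : ↥(K ⊔ Bn (n + s + 1)), (x : ℂ) ∈ K ⊔ Bn (n + s) → g x = x) ∧ χ g ≠ 1) →
      ∃ t : (IsLocalRing.ResidueField V) →+ ZMod p, ∀ y : ↥(K ⊔ Bn (n + s + 1)),
        y ^ p ≠ Pool.Agent.TWK.sE p χ t c₀

open Pool.Agent.TWR in
/-- (SYMA) for ALL large `n` (rigidity theorem for all large `n`: `S_TW4`, helper11, helper34). -/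
def S_SYMA : Prop :=
  ∀ (l g h : ℕ), Gen l g h → ∀ (p : ℕ) (A B : ℤ) (P : Ideal (OO A B)) (V : ValuationSubring ℂ)
    (f : ℕ), SetG p A B P V f → l ∣ f → TorX A B → ∀ (ι : Type) [Fintype ι]
    (R : Reps A B (p * f) ι), GRd V R → ∀ (w : OO A B → ℂ), TeiP p P V w →
    ∀ (J : Type) [Finite J] (kp : J → ι → ℂ) (eta : J → OO A B → ℂ),
    (∀ j, ChD p f R (kp j) (eta j)) → ∃ n0 : ℕ, ∀ n : ℕ, n0 ≤ n → ∀ j,
      ∀ ψ : DirichletCharacter ℂ (l ^ n), ψ (-1) = 1 →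
      ψ (1 + (l : ZMod (l ^ n)) ^ (n - 1)) ≠ 1 →
      V.valuation (p : ℂ) ^ (p - 2) ≤
        V.valuation (SST R (f * l ^ n * p) (thT R (kp j) (eta j) ψ) w) ^ (p - 1)

open Pool.Agent.TWR in
/-- (UNITA) the input of the frame, for ALL large `n`; the conclusion is `UnitAt p l h f V R H K Bn n` of
`Pool/Agent/TWK/StK6.lean`. -/
def S_UNITA : Prop :=
  ∀ (l g h : ℕ), Gen l g h → ∀ (p : ℕ) [Fact p.Prime] (A B : ℤ) (P : Ideal (OO A B))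
    (V : ValuationSubring ℂ) (f : ℕ), SetG p A B P V f → l ^ h ∣ f → TorX A B →
    ∀ (ι : Type) [Fintype ι] (R : Reps A B (p * f) ι), GRd V R →
    ∀ (K : IntermediateField ℚ ℂ) [FiniteDimensional ℚ K] [FiniteDimensional ℚ (kk A B)],
    kk A B ≤ K → Sub K (RF (idl f) : IntermediateField (kk A B) ℂ) →
    ∀ (Bn : ℕ → IntermediateField ℚ ℂ) [∀ n, FiniteDimensional ℚ ↥(K ⊔ Bn n)],
    (∀ n, IsLayer l n (Bn n)) → Monotone Bn →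
    (∀ n, Sub (K ⊔ Bn n) (RF (idl (f * l ^ (n + h))) : IntermediateField (kk A B) ℂ)) →
    ∀ (a : ℕ), 1 < a → a.Coprime (6 * f * p) → ∀ (H : Finset ℂ), IsHalf (R.L R.i0) a H →
    ∃ n0 : ℕ, ∀ n : ℕ, n0 ≤ n →
    ∀ (θ : (RF (idl (f * l ^ (n + 1 + h) * p)) : IntermediateField (kk A B) ℂ)),
    (θ : ℂ) = ThetaH (R.L R.i0) H (pt R (f * l ^ (n + 1 + h) * p) R.i0 1) →
    ∀ (h0 : kk A B ≤ K ⊔ Bn (n + 1)), letI := algC h0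
    ∀ (c₀ : ↥(K ⊔ Bn (n + 1))), (c₀ : ℂ) = cW h0 θ →
    ∀ χ : (↥(K ⊔ Bn (n + 1)) ≃ₐ[kk A B] ↥(K ⊔ Bn (n + 1))) →*
      (IsLocalRing.ResidueField V)ˣ,
      (∃ g : ↥(K ⊔ Bn (n + 1)) ≃ₐ[kk A B] ↥(K ⊔ Bn (n + 1)),
        (∀ x : ↥(K ⊔ Bn (n + 1)), (x : ℂ) ∈ K ⊔ Bn n → g x = x) ∧ χ g ≠ 1) →
      ∃ t : (IsLocalRing.ResidueField V) →+ ZMod p, ∀ y : ↥(K ⊔ Bn (n + 1)),
        y ^ p ≠ Pool.Agent.TWK.sE p χ t c₀

end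

end Pool.Agent.TWT
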