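import Pool.Agent.TWT.DefsT
import Pool.Agent.MUX.StIX

/-!
# TWT, block B: a large sum `SST` gives a non-power (helper59)

`SetG p A B P V f`, `R : Reps A B (p * f) ι`, `m` a level prime to `p` (`LvM`), `M = m p`, `F = RF (idl M)`, `G = Gal(F/k)` (abelian),
`v = V.valuation` (`v x ≤ 1` iff `x ∈ V`: `ValuationSubring.valuation_le_one_iff`; `v x < 1` iff `x ∈ V.nonunits`).
`HitF R M F σ i x` : `σ ∈ G` maps the base point `pt R M i0 1` to `± pt R M i x`. `x0 ∈ P`, `x0 ≡ 1` modulo `m cjI P`; `y0 ∈ cjI P`, `y0 ∉ P`;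
`a_c = x0 + c m y0`, `1 ≤ c < p`: prime to `M`, `≡ 1` modulo `m cjI P`. `pt R M i (x a_c) = z + c R`, `z = pt R M i (x x0)` of level `m cjI P`,
`R = pt R p i (x y0) ∈ E[P]`. Every `def S_X : Prop` is the statement of a module, which proves `theorem t_X (h : S_Y) ... : S_X` (hypotheses: the
statements `S_..` of this file named under USES, fewer is fine) in `Pool/Agent/TWT/X.lean`, namespace `Pool.Agent.TWT`. The statements of the
blocks of MUX are THEOREMS without hypotheses and may be cited (import the file): `Sy_..` of `StWX.lean`, `StWX2.lean`: `Pool.Agent.MUXW.y_X` (`Pool/Agent/MUX/WAll.lean`),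
`Si_IAF, IAG, RPR, HIT, ARF, XXF, PTP` (`StIX.lean`): `Pool.Agent.TWT.j_X` (`Pool/Agent/TWT/I0.lean`), `Su_..`: `Pool.Agent.MUXU.u_X` (`UAll.lean`), `Sx_..` of
`StXF.lean`: `Pool.Agent.MUXF.xf_X` (`XFAll.lean`), `Sy_..` of `StYX.lean`: `Pool.Agent.MUXY.y_X` (`YAll.lean`), `Sx_..`, `Sq_..` of `StVX.lean`, `StQX.lean`: `Pool.Agent.MUXV.x_X`, `q_X`
(`RQ0.lean`, `RQAll.lean`), `St_..` of block B of MU3: `Pool.Agent.MU3B.b_X` (`Pool/Agent/MU3/BAll.lean`).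
-/

set_option autoImplicit false

open WeierstrassCurve Polynomial NumberField IsDedekindDomain

namespace Pool.Agent.TWT

open _root_.MU3 Pool.Agent.MU3A Pool.Agent.MU3B Pool.Agent.MU3C Pool.Agent.RI Pool.Agent.RID
open Pool.Agent.MUX Pool.Agent.MUXU Pool.Agent.MUXW
open Pool.Agent.MU3V (cls Sub GD algDF)
open Pool.Agent.MUXV (GR InK tX)
open Pool.Agent.MUXI (IA RE AR)
open OnePoint

noncomputable section

/-! ## Definitions -/

/-- a level prime to `p` -/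
structure LvM {A B : ℤ} {ι : Type} (p f m : ℕ) (R : Reps A B (p * f) ι) : Prop where
  m0 : m ≠ 0
  fm : f ∣ m
  pm : ¬ p ∣ m
  cop : ∀ i, (nI (R.b i)).Coprime (m * p)

/-- `σ ∈ Gal(F/k)`, `F = RF (idl M)`, maps the base point of level `M` to `± pt R M i x` -/
def HitF {A B : ℤ} {n : ℕ} {ι : Type} (R : Reps A B n ι) (M : ℕ)
    (F : IntermediateField (kk A B) ℂ) (σ : F ≃ₐ[kk A B] F) (i : ι) (x : OO A B) : Prop :=
  IsCoprime x ((M : ℕ) : OO A B) ∧ ∃ s : ℂ ≃+* ℂ, FixK A B s ∧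
    (∀ y : F, s (y : ℂ) = ((σ y : F) : ℂ)) ∧ Hits R M s i x

/-- `Gal(RF (idl M) / k)` -/
abbrev GalF (A B : ℤ) (M : ℕ) : Type :=
  (RF (idl (A := A) (B := B) M) : IntermediateField (kk A B) ℂ) ≃ₐ[kk A B]
    (RF (idl (A := A) (B := B) M) : IntermediateField (kk A B) ℂ)

/-- `∏_τ g(τ) ^ t(χ(τ)⁻¹)` -/
def EtT {G Fr Mt : Type} [Group G] [Fintype G] [Field Fr] [CommGroup Mt] (p : ℕ) (χ : G →* Frˣ)
    (t : Fr →+ ZMod p) (g : G → Mt) : Mt :=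
  ∏ τ : G, g τ ^ (t ((χ τ)⁻¹ : Frˣ)).val

/-! ## 1. Ideals and valuations -/

/-- (IDP) ideals. `O = OO A B`.

PROOF. As `Si_PQF` (`Pool/Agent/MUX/I_PQF.lean`, there `p = 2, 3`). `O/P` has `p` elements and `P` is prime, `p ∈ P`, so every `x` is congruent to an integer `c`, `0 ≤ c < p`, and `c ∈ P` iff `p ∣ c` (`1 ∉ P`): (1), (2). (3) `Sx_IDL` (`P * cjI P = sp (nI P)`). (4) `P ≠ cjI P`: otherwise `x² ∈ P² = (p)` for `x ∈ P`; take
`x = c - w ∈ P` with an integer `c`; `x² = c² - 2 c w + A + B w ∈ (p)` gives `p ∣ B - 2 c` and `p ∣ c² + A`, so `p ∣ B² + 4 A = - absD`, against `pD`. Both are maximal: coprime. (5) `u p + v m = 1`, `p ∈ P`, `p ∈ cjI P` (`cjI P ∋ star p`). (6) CRT (`IsCoprime (idl m * cjI P) P`: product of coprime ideals). (7) `P * cjI P` is not all of..: `cjI P ≤ P` would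
contradict (4). (8) `a = x0 + c m y0`, `1 ≤ c < p`: modulo `P`: `≡ c m y0 ∉ P` (`P` prime, `c, m ∉ P` by (2)); modulo `cjI P`: `≡ x0 ≡ 1`; modulo `m`: `≡ 1`. So `sp a` is coprime to `P`, `cjI P`, `idl m`, so to `idl (m p)`. (9) `X`, `x` prime to `m p`, `X - x ∈ idl m * cjI P`. Let `c` be the integer, `0 < c < p`, with `X ≡ c m y0` modulo `P`
(`O/P = F_p`, `m y0 ∉ P`, `X ∉ P`). `X - (x x0 + c m y0)` is in `P` (`x0 ∈ P`) and in `idl m * cjI P` (`X - x x0 = X - x - x (x0 - 1)`), so in the product `idl (m p)` (coprime ideals). Unique: `(c - c') m y0 ∈ P` gives `p ∣ c - c'`. Conversely `x x0 + c m y0 - x ∈ idl m * cjI P`. -/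
def S_IDP : Prop :=
  ∀ (p : ℕ) (A B : ℤ) (P : Ideal (OO A B)) (V : ValuationSubring ℂ) (f : ℕ), SetG p A B P V f →
    (∀ x : OO A B, ∃ c : ℕ, c < p ∧ x - c ∈ P) ∧
    (∀ c : ℤ, (c : OO A B) ∈ P ↔ (p : ℤ) ∣ c) ∧
    P * cjI P = idl p ∧ IsCoprime P (cjI P) ∧
    (∀ m : ℕ, ¬ p ∣ m → IsCoprime (idl (A := A) (B := B) m) P ∧
      IsCoprime (idl (A := A) (B := B) m) (cjI P) ∧
      (∃ x0 : OO A B, x0 ∈ P ∧ x0 - 1 ∈ idl m * cjI P)) ∧
    (∃ y0 : OO A B, y0 ∈ cjI P ∧ y0 ∉ P) ∧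
    (∀ (m : ℕ) (x0 y0 : OO A B), m ≠ 0 → ¬ p ∣ m → x0 ∈ P → x0 - 1 ∈ idl m * cjI P →
      y0 ∈ cjI P → y0 ∉ P →
      (∀ c : ℕ, 1 ≤ c → c < p → IsCoprime (x0 + c * m * y0) ((m * p : ℕ) : OO A B) ∧
        x0 + c * m * y0 - 1 ∈ idl m * cjI P) ∧
      ∀ x X : OO A B, IsCoprime x ((m * p : ℕ) : OO A B) → IsCoprime X ((m * p : ℕ) : OO A B) →
        (X - x ∈ idl m * cjI P ↔ ∃ c : ℕ, 1 ≤ c ∧ c < p ∧
          X - (x * x0 + c * m * y0) ∈ idl (A := A) (B := B) (m * p)))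

/-- (VPG) the valuation. PROOF. `V ∩ O = P` (`OverI`), `p ∈ P`. `O` is integral over `ℤ`, `V` is integrally closed: `v(emb x) ≤ 1`; `v(emb x) < 1` iff `x ∈ P`. An integer `n` prime to `p` is not in `P` (IDP), `emb n = n`. `2, 3`: `p ≥ 5`. See `Pool/Agent/MUX/E_PA.lean`, `Q_VQI.lean` (`Sq_VQI`). Good reduction (`GRn`) from `Sx_NGR`
(`Pool/Agent/MUX/R_NGR.lean` or the theorem in `VAll`): `kp = kap`, `12 g₂ = 1 + 1728 kap`, `IsNL.nrm`. Last: `z ∈ E[m]`, `p ∤ m`, in the kernel of reduction: `mem_of_nat_mul` of `VX.lean`. -/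
def S_VPG : Prop :=
  ∀ (p : ℕ) (A B : ℤ) (P : Ideal (OO A B)) (V : ValuationSubring ℂ) (f : ℕ), SetG p A B P V f →
    V.valuation (p : ℂ) < 1 ∧ V.valuation (p : ℂ) ≠ 0 ∧
    (∀ x : OO A B, V.valuation (emb x) ≤ 1 ∧ (V.valuation (emb x) < 1 ↔ x ∈ P)) ∧
    (∀ n : ℤ, ¬ (p : ℤ) ∣ n → V.valuation (n : ℂ) = 1) ∧
    V.valuation (2 : ℂ) = 1 ∧ V.valuation (3 : ℂ) = 1 ∧
    ∀ (ι : Type) (R : Reps A B (p * f) ι), GRd V R → ∀ i, GRn V (R.L i) ∧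
      ∀ (m : ℕ) (z : ℂ), ¬ p ∣ m → (m : ℂ) * z ∈ (R.L i).lattice → InEn V (R.L i) z →
        z ∈ (R.L i).lattice

/-- (RAMG) a finite Galois extension `F / k` with trivial inertia group at `V` is unramified.

USES VPG. PROOF. `Pool/Agent/MUX/E_RAM.lean` (`te_RAM`), with `SetG` in place of `CtxE` (`RingE A B` from `Sxe_RNG`: `Pool/Agent/MUX/E_RNG.lean`; `split`: `(p : O) ∉ P²`: otherwise, by norms, `P² = (p) = P * cjI P`, `P = cjI P`, see IDP; or `Sxe_CTX`'s proof). The lemmas `RamE.unramP`, `RamE.intVal_one` and `Pool.Agent.MU3E.RAM` are general. -/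
def S_RAMG : Prop :=
  ∀ (p : ℕ) (A B : ℤ) (P : Ideal (OO A B)) (V : ValuationSubring ℂ) (f : ℕ), SetG p A B P V f →
    ∀ (F : IntermediateField (kk A B) ℂ) [FiniteDimensional (kk A B) F] [IsGalois (kk A B) F],
      (∀ σ : F ≃ₐ[kk A B] F, (∀ x : F, V.valuation (x : ℂ) ≤ 1 →
        V.valuation ((σ x : ℂ) - x) < 1) → σ = 1) →
      ∀ y ∈ F, y ≠ 0 → ∃ k : ℤ, V.valuation y = V.valuation (p : ℂ) ^ k

/-- (UNRG) `RF (idl m) / k` is unramified at `V` for `p ∤ m`.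

USES VPG, RAMG. PROOF. (RAMG) for `F = RF (idl m)` (`TorX.fin`, `gal`). Let `σ` be trivial modulo `V`. `σ` extends to `s ∈ Aut(ℂ/k)` (`TorX.ext`), `s` acts as an ideal `a` (`TorX.act`). For every normalised lattice `L` (with class `i`: `L` has the same lattice and `kap` as `R.L i`, `R.surj`; two normalised homothetic lattices differ by
`± 1`, see `W_FRH.lean`, `Sy_MUU`) `kap (R.L i)` is in `RF ⊤ ≤ F`, in `V`, and `s(kap (R.L i)) = kap L'`, `L'` normalised, `kap L' = kap (R.L j)`, so `v(kap (R.L j) - kap (R.L i)) < 1`, so `j = i` (`GRd.inj`): `s` fixes all `kap`, so it is trivial on `RF ⊤`: `TrH σ`. (KER) `Sy_KER` (level `idl m = sp m`): `ActH σ m a`. `Sy_INV` (`E[m]` meets the kernel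
of reduction trivially: VPG, for `R.L R.i0`; `RF (sp m) ≤ F`): `m ∣ a - 1` or `m ∣ a + 1`; (ACM)(2), (5): `σ = 1` (`ActH 1 m 1`). -/
def S_UNRG : Prop :=
  ∀ (p : ℕ) (A B : ℤ) (P : Ideal (OO A B)) (V : ValuationSubring ℂ) (f : ℕ), SetG p A B P V f →
    TorX A B → ∀ (ι : Type) [Finite ι] (R : Reps A B (p * f) ι), GRd V R →
    ∀ m : ℕ, m ≠ 0 → ¬ p ∣ m → ∀ y ∈ (RF (idl m) : IntermediateField (kk A B) ℂ), y ≠ 0 →
      ∃ k : ℤ, V.valuation y = V.valuation (p : ℂ) ^ k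

/-- (MUG) the multipliers are units. USES VPG. PROOF. `MUN` (`Sx_MUN`, StVX; theorem in `Pool/Agent/MUX/R_MUN.lean`, see `VAll`) for `L = R.L R.i0`, `M = R.L i`, `mu = muX R i = om_i N(b_i)/om_0`, `n = nI (R.b i)`: `mu L ⊆ M` as `L = om_0 emb O` (`R.b0`) and `N(b_i) ∈ b_i`; if `mu z ∈ M`, `N(b_i) emb.. z/om_0 ∈ emb b_i`, then
`n z ∈ L` (`b_i ⊆ O`). `n` is odd and prime to `p`: `R.cop` (`nI (b i)` is prime to `p f`, `f` is even by `SetG.fD`). -/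
def S_MUG : Prop :=
  ∀ (p : ℕ) (A B : ℤ) (P : Ideal (OO A B)) (V : ValuationSubring ℂ) (f : ℕ), SetG p A B P V f →
    ∀ (ι : Type) (R : Reps A B (p * f) ι), GRd V R → ∀ i, V.valuation (muX R i) = 1

/-- (KUM) a `p`-th power which is `≡ 1` modulo `p` in an unramified field is `≡ 1` modulo `p²`.

PROOF. `v(y^p) = 1` (`v(y^p - 1) ≤ v(p) < 1`), so `v y = 1`. `(y - 1)^p = y^p - 1 + p s`, `s ∈ V` (binomial coefficients `p ∣ choose p k`, `0 < k < p`; `(-1)^p = -1` for `p` odd, for `p = 2` also `p ∣ 2`), so `v((y-1)^p) < 1`, `v(y - 1) < 1`. If `y = 1`: clear. Otherwise `v(y - 1) = v(p)^k` with `k ≥ 1`, so `v(y-1) ≤ v(p)`. `y = 1 + u`, `v u ≤ v p`: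
`y^p - 1 = p u + Σ_(2 ≤ k < p) choose p k u^k + u^p`, all terms have `v ≤ v(p)²` (`v(u^p) ≤ v(p)^p`, `p ≥ 2`). -/
def S_KUM : Prop :=
  ∀ (V : ValuationSubring ℂ) (p : ℕ), p.Prime → V.valuation (p : ℂ) < 1 → ∀ y : ℂ,
    (y - 1 ≠ 0 → ∃ k : ℤ, V.valuation (y - 1) = V.valuation (p : ℂ) ^ k) →
    V.valuation (y ^ p - 1) ≤ V.valuation (p : ℂ) →
    V.valuation (y ^ p - 1) ≤ V.valuation (p : ℂ) ^ 2

/-- (PRO) products. PROOF. Induction over the finite set (or `Finset.prod_induction`-style): if `v(u - 1 - e) ≤ v(p)²`, `v e ≤ v p` and the same for `u'`, `e'`, then `u u' - 1 - e - e' = (u - 1 - e) u' + (1 + e)(u' - 1 - e') + e e'`. For powers `u^n`, `n e`: the same. -/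
def S_PRO : Prop :=
  ∀ (V : ValuationSubring ℂ) (p : ℕ), p.Prime → V.valuation (p : ℂ) < 1 → ∀ (J : Type)
    (S : Finset J) (u e : J → ℂ) (n : J → ℕ), (∀ j ∈ S, V.valuation (e j) ≤ V.valuation (p : ℂ)) →
    (∀ j ∈ S, V.valuation (u j - 1 - e j) ≤ V.valuation (p : ℂ) ^ 2) →
    V.valuation (∏ j ∈ S, u j ^ n j - 1 - ∑ j ∈ S, (n j : ℂ) * e j) ≤ V.valuation (p : ℂ) ^ 2

/-- (RSF) functionals on the residue field. PROOF. The `𝔽_p`-subspace `U` of `Fr` spanned by the `c τ` is finite dimensional; choose a basis `e_j` of `U` and extend the coordinates to additive maps `t_j : Fr → ZMod p` (a subspace has a complement; `Module (ZMod p) Fr` by `CharP`: `ZMod.algebra`; additive maps are `ZMod p`-linear). `c τ = Σ_j t_j(c τ) e_j`, so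
`Σ_τ c τ b τ = Σ_j e_j Σ_τ t_j(c τ) b τ = 0`, where the image of `n : ZMod p` in `Fr` is `((n.val : ℕ) : Fr)`. (Or: choose a basis of `Fr` over `ZMod p`.) -/
def S_RSF : Prop :=
  ∀ (p : ℕ) [Fact p.Prime] (Fr : Type) [Field Fr] [CharP Fr p] (T : Type) [Fintype T]
    (c b : T → Fr), (∀ t : Fr →+ ZMod p, ∑ τ : T, (((t (c τ)).val : ℕ) : Fr) * b τ = 0) →
    ∑ τ : T, c τ * b τ = 0

/-! ## 2. Algebra of the products `EtT` -/

/-- (EAB) abstract part. `Mt` a commutative group (multiplicative), a power is a `p`-th power.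

PROOF. (1) `(t + t')(x).val ≡ t(x).val + t'(x).val` modulo `p`, so `EtT (t + t') g` and `EtT t g * EtT t' g` differ by a power (a product of powers); (2) `g` and `g'` multiply, inverses: `EtT t g⁻¹ = (EtT t g)⁻¹`. (3) reindex `τ ↦ τ φ⁻¹` (`G` need not be commutative: `χ (τ φ⁻¹) = χ τ (χ φ)⁻¹`): `∏_τ g(τ φ)^(t(χ(τ)⁻¹)) = ∏_τ' g(τ')^(t(χ(τ' φ⁻¹)⁻¹))`,
`χ(τ' φ⁻¹)⁻¹ = χ φ * (χ τ')⁻¹`. (4) `k(τ g₀) = k(τ)`, `χ g₀ ≠ 1`: let `t' x = t(x/(χ g₀ - 1))`; by (3) `EtT t' k = EtT (t' ∘ (χ g₀ *)) k`, and `t = t' ∘ (χ g₀ *) - t'`, so by (1) `EtT t k` is a power. (5) From the relation and (2): `EtT t (C)^(p-1) * EtT t C'' = EtT t K * EtT (t ∘ (χ φ *)) C''`; `EtT t C`, `EtT t K` are powers for all `t`; so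
`EtT (t ∘ (χ φ *) - t) C''` is a power for all `t` (by (1)), and `χ φ ≠ 1`: `EtT t C''` is a power for all `t`. So `EtT t ((C/C'')^(p-1))` is a power. -/
def S_EAB : Prop :=
  ∀ (p : ℕ) [Fact p.Prime] (G Fr Mt : Type) [Group G] [Fintype G] [Field Fr] [CharP Fr p]
    [CommGroup Mt] (χ : G →* Frˣ),
    (∀ (k : G → Mt) (g₀ : G), χ g₀ ≠ 1 → (∀ τ, k (τ * g₀) = k τ) → ∀ t : Fr →+ ZMod p,
      ∃ y : Mt, y ^ p = EtT p χ t k) ∧
    ∀ (C C'' K : G → Mt) (φ : G), χ φ ≠ 1 →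
      (∀ τ, C τ ^ (p - 1) * C'' τ = K τ * C'' (τ * φ)) →
      (∀ t : Fr →+ ZMod p, ∃ y : Mt, y ^ p = EtT p χ t C) →
      (∀ t : Fr →+ ZMod p, ∃ y : Mt, y ^ p = EtT p χ t K) →
      ∀ t : Fr →+ ZMod p, ∃ y : Mt, y ^ p = EtT p χ t (fun τ => (C τ / C'' τ) ^ (p - 1))

/-- (NMF) the relative norms `cWt` (`StWX.lean`: `cWt h θ τ = ∏ σ θ`, `σ ∈ Gal(F/k)` extending `τ ∈ Gal(D/k)`).

Uses Sy_MEM (theorem `Pool.Agent.MUXW.ty_MEM`, `W_MEM.lean`). PROOF. (1) products of finite products. (2) `σ ↦ σ ψ` is a bijection from the extensions of `τ` to those of `τ τψ` (`D ≤ F`, `(σ ψ)` restricted to `D` is `τ τψ`). (3) is (2) for `τψ = 1`. (4) `cWt h κ (τ g) = (τ g)(cW h κ) = τ(g(cW h κ))` (MEM), and `cW h κ` (in `D` by MEM) is a product of conjugates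
of `κ ∈ RF ⊤`, which is normal over `k` (`TorX.gal ⊤`; `σ ∈ Gal(F/k)` maps `RF ⊤ ≤ F` to itself), so in `RF ⊤`, so fixed by `g`. -/
def S_NMF : Prop :=
  ∀ (A B : ℤ), CQ A B → TorX A B → ∀ (M : ℕ), M ≠ 0 → ∀ (D : IntermediateField ℚ ℂ)
    (h : kk A B ≤ D), Sub D (RF (idl M) : IntermediateField (kk A B) ℂ) → letI := algC h
    ∀ (x y : (RF (idl M) : IntermediateField (kk A B) ℂ)), x ≠ 0 → y ≠ 0 →
    (∀ τ : D ≃ₐ[kk A B] D, cWt h (x * y) τ = cWt h x τ * cWt h y τ ∧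
      cWt h x⁻¹ τ = (cWt h x τ)⁻¹) ∧
    (∀ (τ τψ : D ≃ₐ[kk A B] D)
      (ψ : (RF (idl M) : IntermediateField (kk A B) ℂ) ≃ₐ[kk A B] RF (idl M)), Ext1 h τψ ψ →
      cWt h (ψ x) τ = cWt h x (τ * τψ)) ∧
    ((x : ℂ) ∈ (RF (⊤ : Ideal (OO A B)) : IntermediateField (kk A B) ℂ) →
      ∀ g : D ≃ₐ[kk A B] D, (∀ z : D,
        (z : ℂ) ∈ (RF (⊤ : Ideal (OO A B)) : IntermediateField (kk A B) ℂ) → g z = z) →
      ∀ τ : D ≃ₐ[kk A B] D, cWt h x (τ * g) = cWt h x τ)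

/-! ## 3. The points and the norm relation -/

/-- (HTF) automorphisms of `F = RF (idl M)` and points.

PROOF. From `Si_HIT`, `Si_IAF`, `Si_IAG`, `Si_RPR` (`IAll.lean`: for `s ∈ Aut(ℂ)` with `FixK`, `Hits R M s i x` iff `s` acts as the ideal `x cjI (b i)`, `IA`); an automorphism `σ` of `F/k` extends to `s` (`TorX.ext` for `D = F` as a field over `ℚ`), and `s` with `FixK` maps `F` to itself (`F/k` normal). `Hits R M s i x` depends only on the restriction to `F`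
(`kap`, `xn` of points of level `M` are in `F`). (1) RPR + IAF. (2) IAF 2. (3), (4) HIT: uniqueness of `(i, ± x)`, see `Sy_HIT` (`W_HIT.lean`). (5) IAG 3. (6) `s` extends `σ`; HIT: `IA s (idl M) (sp x * cjI (b i))`, so for `L₀ = R.L R.i0`: `ActI s (idl M) (sp x cjI b_i) L₀ L' mu`, and as in the proof of `Si_HIT` `L'.lattice = L_i.lattice`,
`mu = ± emb x mu_i`: `z = pt R M i0 x'` (`∉ L₀` as `M ∤ x'`) is mapped to `± emb x mu_i z = ± pt R M i (x x')`. Then `Sy_THG` (the values of `Θ_a` at points of level `M` and their conjugates; `IsHalf` for the integer `a`; `℘` is even). (7) `D ≤ RF (idl m) ≤ F`: `s` extends `τ`; `m`-level: `pt R m i x = (M/m) pt R M i x`, `s` acts as `x cjI b_i` on level `m` too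
(IAF 7), HIT for level `m`: `Hits R m s i x`; `XX` is about `Quotient.out (mk x)`, congruent to `x` modulo `m` (`Si_XXF`). (8) the same with `AR` (`StIX.lean`): `σ` extends `s` with `IA s (idl M) (sp x cjI b_i)`. -/
def S_HTF : Prop :=
  ∀ (A B : ℤ), CQ A B → TorX A B → ∀ (n : ℕ) (ι : Type) (R : Reps A B n ι) (M : ℕ), 3 ≤ M →
    (∀ i, (nI (R.b i)).Coprime M) →
    (∀ σ : (RF (idl M) : IntermediateField (kk A B) ℂ) ≃ₐ[kk A B] RF (idl M),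
      ∃ (i : ι) (x : OO A B), HitF R M _ σ i x) ∧
    (∀ (i : ι) (x : OO A B), IsCoprime x ((M : ℕ) : OO A B) →
      ∃ σ : (RF (idl M) : IntermediateField (kk A B) ℂ) ≃ₐ[kk A B] RF (idl M),
        HitF R M _ σ i x) ∧
    (∀ (σ : (RF (idl M) : IntermediateField (kk A B) ℂ) ≃ₐ[kk A B] RF (idl M)) (i j : ι)
      (x y : OO A B), HitF R M _ σ i x → IsCoprime y ((M : ℕ) : OO A B) →
      (HitF R M _ σ j y ↔ j = i ∧ (x - y ∈ idl (A := A) (B := B) M ∨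
        x + y ∈ idl (A := A) (B := B) M))) ∧
    (∀ (σ σ' : (RF (idl M) : IntermediateField (kk A B) ℂ) ≃ₐ[kk A B] RF (idl M)) (i : ι)
      (x : OO A B), HitF R M _ σ i x → HitF R M _ σ' i x → σ = σ') ∧
    (∀ (σ : (RF (idl M) : IntermediateField (kk A B) ℂ) ≃ₐ[kk A B] RF (idl M)) (i : ι)
      (x : OO A B), HitF R M _ σ i x → ∀ x' : OO A B, x' ∉ idl (A := A) (B := B) M →
      ∀ (a : ℕ) (H H' : Finset ℂ), a ≠ 0 → IsHalf (R.L R.i0) a H → IsHalf (R.L i) a H' →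
      ∃ hz : ThetaH (R.L R.i0) H (pt R M R.i0 x') ∈ (RF (idl M) : IntermediateField (kk A B) ℂ),
        ((σ ⟨_, hz⟩ : (RF (idl M) : IntermediateField (kk A B) ℂ)) : ℂ) =
          ThetaH (R.L i) H' (pt R M i (x * x'))) ∧
    ∀ m : ℕ, m ∣ M → 3 ≤ m → ∀ (D : IntermediateField ℚ ℂ) (h : kk A B ≤ D),
      Sub D (RF (idl m) : IntermediateField (kk A B) ℂ) → letI := algC h
      ∀ (τ : D ≃ₐ[kk A B] D)
      (σ : (RF (idl M) : IntermediateField (kk A B) ℂ) ≃ₐ[kk A B] RF (idl M)) (i : ι)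
      (x : OO A B), Ext1 h τ σ → HitF R M _ σ i x →
      (i, Ideal.Quotient.mk (idl (A := A) (B := B) m) x) ∈ XX R m h τ

/-- (DTP) distribution relation of `Θ_a` over the kernel of an isogeny of odd degree prime to `a`.

PROOF. `Su_PFI` (theorem `Pool.Agent.MUXU.u_PFI`) with `w := z`, `z := q` (`q ∈ H`; `mu q ∉ M`: otherwise `q` is killed by `a` and by `n`, prime to each other, so `q ∈ L`): `mu² (℘_M(mu q) - ℘_M(mu z)) ∏_(r ∈ Rp) (℘(q) - ℘(r)) = (℘(q) - ℘(z)) ∏_(r ∈ Rp) (℘(q) - ℘(z + r))`. `Rp.card` is even: the product over `{0} ∪ Rp` of `℘(z + r) - ℘(q)` is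
`mu² ∏_r (℘(q) - ℘(r)) (℘_M(mu z) - ℘_M(mu q))`. Product over `q ∈ H`: the right side is `C ∏_(q ∈ H) (℘_M(mu z) - ℘_M(mu q))`, `C = ∏_q mu² ∏_r (℘(q) - ℘(r)) ≠ 0` (`b_NEQ`: `q ± r ∉ L`). `{mu q : q ∈ H}` is a half system for `a` on `M`: `a mu q ∈ M`; `2 mu q ∈ M` would give `2 n q ∈ L`, with `a q ∈ L`, `a` prime to `2 n`: `q ∈ L`; `inj`,
`neg` in the same way; `surj`: `a u ∈ M`, `u ∉ M`: `z = u/mu`: `n a z ∈ L`; let `s n ≡ 1` modulo `a`: `q' = s n z`, `a q' ∈ L`, and `mu q' - u = (s n - 1) u ∈ M`; `q' ∉ L`, so `q' ≡ ± q`. `Θ_a` does not depend on the half system (`b_TIN`, `St_TIN` of `StB2.lean`). `a`, `n` odd is not needed except as stated. -/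
def S_DTP : Prop :=
  ∀ (L M : PeriodPair) (mu : ℂ), mu ≠ 0 → Isg L M mu → ∀ Rp : Finset ℂ, IsRpM L M mu Rp →
    Even Rp.card → ∀ n : ℕ, n ≠ 0 → (∀ z, mu * z ∈ M.lattice → (n : ℂ) * z ∈ L.lattice) →
    ∀ (a : ℕ) (H H' : Finset ℂ), a ≠ 0 → a.Coprime (2 * n) → IsHalf L a H → IsHalf M a H' →
    ∃ C : ℂ, C ≠ 0 ∧ ∀ z, mu * z ∉ M.lattice →
      ThetaH L H z * ∏ r ∈ Rp, ThetaH L H (z + r) = C * ThetaH M H' (mu * z)

/-- (KRP) the kernel `E[P]`.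

USES IDP. PROOF. `L = R.L i = om_i emb (b_i)`, `mu z ∈ L'` iff `x z ∈ L` for all `x ∈ P`. `r_c = c pt R p i y = om_i N(b_i) emb (c y)/p`. `x ∈ P`: `x y ∈ P cjI P = (p)`, so `x r_c ∈ om_i N(b_i) emb O ⊆ L` (`N(b_i) ∈ b_i`). Different, not in `L`, and all classes: it is easier to count: the group `{z : mu z ∈ L'}/L` is `P⁻¹ b_i/b_i` (times `om_i`), of order `nI P = p`
(`Sx_IDL`, `Sx_NIM`; or: `z = om_i u`, `P u ⊆ b_i`; `p u ∈ cjI P b_i` (multiply by `cjI P`); and `cjI P b_i/(p b_i) ≅ O/P` has `p` elements). `r_1 ∉ L`: `N(b_i) y/p ∈ b_i` would give (multiply by `cjI b_i`, `b_i cjI b_i = (N)`) `y cjI(b_i) ⊆ (p)`, `nI (b_i)` is prime to `p`, so `y ∈ (p) ⊆ P`, a contradiction. So `r_1` generates the group of prime order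
`p`. -/
def S_KRP : Prop :=
  ∀ (p : ℕ) (A B : ℤ) (P : Ideal (OO A B)) (V : ValuationSubring ℂ) (f : ℕ), SetG p A B P V f →
    ∀ (ι : Type) (R : Reps A B (p * f) ι) (i : ι) (L' : PeriodPair) (mu : ℂ),
    IsQ P (R.L i) L' mu → ∀ y : OO A B, y ∈ cjI P → y ∉ P →
    Isg (R.L i) L' mu ∧ (∀ z, mu * z ∈ L'.lattice → (p : ℂ) * z ∈ (R.L i).lattice) ∧
    (∀ c c' : ℤ, (c : ℂ) * pt R p i y - c' * pt R p i y ∈ (R.L i).lattice ↔ (p : ℤ) ∣ c - c') ∧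
    IsRpM (R.L i) L' mu ((Finset.Icc 1 (p - 1)).image fun c : ℕ => (c : ℂ) * pt R p i y) ∧
    ((Finset.Icc 1 (p - 1)).image fun c : ℕ => (c : ℂ) * pt R p i y).card = p - 1

/-- (NRR) the norm relation over `P`.

USES IDP, HTF, DTP, KRP. PROOF. `L = R.L R.i0`, `M = m p`, `F = RF (idl M)`. `γ c` from HTF (2) (`a_c` is prime to `M`: IDP). `I = idl m * cjI P`: `TorX.surj I P` (`P` is coprime to `I`: IDP; `≠ ⊥`) gives `s₀ ∈ Aut(ℂ/k)` with `IA s₀ I P`; it maps `F` to itself, `φ` = its restriction; `IA s₀ (idl m) P` (`Si_IAF` 7, `I ≤ idl m`). `ActI s₀ I P L L' mu` with `L'`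
normalised. `θ'' = Θ(pt R M i0 x0)` (HTF (5) for `σ = 1`, `x0 ∉ idl M` as `x0 - 1 ∈ idl m`, `m ≥ 3`: `1 ∉ idl m`..., or from `Sy_THG`). `Θ ≠ 0` at all points involved: `Θ(z) = 0` only if `a z ∈ L` (`b_NEQ`, `IsHalf`), but `m p` and `a` are coprime. `κ := (∏_c γ_c θ) θ''/φ(θ'')`.
Let `σ ∈ Gal(F/k)` be trivial on `RF ⊤`: it hits `(i0, b)` (`s` fixes `kap L`, so the class is `i0`: `R.inj`/`UNJ`; or `Sy_KER`), `b` prime to `M`. HTF (5): `σ(γ_c θ) = Θ(pt R M i0 (b a_c))` (`γ_c θ = Θ(pt i0 a_c)`), `b a_c = b x0 + c m b y0`: `= Θ(z_b + c r_b)`, `z_b = pt R M i0 (b x0)`, `r_b = pt R p i0 (b y0)`; `σ θ'' = Θ(z_b)`. (KRP) for `y = b y0`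
(`∈ cjI P`, `∉ P`), (DTP) for `L`, `L'`, `mu`, `n = p` (`H'` a half system for `a` on `L'`: `b_HAL`, `a` odd): `σ((∏ γ_c θ) θ'') = C Θ(mu z_b; L')`, `C` independent of `σ` (the constant of DTP depends on the set `Rp`, but the product over the classes of `E[P] - 0` does not: `{c r_b}` is the same set of classes for all `b`; `Θ` is periodic; or use
`z ↦` one value to compare). `φ(σ θ'') = φ(Θ(z_b)) = Θ(mu z_b; L')` (`z_b ∈ E[I]`: `I b x0 ⊆ m cjI P P = (M)`; `Sy_THC`/`Sy_THG` with `PM`). The group is commutative (`TorX.comm`): `σ(φ θ'') = φ(σ θ'')`. So `σ κ = C` for all these `σ` (in particular `σ = 1`), so `κ ∈ RF ⊤` (Galois theory: `RF ⊤ ≤ F`, `F/k` Galois; see the end of the proof of `Sy_DIS`,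
`W_DIS.lean`). -/
def S_NRR : Prop :=
  ∀ (p : ℕ) (A B : ℤ) (P : Ideal (OO A B)) (V : ValuationSubring ℂ) (f : ℕ), SetG p A B P V f →
    TorX A B → ∀ (ι : Type) [Finite ι] (R : Reps A B (p * f) ι) (m : ℕ), LvM p f m R →
    ∀ (x0 y0 : OO A B), x0 ∈ P → x0 - 1 ∈ idl m * cjI P → y0 ∈ cjI P → y0 ∉ P →
    ∀ (a : ℕ) (H : Finset ℂ), 1 < a → a.Coprime (2 * m * p) → IsHalf (R.L R.i0) a H →
    ∀ θ : (RF (idl (m * p)) : IntermediateField (kk A B) ℂ),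
    (θ : ℂ) = ThetaH (R.L R.i0) H (pt R (m * p) R.i0 1) →
    ∃ (θ'' κ : (RF (idl (m * p)) : IntermediateField (kk A B) ℂ))
      (γ : ℕ → ((RF (idl (m * p)) : IntermediateField (kk A B) ℂ) ≃ₐ[kk A B] RF (idl (m * p))))
      (φ : (RF (idl (m * p)) : IntermediateField (kk A B) ℂ) ≃ₐ[kk A B] RF (idl (m * p)))
      (s₀ : ℂ ≃+* ℂ),
      (θ'' : ℂ) = ThetaH (R.L R.i0) H (pt R (m * p) R.i0 x0) ∧ θ ≠ 0 ∧ θ'' ≠ 0 ∧ κ ≠ 0 ∧
      (κ : ℂ) ∈ (RF (⊤ : Ideal (OO A B)) : IntermediateField (kk A B) ℂ) ∧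
      (∀ c : ℕ, 1 ≤ c → c < p → HitF R (m * p) _ (γ c) R.i0 (x0 + c * m * y0)) ∧
      (∀ c : ℕ, 1 ≤ c → c < p → ∀ y : (RF (idl (m * p)) : IntermediateField (kk A B) ℂ),
        (y : ℂ) ∈ (RF (idl m) : IntermediateField (kk A B) ℂ) → γ c y = y) ∧
      (∏ c ∈ Finset.Icc 1 (p - 1), γ c θ) * θ'' = κ * φ θ'' ∧
      IA s₀ (idl (A := A) (B := B) m) P ∧
      ∀ y : (RF (idl (m * p)) : IntermediateField (kk A B) ℂ), s₀ (y : ℂ) = ((φ y :
        (RF (idl (m * p)) : IntermediateField (kk A B) ℂ)) : ℂ)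

/-! ## 4. The sums -/

/-- (XPC) the conjugates of `u = ∏ γ_c θ / θ''^(p-1)` to the first order.

USES S_KEYA (block A), IDP, VPG, HTF, KRP. PROOF. `t0` from `S_KEYA` for `y0`. HTF (5): `σ(γ_c θ) = Θ(L_i; pt R M i (x a_c))` (`γ_c θ = Θ(pt R M i0 a_c)` by HTF (5) for `γ_c` and `x' = 1`), `x a_c = x x0 + c m (x y0)`, `pt R M i (x a_c) = z + c pt R p i (x y0)`, `z = pt R M i (x x0)`; `σ θ'' = Θ(L_i; z)`. Let `n` be an integer, `x ≡ n` modulo `P` (`p ∤ n`):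
`(x - n) y0 ∈ P cjI P = (p)`, so `pt R p i (x y0) ≡ n pt R p i y0` modulo `L_i`, and `c ↦ n c` modulo `p` permutes `1..p-1` (`p pt R p i y0 ∈ L_i`, `Θ` periodic): `∏_c σ(γ_c θ) = ∏_c Θ(L_i; z + c pt R p i y0)`. `z`, `2 z`, `a z` are not in the kernel of reduction: if `n z` is (`n = 1, 2, a`) then so is `p n z = pt R m i (n x x0)`, killed by `m`, so (VPG)
`pt R m i (n x x0) ∈ L_i`, `m ∣ n x x0` (`nI (b_i)` prime to `m`), `x x0` is prime to `m` (`x0 ≡ 1`), so `m ∣ n` in `O`, so in `ℤ`; but `m ≥ 3` and `a > 1` is prime to `m` (`f ∣ m`, `2 absD ∣ f`, `absD ≥ 3`). `S_KEYA` (with `H' = H i` a half system on `L_i`): divide by `Θ(z)^(p-1)`, a unit (first clause, `c = 0`). `z + c pt R p i y0 = pt R M i (x x0 + c m y0)`. -/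
def S_XPC : Prop :=
  ∀ (p : ℕ) (A B : ℤ) (P : Ideal (OO A B)) (V : ValuationSubring ℂ) (f : ℕ), SetG p A B P V f →
    TorX A B → ∀ (ι : Type) [Finite ι] (R : Reps A B (p * f) ι), GRd V R → ∀ (m : ℕ),
    LvM p f m R →
    ∀ (x0 y0 : OO A B), x0 ∈ P → x0 - 1 ∈ idl m * cjI P → y0 ∈ cjI P → y0 ∉ P →
    ∃ t0 : ℂ, t0 ≠ 0 ∧ V.valuation t0 ^ (p - 1) = V.valuation (p : ℂ) ∧
    ∀ (a : ℕ) (H : Finset ℂ), 1 < a → a.Coprime (2 * m * p) → IsHalf (R.L R.i0) a H →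
    ∀ θ θ'' : (RF (idl (m * p)) : IntermediateField (kk A B) ℂ),
    (θ : ℂ) = ThetaH (R.L R.i0) H (pt R (m * p) R.i0 1) →
    (θ'' : ℂ) = ThetaH (R.L R.i0) H (pt R (m * p) R.i0 x0) →
    ∀ γ : ℕ → ((RF (idl (m * p)) : IntermediateField (kk A B) ℂ) ≃ₐ[kk A B] RF (idl (m * p))),
    (∀ c : ℕ, 1 ≤ c → c < p → HitF R (m * p) _ (γ c) R.i0 (x0 + c * m * y0)) →
    ∀ (σ : (RF (idl (m * p)) : IntermediateField (kk A B) ℂ) ≃ₐ[kk A B] RF (idl (m * p)))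
      (i : ι) (x : OO A B), HitF R (m * p) _ σ i x →
      V.valuation (((σ ((∏ c ∈ Finset.Icc 1 (p - 1), γ c θ) / θ'' ^ (p - 1)) :
          (RF (idl (m * p)) : IntermediateField (kk A B) ℂ)) : ℂ) - 1 +
        muX R i * t0 * ∑ c ∈ Finset.Icc 1 (p - 1),
          (c : ℂ) * dlX (R.L i) a (pt R (m * p) i (x * x0 + c * m * y0))) ≤
        V.valuation (p : ℂ) * V.valuation t0 ∧
      V.valuation t0 * V.valuation (∑ c ∈ Finset.Icc 1 (p - 1),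
          (c : ℂ) * dlX (R.L i) a (pt R (m * p) i (x * x0 + c * m * y0))) ≤
        V.valuation (p : ℂ) ∧
      ∀ c : ℕ, dlX (R.L i) a (pt R (m * p) i (x * x0 + c * m * y0)) ∈ V

/-- (CNT) counting: the `X = x x0 + c m y0`.

USES IDP, HTF. PROOF. `M = m p`. `E i x := Σ_(c = 1)^(p-1) G i (x x0 + c m y0)`, periodic modulo `M` in `x`, and even: `- x x0 + c m y0 ≡ -(x x0 + (p - c) m y0)` modulo `M`. By HTF (1)-(4) every `(i, x)` with `x` modulo `M` prime to `M` is `(I σ, ± X σ)` for exactly one `σ` and one sign (`2 x ∉ idl M` as `M ≥ 3`), so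
`2 Σ_σ E (I σ) (X σ) = Σ_i Σ_(x mod M, prime to M) E i x`. For fixed `i`: `Σ_x Σ_c G i (x x0 + c m y0)`: by IDP (last clause) for `x`, `X` prime to `M`: `X ≡ x x0 + c m y0` modulo `M` for some (exactly one) `c` iff `X ≡ x` modulo `m cjI P`; so every `X` prime to `M` occurs as often as there are `x` modulo `M`, prime to `M`, with `x ≡ X` modulo `m cjI P`:
`p - 1` times (the classes `x` modulo `M` with `x ≡ X` modulo `m cjI P` correspond to the classes modulo `P` (CRT), those prime to `M` to the classes `≠ 0`: `x` is prime to `m cjI P` as `X` is). (And all `x x0 + c m y0` are prime to `M`.) -/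
def S_CNT : Prop :=
  ∀ (p : ℕ) (A B : ℤ) (P : Ideal (OO A B)) (V : ValuationSubring ℂ) (f : ℕ), SetG p A B P V f →
    TorX A B → ∀ (ι : Type) [Fintype ι] (R : Reps A B (p * f) ι) (m : ℕ), LvM p f m R →
    ∀ (x0 y0 : OO A B), x0 ∈ P → x0 - 1 ∈ idl m * cjI P → y0 ∈ cjI P → y0 ∉ P →
    ∀ (G : ι → OO A B → ℂ),
    (∀ i x y, x - y ∈ idl (A := A) (B := B) (m * p) → G i x = G i y) →
    (∀ i x, G i (-x) = G i x) →
    (∀ i x, ¬ IsCoprime x ((m * p : ℕ) : OO A B) → G i x = 0) →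
    ∀ [Fintype (GalF A B (m * p))] (I : GalF A B (m * p) → ι) (X : GalF A B (m * p) → OO A B),
    (∀ σ, HitF R (m * p) _ σ (I σ) (X σ)) →
    2 * ∑ σ : GalF A B (m * p), ∑ c ∈ Finset.Icc 1 (p - 1), G (I σ) (X σ * x0 + c * m * y0) =
      ((p : ℂ) - 1) * ∑ i, sumMod ((m * p : ℕ) : OO A B) (G i)

/-- (SIG) the sum over `Gal(F/k)` in terms of `SDT`.

USES IDP, VPG, MUG, CNT. PROOF. `M = f l^N p`, `m = f l^N` (`LvM`: `R.cop`, `l ∣ f`). `G i x = th i x oneT w x w x mu_i dlX (L_i) a (pt R M i x)`, `th = thT R kp eta ψ`: periodic modulo `M` (`Si_PTP`; `eta` modulo `f`, `ψ(nm x ..)` modulo `l^N`, `w` modulo `P`, `w ∘ star` modulo `cjI P`), even (`th` even: `eta (-1) = 1`, `nm (-x) = nm x`; `oneT` even; `w` odd: `w(-1) = -1`,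
since `w(-1)² = 1`, `v(w(-1) + 1) < 1`; `dlX` odd: `ee` is odd), `0` if `x` is not prime to `M` (`eta x = 0` if not prime to `f` (and `l ∣ f`), `w x = 0` if `x ∈ P`, `oneT w x = 0` if `x ∈ cjI P`). `X_c = X σ x0 + c m y0`: `th (I σ) X_c = th (I σ) (X σ)` (`X_c ≡ X σ` modulo `m`), `oneT w X_c = 1` (`X_c` is prime to `p`), `w X_c = w(c) w(m y0)` (`x0 ∈ P`).
So `G (I σ) X_c = th (I σ)(X σ) mu w(m y0) w(c) dlX(..)`, and `v(w(c) - c) ≤ v(p)` (`TeiP.int`), `v(w(m y0)) = v(th ..) = v(mu) = 1` (roots of unity; MUG), `v(dlX) ≤ 1` by hypothesis. CNT: `2 Σ_σ Σ_c G = (p - 1) SDT`. So `w(m y0) Σ_σ th mu Σ_c c dlX = ((p-1)/2) SDT` up to an element of valuation `≤ v(p)`; `v((p - 1)/2) = 1`. Statement: with `u1 = 2 w(m y0)/(p - 1)`, a unit. -/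
def S_SIG : Prop :=
  ∀ (p : ℕ) (A B : ℤ) (P : Ideal (OO A B)) (V : ValuationSubring ℂ) (f : ℕ), SetG p A B P V f →
    TorX A B → ∀ (ι : Type) [Fintype ι] (R : Reps A B (p * f) ι), GRd V R →
    ∀ (w : OO A B → ℂ), TeiP p P V w → ∀ (kp : ι → ℂ) (eta : OO A B → ℂ), ChD p f R kp eta →
    ∀ (l N : ℕ), l.Prime → l ∣ f → ∀ ψ : DirichletCharacter ℂ (l ^ N), ψ (-1) = 1 →
    ∀ (x0 y0 : OO A B), x0 ∈ P → x0 - 1 ∈ idl (f * l ^ N) * cjI P → y0 ∈ cjI P → y0 ∉ P →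
    ∃ u1 : ℂ, V.valuation u1 = 1 ∧
    ∀ (a : ℕ), 1 < a → a.Coprime (6 * f * p) →
    ∀ [Fintype (GalF A B (f * l ^ N * p))] (I : GalF A B (f * l ^ N * p) → ι)
      (X : GalF A B (f * l ^ N * p) → OO A B),
    (∀ σ, HitF R (f * l ^ N * p) _ σ (I σ) (X σ)) →
    (∀ σ, ∀ c : ℕ, dlX (R.L (I σ)) a
      (pt R (f * l ^ N * p) (I σ) (X σ * x0 + c * (f * l ^ N : ℕ) * y0)) ∈ V) →
    V.valuation (u1 * ∑ σ : GalF A B (f * l ^ N * p), thT R kp eta ψ (I σ) (X σ) * (muX R (I σ) *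
      ∑ c ∈ Finset.Icc 1 (p - 1), (c : ℂ) * dlX (R.L (I σ)) a
        (pt R (f * l ^ N * p) (I σ) (X σ * x0 + c * (f * l ^ N : ℕ) * y0))) -
      SDT R (f * l ^ N * p) a (thT R kp eta ψ) w) ≤ V.valuation (p : ℂ)

/-- (SDE) from `dlX` to `ee`.

USES IDP, VPG. PROOF. `M = f l^N p`. `dlX L a z = a ee(a z) - a² ee(z)`, `a pt R M i x = pt R M i (a x)` (`Si_PTP`). `a` is prime to `M`: `x ↦ a x` permutes `O/M`, and `F i x := th i x oneT w x w x` is multiplicative: `F i (a x) = th₀(a) w(a) F i x`, `th₀(a) = thT R kp eta ψ R.i0 a = kp_i0 eta(a) ψ(a² nI ⊤) = eta(a) ψ(a²)` (`kp0`, `nm a = a²`, `nI (b i0) = 1`; `oneT w (a x) = oneT w x`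
as `a ∉ P`). So `Σ_x F i x ee(pt(a x)) = (th₀(a) w(a))⁻¹ Σ_x F i x ee(pt x)`, `SDT = (a (th₀(a) w(a))⁻¹ - a²) SST`. `v(th₀(a)) = 1` (root of unity), `v(a/w(a) - 1) < 1`; `a (th₀ w)⁻¹ - a² = th₀⁻¹ (a/w(a) - a² th₀)`, and `v(1 - a² th₀) = 1`, so the factor is a unit. -/
def S_SDE : Prop :=
  ∀ (p : ℕ) (A B : ℤ) (P : Ideal (OO A B)) (V : ValuationSubring ℂ) (f : ℕ), SetG p A B P V f →
    ∀ (ι : Type) [Fintype ι] (R : Reps A B (p * f) ι) (w : OO A B → ℂ), TeiP p P V w →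
    ∀ (kp : ι → ℂ) (eta : OO A B → ℂ), ChD p f R kp eta →
    ∀ (l N : ℕ), l.Prime → l ∣ f → ∀ ψ : DirichletCharacter ℂ (l ^ N),
    ∀ (a : ℕ), 1 < a → a.Coprime (6 * f * p) →
    V.valuation (1 - (a : ℂ) ^ 2 * thT R kp eta ψ R.i0 a) = 1 →
    V.valuation (SDT R (f * l ^ N * p) a (thT R kp eta ψ) w) =
      V.valuation (SST R (f * l ^ N * p) (thT R kp eta ψ) w)

/-- (PHI) `χ(φ) ≠ 1`.

PROOF. `m = f l^N`. `D/k` is Galois, abelian (`D ≤ RF (idl m)`). `s₀` restricts to `τφ`, so `AR h (idl m) τφ P` (`StIX.lean`), and `AR h (idl m) (τφ^r) (P^r)` (`Si_ARF` 5, 1; `Pool.Agent.MUXI.i_ARF`), `P^r = sp y = sp y * cjI (b i0)` (`b0`, `cjI ⊤ = ⊤`); `y` is prime to `m` (`P` is coprime to `idl m`: IDP), so `(i0, mk y) ∈ XX R m h (τφ^r)` (`Si_XXF`), so by the hypothesis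
`(χ(τφ^r))⁻¹ = rsd V (thT R kp eta ψ i0 (out (mk y))) = rsd V (thT .. i0 y)` (`th` is periodic modulo `m`), which is not `1` since `v(1 - th y) = 1`. If `χ τφ = 1` this is a contradiction. -/
def S_PHI : Prop :=
  ∀ (p : ℕ) [Fact p.Prime] (A B : ℤ) (P : Ideal (OO A B)) (V : ValuationSubring ℂ) (f : ℕ),
    SetG p A B P V f → TorX A B → ∀ (ι : Type) [Finite ι] (R : Reps A B (p * f) ι)
    (kp : ι → ℂ) (eta : OO A B → ℂ), ChD p f R kp eta →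
    ∀ (l N : ℕ), l.Prime → l ∣ f → ∀ ψ : DirichletCharacter ℂ (l ^ N), ψ (-1) = 1 →
    ∀ (r : ℕ) (y : OO A B), P ^ r = sp y → V.valuation (1 - thT R kp eta ψ R.i0 y) = 1 →
    ∀ (D : IntermediateField ℚ ℂ) (h : kk A B ≤ D),
    Sub D (RF (idl (f * l ^ N)) : IntermediateField (kk A B) ℂ) → letI := algC h
    ∀ (χ : (D ≃ₐ[kk A B] D) →* (IsLocalRing.ResidueField V)ˣ),
    (∀ (τ : D ≃ₐ[kk A B] D), ∀ q ∈ XX R (f * l ^ N) h τ,
      rsd V (thT R kp eta ψ q.1 (Quotient.out q.2)) = (((χ τ)⁻¹ : (IsLocalRing.ResidueField V)ˣ) :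
        IsLocalRing.ResidueField V)) →
    ∀ (s₀ : ℂ ≃+* ℂ) (τφ : D ≃ₐ[kk A B] D), IA s₀ (idl (A := A) (B := B) (f * l ^ N)) P →
      ExtC h τφ s₀ → χ τφ ≠ 1

end

end Pool.Agent.TWT
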