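import Pool.Agent.TWT.DefsU
import Pool.Agent.TWT.StT2
import Pool.Agent.MUX.HY_CLN
import Pool.Agent.MUX.XLib
import Pool.Agent.TWX.FAC
import Pool.Agent.TWB.TEI

/-!
# TWT: the unit theorem for all large `n` (helper59)
-/

set_option autoImplicit false

open WeierstrassCurve Polynomial NumberField IsDedekindDomain

namespace Pool.Agent.TWT

open _root_.MU3 Pool.Agent.MU3A Pool.Agent.MU3B Pool.Agent.MU3C Pool.Agent.RI Pool.Agent.RID
open Pool.Agent.MUX Pool.Agent.MUXU Pool.Agent.MUXW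
open Pool.Agent.MU3V (cls Sub GD algDF)
open Pool.Agent.MUXV (GR InK tX)
open OnePoint

noncomputable section

namespace UNITA

/-- `K B_(n+1) ∩ RF ⊤ ≤ K B_n` for large `n` -/
theorem stab {A B : ℤ} (hT : TorX A B) (K : IntermediateField ℚ ℂ) (hk : kk A B ≤ K)
    (Bn : ℕ → IntermediateField ℚ ℂ) (hB : Monotone Bn) :
    ∃ n0 : ℕ, ∀ n, n0 ≤ n → ∀ x : ℂ, x ∈ K ⊔ Bn (n + 1) →
      x ∈ (RF (⊤ : Ideal (OO A B)) : IntermediateField (kk A B) ℂ) → x ∈ K ⊔ Bn n := by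
  haveI : FiniteDimensional (kk A B) (RF (⊤ : Ideal (OO A B)) : IntermediateField (kk A B) ℂ) :=
    hT.fin ⊤ (by
      intro h
      have h1 : (1 : OO A B) ∈ (⊥ : Ideal (OO A B)) := h ▸ Submodule.mem_top
      exact one_ne_zero ((Submodule.mem_bot _).1 h1))
  let g : ℕ →o Submodule (kk A B) (RF (⊤ : Ideal (OO A B)) : IntermediateField (kk A B) ℂ) :=
    { toFun := fun n =>
        { carrier := {x | (x : ℂ) ∈ K ⊔ Bn n}
          add_mem' := fun {x y} hx hy => by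
            simp only [Set.mem_ofPred_eq] at hx hy ⊢
            push_cast
            exact add_mem hx hy
          zero_mem' := by
            simp only [Set.mem_ofPred_eq]
            exact zero_mem _
          smul_mem' := fun c x hx => by
            simp only [Set.mem_ofPred_eq] at hx ⊢
            have h1 : ((c • x : (RF (⊤ : Ideal (OO A B)) : IntermediateField (kk A B) ℂ)) : ℂ) =
                (c : ℂ) * (x : ℂ) := by
              rw [IntermediateField.coe_smul]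
              rfl
            rw [h1]
            exact mul_mem ((le_sup_left : K ≤ K ⊔ Bn n) (hk c.2)) hx }
      monotone' := fun m n hmn x hx => by
        exact (sup_le_sup_left (hB hmn) K) hx }
  obtain ⟨n0, hn0⟩ := monotone_stabilizes_iff_noetherian.2 inferInstance g
  refine ⟨n0, fun n hn x hx hx' => ?_⟩
  have h1 : (⟨x, hx'⟩ : (RF (⊤ : Ideal (OO A B)) : IntermediateField (kk A B) ℂ)) ∈ g (n + 1) := hx
  rw [← hn0 (n + 1) (hn.trans (Nat.le_succ n)), hn0 n hn] at h1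
  exact h1

theorem nI_top {A B : ℤ} : nI (⊤ : Ideal (OO A B)) = 1 := by
  have hs : Subsingleton (OO A B ⧸ (⊤ : Ideal (OO A B))) := Ideal.Quotient.subsingleton_iff.2 rfl
  show Nat.card (OO A B ⧸ (⊤ : Ideal (OO A B))) = 1
  exact Nat.card_eq_one_iff_unique.2 ⟨hs, ⟨0⟩⟩

/-- the value of `thT` at `(i0, x)` -/
theorem th0 {A B : ℤ} {n : ℕ} {ι : Type} (R : Reps A B n ι) {p f : ℕ} {kp : ι → ℂ}
    {eta : OO A B → ℂ} (hC : ChD p f R kp eta) {q : ℕ} (ψ : DirichletCharacter ℂ q)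
    (x : OO A B) (m : ℤ) (hm : nm x = m) :
    thT R kp eta ψ R.i0 x = eta x * ψ (m : ZMod q) := by
  unfold thT
  rw [hC.kp0, R.b0, nI_top, hm]
  push_cast
  rw [one_mul, mul_one]

variable {p : ℕ} {A B : ℤ} {P : Ideal (OO A B)} {V : ValuationSubring ℂ} {f : ℕ}

theorem P_ne_bot (hS : SetG p A B P V f) : P ≠ ⊥ := by
  intro h
  have h1 := hS.hP.mem
  rw [h] at h1
  exact natCast_ne_zero' hS.cq hS.pp.ne_zero ((Submodule.mem_bot _).1 h1)

theorem v_p_lt (hS : SetG p A B P V f) : V.valuation (p : ℂ) < 1 := by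
  have h1 := (hS.hV ((p : ℕ) : OO A B)).2 hS.hP.mem
  rw [emb_natCast hS.cq] at h1
  exact (ValuationSubring.mem_nonunits_iff V).1 h1

theorem powP (hS : SetG p A B P V f) {n : ℕ} {ι : Type} [Fintype ι] (R : Reps A B n ι) :
    ∃ (r : ℕ) (y : OO A B), 1 ≤ r ∧ P ^ r = sp y ∧ nm y = (p : ℤ) ^ r := by
  obtain ⟨r, y, hr, hy⟩ := Pool.Agent.MUXHY.ty_CLN MUXF.tx_ALG
    (MUXF.tx_NIM MUXF.tx_ALG (MUXF.tx_IDL MUXF.tx_ALG)) A B hS.cq n ι inferInstance R P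
    (P_ne_bot hS)
  refine ⟨r, y, hr, hy, ?_⟩
  have hpw : ∀ k : ℕ, P ^ k ≠ ⊥ ∧ nI (P ^ k) = p ^ k := by
    intro k
    induction k with
    | zero =>
      rw [pow_zero, pow_zero, Ideal.one_eq_top]
      refine ⟨?_, nI_top⟩
      intro h
      have h1 : (1 : OO A B) ∈ (⊥ : Ideal (OO A B)) := h ▸ Submodule.mem_top
      exact one_ne_zero ((Submodule.mem_bot _).1 h1)
    | succ k ih =>
      rw [pow_succ, pow_succ]
      exact ⟨mul_ne_bot hS.cq ih.1 (P_ne_bot hS), by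
        rw [nI_mul hS.cq ih.1 (P_ne_bot hS), ih.2, hS.hP.norm]⟩
  have hy0 : y ≠ 0 := by
    rintro rfl
    have h1 := (hpw r).1
    rw [hy] at h1
    exact h1 (by rw [Ideal.span_singleton_eq_bot])
  have h1 := (hpw r).2
  rw [hy, nI_sp hS.cq hy0] at h1
  have h2 := nm_nonneg hS.cq y
  have h3 : ((nm y).natAbs : ℤ) = (p : ℤ) ^ r := by rw [h1]; push_cast; rfl
  rw [Int.natAbs_of_nonneg h2] at h3
  exact h3

theorem eta_root {n : ℕ} {ι : Type} {R : Reps A B n ι} {kp : ι → ℂ} {eta : OO A B → ℂ}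
    (hC : ChD p f R kp eta) : ∃ r : ℕ, ¬ p ∣ r ∧
      ∀ x, IsCoprime (sp x) (idl f : Ideal (OO A B)) → eta x ^ r = 1 := by
  obtain ⟨r, hr, -, h⟩ := hC.fin
  exact ⟨r, hr, fun x hx => h x ((hC.supp x).2 hx)⟩

/-- the factor at `a` -/
theorem fac_a (hS : SetG p A B P V f) {n : ℕ} {ι : Type} (R : Reps A B n ι) {kp : ι → ℂ}
    {eta : OO A B → ℂ} (hC : ChD p f R kp eta) (l : ℕ) (hl : l.Prime) (hpl : p ≠ l)
    (hpl1 : ¬ p ∣ l - 1) (hlf : l ∣ f) (a : ℕ) (ha1 : 1 < a) (hac : a.Coprime (6 * f * p)) :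
    ∃ M₀ : ℕ, ∀ M, M₀ ≤ M → ∀ ψ : DirichletCharacter ℂ (l ^ M),
      ψ (1 + (l : ZMod (l ^ M)) ^ (M - 1)) ≠ 1 →
      V.valuation (1 - (a : ℂ) ^ 2 * thT R kp eta ψ R.i0 (a : OO A B)) = 1 := by
  obtain ⟨r, hr, hη⟩ := eta_root hC
  have hv := v_p_lt hS
  have haf : a.Coprime f := Nat.Coprime.coprime_dvd_right ⟨6 * p, by ring⟩ hac
  have hap : a.Coprime p := Nat.Coprime.coprime_dvd_right ⟨6 * f, by ring⟩ hac
  have hal : a.Coprime l := Nat.Coprime.coprime_dvd_right hlf haf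
  have hla : ¬ (l : ℤ) ∣ (a : ℤ) := by
    intro h
    have h1 : l ∣ a := by exact_mod_cast h
    have h2 := Nat.dvd_gcd h1 (dvd_refl l)
    rw [hal] at h2
    exact hl.one_lt.ne' (Nat.dvd_one.1 h2)
  have ha2 : (a : ℤ) ^ 2 ≠ 1 := by
    intro h
    have h1 : (1 : ℤ) < a := by exact_mod_cast ha1
    nlinarith
  obtain ⟨M₀, hM⟩ := Pool.Agent.TWX.t_FAC V p hS.pp hv l hl hpl hpl1 r hr a hla ha2
  refine ⟨M₀, fun M hM0 ψ hψ => ?_⟩
  have hcop : IsCoprime (sp ((a : ℕ) : OO A B)) (idl f : Ideal (OO A B)) := by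
    rw [Ideal.isCoprime_span_singleton_iff]
    exact (Nat.isCoprime_iff_coprime.2 haf).map (Int.castRingHom (OO A B)) |> fun h => by
      simpa using h
  -- an inverse of `a²` modulo `p`
  obtain ⟨b, c, hbc⟩ : ∃ b c : ℤ, (a : ℤ) ^ 2 * b = 1 + p * c := by
    have h1 : IsCoprime ((a : ℤ) ^ 2) (p : ℤ) := (Nat.isCoprime_iff_coprime.2 hap).pow_left
    obtain ⟨u, v, huv⟩ := h1
    exact ⟨u, -v, by linear_combination huv⟩
  have hpb : ¬ (p : ℤ) ∣ b := by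
    intro h
    have h1 : (p : ℤ) ∣ 1 := by
      have h2 : (1 : ℤ) = (a : ℤ) ^ 2 * b - p * c := by rw [hbc]; ring
      rw [h2]
      exact dvd_sub (h.mul_left _) (Dvd.intro _ rfl)
    have h3 : p ∣ 1 := by exact_mod_cast h1
    exact hS.pp.one_lt.ne' (Nat.dvd_one.1 h3)
  have h1 := hM M hM0 ψ hψ (eta ((a : ℕ) : OO A B)) (hη _ hcop) b hpb
  have hth : thT R kp eta ψ R.i0 ((a : ℕ) : OO A B) =
      eta ((a : ℕ) : OO A B) * ψ ((a : ℤ) : ZMod (l ^ M)) ^ 2 := by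
    rw [th0 R hC ψ _ ((a : ℤ) ^ 2) (by
      have := nm_intCast (A := A) (B := B) (a : ℤ)
      simpa using this)]
    push_cast
    rw [map_pow]
  rw [hth]
  set X : ℂ := eta ((a : ℕ) : OO A B) * ψ ((a : ℤ) : ZMod (l ^ M)) ^ 2 with hX
  have e1 : 1 - (a : ℂ) ^ 2 * X = -((a : ℂ) ^ 2 * (X - b)) + (1 - (a : ℂ) ^ 2 * b) := by ring
  have hint : ∀ z : ℤ, V.valuation (z : ℂ) ≤ 1 := fun z =>
    (V.valuation_le_one_iff _).2 (intCast_mem V z)
  have e2 : V.valuation (1 - (a : ℂ) ^ 2 * b) < 1 := by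
    have h2 : 1 - (a : ℂ) ^ 2 * b = (p : ℂ) * ((-c : ℤ) : ℂ) := by
      have : ((a : ℂ) ^ 2 * b) = 1 + p * c := by exact_mod_cast hbc
      rw [this]
      push_cast
      ring
    rw [h2, map_mul]
    calc V.valuation (p : ℂ) * V.valuation ((-c : ℤ) : ℂ) ≤ V.valuation (p : ℂ) * 1 :=
          mul_le_mul' le_rfl (hint _)
      _ < 1 := by rw [mul_one]; exact hv
  have e3 : V.valuation ((a : ℂ) ^ 2) = 1 := by
    have h3 : V.valuation ((a : ℂ) ^ 2 * b) = 1 := by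
      have h4 : (a : ℂ) ^ 2 * b = 1 - (1 - (a : ℂ) ^ 2 * b) := by ring
      rw [h4]
      exact Valuation.map_one_sub_of_lt V.valuation e2
    rw [map_mul] at h3
    have h5 : V.valuation ((a : ℂ) ^ 2) ≤ 1 := by
      have := hint ((a : ℤ) ^ 2)
      simpa using this
    refine le_antisymm h5 ?_
    by_contra h6
    rw [not_le] at h6
    have h7 : V.valuation ((a : ℂ) ^ 2) * V.valuation (b : ℂ) < 1 :=
      calc V.valuation ((a : ℂ) ^ 2) * V.valuation (b : ℂ) ≤ V.valuation ((a : ℂ) ^ 2) * 1 :=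
            mul_le_mul' le_rfl (hint b)
        _ < 1 := by rw [mul_one]; exact h6
    exact absurd h3 h7.ne
  have e4 : V.valuation (-((a : ℂ) ^ 2 * (X - b))) = 1 := by
    rw [Valuation.map_neg, map_mul, e3, h1, one_mul]
  rw [e1, ← e4]
  exact Valuation.map_add_eq_of_lt_left V.valuation (e2.trans_eq e4.symm)

/-- the factor at `P` -/
theorem fac_P (hS : SetG p A B P V f) {n : ℕ} {ι : Type} (R : Reps A B n ι)
    {kp : ι → ℂ} {eta : OO A B → ℂ} (hC : ChD p f R kp eta) (l : ℕ) (hl : l.Prime) (hpl : p ≠ l)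
    (hpl1 : ¬ p ∣ l - 1) (r : ℕ) (y : OO A B) (hr : 1 ≤ r) (hy : P ^ r = sp y)
    (hny : nm y = (p : ℤ) ^ r) :
    ∃ M₀ : ℕ, ∀ M, M₀ ≤ M → ∀ ψ : DirichletCharacter ℂ (l ^ M),
      ψ (1 + (l : ZMod (l ^ M)) ^ (M - 1)) ≠ 1 →
      V.valuation (1 - thT R kp eta ψ R.i0 y) = 1 := by
  obtain ⟨e, he, hη⟩ := eta_root hC
  have hv := v_p_lt hS
  have hlp : ¬ (l : ℤ) ∣ (p : ℤ) ^ r := by
    intro h
    have h1 : l ∣ p ^ r := by exact_mod_cast h
    exact hpl ((Nat.prime_dvd_prime_iff_eq hl hS.pp).1 (hl.dvd_of_dvd_pow h1)).symm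
  have hp2 : ((p : ℤ) ^ r) ^ 2 ≠ 1 := by
    intro h
    have h1 : (p ^ r) ^ 2 = 1 := by exact_mod_cast h
    have h2 : 1 < p ^ r := Nat.one_lt_pow (by omega) hS.pp.one_lt
    nlinarith
  obtain ⟨M₀, hM⟩ := Pool.Agent.TWX.t_FAC1 V p hS.pp hv l hl hpl hpl1 e he ((p : ℤ) ^ r) hlp hp2
  refine ⟨M₀, fun M hM0 ψ hψ => ?_⟩
  have hcop : IsCoprime (sp y) (idl f : Ideal (OO A B)) := by
    rw [← hy]
    refine IsCoprime.pow_left ?_
    have h1 : IsCoprime ((p : ℕ) : OO A B) ((f : ℕ) : OO A B) := by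
      have h2 : Nat.Coprime p f := (Nat.Prime.coprime_iff_not_dvd hS.pp).2 hS.fp
      exact (Nat.isCoprime_iff_coprime.2 h2).map (Int.castRingHom (OO A B)) |> fun h => by
        simpa using h
    obtain ⟨u, v, huv⟩ := h1
    rw [Ideal.isCoprime_iff_exists]
    exact ⟨u * (p : ℕ), Ideal.mul_mem_left _ _ hS.hP.mem, v * (f : ℕ),
      Ideal.mul_mem_left _ _ (Ideal.mem_span_singleton_self _), huv⟩
  have h1 := hM M hM0 ψ hψ (eta y) (hη _ hcop) 1 (by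
    intro h
    have h3 : p ∣ 1 := by exact_mod_cast h
    exact hS.pp.one_lt.ne' (Nat.dvd_one.1 h3))
  rw [th0 R hC ψ y _ hny, ← h1, Valuation.map_sub_swap]
  push_cast
  rfl

/-- a bound over a finite family -/
theorem bound {J : Type} [Finite J] (M : J → ℕ) : ∃ b : ℕ, ∀ j, M j ≤ b := by
  obtain ⟨b, hb⟩ := (Set.finite_range M).bddAbove
  exact ⟨b, fun j => hb ⟨j, rfl⟩⟩

end UNITA

open Pool.Agent.TWR UNITA in
/-- the unit theorem for all large `n` -/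
theorem t_UNITA (hSYM : S_SYMA) (hCRIT : S_CRIT) (hFACT : S_FACT) : S_UNITA := by
  intro l g h hgen p _ A B P V f hS hlf hT ι _ R hG K _ _ hkK hK Bn _ hLay hMon hRF a ha1 hac H hH
  have hl : l.Prime := by
    rcases hgen with ⟨rfl, -, -⟩ | ⟨rfl, -, -⟩
    · exact Nat.prime_three
    · exact Nat.prime_two
  have hh : 1 ≤ h := by
    rcases hgen with ⟨-, -, rfl⟩ | ⟨-, -, rfl⟩ <;> norm_num
  have hl1 : l - 1 = 1 ∨ l - 1 = 2 := by
    rcases hgen with ⟨rfl, -, -⟩ | ⟨rfl, -, -⟩ <;> norm_num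
  have hl3 : l ≤ 3 := by
    rcases hgen with ⟨rfl, -, -⟩ | ⟨rfl, -, -⟩ <;> norm_num
  have hp5 := hS.p5
  have hpl : p ≠ l := by omega
  have hpl1 : ¬ p ∣ l - 1 := by
    intro hd
    have := Nat.le_of_dvd (by omega) hd
    omega
  have hlf' : l ∣ f := (dvd_pow_self l (by omega)).trans hlf
  obtain ⟨J, hJ, kp, eta, hCh, hF⟩ := hFACT l g h hgen p A B P V f hS hlf hT ι R K hkK hK Bn hLay
    hMon
  obtain ⟨w, hw⟩ := Pool.Agent.TWB.t_TEI p A B P V hS.cq hS.pp (by omega) hS.hP hS.hV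
  obtain ⟨n1, hn1⟩ := hSYM l g h hgen p A B P V f hS hlf' hT ι R hG w hw J kp eta hCh
  obtain ⟨n2, hn2⟩ := stab hT K hkK Bn hMon
  obtain ⟨r, y, hr, hy, hny⟩ := powP hS R
  choose M1 hM1 using fun j => fac_a hS R (hCh j) l hl hpl hpl1 hlf' a ha1 hac
  choose M2 hM2 using fun j => fac_P hS R (hCh j) l hl hpl hpl1 r y hr hy hny
  obtain ⟨b1, hb1⟩ := bound M1
  obtain ⟨b2, hb2⟩ := bound M2
  refine ⟨max (max n1 n2) (max b1 b2), fun n hn θ hθ h0 => ?_⟩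
  have hnn1 : n1 ≤ n := ((le_max_left _ _).trans (le_max_left _ _)).trans hn
  have hnn2 : n2 ≤ n := ((le_max_right _ _).trans (le_max_left _ _)).trans hn
  have hnb1 : b1 ≤ n := ((le_max_left _ _).trans (le_max_right _ _)).trans hn
  have hnb2 : b2 ≤ n := ((le_max_right _ _).trans (le_max_right _ _)).trans hn
  let _ := algC h0
  intro c₀ hc₀ χ hχ
  obtain ⟨j, ψ, hψ1, hψ2, hval⟩ := hF n h0 χ hχ
  obtain ⟨γ, hγ1, hγχ⟩ := hχ
  refine hCRIT p A B P V f hS hT ι R hG w hw (kp j) (eta j) (hCh j) l (n + 1 + h) hl hlf' ψ hψ1 a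
    ha1 hac (hM1 j (n + 1 + h) (by have := hb1 j; omega) ψ hψ2)
    ⟨r, y, hy, hM2 j (n + 1 + h) (by have := hb2 j; omega) ψ hψ2⟩ H hH θ hθ (K ⊔ Bn (n + 1)) h0
    (hRF (n + 1)) χ hval ⟨γ, fun x hx => hγ1 x (hn2 n hnn2 x x.2 hx), hγχ⟩ c₀ hc₀
    (hn1 (n + 1 + h) (by omega) j ψ hψ1 hψ2)

end

end Pool.Agent.TWT
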