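import Pool.Agent.TWT.StT1
import Pool.Agent.MUX.Q_YUN

/-!
# TWT, block A, module ADV: additivity of the truncated logarithm (helper40)
-/

set_option autoImplicit false

open WeierstrassCurve Polynomial PowerSeries

namespace Pool.Agent.TWT

open _root_.MU3 Pool.Agent.MU3A Pool.Agent.MU3B Pool.Agent.MUX Pool.Agent.MUXU
open Pool.Agent.MUXV (GR InK tX)

namespace ADV

section
variable {V : ValuationSubring ℂ}

lemma v_vpi {lam : ℕ → ℂ} {p : ℕ} (h0 : lam 0 = 0) (hi : ∀ j, V.valuation (lam j) ≤ 1)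
    {t : ℂ} {τ : V.ValueGroup} (ht : V.valuation t ≤ τ) (hτ : τ ≤ 1) :
    V.valuation (vpi lam p t) ≤ τ := by
  unfold vpi
  refine Valuation.map_sum_le _ (fun j _ => ?_)
  rw [map_mul, map_pow]
  rcases Nat.eq_zero_or_pos j with rfl | hj
  · rw [h0, map_zero, zero_mul]; exact zero_le
  · calc V.valuation (lam j) * V.valuation t ^ j ≤ 1 * τ ^ j :=
          mul_le_mul' (hi j) (pow_le_pow_left' ht j)
      _ = τ ^ j := one_mul _
      _ ≤ τ := pow_le_of_le_one zero_le hτ hj.ne'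

lemma v_fac {p : ℕ} (hu : ∀ j : ℕ, 0 < j → j < p → V.valuation (j : ℂ) = 1) (k : ℕ) (hk : k < p) :
    V.valuation ((k.factorial : ℕ) : ℂ) = 1 := by
  induction k with
  | zero => simp
  | succ k ih =>
    rw [Nat.factorial_succ, Nat.cast_mul, map_mul, ih (by omega), mul_one]
    exact hu _ (Nat.succ_pos _) hk

lemma v_ev {x y : ℂ} (hx : V.valuation x ≤ 1) (hy : V.valuation y ≤ 1)
    (f : MvPolynomial (Fin 2) V) : V.valuation (MvPolynomial.aeval ![x, y] f) ≤ 1 := by
  induction f using MvPolynomial.induction_on with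
  | C a =>
    rw [MvPolynomial.aeval_C]
    exact V.valuation_le_one a
  | add f g hf hg =>
    rw [map_add]
    exact Valuation.map_add_le _ hf hg
  | mul_X f i hf =>
    rw [map_mul, map_mul, MvPolynomial.aeval_X]
    refine mul_le_one' hf ?_
    fin_cases i
    · exact hx
    · exact hy

lemma sum_anti {M : Type*} [AddCommMonoid M] (p : ℕ) (F : ℕ × ℕ → M) :
    ∑ n ∈ Finset.range p, ∑ m ∈ Finset.HasAntidiagonal.antidiagonal n, F m =
      ∑ m ∈ (Finset.range p ×ˢ Finset.range p).filter (fun m => m.1 + m.2 < p), F m := by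
  have h1 := Finset.sum_fiberwise_of_maps_to
    (s := (Finset.range p ×ˢ Finset.range p).filter (fun m => m.1 + m.2 < p))
    (t := Finset.range p) (g := fun m : ℕ × ℕ => m.1 + m.2)
    (fun m hm => by
      rw [Finset.mem_filter] at hm
      exact Finset.mem_range.2 hm.2) F
  rw [← h1]
  refine Finset.sum_congr rfl (fun n hn => ?_)
  rw [Finset.mem_range] at hn
  refine Finset.sum_congr ?_ (fun _ _ => rfl)
  ext m
  simp only [Finset.HasAntidiagonal.mem_antidiagonal, Finset.mem_filter, Finset.mem_product, Finset.mem_range]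
  omega

lemma binom {p : ℕ} (hu : ∀ j : ℕ, 0 < j → j < p → V.valuation (j : ℂ) = 1) (c : ℕ → ℂ)
    (hc : ∀ n, V.valuation (c n) ≤ 1) {a b : ℂ} {τ : V.ValueGroup} (hτ : τ ≤ 1)
    (ha : V.valuation a ≤ τ) (hb : V.valuation b ≤ τ) :
    V.valuation (∑ k ∈ Finset.range p, (∑ j ∈ Finset.range p,
        c (j + k) / (j.factorial : ℂ) * a ^ j) / (k.factorial : ℂ) * b ^ k -
      ∑ n ∈ Finset.range p, c n / (n.factorial : ℂ) * (a + b) ^ n) ≤ τ ^ p := by
  set F : ℕ × ℕ → ℂ := fun m => c (m.1 + m.2) / (m.1.factorial : ℂ) / (m.2.factorial : ℂ) *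
    (a ^ m.1 * b ^ m.2) with hF
  have h1 : ∑ k ∈ Finset.range p, (∑ j ∈ Finset.range p,
        c (j + k) / (j.factorial : ℂ) * a ^ j) / (k.factorial : ℂ) * b ^ k =
      ∑ m ∈ Finset.range p ×ˢ Finset.range p, F m := by
    rw [Finset.sum_product_right]
    refine Finset.sum_congr rfl (fun k _ => ?_)
    rw [Finset.sum_div, Finset.sum_mul]
    refine Finset.sum_congr rfl (fun j _ => ?_)
    rw [hF]
    ring
  have h2 : ∑ n ∈ Finset.range p, c n / (n.factorial : ℂ) * (a + b) ^ n =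
      ∑ m ∈ (Finset.range p ×ˢ Finset.range p).filter (fun m => m.1 + m.2 < p), F m := by
    rw [← sum_anti]
    refine Finset.sum_congr rfl (fun n _ => ?_)
    rw [(Commute.all a b).add_pow', Finset.mul_sum]
    refine Finset.sum_congr rfl (fun m hm => ?_)
    rw [Finset.HasAntidiagonal.mem_antidiagonal] at hm
    subst hm
    rw [hF, nsmul_eq_mul]
    have h3 : ((m.1 + m.2).choose m.1 : ℂ) * (m.1.factorial : ℂ) * (m.2.factorial : ℂ) =
        ((m.1 + m.2).factorial : ℂ) := by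
      have := Nat.choose_mul_factorial_mul_factorial (Nat.le_add_right m.1 m.2)
      rw [Nat.add_sub_cancel_left] at this
      exact_mod_cast this
    have h4 : (m.1.factorial : ℂ) ≠ 0 := by exact_mod_cast m.1.factorial_ne_zero
    have h5 : (m.2.factorial : ℂ) ≠ 0 := by exact_mod_cast m.2.factorial_ne_zero
    show _ = c (m.1 + m.2) / (m.1.factorial : ℂ) / (m.2.factorial : ℂ) * (a ^ m.1 * b ^ m.2)
    have h7 : (((m.1 + m.2).choose m.1 : ℕ) : ℂ) ≠ 0 := by
      exact_mod_cast (Nat.choose_pos (Nat.le_add_right m.1 m.2)).ne'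
    rw [← h3]
    field_simp
  rw [h1, h2, ← Finset.sum_filter_add_sum_filter_not (Finset.range p ×ˢ Finset.range p)
    (fun m : ℕ × ℕ => m.1 + m.2 < p) F, add_sub_cancel_left]
  refine Valuation.map_sum_le _ (fun m hm => ?_)
  rw [Finset.mem_filter, Finset.mem_product, Finset.mem_range, Finset.mem_range, not_lt] at hm
  obtain ⟨⟨hm1, hm2⟩, hm3⟩ := hm
  rw [hF]
  show V.valuation (c (m.1 + m.2) / (m.1.factorial : ℂ) / (m.2.factorial : ℂ) *
    (a ^ m.1 * b ^ m.2)) ≤ _
  rw [map_mul, map_div₀, map_div₀, v_fac hu _ hm1, v_fac hu _ hm2, div_one, div_one, map_mul,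
    map_pow, map_pow]
  calc V.valuation (c (m.1 + m.2)) * (V.valuation a ^ m.1 * V.valuation b ^ m.2)
      ≤ 1 * (τ ^ m.1 * τ ^ m.2) :=
        mul_le_mul' (hc _) (mul_le_mul' (pow_le_pow_left' ha _) (pow_le_pow_left' hb _))
    _ = τ ^ (m.1 + m.2) := by rw [one_mul, pow_add]
    _ ≤ τ ^ p := pow_le_pow_right_of_le_one' hτ hm3

/-- cancellation of the linear term -/
lemma cancel {p : ℕ} (hp : 2 ≤ p) (d : ℕ → ℂ) (hd : ∀ n < p, V.valuation (d n) ≤ 1)
    (hd1 : V.valuation (d 1) = 1) {a b : ℂ} {τ : V.ValueGroup} (hτ : τ < 1)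
    (ha : V.valuation a ≤ τ) (hb : V.valuation b ≤ τ)
    (h : V.valuation (∑ n ∈ Finset.range p, d n * a ^ n - ∑ n ∈ Finset.range p, d n * b ^ n) ≤
      τ ^ p) : V.valuation (a - b) ≤ τ ^ p := by
  obtain ⟨q, rfl⟩ : ∃ q, p = q + 2 := ⟨p - 2, by omega⟩
  set e : ℂ := ∑ n ∈ Finset.range q, d (n + 2) *
    ∑ i ∈ Finset.range (n + 2), a ^ i * b ^ (n + 2 - 1 - i) with he
  have h1 : ∑ n ∈ Finset.range (q + 2), d n * a ^ n - ∑ n ∈ Finset.range (q + 2), d n * b ^ n =
      (a - b) * (d 1 + e) := by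
    rw [Finset.sum_range_succ', Finset.sum_range_succ', Finset.sum_range_succ' _ (q + 1),
      Finset.sum_range_succ' _ q, he, mul_add, Finset.mul_sum]
    have h2 : ∀ n ∈ Finset.range q, (a - b) * (d (n + 2) *
        ∑ i ∈ Finset.range (n + 2), a ^ i * b ^ (n + 2 - 1 - i)) =
        d (n + 2) * a ^ (n + 2) - d (n + 2) * b ^ (n + 2) := by
      intro n _
      have h3 := (Commute.all a b).mul_geom_sum₂ (n + 2)
      calc _ = d (n + 2) * ((a - b) *
          ∑ i ∈ Finset.range (n + 2), a ^ i * b ^ (n + 2 - 1 - i)) := by ring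
        _ = _ := by rw [h3]; ring
    rw [Finset.sum_congr rfl h2, Finset.sum_sub_distrib]
    simp only [zero_add, pow_one, pow_zero, Nat.add_assoc]
    ring
  have h4 : V.valuation e ≤ τ := by
    rw [he]
    refine Valuation.map_sum_le _ (fun n hn => ?_)
    rw [Finset.mem_range] at hn
    rw [map_mul]
    calc _ ≤ 1 * τ := mul_le_mul' (hd _ (by omega)) ?_
      _ = τ := one_mul _
    refine Valuation.map_sum_le _ (fun i hi => ?_)
    rw [Finset.mem_range] at hi
    rw [map_mul, map_pow, map_pow]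
    calc _ ≤ τ ^ i * τ ^ (n + 2 - 1 - i) :=
          mul_le_mul' (pow_le_pow_left' ha _) (pow_le_pow_left' hb _)
      _ = τ ^ (n + 1) := by rw [← pow_add]; congr 1; omega
      _ ≤ τ := pow_le_of_le_one zero_le hτ.le (Nat.succ_ne_zero n)
  have h5 : V.valuation (d 1 + e) = 1 := by
    rw [Valuation.map_add_eq_of_lt_left]
    · exact hd1
    · rw [hd1]; exact h4.trans_lt hτ
  rw [h1, map_mul, h5, mul_one] at h
  exact h

end

section
variable {V : ValuationSubring ℂ} {W : WeierstrassCurve.Affine ℂ} {L : PeriodPair}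
  {X Y : ℂ → ℂ} {ξ : ℂ →+ W.Point}

lemma third (G : GR V W L X Y ξ) (h3 : V.valuation (3 : ℂ) = 1) :
    ¬ InK V L X (L.ω₁ / 3) ∧ ¬ InK V L X (2 * (L.ω₁ / 3)) := by
  have hm : ((3 : ℕ) : ℂ) * (L.ω₁ / 3) ∈ L.lattice := by
    have : ((3 : ℕ) : ℂ) * (L.ω₁ / 3) = L.ω₁ := by push_cast; ring
    rw [this]
    exact L.ω₁_mem_lattice
  have h3' : V.valuation ((3 : ℕ) : ℂ) = 1 := by exact_mod_cast h3
  have hn : ∀ k : ℤ, (k : ℂ) / 3 * L.ω₁ ∈ L.lattice → (3 : ℤ) ∣ k := by
    intro k hk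
    obtain ⟨m, n, hmn⟩ := L.mem_lattice.1 hk
    have hi := L.indep
    rw [LinearIndependent.pair_iff] at hi
    have h1 := hi ((m : ℝ) - k / 3) n (by
      simp only [Complex.real_smul]
      push_cast
      linear_combination hmn)
    have h2 : (m : ℝ) = k / 3 := by linarith [h1.1]
    have h4 : (3 * m : ℝ) = k := by rw [h2]; ring
    exact ⟨m, by exact_mod_cast h4.symm⟩
  constructor
  · intro h
    have h1 := MUXV.mem_of_nat_mul G h h3' hm
    have h2 := hn 1 (by
      have : ((1 : ℤ) : ℂ) / 3 * L.ω₁ = L.ω₁ / 3 := by push_cast; ring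
      rwa [this])
    omega
  · intro h
    have h1 := MUXV.mem_of_nat_mul G h h3' (by
      have : ((3 : ℕ) : ℂ) * (2 * (L.ω₁ / 3)) = ((3 : ℕ) : ℂ) * (L.ω₁ / 3) +
        ((3 : ℕ) : ℂ) * (L.ω₁ / 3) := by ring
      rw [this]
      exact add_mem hm hm)
    have h2 := hn 2 (by
      have : ((2 : ℤ) : ℂ) / 3 * L.ω₁ = 2 * (L.ω₁ / 3) := by push_cast; ring
      rwa [this])
    omega

/-- additivity -/
lemma additive (G : GR V W L X Y ξ) {p : ℕ} (hp : 4 ≤ p)
    (hu : ∀ j : ℕ, 0 < j → j < p → V.valuation (j : ℂ) = 1) (a2 a4 : V) {lam : ℕ → ℂ}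
    (T : HasTay V L X Y p a2 a4 lam) {R R' : ℂ} (hR : InK V L X R) (hR' : InK V L X R')
    (hL : R ∉ L.lattice) (hL' : R' ∉ L.lattice) (hLL : R + R' ∉ L.lattice)
    {τ : V.ValueGroup} (hτ : τ < 1) (h1 : V.valuation (tX X Y R) ≤ τ)
    (h2 : V.valuation (tX X Y R') ≤ τ) (h3 : V.valuation (tX X Y (R + R')) ≤ τ) :
    V.valuation (vpi lam p (tX X Y (R + R')) - (vpi lam p (tX X Y R) + vpi lam p (tX X Y R'))) ≤
      τ ^ p := by
  have hRR : InK V L X (R + R') := MUXV.inK_add G hR hR'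
  obtain ⟨hz, hz2⟩ := third G (by exact_mod_cast hu 3 (by norm_num) (by omega))
  set z := L.ω₁ / 3 with hzd
  have hY : V.valuation (Y z) = 1 := (MUXV.tq_YUN V W L X Y ξ G z hz hz2).1
  have hzR : ¬ InK V L X (z + R) := (MUXV.near G hz hR hL).1
  have hvx : V.valuation (X z) ≤ 1 := (MUXV.int_X hz).2
  have hvy : V.valuation (Y z) ≤ 1 := MUXV.int_Y G hz
  have w1 := v_vpi (p := p) T.lam0 T.int h1 hτ.le
  have w2 := v_vpi (p := p) T.lam0 T.int h2 hτ.le
  have w3 := v_vpi (p := p) T.lam0 T.int h3 hτ.le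
  set c : ℕ → ℂ := fun n => MvPolynomial.aeval ![X z, Y z]
    ((dW a2 a4)^[n] (MvPolynomial.X 0)) with hc
  have hcv : ∀ n, V.valuation (c n) ≤ 1 := fun n => v_ev hvx hvy _
  -- Taylor at z + R with R'
  have t1 := T.tay R' hR' hL' (z + R) hzR (MvPolynomial.X 0)
  -- Taylor at z with R
  have t2 : ∀ k, V.valuation (MvPolynomial.aeval ![X (z + R), Y (z + R)]
      ((dW a2 a4)^[k] (MvPolynomial.X 0)) -
      ∑ j ∈ Finset.range p, c (j + k) / (j.factorial : ℂ) * vpi lam p (tX X Y R) ^ j) ≤ τ ^ p := by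
    intro k
    have h4 := T.tay R hR hL z hz ((dW a2 a4)^[k] (MvPolynomial.X 0))
    refine le_trans ?_ (h4.trans (pow_le_pow_left' h1 p))
    refine le_of_eq (congrArg _ ?_)
    refine congrArg _ (Finset.sum_congr rfl (fun j _ => ?_))
    rw [hc]
    show MvPolynomial.aeval ![X z, Y z] ((dW a2 a4)^[j + k] (MvPolynomial.X 0)) / _ * _ = _
    rw [Function.iterate_add_apply]
  have t3 := T.tay (R + R') hRR hLL z hz (MvPolynomial.X 0)
  have e1 : V.valuation (∑ k ∈ Finset.range p, MvPolynomial.aeval ![X (z + R), Y (z + R)]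
      ((dW a2 a4)^[k] (MvPolynomial.X 0)) / (k.factorial : ℂ) * vpi lam p (tX X Y R') ^ k -
      ∑ k ∈ Finset.range p, (∑ j ∈ Finset.range p,
        c (j + k) / (j.factorial : ℂ) * vpi lam p (tX X Y R) ^ j) / (k.factorial : ℂ) *
          vpi lam p (tX X Y R') ^ k) ≤ τ ^ p := by
    rw [← Finset.sum_sub_distrib]
    refine Valuation.map_sum_le _ (fun k hk => ?_)
    rw [Finset.mem_range] at hk
    rw [← sub_mul, ← sub_div, map_mul, map_div₀, v_fac hu k hk, div_one, map_pow]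
    calc _ ≤ τ ^ p * 1 := mul_le_mul' (t2 k) (pow_le_one' (w2.trans hτ.le) k)
      _ = τ ^ p := mul_one _
  have e2 := binom hu c hcv hτ.le w1 w2
  have e3 := t1.trans (pow_le_pow_left' h2 p)
  have e4 := t3.trans (pow_le_pow_left' h3 p)
  have hX : MvPolynomial.aeval ![X (z + R + R'), Y (z + R + R')]
      (MvPolynomial.X 0 : MvPolynomial (Fin 2) V) = MvPolynomial.aeval
      ![X (z + (R + R')), Y (z + (R + R'))] (MvPolynomial.X 0 : MvPolynomial (Fin 2) V) := by
    rw [add_assoc]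
  have e5 : V.valuation (∑ n ∈ Finset.range p, c n / (n.factorial : ℂ) *
      vpi lam p (tX X Y (R + R')) ^ n - ∑ n ∈ Finset.range p, c n / (n.factorial : ℂ) *
      (vpi lam p (tX X Y R) + vpi lam p (tX X Y R')) ^ n) ≤ τ ^ p := by
    have h5 := Valuation.map_sub_le _ (Valuation.map_add_le _ (Valuation.map_add_le _ e3 e1) e2) e4
    rw [hX] at h5
    refine le_trans (le_of_eq (congrArg _ ?_)) h5
    rw [hc]
    ring
  refine cancel (by omega) (fun n => c n / (n.factorial : ℂ)) (fun n hn => ?_) ?_ hτ w3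
    (Valuation.map_add_le _ w1 w2) e5
  · rw [map_div₀, v_fac hu n hn, div_one]
    exact hcv n
  · show V.valuation (c 1 / ((Nat.factorial 1 : ℕ) : ℂ)) = 1
    have h6 : c 1 = 2 * Y z := by
      rw [hc]
      show MvPolynomial.aeval ![X z, Y z] (dW a2 a4 (MvPolynomial.X 0)) = _
      rw [dW, MvPolynomial.mkDerivation_X]
      simp
    rw [h6, Nat.factorial_one, Nat.cast_one, div_one, map_mul, G.two, hY, one_mul]

end

end ADV

open ADV in
theorem t_ADV : S_ADV := by
  intro V W L X Y ξ G p hp hu a2 a4 _ _ lam T R hR hL c hc0 hcp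
  induction c with
  | zero => exact absurd hc0 (lt_irrefl 0)
  | succ c ih =>
    rcases Nat.eq_zero_or_pos c with rfl | hc
    · simp
    · have hRL : R ∉ L.lattice := by simpa using hL 1 (by norm_num) (by omega)
      have hcL : (c : ℂ) * R ∉ L.lattice := hL c hc (by omega)
      have hccL : (c : ℂ) * R + R ∉ L.lattice := by
        have := hL (c + 1) hc0 hcp
        have h : ((c + 1 : ℕ) : ℂ) * R = (c : ℂ) * R + R := by push_cast; ring
        rwa [h] at this
      have hcR : InK V L X ((c : ℂ) * R) := MUXV.inK_nat G hR c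
      have ht1 := MUXV.v_tX_nat G hR (hu c hc (by omega)) hRL hcL
      have ht2 : V.valuation (tX X Y ((c : ℂ) * R + R)) = V.valuation (tX X Y R) := by
        have h := MUXV.v_tX_nat G hR (hu (c + 1) hc0 hcp) hRL (hL (c + 1) hc0 hcp)
        have h' : ((c + 1 : ℕ) : ℂ) * R = (c : ℂ) * R + R := by push_cast; ring
        rwa [h'] at h
      have h1 := additive G hp hu a2 a4 T hcR hR hcL hRL hccL (MUXV.v_tX_lt G hR hRL).1 ht1.le
        le_rfl ht2.le
      have h2 := ih hc (by omega)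
      have h3 := Valuation.map_add_le _ h1 h2
      have h' : ((c + 1 : ℕ) : ℂ) * R = (c : ℂ) * R + R := by push_cast; ring
      rw [h']
      refine le_trans (le_of_eq (congrArg _ ?_)) h3
      push_cast
      ring

end Pool.Agent.TWT
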