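import Pool.Agent.TWT.StT1

/-!
# TWT: evaluation of power series at a nilpotent element
-/

set_option autoImplicit false

namespace Pool.Agent.TWT

open PowerSeries

namespace EVH

variable {A S : Type} [CommRing A] [CommRing S]

/-- The value of a polynomial at `s` with `s ^ n = 0`. -/
theorem eval_poly (f : A →+* S) (s : S) (n : ℕ) (hs : s ^ n = 0) (p : Polynomial A) :
    ∑ k ∈ Finset.range n, f (p.coeff k) * s ^ k = p.eval₂ f s := by
  have h1 : p.natDegree < max n (p.natDegree + 1) := lt_of_lt_of_le (Nat.lt_succ_self _)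
    (le_max_right _ _)
  rw [Polynomial.eval₂_eq_sum_range' f h1 s]
  refine Finset.sum_subset ?_ fun k _ hk => ?_
  · intro k hk
    rw [Finset.mem_range] at hk ⊢
    exact lt_of_lt_of_le hk (le_max_left _ _)
  · rw [Finset.mem_range, not_lt] at hk
    rw [pow_eq_zero_of_le hk hs, mul_zero]

/-- The value of a power series. -/
noncomputable def val (f : A →+* S) (s : S) (n : ℕ) (F : A⟦X⟧) : S :=
  ∑ k ∈ Finset.range n, f (PowerSeries.coeff k F) * s ^ k

theorem val_trunc (f : A →+* S) (s : S) (n : ℕ) (hs : s ^ n = 0) (F : A⟦X⟧) :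
    val f s n F = (PowerSeries.trunc n F).eval₂ f s := by
  rw [← eval_poly f s n hs]
  refine Finset.sum_congr rfl fun k hk => ?_
  rw [PowerSeries.coeff_trunc, if_pos (Finset.mem_range.1 hk)]

theorem val_mul (f : A →+* S) (s : S) (n : ℕ) (hs : s ^ n = 0) (F G : A⟦X⟧) :
    val f s n (F * G) = val f s n F * val f s n G := by
  rw [val_trunc f s n hs F, val_trunc f s n hs G, ← Polynomial.eval₂_mul,
    ← eval_poly f s n hs]
  refine Finset.sum_congr rfl fun k hk => ?_
  rw [PowerSeries.coeff_mul_eq_coeff_trunc_mul_trunc F G (Finset.mem_range.1 hk),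
    ← Polynomial.coe_mul, Polynomial.coeff_coe]

theorem val_add (f : A →+* S) (s : S) (n : ℕ) (F G : A⟦X⟧) :
    val f s n (F + G) = val f s n F + val f s n G := by
  unfold val
  rw [← Finset.sum_add_distrib]
  refine Finset.sum_congr rfl fun k _ => ?_
  rw [map_add, map_add, add_mul]

theorem val_C (f : A →+* S) (s : S) (n : ℕ) (hn : 2 ≤ n) (a : A) :
    val f s n (PowerSeries.C a) = f a := by
  unfold val
  rw [Finset.sum_eq_single 0]
  · rw [PowerSeries.coeff_zero_C, pow_zero, mul_one]
  · intro k _ hk
    rw [PowerSeries.coeff_C, if_neg hk, map_zero, zero_mul]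
  · intro h
    exact absurd (Finset.mem_range.2 (by omega)) h

theorem val_X (f : A →+* S) (s : S) (n : ℕ) (hn : 2 ≤ n) :
    val f s n (PowerSeries.X) = s := by
  unfold val
  rw [Finset.sum_eq_single 1]
  · rw [PowerSeries.coeff_one_X, map_one, one_mul, pow_one]
  · intro k _ hk
    rw [PowerSeries.coeff_X, if_neg hk, map_zero, zero_mul]
  · intro h
    exact absurd (Finset.mem_range.2 (by omega)) h

end EVH

open EVH in
theorem t_EVH : S_EVH := by
  intro A S _ _ f s n hs hn
  refine ⟨{ toFun := val f s n
            map_one' := ?_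
            map_mul' := fun F G => val_mul f s n hs F G
            map_zero' := ?_
            map_add' := fun F G => val_add f s n F G }, ?_, ?_, ?_⟩
  · have h := val_C f s n hn (1 : A)
    rwa [map_one, map_one] at h
  · have h := val_C f s n hn (0 : A)
    rwa [map_zero, map_zero] at h
  · exact val_X f s n hn
  · exact fun a => val_C f s n hn a
  · exact fun F => rfl

end Pool.Agent.TWT
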