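import Pool.Agent.TWT.StT1
import Pool.Agent.MUX.RQ0

/-!
# TWT, block A, module FOI: the parameter under an isogeny, to first order
-/

set_option autoImplicit false

open WeierstrassCurve Polynomial

namespace Pool.Agent.TWT

open _root_.MU3 Pool.Agent.MU3A Pool.Agent.MU3B Pool.Agent.MUX Pool.Agent.MUXU
open Pool.Agent.MUXV

noncomputable section

namespace FOI

variable (V : ValuationSubring ℂ)

/-- congruence of two integral elements -/
structure Cg (ρ : V.ValueGroup) (a b : ℂ) : Prop where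
  l : V.valuation a ≤ 1
  r : V.valuation b ≤ 1
  d : V.valuation (a - b) ≤ ρ

variable {V} {ρ : V.ValueGroup}

lemma Cg.add {a b c d : ℂ} (h : Cg V ρ a b) (h' : Cg V ρ c d) : Cg V ρ (a + c) (b + d) := by
  refine ⟨(V.valuation.map_add _ _).trans (max_le h.l h'.l),
    (V.valuation.map_add _ _).trans (max_le h.r h'.r), ?_⟩
  rw [show a + c - (b + d) = (a - b) + (c - d) by ring]
  exact (V.valuation.map_add _ _).trans (max_le h.d h'.d)

lemma Cg.sub {a b c d : ℂ} (h : Cg V ρ a b) (h' : Cg V ρ c d) : Cg V ρ (a - c) (b - d) := by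
  refine ⟨(V.valuation.map_sub _ _).trans (max_le h.l h'.l),
    (V.valuation.map_sub _ _).trans (max_le h.r h'.r), ?_⟩
  rw [show a - c - (b - d) = (a - b) - (c - d) by ring]
  exact (V.valuation.map_sub _ _).trans (max_le h.d h'.d)

lemma Cg.mul {a b c d : ℂ} (h : Cg V ρ a b) (h' : Cg V ρ c d) : Cg V ρ (a * c) (b * d) := by
  refine ⟨by rw [map_mul]; exact mul_le_one' h.l h'.l, by rw [map_mul]; exact mul_le_one' h.r h'.r, ?_⟩
  rw [show a * c - b * d = a * (c - d) + d * (a - b) by ring]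
  refine (V.valuation.map_add _ _).trans (max_le ?_ ?_)
  · rw [map_mul]
    exact (mul_le_of_le_one_left' h.l).trans h'.d
  · rw [map_mul]
    exact (mul_le_of_le_one_left' h'.r).trans h.d

lemma Cg.refl {a : ℂ} (h : V.valuation a ≤ 1) : Cg V ρ a a := ⟨h, h, by simp⟩

lemma Cg.unit {a : ℂ} (hρ : ρ < 1) (h : Cg V ρ a 1) : V.valuation a = 1 := by
  have h1 : V.valuation (a - 1) < V.valuation (1 : ℂ) := by
    rw [map_one]; exact h.d.trans_lt hρ
  have h2 := V.valuation.map_add_eq_of_lt_left h1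
  rwa [add_sub_cancel, map_one] at h2

lemma Cg.inv {a : ℂ} (hρ : ρ < 1) (h : Cg V ρ a 1) : Cg V ρ a⁻¹ 1 := by
  have h1 := h.unit hρ
  have ha : a ≠ 0 := by
    rintro rfl
    simp at h1
  refine ⟨by rw [map_inv₀, h1, inv_one], by simp, ?_⟩
  rw [show a⁻¹ - 1 = -(a - 1) * a⁻¹ by field_simp; ring, map_mul, Valuation.map_neg, map_inv₀, h1,
    inv_one, mul_one]
  exact h.d

lemma Cg.congr {a b c : ℂ} (h : Cg V ρ a b) (e : b = c) : Cg V ρ a c := e ▸ h

lemma int_nat (n : ℕ) : V.valuation (n : ℂ) ≤ 1 :=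
  (ValuationSubring.valuation_le_one_iff _ _).2 (natCast_mem V n)

/-- finite products of linear factors at a point of large valuation -/
lemma prd (x : ℂ) (hx : x ≠ 0) (hρ : V.valuation x⁻¹ < 1) (s : Finset ℂ) (a : ℂ → ℂ)
    (ha : ∀ q ∈ s, V.valuation (a q) ≤ 1) :
    Cg V (V.valuation x⁻¹) ((∏ q ∈ s, (X - C (a q))).eval x / x ^ s.card) 1 ∧
    Cg V (V.valuation x⁻¹)
      (x * (derivative (∏ q ∈ s, (X - C (a q)))).eval x / x ^ s.card) s.card := by
  classical
  induction s using Finset.induction_on with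
  | empty => 
    constructor
    · simpa using Cg.refl (by simp)
    · simpa using Cg.refl (by simp)
  | insert p s hp ih =>
    obtain ⟨h1, h2⟩ := ih fun q hq => ha q (Finset.mem_insert_of_mem hq)
    have h3 : Cg V (V.valuation x⁻¹) (1 - a p * x⁻¹) 1 := by
      have : V.valuation (a p * x⁻¹) ≤ V.valuation x⁻¹ := by
        rw [map_mul]
        exact mul_le_of_le_one_left' (ha p (Finset.mem_insert_self _ _))
      refine ⟨(V.valuation.map_sub _ _).trans (max_le (by simp) (this.trans hρ.le)), by simp, ?_⟩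
      rw [show 1 - a p * x⁻¹ - 1 = -(a p * x⁻¹) by ring, Valuation.map_neg]
      exact this
    rw [Finset.prod_insert hp, Finset.card_insert_of_notMem hp]
    constructor
    · have h5 : Cg V (V.valuation x⁻¹) _ 1 := (h3.mul h1).congr (by ring)
      convert h5 using 1
      rw [eval_mul, eval_sub, eval_X, eval_C, pow_succ]
      field_simp
    · have h4 := (h1.add (h3.mul h2)).congr (show (1 : ℂ) + 1 * (s.card : ℂ) = ((s.card + 1 : ℕ) : ℂ) by push_cast; ring)
      convert h4 using 1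
      rw [derivative_mul, eval_add, eval_mul, eval_mul, eval_sub, eval_X, eval_C, derivative_sub,
        derivative_X, derivative_C, sub_zero, eval_one, one_mul, pow_succ]
      field_simp

lemma algx (x e e' x' mu A B P : ℂ) (hx : x ≠ 0) (hmu : mu ≠ 0) (hA : A ≠ 0) (hP : P ≠ 0)
    (h1 : (x' - e') * (mu * A) ^ 2 = (x - e) * B ^ 2) :
    x' = (mu ^ 2)⁻¹ * x *
      ((1 - e * x⁻¹) * (B / P) ^ 2 * ((A / P)⁻¹) ^ 2 + e' * mu ^ 2 * x⁻¹) := by
  have h : (mu ^ 2)⁻¹ * x *
      ((1 - e * x⁻¹) * (B / P) ^ 2 * ((A / P)⁻¹) ^ 2 + e' * mu ^ 2 * x⁻¹) =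
      ((x - e) * B ^ 2) / (mu * A) ^ 2 + e' := by
    field_simp
  rw [h, ← h1]
  field_simp
  ring

lemma algy (x y e e' x' y' mu A A' B B' P : ℂ) (hx : x ≠ 0) (hmu : mu ≠ 0) (hA : A ≠ 0)
    (hP : P ≠ 0) (h1 : (x' - e') * (mu * A) ^ 2 = (x - e) * B ^ 2)
    (h2 : mu * (2 * y') * (mu * A) ^ 2 + (x' - e') * (2 * (mu * A) * (mu * (A' * (2 * y)))) =
      2 * y * B ^ 2 + (x - e) * (2 * B * (B' * (2 * y)))) :
    y' = (mu ^ 3)⁻¹ * y * (((A / P)⁻¹) ^ 2 * ((B / P) ^ 2 +
      2 * ((1 - e * x⁻¹) * (B / P) * (x * B' / P)) -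
      2 * ((1 - e * x⁻¹) * (B / P) ^ 2 * (x * A' / P) * (A / P)⁻¹))) := by
  have h : (mu ^ 3)⁻¹ * y * (((A / P)⁻¹) ^ 2 * ((B / P) ^ 2 +
      2 * ((1 - e * x⁻¹) * (B / P) * (x * B' / P)) -
      2 * ((1 - e * x⁻¹) * (B / P) ^ 2 * (x * A' / P) * (A / P)⁻¹))) =
      (y * B ^ 2 + 2 * (x - e) * B * B' * y) / (mu ^ 3 * A ^ 2) -
        2 * ((x - e) * B ^ 2) * A' * y / (mu ^ 3 * A ^ 3) := by
    field_simp
  rw [h, ← h1]
  have h3 : y' * (mu ^ 3 * A ^ 2) = y * B ^ 2 + 2 * (x - e) * B * B' * y -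
      2 * (x' - e') * mu ^ 2 * A * A' * y := by
    linear_combination (1 / 2) * h2
  have h4 : (2 * ((x' - e') * (mu * A) ^ 2) * A' * y / (mu ^ 3 * A ^ 3)) =
      (2 * (x' - e') * mu ^ 2 * A * A' * y) / (mu ^ 3 * A ^ 2) := by
    field_simp
  rw [h4, ← sub_div, ← h3]
  field_simp

lemma hdP (L : PeriodPair) {z : ℂ} (hz : z ∉ L.lattice) :
    HasDerivAt L.weierstrassP (L.derivWeierstrassP z) z := by
  have h1 : DifferentiableAt ℂ L.weierstrassP z :=
    (L.analyticOnNhd_weierstrassP z (by simpa using hz)).differentiableAt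
  rw [← L.deriv_weierstrassP]
  exact h1.hasDerivAt

/-- the derivative of the identity of the isogeny -/
lemma der (L M : PeriodPair) (c mu E E' u : ℂ) (A B : ℂ[X]) (hu : u ∉ L.lattice)
    (hmu : mu * u ∉ M.lattice)
    (h : ∀ z, mu * z ∉ M.lattice →
      (M.weierstrassP (mu * z) - E') * (mu * A.eval (L.weierstrassP z - c)) ^ 2 =
        (L.weierstrassP z - E) * B.eval (L.weierstrassP z - c) ^ 2) :
    mu * (2 * (M.derivWeierstrassP (mu * u) / 2)) * (mu * A.eval (L.weierstrassP u - c)) ^ 2 +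
      (M.weierstrassP (mu * u) - E') * (2 * (mu * A.eval (L.weierstrassP u - c)) *
        (mu * ((derivative A).eval (L.weierstrassP u - c) *
          (2 * (L.derivWeierstrassP u / 2))))) =
    2 * (L.derivWeierstrassP u / 2) * B.eval (L.weierstrassP u - c) ^ 2 +
      (L.weierstrassP u - E) * (2 * B.eval (L.weierstrassP u - c) *
        ((derivative B).eval (L.weierstrassP u - c) * (2 * (L.derivWeierstrassP u / 2)))) := by
  have dL := hdP L hu
  have dm : HasDerivAt (fun z : ℂ => mu * z) mu u := by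
    simpa using (hasDerivAt_id u).const_mul mu
  have dM : HasDerivAt (fun z => M.weierstrassP (mu * z))
      (M.derivWeierstrassP (mu * u) * mu) u := HasDerivAt.comp u (hdP M hmu) dm
  have dA : HasDerivAt (fun z => A.eval (L.weierstrassP z - c))
      ((derivative A).eval (L.weierstrassP u - c) * L.derivWeierstrassP u) u :=
    HasDerivAt.comp (h₂ := fun t => A.eval t) u (A.hasDerivAt _) (dL.sub_const c)
  have dB : HasDerivAt (fun z => B.eval (L.weierstrassP z - c))
      ((derivative B).eval (L.weierstrassP u - c) * L.derivWeierstrassP u) u :=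
    HasDerivAt.comp (h₂ := fun t => B.eval t) u (B.hasDerivAt _) (dL.sub_const c)
  have dF := (dM.sub_const E').fun_mul ((dA.const_mul mu).fun_pow 2)
  have dG := (dL.sub_const E).fun_mul (dB.fun_pow 2)
  have hev : (fun z => (M.weierstrassP (mu * z) - E') *
      (mu * A.eval (L.weierstrassP z - c)) ^ 2) =ᶠ[nhds u]
      (fun z => (L.weierstrassP z - E) * B.eval (L.weierstrassP z - c) ^ 2) := by
    have h1 : ∀ᶠ z in nhds u, mu * z ∉ M.lattice :=
      dm.continuousAt.eventually (M.isClosed_lattice.isOpen_compl.mem_nhds hmu)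
    filter_upwards [h1] with z hz using h z hz
  have key := dF.unique (dG.congr_of_eventuallyEq hev)
  simp only [Nat.cast_ofNat, Nat.add_one_sub_one, pow_one] at key
  linear_combination key

end FOI

open FOI in
theorem t_FOI : S_FOI := by
  intro V L M mu n hGL hGM hmu hI hodd hn hker hvmu u hu huL
  obtain ⟨W, ξ, gL⟩ := hGL
  obtain ⟨W', ξ', gM⟩ := hGM
  -- the kernel
  have hk2 : ∀ z, mu * z ∈ M.lattice → 2 * z ∈ L.lattice → z ∈ L.lattice := by
    intro z hz h2z
    obtain ⟨k, hk⟩ := hodd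
    have h1 := hker z hz
    have h2 := sub_mem h1 (nsmul_mem h2z k)
    have e : (n : ℂ) * z - k • (2 * z) = z := by
      rw [hk, nsmul_eq_mul]; push_cast; ring
    rwa [e] at h2
  have hkerK : ∀ z, mu * z ∈ M.lattice → InK V L (xn L) z → z ∈ L.lattice := fun z hz hz2 =>
    mem_of_nat_mul gL hz2 hn (hker z hz)
  obtain ⟨H, hH⟩ := x_HAL L M mu hmu hI hk2
  have huM : mu * u ∉ M.lattice := fun h => huL (hkerK u h hu)
  have htwo : ∀ w : ℂ, 2 * w ∈ L.lattice → w ∉ L.lattice → ¬ InK V L (xn L) w := by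
    intro w hw hwL hw1
    exact hwL (mem_of_nat_mul gL hw1 (n := 2) (by simpa using gL.two) (by simpa using hw))
  have htwoM : ∀ w : ℂ, 2 * w ∈ M.lattice → w ∉ M.lattice → ¬ InK V M (xn M) w := by
    intro w hw hwL hw1
    exact hwL (mem_of_nat_mul gM hw1 (n := 2) (by simpa using gM.two) (by simpa using hw))
  have hq : ∀ q ∈ H, ¬ InK V L (xn L) q := by
    intro q hq hqK
    have h1 := hkerK q (hH.mem q hq) hqK
    apply hH.ne q hq
    have := add_mem h1 h1
    rwa [← two_mul] at this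
  obtain ⟨w, -, hw2, hwL, -, -, -, -⟩ := RMin.half_period L
  have hwK := htwo w hw2 hwL
  have hwq : ∀ q ∈ H, ¬ InK V L (xn L) (w + q) := by
    intro q hq hqK
    have h1 := inK_nat gL hqK 2
    have h2 := inK_sub gL h1 (inK_of_mem (V := V) (X := xn L) hw2)
    have e : ((2 : ℕ) : ℂ) * (w + q) - 2 * w = 2 * q := by push_cast; ring
    rw [e] at h2
    apply hH.ne q hq
    apply hkerK _ _ h2
    have h3 := hH.mem q hq
    have h4 := add_mem h3 h3
    rwa [← two_mul, ← mul_assoc, mul_comm 2 mu, mul_assoc] at h4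
  have hmw : mu * w ∉ M.lattice := fun h => hwL (hk2 w h hw2)
  have hmwK : ¬ InK V M (xn M) (mu * w) := by
    apply htwoM _ _ hmw
    have := hI _ hw2
    rwa [mul_left_comm] at this
  -- the polynomials
  obtain ⟨A, hA⟩ : ∃ A : ℂ[X], A = ∏ q ∈ H, (X - C (L.weierstrassP q - 1 / 12)) := ⟨_, rfl⟩
  obtain ⟨B, hB⟩ : ∃ B : ℂ[X], B = ∏ q ∈ H, (X - C (L.weierstrassP (w + q) - 1 / 12)) := ⟨_, rfl⟩
  have hpol : ∀ z, mu * z ∉ M.lattice →
      (M.weierstrassP (mu * z) - M.weierstrassP (mu * w)) *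
        (mu * A.eval (L.weierstrassP z - 1 / 12)) ^ 2 =
        (L.weierstrassP z - L.weierstrassP w) * B.eval (L.weierstrassP z - 1 / 12) ^ 2 := by
    intro z hz
    have h1 := (x_POL L M (1 / 12) mu H hmu hI hH).2 w hw2 hwL z hz
    rw [hA, hB]
    simpa [QI, CI] using h1
  have hder := der L M (1 / 12) mu (L.weierstrassP w) (M.weierstrassP (mu * w)) u A B huL huM hpol
  have hpu := hpol u huM
  -- valuations
  obtain ⟨ht1, ht0, htx⟩ := v_tX_lt gL hu huL
  have hx0 : xn L u ≠ 0 := by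
    intro h
    rw [h, map_zero, zero_mul] at htx
    exact zero_ne_one htx
  have hvr : V.valuation (xn L u)⁻¹ = V.valuation (tX (xn L) (yy L) u) ^ 2 := by
    rw [map_inv₀]
    exact inv_eq_of_mul_eq_one_right htx
  have hρ : V.valuation (xn L u)⁻¹ < 1 := by
    rw [hvr]
    exact pow_lt_one₀ zero_le ht1 two_ne_zero
  obtain ⟨hα, hα'⟩ := prd (xn L u) hx0 hρ H (fun q => L.weierstrassP q - 1 / 12)
    (fun q hqH => (int_X (hq q hqH)).2)
  obtain ⟨hβ, hβ'⟩ := prd (xn L u) hx0 hρ H (fun q => L.weierstrassP (w + q) - 1 / 12)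
    (fun q hqH => (int_X (hwq q hqH)).2)
  rw [← hA] at hα hα'
  rw [← hB] at hβ hβ'
  obtain ⟨P, hP⟩ : ∃ P : ℂ, P = xn L u ^ H.card := ⟨_, rfl⟩
  have hP0 : P ≠ 0 := by rw [hP]; exact pow_ne_zero _ hx0
  rw [← hP] at hα hα' hβ hβ'
  have hA0 : A.eval (xn L u) ≠ 0 := by
    intro h
    have := hα.unit hρ
    rw [h, zero_div, map_zero] at this
    exact zero_ne_one this
  have he : V.valuation (xn L w) ≤ 1 := (int_X hwK).2
  have he' : V.valuation (xn M (mu * w)) ≤ 1 := (int_X hmwK).2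
  have h1 : (xn M (mu * u) - xn M (mu * w)) * (mu * A.eval (xn L u)) ^ 2 =
      (xn L u - xn L w) * B.eval (xn L u) ^ 2 := by
    have e1 : xn M (mu * u) - xn M (mu * w) =
      M.weierstrassP (mu * u) - M.weierstrassP (mu * w) := by unfold xn; ring
    have e2 : xn L u - xn L w = L.weierstrassP u - L.weierstrassP w := by unfold xn; ring
    rw [e1, e2]
    exact hpu
  have h2 : mu * (2 * yy M (mu * u)) * (mu * A.eval (xn L u)) ^ 2 +
      (xn M (mu * u) - xn M (mu * w)) * (2 * (mu * A.eval (xn L u)) *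
        (mu * ((derivative A).eval (xn L u) * (2 * yy L u)))) =
      2 * yy L u * B.eval (xn L u) ^ 2 + (xn L u - xn L w) * (2 * B.eval (xn L u) *
        ((derivative B).eval (xn L u) * (2 * yy L u))) := by
    have e1 : xn M (mu * u) - xn M (mu * w) =
      M.weierstrassP (mu * u) - M.weierstrassP (mu * w) := by unfold xn; ring
    have e2 : xn L u - xn L w = L.weierstrassP u - L.weierstrassP w := by unfold xn; ring
    rw [e1, e2]
    exact hder
  have kx := algx _ _ _ _ _ _ _ P hx0 hmu hA0 hP0 h1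
  have ky := algy _ _ _ _ _ _ _ _ _ _ _ P hx0 hmu hA0 hP0 h1 h2
  have h1r : Cg V (V.valuation (xn L u)⁻¹) (1 - xn L w * (xn L u)⁻¹) 1 := by
    have h3 : V.valuation (xn L w * (xn L u)⁻¹) ≤ V.valuation (xn L u)⁻¹ := by
      rw [map_mul]
      exact mul_le_of_le_one_left' he
    refine ⟨(V.valuation.map_sub _ _).trans (max_le (by simp) (h3.trans hρ.le)), by simp, ?_⟩
    rw [show 1 - xn L w * (xn L u)⁻¹ - 1 = -(xn L w * (xn L u)⁻¹) by ring, Valuation.map_neg]
    exact h3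
  have h2r : Cg V (V.valuation (xn L u)⁻¹) (xn M (mu * w) * mu ^ 2 * (xn L u)⁻¹) 0 := by
    have h3 : V.valuation (xn M (mu * w) * mu ^ 2 * (xn L u)⁻¹) ≤ V.valuation (xn L u)⁻¹ := by
      rw [map_mul, map_mul, map_pow, hvmu, one_pow, mul_one]
      exact mul_le_of_le_one_left' he'
    exact ⟨h3.trans hρ.le, by simp, by rwa [sub_zero]⟩
  have hαi := hα.inv hρ
  have hX1 := (((h1r.mul (hβ.mul hβ)).mul (hαi.mul hαi)).add h2r)
  have hY1 := (hαi.mul hαi).mul (((hβ.mul hβ).add (((Cg.refl (V := V)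
    (ρ := V.valuation (xn L u)⁻¹) (a := 2) (by rw [gL.two])).mul
    ((h1r.mul hβ).mul hβ')))).sub (((Cg.refl (V := V)
    (ρ := V.valuation (xn L u)⁻¹) (a := 2) (by rw [gL.two])).mul
    (((h1r.mul (hβ.mul hβ)).mul hα').mul hαi))))
  obtain ⟨X1, hX1d⟩ : ∃ X1 : ℂ, X1 = (1 - xn L w * (xn L u)⁻¹) * (B.eval (xn L u) / P) ^ 2 *
    ((A.eval (xn L u) / P)⁻¹) ^ 2 + xn M (mu * w) * mu ^ 2 * (xn L u)⁻¹ := ⟨_, rfl⟩
  obtain ⟨Y1, hY1d⟩ : ∃ Y1 : ℂ, Y1 = ((A.eval (xn L u) / P)⁻¹) ^ 2 * ((B.eval (xn L u) / P) ^ 2 +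
      2 * ((1 - xn L w * (xn L u)⁻¹) * (B.eval (xn L u) / P) *
        (xn L u * (derivative B).eval (xn L u) / P)) -
      2 * ((1 - xn L w * (xn L u)⁻¹) * (B.eval (xn L u) / P) ^ 2 *
        (xn L u * (derivative A).eval (xn L u) / P) * (A.eval (xn L u) / P)⁻¹)) := ⟨_, rfl⟩
  have cX : Cg V (V.valuation (xn L u)⁻¹) X1 1 := by
    rw [hX1d]
    convert hX1 using 1
    · ring
    · ring
  have cY : Cg V (V.valuation (xn L u)⁻¹) Y1 1 := by
    rw [hY1d]
    convert hY1 using 1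
    · ring
    · ring
  rw [← hX1d] at kx
  rw [← hY1d] at ky
  have hvX := cX.unit hρ
  have hvY := cY.unit hρ
  have hY0 : Y1 ≠ 0 := by
    rintro rfl
    rw [map_zero] at hvY
    exact zero_ne_one hvY
  have hy0 : yy L u ≠ 0 := by
    intro h
    apply ht0
    unfold tX
    rw [h, div_zero, neg_zero, map_zero]
  refine ⟨Or.inr ?_, huM, ?_⟩
  · rw [← ValuationSubring.valuation_le_one_iff, kx, map_mul, map_mul, map_inv₀, map_pow, hvmu,
      one_pow, inv_one, one_mul, hvX, mul_one]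
    intro h3
    have h4 : V.valuation (xn L u) * V.valuation (tX (xn L) (yy L) u) ^ 2 < 1 :=
      (mul_le_of_le_one_left' h3).trans_lt (pow_lt_one₀ zero_le ht1 two_ne_zero)
    exact absurd htx h4.ne
  · have e : tX (xn M) (yy M) (mu * u) - mu * tX (xn L) (yy L) u =
        mu * tX (xn L) (yy L) u * (X1 * Y1⁻¹ - 1) := by
      unfold tX
      rw [kx, ky]
      field_simp
      ring
    have h3 := (cX.mul (cY.inv hρ)).d
    rw [one_mul] at h3
    rw [e, map_mul, map_mul, hvmu, one_mul]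
    rw [hvr] at h3
    exact (mul_le_of_le_one_left' ht1.le).trans h3

end

end Pool.Agent.TWT
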