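import Pool.Agent.TWT.StT2
import Pool.Agent.MUX.I_PQF
import Pool.Agent.MUX.F_ALG
import Pool.Agent.MUX.F_IDL

/-!
# TWT, block B: ideals prime to `p` (module IDP)
-/

set_option autoImplicit false

namespace Pool.Agent.TWT

open _root_.MU3 Pool.Agent.MU3A Pool.Agent.MU3B Pool.Agent.MU3C Pool.Agent.RI Pool.Agent.RID
open Pool.Agent.MUX
open Pool.Agent.MUXI.PQFaux

noncomputable section

namespace IDP

variable {A B : ℤ}

lemma cop_one {I : Ideal (OO A B)} {a : OO A B} (h : a - 1 ∈ I) : IsCoprime (sp a) I := by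
  rw [Ideal.isCoprime_iff_exists]
  exact ⟨a, Ideal.subset_span rfl, 1 - a, by rw [← neg_sub]; exact I.neg_mem h, by ring⟩

lemma idl_mul (m n : ℕ) : idl (A := A) (B := B) (m * n) = idl m * idl n := by
  unfold idl
  rw [Ideal.span_singleton_mul_span_singleton, Nat.cast_mul]

end IDP

open IDP in
theorem t_IDP : S_IDP := by
  intro p A B P V f hS
  have hprime : p.Prime := hS.pp
  have hPp : P.IsPrime := hS.hP.prime
  have hpP : ((p : ℕ) : OO A B) ∈ P := hS.hP.mem
  have h1P : (1 : OO A B) ∉ P := fun h => hPp.ne_top ((Ideal.eq_top_iff_one P).2 h)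
  have hp0 : p ≠ 0 := hprime.ne_zero
  -- coprime integers
  have hci : ∀ c : ℤ, ¬ (p : ℤ) ∣ c → IsCoprime (p : ℤ) c := fun c hpc =>
    (Int.prime_iff_natAbs_prime.2 (by simpa using hprime)).coprime_iff_not_dvd.2 hpc
  -- integers in `P`
  have hint : ∀ c : ℤ, (c : OO A B) ∈ P ↔ (p : ℤ) ∣ c := by
    intro c
    constructor
    · intro hc
      by_contra hpc
      obtain ⟨u, v, huv⟩ := hci c hpc
      apply h1P
      have h3 : ((u : ℤ) : OO A B) * (p : ℕ) + (v : ℤ) * (c : ℤ) = 1 := by
        have := congrArg (Int.cast : ℤ → OO A B) huv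
        push_cast at this
        exact this
      rw [← h3]
      exact P.add_mem (P.mul_mem_left _ hpP) (P.mul_mem_left _ hc)
    · rintro ⟨y, rfl⟩
      push_cast
      exact P.mul_mem_right _ hpP
  have hintn : ∀ c : ℕ, (c : OO A B) ∈ P ↔ p ∣ c := by
    intro c
    have h3 := hint (c : ℤ)
    rw [Int.cast_natCast] at h3
    rw [h3, Int.natCast_dvd_natCast]
  -- `P ≠ ⊥`
  have hPb : P ≠ ⊥ := by
    rintro rfl
    rw [Ideal.mem_bot] at hpP
    have h3 : ((p : ℤ) : OO A B) = 0 := by exact_mod_cast hpP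
    have h4 := congrArg QuadraticAlgebra.re h3
    rw [re_int] at h4
    simp at h4
    exact hp0 h4
  have hnorm : Nat.card (OO A B ⧸ P) = p := hS.hP.norm
  -- every class modulo `P` contains an integer
  have hcls : ∀ x : OO A B, ∃ c : Fin p, x - ((c : ℕ) : OO A B) ∈ P := by
    have hfin : Finite (OO A B ⧸ P) := Nat.finite_of_card_ne_zero (by rw [hnorm]; exact hp0)
    let φ : Fin p → OO A B ⧸ P := fun c => Ideal.Quotient.mk P ((c : ℕ) : OO A B)
    have hφ : Function.Injective φ := by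
      intro c c' hcc
      have h3 : ((c : ℕ) : OO A B) - ((c' : ℕ) : OO A B) ∈ P := Ideal.Quotient.eq.1 hcc
      have h4 : (((c : ℕ) - (c' : ℕ) : ℤ) : OO A B) ∈ P := by
        push_cast
        exact h3
      rw [hint] at h4
      obtain ⟨y, hy⟩ := h4
      have hc := c.2
      have hc' := c'.2
      have hy0 : y = 0 := by
        by_contra hne
        rcases lt_or_gt_of_ne hne with h | h <;> nlinarith
      rw [hy0] at hy
      apply Fin.ext
      omega
    have hb := hφ.bijective_of_nat_card_le (by rw [hnorm]; simp)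
    intro x
    obtain ⟨c, hc⟩ := hb.2 (Ideal.Quotient.mk P x)
    exact ⟨c, Ideal.Quotient.eq.1 hc.symm⟩
  have hcls' : ∀ x : OO A B, ∃ c : ℕ, c < p ∧ x - c ∈ P := fun x => by
    obtain ⟨c, hc⟩ := hcls x
    exact ⟨c, c.2, hc⟩
  -- the product
  have hPQ : P * cjI P = idl (A := A) (B := B) p := by
    have h3 := (Pool.Agent.MUXF.tx_IDL Pool.Agent.MUXF.tx_ALG A B ⟨hS.cq.hB, hS.cq.neg, hS.cq.fund1, hS.cq.fund0⟩ P hPb).2
    have h4 : MUXF.nI P = p := hnorm
    rw [h4] at h3
    exact h3
  -- coprime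
  have hcop : IsCoprime P (cjI P) := by
    obtain ⟨c, hc⟩ := hcls (⟨0, 1⟩ : OO A B)
    obtain ⟨k, hk⟩ : ∃ k : ℤ, k = ((c : ℕ) : ℤ) := ⟨_, rfl⟩
    have hc' : (⟨0, 1⟩ : OO A B) - ((k : ℤ) : OO A B) ∈ P := by
      rw [hk]
      simpa using hc
    set y : OO A B := (⟨0, 1⟩ : OO A B) - ((k : ℤ) : OO A B) with hy
    have hyre : y.re = -k := by simp [hy]
    have hyim : y.im = 1 := by simp [hy]
    have hnm : y * star y = ((k ^ 2 - B * k - A : ℤ) : OO A B) := by
      apply QuadraticAlgebra.ext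
      · rw [re_int, QuadraticAlgebra.re_mul, QuadraticAlgebra.re_star, QuadraticAlgebra.im_star,
          hyre, hyim]
        ring
      · rw [im_int, QuadraticAlgebra.im_mul, QuadraticAlgebra.re_star, QuadraticAlgebra.im_star,
          hyre, hyim]
        ring
    have hdvd : (p : ℤ) ∣ k ^ 2 - B * k - A := by
      rw [← hint, ← hnm]
      exact P.mul_mem_right _ hc'
    have htr : y + star y = ((B - 2 * k : ℤ) : OO A B) := by
      apply QuadraticAlgebra.ext
      · rw [re_int, QuadraticAlgebra.re_add, QuadraticAlgebra.re_star, hyre, hyim]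
        ring
      · rw [im_int, QuadraticAlgebra.im_add, QuadraticAlgebra.im_star]
        ring
    -- `B - 2 k` is prime to `p`
    have hnd : ¬ (p : ℤ) ∣ B - 2 * k := by
      intro h3
      apply hS.pD
      have h4 : absD A B = -((B - 2 * k) * (B - 2 * k)) + 4 * (k ^ 2 - B * k - A) := by
        unfold absD
        ring
      rw [h4]
      exact dvd_add ((h3.mul_left _).neg_right) (hdvd.mul_left _)
    obtain ⟨u, v, huv⟩ := hci _ hnd
    have huv' : ((u : ℤ) : OO A B) * ((p : ℕ) : OO A B) +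
        ((v : ℤ) : OO A B) * ((B - 2 * k : ℤ) : OO A B) = 1 := by
      have := congrArg (Int.cast : ℤ → OO A B) huv
      push_cast at this ⊢
      exact this
    rw [Ideal.isCoprime_iff_exists]
    refine ⟨((v : ℤ) : OO A B) * y + ((u : ℤ) : OO A B) * ((p : ℕ) : OO A B), ?_,
      ((v : ℤ) : OO A B) * star y, ?_, ?_⟩
    · exact P.add_mem (P.mul_mem_left _ hc') (P.mul_mem_left _ hpP)
    · refine (cjI P).mul_mem_left _ ?_
      rw [mem_cjI, star_star]
      exact hc'
    · rw [← htr] at huv'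
      linear_combination huv'
  have hpQ : ((p : ℕ) : OO A B) ∈ cjI P := by
    rw [mem_cjI]
    have h3 : star ((p : ℕ) : OO A B) = ((p : ℕ) : OO A B) := by simp
    rw [h3]
    exact hpP
  have hmI : ∀ m : ℕ, ¬ p ∣ m → ∀ I : Ideal (OO A B), ((p : ℕ) : OO A B) ∈ I →
      IsCoprime (idl (A := A) (B := B) m) I := by
    intro m hm I hI
    obtain ⟨u, v, huv⟩ := hci (m : ℤ) (by rwa [Int.natCast_dvd_natCast])
    have huv' : ((u : ℤ) : OO A B) * (p : ℕ) + (v : ℤ) * (m : ℕ) = 1 := by
      have := congrArg (Int.cast : ℤ → OO A B) huv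
      push_cast at this
      exact this
    rw [Ideal.isCoprime_iff_exists]
    exact ⟨_, Ideal.mul_mem_left _ ((v : ℤ) : OO A B) (Ideal.subset_span rfl), _,
      I.mul_mem_left ((u : ℤ) : OO A B) hI, by rw [add_comm]; exact huv'⟩
  have hmC : ∀ m : ℕ, ¬ p ∣ m → IsCoprime (idl (A := A) (B := B) m * cjI P) P := fun m hm =>
    (hmI m hm P hpP).mul_left hcop.symm
  -- elements prime to `P`
  have hcP : ∀ a : OO A B, a ∉ P → IsCoprime (sp a) P := by
    intro a ha
    obtain ⟨c, hc, hac⟩ := hcls' a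
    have hpc : ¬ (p : ℤ) ∣ (c : ℤ) := by
      rw [← hint, Int.cast_natCast]
      intro h3
      apply ha
      have := P.add_mem hac h3
      rwa [sub_add_cancel] at this
    obtain ⟨u, v, huv⟩ := hci _ hpc
    have huv' : ((u : ℤ) : OO A B) * (p : ℕ) + (v : ℤ) * (c : ℕ) = 1 := by
      have := congrArg (Int.cast : ℤ → OO A B) huv
      push_cast at this
      exact this
    rw [Ideal.isCoprime_iff_exists]
    refine ⟨((v : ℤ) : OO A B) * a, Ideal.mul_mem_left _ _ (Ideal.subset_span rfl),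
      ((u : ℤ) : OO A B) * (p : ℕ) - ((v : ℤ) : OO A B) * (a - c), ?_, ?_⟩
    · exact P.sub_mem (P.mul_mem_left _ hpP) (P.mul_mem_left _ hac)
    · linear_combination huv'
  have hprod : ∀ m : ℕ, idl (A := A) (B := B) (m * p) = idl m * cjI P * P := by
    intro m
    rw [idl_mul, ← hPQ, mul_assoc, mul_comm (cjI P) P]
  have hcopmp : ∀ (m : ℕ) (a : OO A B), IsCoprime (sp a) (idl m * cjI P) → a ∉ P →
      IsCoprime a ((m * p : ℕ) : OO A B) := by
    intro m a h3 h4
    have h5 := h3.mul_right (hcP a h4)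
    rw [← hprod] at h5
    exact (Ideal.isCoprime_span_singleton_iff _ _).1 h5
  have hnotP : ∀ (m : ℕ) (a : OO A B), IsCoprime a ((m * p : ℕ) : OO A B) → a ∉ P := by
    rintro m a ⟨r, s, hrs⟩ ha
    apply h1P
    rw [← hrs]
    refine P.add_mem (P.mul_mem_left _ ha) (P.mul_mem_left _ ?_)
    rw [Nat.cast_mul]
    exact P.mul_mem_left _ hpP
  refine ⟨hcls', hint, hPQ, hcop, ?_, ?_, ?_⟩
  · intro m hm
    refine ⟨hmI m hm P hpP, hmI m hm _ hpQ, ?_⟩
    obtain ⟨a, ha, b, hb, hab⟩ := Ideal.isCoprime_iff_exists.1 (hmC m hm)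
    refine ⟨b, hb, ?_⟩
    have h3 : b - 1 = -a := by linear_combination hab
    rw [h3]
    exact Ideal.neg_mem_iff _ |>.2 ha
  · obtain ⟨a, ha, b, hb, hab⟩ := Ideal.isCoprime_iff_exists.1 hcop
    refine ⟨b, hb, fun h3 => h1P ?_⟩
    rw [← hab]
    exact P.add_mem ha h3
  · intro m x0 y0 hm0 hm hx0 hx01 hy0 hy0P
    have hmP : ((m : ℕ) : OO A B) ∉ P := fun h3 => hm ((hintn m).1 h3)
    have hcm : ∀ c : OO A B, c * m * y0 ∈ idl (A := A) (B := B) m * cjI P := by
      intro c
      rw [mul_assoc]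
      exact Ideal.mul_mem_left _ _ (Ideal.mul_mem_mul (Ideal.subset_span rfl) hy0)
    refine ⟨?_, ?_⟩
    · intro c hc1 hcp
      have hcP' : ((c : ℕ) : OO A B) ∉ P := by
        rw [hintn]
        exact fun h3 => absurd (Nat.le_of_dvd (by omega) h3) (by omega)
      have h3 : x0 + c * m * y0 - 1 ∈ idl m * cjI P := by
        have h4 : x0 + c * m * y0 - 1 = (x0 - 1) + c * m * y0 := by ring
        rw [h4]
        exact Ideal.add_mem _ hx01 (hcm _)
      refine ⟨hcopmp m _ (cop_one h3) ?_, h3⟩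
      intro h4
      have h5 := P.sub_mem h4 hx0
      rw [add_sub_cancel_left] at h5
      rcases hPp.mem_or_mem h5 with h6 | h6
      · rcases hPp.mem_or_mem h6 with h7 | h7
        · exact hcP' h7
        · exact hmP h7
      · exact hy0P h6
    · intro x X hx hX
      constructor
      · intro h3
        have hmy : (m : OO A B) * y0 ∉ P := fun h4 =>
          (hPp.mem_or_mem h4).elim hmP hy0P
        obtain ⟨i, hi, b, hb, hib⟩ := Ideal.isCoprime_iff_exists.1 (hcP _ hmy)
        obtain ⟨r, rfl⟩ := Ideal.mem_span_singleton'.1 hi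
        obtain ⟨c, hc, hXc⟩ := hcls' (X * r)
        have h4 : X - c * m * y0 ∈ P := by
          have h5 : X - c * m * y0 = (X * r - c) * (m * y0) + X * b := by
            linear_combination (-X) * hib
          rw [h5]
          exact P.add_mem (P.mul_mem_right _ hXc) (P.mul_mem_left _ hb)
        refine ⟨c, ?_, hc, ?_⟩
        · by_contra h5
          have h6 : c = 0 := by omega
          rw [h6, Nat.cast_zero, zero_mul, zero_mul, sub_zero] at h4
          exact hnotP m X hX h4
        · rw [hprod, Ideal.mul_eq_inf_of_coprime (Ideal.isCoprime_iff_sup_eq.1 (hmC m hm))]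
          refine ⟨?_, ?_⟩
          · have h5 : X - (x * x0 + c * m * y0) = (X - x) - x * (x0 - 1) - c * m * y0 := by ring
            rw [h5]
            exact Ideal.sub_mem _ (Ideal.sub_mem _ h3 (Ideal.mul_mem_left _ _ hx01)) (hcm _)
          · have h5 : X - (x * x0 + c * m * y0) = (X - c * m * y0) - x * x0 := by ring
            rw [h5]
            exact P.sub_mem h4 (P.mul_mem_left _ hx0)
      · rintro ⟨c, -, -, h3⟩
        rw [hprod] at h3
        have h5 : X - (x * x0 + c * m * y0) ∈ idl (A := A) (B := B) m * cjI P :=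
          (Ideal.mul_le_left : idl (A := A) (B := B) m * cjI P * P ≤ idl m * cjI P) h3
        have h6 : x * (x0 - 1) ∈ idl (A := A) (B := B) m * cjI P :=
          Ideal.mul_mem_left _ x hx01
        have h4 : X - x = (X - (x * x0 + c * m * y0)) + x * (x0 - 1) + c * m * y0 := by ring
        rw [h4]
        exact Ideal.add_mem _ (Ideal.add_mem _ h5 h6) (hcm _)

end

end Pool.Agent.TWT
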