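import Pool.Agent.TWT.PIS
import Pool.Agent.TWT.IDP
import Pool.Agent.MUX.StYX

/-!
# TWT, block A, module KEP (helper3): the valuation of the parameter of the points of `E[P]`
-/

set_option autoImplicit false

open WeierstrassCurve Polynomial

namespace Pool.Agent.TWT

open _root_.MU3 Pool.Agent.MU3A Pool.Agent.MU3B Pool.Agent.MUX Pool.Agent.MUXU
open Pool.Agent.MUXV (GR InK tX)

noncomputable section

namespace KEP

variable {p : ℕ} {A B : ℤ} {P : Ideal (OO A B)} {V : ValuationSubring ℂ} {f : ℕ}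

theorem cmo (h : SetG p A B P V f) {ι : Type} (R : Reps A B (p * f) ι) (i : ι) :
    Pool.Agent.MUXV.CMO A B (R.L i) := by
  intro x z hz
  obtain ⟨y, hy, rfl⟩ := ((R.nl i).mem z).1 hz
  refine ((R.nl i).mem _).2 ⟨x * y, Ideal.mul_mem_left _ _ hy, ?_⟩
  rw [Pool.Agent.MUX.emb_mul h.cq]
  ring

/-- the valuation of the multiplier -/
theorem vmu (hIDP : S_IDP) (h : SetG p A B P V f) {ι : Type} (R : Reps A B (p * f) ι)
    (hR : GRd V R) (i j : ι) (mu : ℂ) (hQ : IsQ P (R.L i) (R.L j) mu) :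
    V.valuation mu = V.valuation (p : ℂ) := by
  have hC := h.cq
  have : IsDomain (OO A B) := Pool.Agent.MUX.isDomain hC
  have hP0 : P ≠ ⊥ := PIS.P_ne h
  have hp5 := h.p5
  have hpC : (p : ℂ) ≠ 0 := by exact_mod_cast h.pp.ne_zero
  have hD : ¬ (p : ℤ) ∣ B ^ 2 + 4 * A := by
    intro hd
    apply h.pD
    have : absD A B = -(B ^ 2 + 4 * A) := rfl
    rw [this]
    exact (dvd_neg).2 hd
  have hOv : Pool.Agent.MUXV.Ovr P V := fun x hx => V.mem_nonunits_iff.1 ((h.hV x).2 hx)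
  obtain ⟨-, hz, hPQ, hcop, -, ⟨y0, hy0Q, hy0P⟩, -⟩ := hIDP p A B P V f h
  have hnQ : Nat.card (OO A B ⧸ cjI P) = p :=
    (Pool.Agent.MUX.nI_cjI hC hP0).trans h.hP.norm
  obtain ⟨a, c, haQ, ha0, hco, hpc, hael⟩ := Pool.Agent.MUXV.q_AEL A B (Pool.Agent.MUXY.cqF hC) (cjI P) p h.pp
    (by omega) hD hnQ
  have hcm := cmo h R i
  have hmul : ∀ x ∈ P, ∀ y ∈ cjI P, ∃ t : OO A B, x * y = ((p : ℕ) : OO A B) * t := by
    intro x hx y hy
    have h1 : x * y ∈ P * cjI P := Ideal.mul_mem_mul hx hy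
    rw [hPQ] at h1
    exact Ideal.mem_span_singleton.1 h1
  have hpm : ((p : ℕ) : OO A B) ∈ P * cjI P := by
    rw [hPQ]
    exact Ideal.mem_span_singleton_self _
  have hmu0 := hQ.1
  -- `a ∉ P`
  have haP : a ∉ P := by
    intro haP
    have h1 : a ∈ P ⊓ cjI P := ⟨haP, haQ⟩
    rw [← Ideal.mul_eq_inf_of_isCoprime hcop, hPQ] at h1
    obtain ⟨a', ha'⟩ := Ideal.mem_span_singleton.1 h1
    have h2 : ∀ ω ∈ (R.L i).lattice, emb y0 * ((c : ℂ) * (ω / p)) ∈ (R.L i).lattice := by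
      intro ω hω
      refine hael (R.L i) hcm (ω / p) ?_ y0 hy0Q
      rw [ha', Pool.Agent.MUX.emb_mul hC, Pool.Agent.MUX.emb_natCast hC]
      have e : (p : ℂ) * emb a' * (ω / p) = emb a' * ω := by field_simp
      rw [e]
      exact hcm a' ω hω
    set n := nI (R.b i) with hn
    have hnb : ((n : ℕ) : OO A B) ∈ R.b i := Pool.Agent.MUX.nI_mem hC (R.nl i).b_ne
    have hpn : n.Coprime p := (R.cop i).coprime_dvd_right (dvd_mul_right p f)
    have h3 := h2 (R.om i * emb ((n : ℕ) : OO A B)) (((R.nl i).mem _).2 ⟨_, hnb, rfl⟩)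
    obtain ⟨x, -, hx⟩ := ((R.nl i).mem _).1 h3
    have hom := (R.nl i).om_ne
    have h4 : y0 * ((c : ℕ) : OO A B) * ((n : ℕ) : OO A B) = ((p : ℕ) : OO A B) * x := by
      apply Pool.Agent.MUX.emb_inj hC
      rw [Pool.Agent.MUX.emb_mul hC, Pool.Agent.MUX.emb_mul hC, Pool.Agent.MUX.emb_mul hC,
        Pool.Agent.MUX.emb_natCast hC, Pool.Agent.MUX.emb_natCast hC,
        Pool.Agent.MUX.emb_natCast hC]
      rw [Pool.Agent.MUX.emb_natCast hC] at hx
      have h5 : R.om i * (emb y0 * c * n) = R.om i * (p * emb x) := by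
        calc R.om i * (emb y0 * c * n) = p * (emb y0 * ((c : ℂ) * (R.om i * n / p))) := by
              field_simp
          _ = p * (R.om i * emb x) := by rw [hx]
          _ = _ := by ring
      exact mul_left_cancel₀ hom h5
    have h5 : y0 * ((c : ℕ) : OO A B) * ((n : ℕ) : OO A B) ∈ P := by
      rw [h4]
      exact P.mul_mem_right _ h.hP.mem
    have hnP : ((n : ℕ) : OO A B) ∉ P := by
      intro h6
      have h7 := (hz (n : ℤ)).1 (by exact_mod_cast h6)
      have h8 : p ∣ n := by exact_mod_cast h7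
      have h9 : p ∣ 1 := by
        rw [← hpn]
        exact Nat.dvd_gcd h8 dvd_rfl
      exact h.pp.one_lt.ne' (Nat.dvd_one.1 h9)
    have hcP : ((c : ℕ) : OO A B) ∉ P := by
      intro h6
      have h7 := (hz (c : ℤ)).1 (by exact_mod_cast h6)
      exact hpc (by exact_mod_cast h7)
    rcases h.hP.prime.mem_or_mem h5 with h6 | h6
    · rcases h.hP.prime.mem_or_mem h6 with h7 | h7
      · exact hy0P h7
      · exact hcP h7
    · exact hnP h6
  have hva : V.valuation (emb a) = 1 :=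
    ((Pool.Agent.MUXV.q_VQI A B (Pool.Agent.MUXY.cqF hC) V).2 P p h.pp h.hP.norm hOv).2.2 a haP
  have hea : emb a ≠ 0 := Pool.Agent.MUX.emb_ne_zero hC ha0
  have hmu' : (p : ℂ) / mu ≠ 0 := div_ne_zero hpC hmu0
  have hform : ∀ z : ℂ, emb a / ((p : ℂ) / mu) * z = mu * (emb a * z / p) := by
    intro z
    field_simp
  have hvc : V.valuation (c : ℂ) = 1 := by
    have h1 := PIS.val_int h (c : ℤ) (fun h2 => hpc (by exact_mod_cast h2))
    simpa using h1
  have hmlt := Pool.Agent.MUXV.x_MLT V (R.L j) (R.L i) (1 / 12) (1 / 12) ((p : ℂ) / mu) (emb a) c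
    (PIS.good h R hR j) (PIS.good h R hR i) hmu' hea (by
      intro z hz'
      rw [hform]
      refine (hQ.2 _).2 fun x hx => ?_
      obtain ⟨t, ht⟩ := hmul x hx a haQ
      have e : emb x * (emb a * z / p) = emb t * z := by
        have h1 : emb x * emb a = p * emb t := by
          rw [← Pool.Agent.MUX.emb_mul hC, ht, Pool.Agent.MUX.emb_mul hC,
            Pool.Agent.MUX.emb_natCast hC]
        calc emb x * (emb a * z / p) = (emb x * emb a) * z / p := by ring
          _ = _ := by rw [h1]; field_simp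
      rw [e]
      exact hcm t z hz') hco hvc (by
      intro z hz'
      rw [hform] at hz'
      have h1 := (hQ.2 _).1 hz'
      have h2 : ∀ x ∈ P, ∀ y ∈ cjI P, emb (x * y) * ((c : ℂ) * z / p) ∈ (R.L i).lattice := by
        intro x hx y hy
        have h3 := hael (R.L i) hcm (emb x * z / p) (by
          have := h1 x hx
          have e : emb a * (emb x * z / p) = emb x * (emb a * z / p) := by ring
          rwa [e]) y hy
        have e : emb (x * y) * ((c : ℂ) * z / p) = emb y * ((c : ℂ) * (emb x * z / p)) := by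
          rw [Pool.Agent.MUX.emb_mul hC]
          ring
        rwa [e]
      have h3 : emb ((p : ℕ) : OO A B) * ((c : ℂ) * z / p) ∈ (R.L i).lattice := by
        refine Submodule.mul_induction_on (C := fun t : OO A B =>
          emb t * ((c : ℂ) * z / p) ∈ (R.L i).lattice) hpm h2 ?_
        intro x y hx hy
        rw [Pool.Agent.MUX.emb_add hC, add_mul]
        exact add_mem hx hy
      rw [Pool.Agent.MUX.emb_natCast hC] at h3
      have e : (p : ℂ) * ((c : ℂ) * z / p) = c * z := by field_simp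
      rwa [e] at h3)
  rw [hva, map_div₀] at hmlt
  have hvm : V.valuation mu ≠ 0 := (Valuation.ne_zero_iff _).2 hmu0
  rw [div_eq_one_iff_eq hvm] at hmlt
  exact hmlt.symm

end KEP

open KEP in
theorem t_KEP' (hIDP : S_IDP) : S_KEP := by
  intro p A B P V f h ι R hR i z hz hzL
  have hC := h.cq
  have hp5 := h.p5
  have hD : ¬ (p : ℤ) ∣ B ^ 2 + 4 * A := by
    intro hd
    apply h.pD
    have : absD A B = -(B ^ 2 + 4 * A) := rfl
    rw [this]
    exact (dvd_neg).2 hd
  have hOv : Pool.Agent.MUXV.Ovr P V := fun x hx => V.mem_nonunits_iff.1 ((h.hV x).2 hx)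
  obtain ⟨j, mu, hQ⟩ := PIS.isq h R i
  have hvmu := vmu hIDP h R hR i j mu hQ
  have hvp := PIS.val_lt h
  have hmu1 : V.valuation mu < 1 := by rw [hvmu]; exact hvp
  obtain ⟨⟨H, hIso⟩, -, -⟩ := Pool.Agent.MUXV.q_ISQ A B (Pool.Agent.MUXY.cqF hC) P p h.pp (by omega) hD h.hP.norm
    (R.L i) (R.L j) (1 / 12) (1 / 12) mu (cmo h R i) ⟨hQ.1, hQ.2⟩ V (PIS.good h R hR i)
    (PIS.good h R hR j)
  have hzm : mu * z ∈ (R.L j).lattice := (hQ.2 z).2 hz
  have hin := Pool.Agent.MUXV.x_R2 V (R.L i) (R.L j) (1 / 12) (1 / 12) mu p H hIso hmu1 z hzm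
  have htra := Pool.Agent.MUXV.x_TRA V (R.L i) (R.L j) (1 / 12) (1 / 12) mu p H hIso hvp hmu1 z
    hzm hzL
  obtain ⟨W, ξ, G⟩ := PIS.good h R hR i
  have h3 := (Pool.Agent.MUXV.v_tX_lt G hin hzL).2.2
  refine ⟨hin, ?_⟩
  have hodd : p % 2 = 1 := by
    rcases h.pp.eq_two_or_odd with h4 | h4
    · omega
    · exact h4
  set t := V.valuation (tX (xn (R.L i)) (yy (R.L i)) z) with ht
  set k := (p - 1) / 2 with hk
  have hk2 : p - 1 = 2 * k := by omega
  set x := V.valuation ((R.L i).weierstrassP z - 1 / 12) with hx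
  have h4 : x * t ^ 2 = 1 := h3
  have hx0 : x ^ k ≠ 0 := by
    intro h0
    rw [h0, mul_zero] at htra
    exact zero_ne_one htra
  have h5 : x ^ k * t ^ (p - 1) = 1 := by
    rw [hk2, pow_mul, ← mul_pow, h4, one_pow]
  rw [← hvmu]
  refine mul_left_cancel₀ hx0 ?_
  rw [h5, mul_comm, htra]

theorem t_KEP : S_KEP := t_KEP' t_IDP

end

end Pool.Agent.TWT
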