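import Pool.Agent.TWT.StT1

/-!
# TWT, module KEY (helper48): the product of `Θ(z + c R)` to the first order, one lattice
-/

set_option autoImplicit false

open WeierstrassCurve

namespace Pool.Agent.TWT

open _root_.MU3 Pool.Agent.MU3A Pool.Agent.MU3B Pool.Agent.MUX Pool.Agent.MUXU
open Pool.Agent.MUXV (GR InK tX)

noncomputable section

namespace KEY

variable {V : ValuationSubring ℂ}

/-- closeness to order `b` -/
lemma add_le' {x y : ℂ} {b : V.ValueGroup} (hx : V.valuation x ≤ b) (hy : V.valuation y ≤ b) :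
    V.valuation (x + y) ≤ b :=
  (V.valuation.map_add x y).trans (max_le hx hy)

lemma sub_le' {x y : ℂ} {b : V.ValueGroup} (hx : V.valuation x ≤ b) (hy : V.valuation y ≤ b) :
    V.valuation (x - y) ≤ b :=
  (V.valuation.map_sub x y).trans (max_le hx hy)

lemma sum_le' {ι : Type} (s : Finset ι) (f : ι → ℂ) {b : V.ValueGroup}
    (h : ∀ i ∈ s, V.valuation (f i) ≤ b) : V.valuation (∑ i ∈ s, f i) ≤ b := by
  classical
  induction s using Finset.induction_on with
  | empty => simp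
  | insert i s hi ih =>
    rw [Finset.sum_insert hi]
    exact add_le' (h i (Finset.mem_insert_self _ _))
      (ih fun j hj => h j (Finset.mem_insert_of_mem hj))

lemma pow_close {x y : ℂ} {b : V.ValueGroup} (hx : V.valuation x ≤ 1) (hy : V.valuation y ≤ 1)
    (h : V.valuation (x - y) ≤ b) (k : ℕ) : V.valuation (x ^ k - y ^ k) ≤ b := by
  induction k with
  | zero => simp
  | succ k ih =>
    have e : x ^ (k + 1) - y ^ (k + 1) = (x ^ k - y ^ k) * x + y ^ k * (x - y) := by ring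
    rw [e]
    apply add_le'
    · rw [map_mul]
      exact (mul_le_mul' ih hx).trans_eq (mul_one _)
    · rw [map_mul, map_pow]
      calc V.valuation y ^ k * V.valuation (x - y) ≤ 1 * b :=
            mul_le_mul' (pow_le_one' hy k) h
        _ = b := one_mul _

lemma vpi_close {lam : ℕ → ℂ} (h0 : lam 0 = 0) (h1 : lam 1 = 1)
    (hi : ∀ j, V.valuation (lam j) ≤ 1) {p : ℕ} (hp : 2 ≤ p) {t : ℂ} (ht : V.valuation t ≤ 1) :
    V.valuation (vpi lam p t - t) ≤ V.valuation t ^ 2 := by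
  have e : vpi lam p t - t = ∑ j ∈ Finset.range p, (if j < 2 then 0 else lam j * t ^ j) := by
    unfold vpi
    obtain ⟨q, rfl⟩ : ∃ q, p = q + 2 := ⟨p - 2, by omega⟩
    rw [Finset.sum_range_succ', Finset.sum_range_succ', Finset.sum_range_succ',
      Finset.sum_range_succ']
    simp only [zero_add, h0, h1]
    have : ∀ j : ℕ, ¬ (j + 1 + 1 < 2) := fun j => by omega
    simp only [this, if_false]
    simp
  rw [e]
  apply sum_le'
  intro j _
  split_ifs with hj
  · simp
  · rw [map_mul, map_pow]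
    calc V.valuation (lam j) * V.valuation t ^ j ≤ 1 * V.valuation t ^ 2 :=
          mul_le_mul' (hi j) (pow_le_pow_right_of_le_one' ht (by omega))
      _ = _ := one_mul _

lemma aeval_int {x y : ℂ} (hx : V.valuation x ≤ 1) (hy : V.valuation y ≤ 1)
    (f : MvPolynomial (Fin 2) V) : V.valuation (MvPolynomial.aeval ![x, y] f) ≤ 1 := by
  induction f using MvPolynomial.induction_on with
  | C a =>
    rw [MvPolynomial.aeval_C]
    exact (ValuationSubring.valuation_le_one_iff _ _).2 a.2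
  | add f g hf hg => rw [map_add]; exact add_le' hf hg
  | mul_X f i hf =>
    rw [map_mul, map_mul, MvPolynomial.aeval_X]
    refine (mul_le_mul' hf ?_).trans_eq (mul_one 1)
    fin_cases i
    · simpa using hx
    · simpa using hy

lemma fac_unit {p : ℕ} (hu : ∀ j : ℕ, 0 < j → j < p → V.valuation (j : ℂ) = 1) :
    ∀ k : ℕ, k < p → V.valuation ((k.factorial : ℕ) : ℂ) = 1 := by
  intro k
  induction k with
  | zero => intro _; simp
  | succ k ih =>
    intro hk
    rw [Nat.factorial_succ, Nat.cast_mul, map_mul, ih (by omega), hu (k + 1) (by omega) hk,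
      one_mul]

end KEY

theorem t_KEY (hTAY : S_TAY) (hADV : S_ADV) (hTHT : S_THT) (hKYR : S_KYR) : S_KEY := by
  intro V W L ξ G p hp hp5 hpV hu R hRK hRL hpR hτp
  have h2p : 2 ≤ p := by omega
  obtain ⟨a2, ha2⟩ : ∃ a2 : V, (a2 : ℂ) = W.a₂ :=
    ⟨⟨W.a₂, (ValuationSubring.valuation_le_one_iff _ _).1 G.int.a2⟩, rfl⟩
  obtain ⟨a4, ha4⟩ : ∃ a4 : V, (a4 : ℂ) = W.a₄ :=
    ⟨⟨W.a₄, (ValuationSubring.valuation_le_one_iff _ _).1 G.int.a4⟩, rfl⟩
  obtain ⟨lam, hlam⟩ := hTAY V W L (xn L) (yy L) ξ G p h2p hu a2 a4 ha2 ha4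
  obtain ⟨ht1, ht0, -⟩ := Pool.Agent.MUXV.v_tX_lt G hRK hRL
  have hwt : V.valuation (vpi lam p (tX (xn L) (yy L) R) - tX (xn L) (yy L) R) ≤
      V.valuation (tX (xn L) (yy L) R) ^ 2 :=
    KEY.vpi_close hlam.lam0 hlam.lam1 hlam.int h2p ht1.le
  have hcL : ∀ c : ℕ, 0 < c → c < p → (c : ℂ) * R ∉ L.lattice := by
    intro c h0 h1 h
    exact hRL (Pool.Agent.MUXV.mem_of_nat_mul G hRK (hu c h0 h1) h)
  have hcK : ∀ c : ℕ, InK V L (xn L) (c * R) := fun c => Pool.Agent.MUXV.inK_nat G hRK c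
  have hcτ : ∀ c : ℕ, 0 < c → c < p → V.valuation (tX (xn L) (yy L) (c * R)) =
      V.valuation (tX (xn L) (yy L) R) := fun c h0 h1 =>
    Pool.Agent.MUXV.v_tX_nat G hRK (hu c h0 h1) hRL (hcL c h0 h1)
  have hadv := hADV V W L (xn L) (yy L) ξ G p (by omega) hu a2 a4 ha2 ha4 lam hlam R hRK hcL
  refine ⟨vpi lam p (tX (xn L) (yy L) R), hwt, ?_⟩
  generalize hw : vpi lam p (tX (xn L) (yy L) R) = w at hwt hadv ⊢
  generalize hτ : V.valuation (tX (xn L) (yy L) R) = τ at *
  have hwv : V.valuation w = τ := by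
    have h1 : V.valuation (w - tX (xn L) (yy L) R) < V.valuation (tX (xn L) (yy L) R) := by
      refine hwt.trans_lt ?_
      rw [hτ, pow_two]
      exact mul_lt_of_lt_one_left (zero_lt_iff.2 ht0) ht1
    have h2 := Valuation.map_add_eq_of_lt_left V.valuation h1
    rw [add_sub_cancel] at h2
    rw [h2, hτ]
  intro a H ha1 hav hH z hz haz
  obtain ⟨θ, hθ⟩ := hTHT V W L ξ G a H ha1 hav hH a2 a4
  have hzc : ∀ c : ℕ, ¬ InK V L (xn L) (z + c * R) := by
    intro c h
    exact hz ((Pool.Agent.MUXV.inK_congr G (z := z + c * R) (w := z)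
      (by rw [add_sub_cancel_left]; exact hcK c)).1 h)
  have hazc : ∀ c : ℕ, ¬ InK V L (xn L) (a * (z + c * R)) := by
    intro c h
    refine haz ((Pool.Agent.MUXV.inK_congr G (z := a * (z + c * R)) (w := a * z) ?_).1 h)
    have e : (a : ℂ) * (z + c * R) - a * z = ((a * c : ℕ) : ℂ) * R := by push_cast; ring
    rw [e]
    exact hcK (a * c)
  have hT := fun c : ℕ => hθ (z + c * R) (hzc c) (hazc c)
  obtain ⟨hT0, hTu, -, -⟩ := hθ z hz haz
  refine ⟨fun c => ⟨(hT c).2.1, (hT c).2.2.2⟩, ?_⟩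
  generalize hT0d : ThetaH L H z = T0 at hT0 hTu ⊢
  have hT00 : T0 ≠ 0 := by
    intro h
    rw [h, map_zero] at hTu
    exact zero_ne_one hTu
  have hxz : V.valuation (xn L z) ≤ 1 := (Pool.Agent.MUXV.int_X hz).2
  have hyz : V.valuation (yy L z) ≤ 1 := Pool.Agent.MUXV.int_Y G hz
  have hfac := KEY.fac_unit hu
  -- coefficients
  have hAint : ∀ (f : MvPolynomial (Fin 2) V) (k : ℕ), k < p →
      V.valuation (MvPolynomial.aeval ![xn L z, yy L z] f / (k.factorial : ℂ)) ≤ 1 := by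
    intro f k hk
    rw [map_div₀, hfac k hk, div_one]
    exact KEY.aeval_int hxz hyz f
  have hcw : ∀ c : ℕ, 0 < c → c < p → V.valuation ((c : ℂ) * w) = τ := by
    intro c h0 h1
    rw [map_mul, hu c h0 h1, one_mul, hwv]
  -- the Taylor expansion with `c w`
  have tay' : ∀ (f : MvPolynomial (Fin 2) V) (c : ℕ), 0 < c → c < p →
      V.valuation (MvPolynomial.aeval ![xn L (z + c * R), yy L (z + c * R)] f -
        ∑ k ∈ Finset.range p, MvPolynomial.aeval ![xn L z, yy L z] ((dW a2 a4)^[k] f) /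
          (k.factorial : ℂ) * (c * w) ^ k) ≤ τ ^ p := by
    intro f c h0 h1
    have h3 := hlam.tay (c * R) (hcK c) (hcL c h0 h1) z hz f
    rw [hcτ c h0 h1] at h3
    have h4 := hadv c h0 h1
    have h5 : V.valuation (vpi lam p (tX (xn L) (yy L) (c * R))) ≤ 1 := by
      unfold vpi
      apply KEY.sum_le'
      intro j _
      rw [map_mul, map_pow, hcτ c h0 h1]
      exact (mul_le_mul' (hlam.int j) (pow_le_one' ht1.le j)).trans_eq (one_mul _)
    have e : MvPolynomial.aeval ![xn L (z + c * R), yy L (z + c * R)] f -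
        ∑ k ∈ Finset.range p, MvPolynomial.aeval ![xn L z, yy L z] ((dW a2 a4)^[k] f) /
          (k.factorial : ℂ) * (c * w) ^ k =
        (MvPolynomial.aeval ![xn L (z + c * R), yy L (z + c * R)] f -
        ∑ k ∈ Finset.range p, MvPolynomial.aeval ![xn L z, yy L z] ((dW a2 a4)^[k] f) /
          (k.factorial : ℂ) * vpi lam p (tX (xn L) (yy L) (c * R)) ^ k) +
        ∑ k ∈ Finset.range p, MvPolynomial.aeval ![xn L z, yy L z] ((dW a2 a4)^[k] f) /
          (k.factorial : ℂ) * (vpi lam p (tX (xn L) (yy L) (c * R)) ^ k - (c * w) ^ k) := by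
      simp only [mul_sub, Finset.sum_sub_distrib]
      ring
    rw [e]
    apply KEY.add_le' h3
    apply KEY.sum_le'
    intro k hk
    rw [map_mul]
    refine (mul_le_mul' (hAint _ k (Finset.mem_range.1 hk)) (KEY.pow_close h5 ?_ h4 k)).trans_eq
      (one_mul _)
    rw [hcw c h0 h1]
    exact ht1.le
  -- elements of `V`
  have hmemV : ∀ x : ℂ, V.valuation x ≤ 1 → x ∈ V := fun x hx =>
    (ValuationSubring.valuation_le_one_iff _ _).1 hx
  obtain ⟨e, he⟩ : ∃ e : ℕ → V, ∀ k, k < p → ((e k : V) : ℂ) =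
      MvPolynomial.aeval ![xn L z, yy L z] ((dW a2 a4)^[k] θ) / (k.factorial : ℂ) / T0 := by
    classical
    refine ⟨fun k => if h : (MvPolynomial.aeval ![xn L z, yy L z] ((dW a2 a4)^[k] θ) /
      (k.factorial : ℂ) / T0) ∈ V then ⟨_, h⟩ else 0, fun k hk => ?_⟩
    have h3 : (MvPolynomial.aeval ![xn L z, yy L z] ((dW a2 a4)^[k] θ) /
      (k.factorial : ℂ) / T0) ∈ V := by
      apply hmemV
      rw [map_div₀, hTu, div_one]
      exact hAint _ k hk
    simp only [dif_pos h3]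
  obtain ⟨f, hf⟩ : ∃ f : ℕ → V, ∀ c, ((f c : V) : ℂ) = ThetaH L H (z + c * R) / T0 :=
    ⟨fun c => ⟨ThetaH L H (z + c * R) / T0, hmemV _ (by
      rw [map_div₀, hTu, div_one]; exact (hT c).2.1.le)⟩, fun c => rfl⟩
  obtain ⟨g, hg⟩ : ∃ g : ℕ → V, ∀ c, ((g c : V) : ℂ) = dlX L a (z + c * R) :=
    ⟨fun c => ⟨dlX L a (z + c * R), hmemV _ (hT c).2.2.2⟩, fun c => rfl⟩
  obtain ⟨wV, hwV⟩ : ∃ wV : V, (wV : ℂ) = w :=
    ⟨⟨w, hmemV _ (by rw [hwv]; exact ht1.le)⟩, rfl⟩
  obtain ⟨I, hI⟩ : ∃ I : Ideal V, ∀ r : V, r ∈ I ↔ V.valuation (r : ℂ) ≤ τ ^ p := by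
    refine ⟨{ carrier := {r : V | V.valuation (r : ℂ) ≤ τ ^ p}
              add_mem' := ?_
              zero_mem' := ?_
              smul_mem' := ?_ }, fun r => Iff.rfl⟩
    · intro r s hr hs
      show V.valuation (((r + s : V)) : ℂ) ≤ τ ^ p
      rw [show (((r + s : V)) : ℂ) = (r : ℂ) + s from rfl]
      exact KEY.add_le' hr hs
    · show V.valuation (((0 : V)) : ℂ) ≤ τ ^ p
      simp
    · intro r s hs
      show V.valuation (((r * s : V)) : ℂ) ≤ τ ^ p
      rw [show (((r * s : V)) : ℂ) = (r : ℂ) * s from rfl, map_mul]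
      exact (mul_le_mul' ((ValuationSubring.valuation_le_one_iff _ _).2 r.2) hs).trans_eq
        (one_mul _)
  have hτ' : τ ^ p = V.valuation (p : ℂ) * τ := by
    rw [← hτp, ← pow_succ, Nat.sub_add_cancel (by omega)]
  have cS : ∀ (h : ℕ → V) (s : Finset ℕ), ((∑ k ∈ s, h k : V) : ℂ) = ∑ k ∈ s, ((h k : V) : ℂ) :=
    fun h s => map_sum V.subtype h s
  have cP : ∀ (h : ℕ → V) (s : Finset ℕ), ((∏ k ∈ s, h k : V) : ℂ) = ∏ k ∈ s, ((h k : V) : ℂ) :=
    fun h s => map_prod V.subtype h s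
  have cN : ∀ c : ℕ, (((c : ℕ) : V) : ℂ) = (c : ℂ) := fun c => map_natCast V.subtype c
  have hK := hKYR V p hp I wV ?_ ?_ e f g ?_ ?_ ?_
  · obtain ⟨hK1, r, hK2⟩ := hK
    rw [hI] at hK1 hK2
    have hS : ((∑ c ∈ Finset.Icc 1 (p - 1), (c : V) * g c : V) : ℂ) =
        ∑ c ∈ Finset.Icc 1 (p - 1), (c : ℂ) * dlX L a (z + c * R) := by
      rw [cS]
      refine Finset.sum_congr rfl fun c _ => ?_
      rw [← hg c]
      simp
    have hP : ((∏ c ∈ Finset.Icc 1 (p - 1), f c : V) : ℂ) =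
        (∏ c ∈ Finset.Icc 1 (p - 1), ThetaH L H (z + c * R)) / T0 ^ (p - 1) := by
      rw [cP, Finset.prod_congr rfl fun c _ => hf c, Finset.prod_div_distrib, Finset.prod_const,
        Nat.card_Icc]
      congr 2
    rw [show ((∏ c ∈ Finset.Icc 1 (p - 1), f c - 1 + wV * ∑ c ∈ Finset.Icc 1 (p - 1),
        (c : V) * g c : V) : ℂ) = ((∏ c ∈ Finset.Icc 1 (p - 1), f c : V) : ℂ) - 1 +
        (wV : ℂ) * ((∑ c ∈ Finset.Icc 1 (p - 1), (c : V) * g c : V) : ℂ) from rfl,
      hP, hS, hwV] at hK1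
    rw [show ((wV * ∑ c ∈ Finset.Icc 1 (p - 1), (c : V) * g c - r * wV ^ (p - 1) : V) : ℂ) =
        (wV : ℂ) * ((∑ c ∈ Finset.Icc 1 (p - 1), (c : V) * g c : V) : ℂ) -
        (r : ℂ) * (wV : ℂ) ^ (p - 1) from rfl, hS, hwV] at hK2
    generalize hSd : ∑ c ∈ Finset.Icc 1 (p - 1), (c : ℂ) * dlX L a (z + c * R) = S at *
    generalize hPd : ∏ c ∈ Finset.Icc 1 (p - 1), ThetaH L H (z + c * R) = Q at *
    constructor
    · have h3 : V.valuation (w * S) ≤ τ ^ (p - 1) := by
        have e3 : w * S = (w * S - (r : ℂ) * w ^ (p - 1)) + (r : ℂ) * w ^ (p - 1) := by ring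
        rw [e3]
        apply KEY.add_le'
        · exact hK2.trans (pow_le_pow_right_of_le_one' ht1.le (by omega))
        · rw [map_mul, map_pow, hwv]
          exact (mul_le_mul' ((ValuationSubring.valuation_le_one_iff _ _).2 r.2)
            le_rfl).trans_eq (one_mul _)
      rw [map_mul, hwv] at h3
      have e4 : τ ^ (p - 1) = τ * τ ^ (p - 2) := by
        rw [← pow_succ']
        congr 1
        omega
      rw [e4] at h3
      exact (mul_le_mul_iff_right₀ (zero_lt_iff.2 ht0)).1 h3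
    · have e3 : Q - T0 ^ (p - 1) * (1 - w * S) = T0 ^ (p - 1) * (Q / T0 ^ (p - 1) - 1 + w * S) := by
        have : T0 ^ (p - 1) ≠ 0 := pow_ne_zero _ hT00
        field_simp
        ring
      rw [e3, map_mul, map_pow, hTu, one_pow, one_mul]
      exact hK1
  · rw [hI]
    rw [show (((wV ^ p : V)) : ℂ) = (wV : ℂ) ^ p from rfl, hwV, map_pow, hwv]
  · rw [hI]
    rw [show (((p : V) * wV : V) : ℂ) = (((p : ℕ) : V) : ℂ) * (wV : ℂ) from rfl, hwV, map_mul, hwv,
      hτ']
    simp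
  · have h3 := he 0 (by omega)
    apply Subtype.ext
    rw [h3]
    simp only [Function.iterate_zero, id_eq, Nat.factorial_zero, Nat.cast_one, div_one, hT0]
    rw [div_self hT00]
    rfl
  · intro c hc
    rw [Finset.mem_Icc] at hc
    have h0 : 0 < c := by omega
    have h1 : c < p := by omega
    rw [hI]
    have h3 := tay' θ c h0 h1
    rw [(hT c).1] at h3
    have e3 : ((f c - ∑ k ∈ Finset.range p, e k * ((c : V) * wV) ^ k : V) : ℂ) =
        (ThetaH L H (z + c * R) -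
        ∑ k ∈ Finset.range p, MvPolynomial.aeval ![xn L z, yy L z] ((dW a2 a4)^[k] θ) /
          (k.factorial : ℂ) * (c * w) ^ k) / T0 := by
      rw [show ((f c - ∑ k ∈ Finset.range p, e k * ((c : V) * wV) ^ k : V) : ℂ) =
        ((f c : V) : ℂ) - ((∑ k ∈ Finset.range p, e k * ((c : V) * wV) ^ k : V) : ℂ) from rfl,
        hf, cS, sub_div, Finset.sum_div]
      congr 1
      refine Finset.sum_congr rfl fun k hk => ?_
      rw [show ((e k * ((c : V) * wV) ^ k : V) : ℂ) = ((e k : V) : ℂ) *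
        ((((c : ℕ) : V) : ℂ) * (wV : ℂ)) ^ k from rfl, he k (Finset.mem_range.1 hk), hwV]
      rw [cN]
      ring
    rw [e3, map_div₀, hTu, div_one]
    exact h3
  · intro c hc
    rw [Finset.mem_Icc] at hc
    have h0 : 0 < c := by omega
    have h1 : c < p := by omega
    rw [hI]
    have h3 := tay' (dW a2 a4 θ) c h0 h1
    rw [(hT c).2.2.1] at h3
    have h4 : V.valuation (MvPolynomial.aeval ![xn L z, yy L z] ((dW a2 a4)^[p] θ) /
        ((p - 1).factorial : ℂ) * (c * w) ^ p) ≤ τ ^ p := by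
      rw [map_mul, map_pow, hcw c h0 h1]
      exact (mul_le_mul' (hAint _ (p - 1) (by omega)) le_rfl).trans_eq (one_mul _)
    have e4 : (c * w : ℂ) * ∑ k ∈ Finset.range p, MvPolynomial.aeval ![xn L z, yy L z]
          ((dW a2 a4)^[k] (dW a2 a4 θ)) / (k.factorial : ℂ) * (c * w) ^ k =
        ∑ k ∈ Finset.range p, (k : ℂ) * (MvPolynomial.aeval ![xn L z, yy L z]
          ((dW a2 a4)^[k] θ) / (k.factorial : ℂ)) * (c * w) ^ k +
        MvPolynomial.aeval ![xn L z, yy L z] ((dW a2 a4)^[p] θ) /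
        ((p - 1).factorial : ℂ) * (c * w) ^ p := by
      obtain ⟨q, rfl⟩ : ∃ q, p = q + 1 := ⟨p - 1, by omega⟩
      rw [Finset.mul_sum, Finset.sum_range_succ, Finset.sum_range_succ', Nat.add_sub_cancel]
      congr 1
      · rw [Nat.cast_zero, zero_mul, zero_mul, add_zero]
        refine Finset.sum_congr rfl fun k _ => ?_
        rw [← Function.iterate_succ_apply, Nat.factorial_succ]
        have h5 : ((k.factorial : ℕ) : ℂ) ≠ 0 := Nat.cast_ne_zero.2 (Nat.factorial_ne_zero _)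
        have h6 : ((k : ℂ) + 1) ≠ 0 := Nat.cast_add_one_ne_zero k
        push_cast
        field_simp
        rw [pow_succ]
        ring
      · rw [← Function.iterate_succ_apply]
        ring
    have e3 : ((c * wV * (g c * f c) - ∑ k ∈ Finset.range p,
          (k : V) * e k * ((c : V) * wV) ^ k : V) : ℂ) =
        ((c * w : ℂ) * (ThetaH L H (z + c * R) * dlX L a (z + c * R) -
          ∑ k ∈ Finset.range p, MvPolynomial.aeval ![xn L z, yy L z]
          ((dW a2 a4)^[k] (dW a2 a4 θ)) / (k.factorial : ℂ) * (c * w) ^ k) +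
        MvPolynomial.aeval ![xn L z, yy L z] ((dW a2 a4)^[p] θ) /
        ((p - 1).factorial : ℂ) * (c * w) ^ p) / T0 := by
      rw [mul_sub, e4, show ((c * wV * (g c * f c) - ∑ k ∈ Finset.range p,
          (k : V) * e k * ((c : V) * wV) ^ k : V) : ℂ) =
        (((c : ℕ) : V) : ℂ) * (wV : ℂ) * (((g c : V) : ℂ) * ((f c : V) : ℂ)) -
          ((∑ k ∈ Finset.range p, (k : V) * e k * ((c : V) * wV) ^ k : V) : ℂ) from rfl,
        cS, cN, hwV, hg, hf]
      have e5 : ∑ k ∈ Finset.range p, (((k : V) * e k * ((c : V) * wV) ^ k : V) : ℂ) =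
          (∑ k ∈ Finset.range p, (k : ℂ) * (MvPolynomial.aeval ![xn L z, yy L z]
          ((dW a2 a4)^[k] θ) / (k.factorial : ℂ)) * (c * w) ^ k) / T0 := by
        rw [Finset.sum_div]
        refine Finset.sum_congr rfl fun k hk => ?_
        rw [show (((k : V) * e k * ((c : V) * wV) ^ k : V) : ℂ) = (((k : ℕ) : V) : ℂ) *
          ((e k : V) : ℂ) * ((((c : ℕ) : V) : ℂ) * (wV : ℂ)) ^ k from rfl, cN, cN, hwV,
          he k (Finset.mem_range.1 hk)]
        ring
      rw [e5]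
      ring
    rw [e3, map_div₀, hTu, div_one]
    apply KEY.add_le' _ h4
    rw [map_mul, hcw c h0 h1]
    exact (mul_le_mul' ht1.le h3).trans_eq (one_mul _)

end

end Pool.Agent.TWT
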