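import Pool.Agent.TWT.StT1

/-!
# TWT, block A: module KYR (helper52): evaluation of the power series at `w` modulo an ideal
-/

set_option autoImplicit false

open PowerSeries

namespace Pool.Agent.TWT

namespace KYR

variable {A S : Type} [CommRing A] [CommRing S]

/-- the coefficients of `X * dE` -/
theorem coeff_X_mul_deriv (E : A⟦X⟧) (k : ℕ) :
    PowerSeries.coeff k (PowerSeries.X * d⁄dX A E) = (k : A) * PowerSeries.coeff k E := by
  cases k with
  | zero => simp
  | succ n =>
    rw [PowerSeries.coeff_succ_X_mul, PowerSeries.coeff_derivative]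
    push_cast
    ring

/-- value of a rescaled series -/
theorem ev_rescale (f : A →+* S) (s : S) (n : ℕ) (φ : A⟦X⟧ →+* S)
    (h : ∀ F, φ F = ∑ k ∈ Finset.range n, f (PowerSeries.coeff k F) * s ^ k) (c : ℕ) (F : A⟦X⟧) :
    φ (PowerSeries.rescale (c : A) F) =
      ∑ k ∈ Finset.range n, f (PowerSeries.coeff k F) * ((c : S) * s) ^ k := by
  rw [h]
  refine Finset.sum_congr rfl fun k _ => ?_
  rw [PowerSeries.coeff_rescale, map_mul, map_pow, map_natCast]
  ring

/-- all terms of positive degree vanish if the coefficients are divisible by `p` -/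
theorem ev_zero (f : A →+* S) (s : S) (p : ℕ) (hps : (p : S) * s = 0) (a : A) (k : ℕ)
    (hk : 0 < k) (h : (p : A) ∣ a) : f a * s ^ k = 0 := by
  obtain ⟨r, rfl⟩ := h
  obtain ⟨j, rfl⟩ := Nat.exists_eq_succ_of_ne_zero (Nat.pos_iff_ne_zero.mp hk)
  rw [map_mul, map_natCast, Nat.succ_eq_add_one, pow_succ]
  calc (p : S) * f r * (s ^ j * s) = f r * s ^ j * ((p : S) * s) := by ring
    _ = 0 := by rw [hps, mul_zero]

end KYR

theorem t_KYR (hE : S_EVH) (hP : S_PRD) : S_KYR := by
  intro A _ p hp I w hwp hpw e f g he0 hf hg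
  have hp2 : 2 ≤ p := hp.two_le
  set S := A ⧸ I with hS
  set q : A →+* A ⧸ I := Ideal.Quotient.mk I with hq
  have hs : q w ^ p = 0 := by
    rw [← map_pow]
    exact Ideal.Quotient.eq_zero_iff_mem.mpr hwp
  have hps : (p : A ⧸ I) * q w = 0 := by
    rw [← map_natCast q p, ← map_mul]
    exact Ideal.Quotient.eq_zero_iff_mem.mpr hpw
  obtain ⟨φ, -, -, hφ⟩ := hE A (A ⧸ I) q (q w) p hs hp2
  set E : A⟦X⟧ := PowerSeries.mk e with hEd
  have hE0 : PowerSeries.constantCoeff E = 1 := by
    rw [hEd, ← PowerSeries.coeff_zero_eq_constantCoeff_apply, PowerSeries.coeff_mk, he0]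
  have hU : IsUnit E := by
    rw [PowerSeries.isUnit_iff_constantCoeff, hE0]
    exact isUnit_one
  obtain ⟨E', hEE⟩ := hU.exists_right_inv
  obtain ⟨hQ0, hG0, hQG, hG⟩ := hP A p hp E E' hE0 hEE _ _ rfl rfl
  set Q : A⟦X⟧ := ∏ c ∈ Finset.Icc 1 (p - 1), PowerSeries.rescale (c : A) E with hQd
  set G : A⟦X⟧ := ∑ c ∈ Finset.Icc 1 (p - 1),
      PowerSeries.rescale (c : A) (PowerSeries.X * d⁄dX A E * E') with hGd
  have key := KYR.ev_rescale q (q w) p φ hφ
  have h1 : ∀ c ∈ Finset.Icc 1 (p - 1), φ (PowerSeries.rescale (c : A) E) = q (f c) := by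
    intro c hc
    have h := Ideal.Quotient.eq_zero_iff_mem.mpr (hf c hc)
    rw [map_sub, sub_eq_zero] at h
    rw [key, hq, h, map_sum]
    refine Finset.sum_congr rfl fun k _ => ?_
    rw [hEd, PowerSeries.coeff_mk, map_mul, map_pow, map_mul, map_natCast]
  have h2 : ∀ c ∈ Finset.Icc 1 (p - 1),
      φ (PowerSeries.rescale (c : A) (PowerSeries.X * d⁄dX A E)) =
        q ((c : A) * w * (g c * f c)) := by
    intro c hc
    have h := Ideal.Quotient.eq_zero_iff_mem.mpr (hg c hc)
    rw [map_sub, sub_eq_zero] at h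
    rw [key, hq, h, map_sum]
    refine Finset.sum_congr rfl fun k _ => ?_
    rw [KYR.coeff_X_mul_deriv, hEd, PowerSeries.coeff_mk, map_mul, map_mul, map_natCast, map_mul,
      map_pow, map_mul, map_natCast, map_natCast]
  have h3 : ∀ c ∈ Finset.Icc 1 (p - 1),
      φ (PowerSeries.rescale (c : A) (PowerSeries.X * d⁄dX A E * E')) = q (w * ((c : A) * g c)) := by
    intro c hc
    have h4 : q (f c) * φ (PowerSeries.rescale (c : A) E') = 1 := by
      rw [← h1 c hc, ← map_mul, ← map_mul, hEE, map_one, map_one]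
    rw [map_mul, map_mul, h2 c hc]
    calc q ((c : A) * w * (g c * f c)) * φ (PowerSeries.rescale (c : A) E')
        = q (w * ((c : A) * g c)) * (q (f c) * φ (PowerSeries.rescale (c : A) E')) := by
          rw [map_mul, map_mul, map_mul, map_mul, map_mul]
          ring
      _ = q (w * ((c : A) * g c)) := by rw [h4, mul_one]
  have hφQ : φ Q = q (∏ c ∈ Finset.Icc 1 (p - 1), f c) := by
    rw [hQd, map_prod, map_prod]
    exact Finset.prod_congr rfl h1
  have hφG : φ G = q (w * ∑ c ∈ Finset.Icc 1 (p - 1), (c : A) * g c) := by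
    rw [hGd, map_sum, Finset.mul_sum, map_sum]
    exact Finset.sum_congr rfl h3
  constructor
  · have h5 : φ (Q + G) = 1 := by
      rw [hφ, Finset.sum_eq_single_of_mem 0 (Finset.mem_range.mpr (by omega))]
      · rw [map_add, hQ0, hG0, add_zero, map_one, pow_zero, mul_one]
      · intro k hk hk0
        exact KYR.ev_zero q (q w) p hps _ k (Nat.pos_of_ne_zero hk0)
          (hQG k (Nat.pos_of_ne_zero hk0) (Finset.mem_range.mp hk))
    rw [← Ideal.Quotient.eq_zero_iff_mem, map_add, map_sub, map_one]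
    rw [map_add, hφQ, hφG] at h5
    calc q (∏ c ∈ Finset.Icc 1 (p - 1), f c) - 1 + q (w * ∑ c ∈ Finset.Icc 1 (p - 1), (c : A) * g c)
        = q (∏ c ∈ Finset.Icc 1 (p - 1), f c) + q (w * ∑ c ∈ Finset.Icc 1 (p - 1), (c : A) * g c) - 1 := by
          ring
      _ = 0 := by rw [h5, sub_self]
  · refine ⟨PowerSeries.coeff (p - 1) G, ?_⟩
    have h6 : φ G = q (PowerSeries.coeff (p - 1) G) * q w ^ (p - 1) := by
      rw [hφ, Finset.sum_eq_single_of_mem (p - 1) (Finset.mem_range.mpr (by omega))]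
      intro k hk hk1
      rcases Nat.eq_zero_or_pos k with rfl | hk0
      · rw [hG0, map_zero, zero_mul]
      · have hkp := Finset.mem_range.mp hk
        exact KYR.ev_zero q (q w) p hps _ k hk0 (hG k hk0 (by omega))
    rw [← Ideal.Quotient.eq_zero_iff_mem]
    change q _ = 0
    rw [map_sub, ← hφG, h6, map_mul, map_pow, sub_self]

end Pool.Agent.TWT
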