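import Mathlib

/-!
# TWT, block A: the two polynomial identities behind `S_ODE` (helper3)

`s` is the derivative of `U`, `D'`, `N1'` those of `D`, `N1`.
-/

set_option autoImplicit false

namespace Pool.Agent.TWT

theorem ode1 {A : Type*} [CommRing A] (T U s x y a2 a4 a6 : A)
  (hc : y ^ 2 = x ^ 3 + a2 * x ^ 2 + a4 * x + a6)
  (hU : U = 1 + a2 * T ^ 2 * U + a4 * T ^ 4 * U ^ 2 + a6 * T ^ 6 * U ^ 3)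
  (q : A) (hq : q = 1 - a2 * T ^ 2 - 2 * a4 * T ^ 4 * U - 3 * a6 * T ^ 6 * U ^ 2)
  (hs : q * s = T * (2 * a2 * U + 4 * a4 * T ^ 2 * U ^ 2 + 6 * a6 * T ^ 4 * U ^ 3)) 
  (D N1 : A) (hD : D = 1 - x * T ^ 2 * U) 
  (hN : N1 = 2 * y + T * (a4 + 2 * a2 * x + 3 * x ^ 2) + T ^ 3 * U * (a6 + y ^ 2 - a2 * x ^ 2 - 2 * x ^ 3))
  (D' N1' : A) (hD' : D' = - (x * (2 * T * U + T ^ 2 * s))) 
  (hN' : N1' = (a4 + 2 * a2 * x + 3 * x ^ 2) + (3 * T ^ 2 * U + T ^ 3 * s) * (a6 + y ^ 2 - a2 * x ^ 2 - 2 * x ^ 3)) :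
  q * (((U + T * s) * N1 + T * U * N1') * D) - 2 * q * T * U * N1 * D' = 2 * (- y * D ^ 3 + (1 + y * T ^ 3 * U) * U * N1) := by
  have h6 : a6 = y ^ 2 - (x ^ 3 + a2 * x ^ 2 + a4 * x) := by rw [hc]; ring
  subst h6
  subst hN hN' hD hD' hq
  linear_combination (exp := 1) 
    (((2 * y + T * (a4 + 2 * a2 * x + 3 * x ^ 2) + T ^ 3 * U * ((y ^ 2 - (x ^ 3 + a2 * x ^ 2 + a4 * x)) + y ^ 2 - a2 * x ^ 2 - 2 * x ^ 3)) + T ^ 3 * U * ((y ^ 2 - (x ^ 3 + a2 * x ^ 2 + a4 * x)) + y ^ 2 - a2 * x ^ 2 - 2 * x ^ 3)) * (1 - x * T ^ 2 * U) + 2 * T ^ 2 * U * (2 * y + T * (a4 + 2 * a2 * x + 3 * x ^ 2) + T ^ 3 * U * ((y ^ 2 - (x ^ 3 + a2 * x ^ 2 + a4 * x)) + y ^ 2 - a2 * x ^ 2 - 2 * x ^ 3)) * x) * T * hs + (- 2 * y + 6 * T ^ 2 * U * x * y) * hU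

theorem ode2 {A : Type*} [CommRing A] (T U s x y a2 a4 a6 : A)
  (hc : y ^ 2 = x ^ 3 + a2 * x ^ 2 + a4 * x + a6)
  (hU : U = 1 + a2 * T ^ 2 * U + a4 * T ^ 4 * U ^ 2 + a6 * T ^ 6 * U ^ 3)
  (q : A) (hq : q = 1 - a2 * T ^ 2 - 2 * a4 * T ^ 4 * U - 3 * a6 * T ^ 6 * U ^ 2)
  (hs : q * s = T * (2 * a2 * U + 4 * a4 * T ^ 2 * U ^ 2 + 6 * a6 * T ^ 4 * U ^ 3)) 
  (D N1 : A) (hD : D = 1 - x * T ^ 2 * U) 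
  (hN : N1 = 2 * y + T * (a4 + 2 * a2 * x + 3 * x ^ 2) + T ^ 3 * U * (a6 + y ^ 2 - a2 * x ^ 2 - 2 * x ^ 3))
  (D' N1' : A) (hD' : D' = - (x * (2 * T * U + T ^ 2 * s))) 
  (hN' : N1' = (a4 + 2 * a2 * x + 3 * x ^ 2) + (3 * T ^ 2 * U + T ^ 3 * s) * (a6 + y ^ 2 - a2 * x ^ 2 - 2 * x ^ 3)) :
  q * (y * (3 * T ^ 2 * U + T ^ 3 * s) * U * N1 + (1 + y * T ^ 3 * U) * (s * N1 + U * N1')) * D - 3 * q * (1 + y * T ^ 3 * U) * U * N1 * D' = 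
    3 * (x * D ^ 2 + T * U * N1) ^ 2 + 2 * a2 * (x * D ^ 2 + T * U * N1) * D ^ 2 + a4 * D ^ 4 := by
  have h6 : a6 = y ^ 2 - (x ^ 3 + a2 * x ^ 2 + a4 * x) := by rw [hc]; ring
  subst h6
  set M1 := 2 * y + T * (a4 + 2 * a2 * x + 3 * x ^ 2) + T ^ 3 * U * ((y ^ 2 - (x ^ 3 + a2 * x ^ 2 + a4 * x)) + y ^ 2 - a2 * x ^ 2 - 2 * x ^ 3) with hM1
  have key : q * (y * (3 * T ^ 2 * U + T ^ 3 * s) * U * N1 + (1 + y * T ^ 3 * U) * (s * N1 + U * N1')) * D - 3 * q * (1 + y * T ^ 3 * U) * U * N1 * D' = 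
    (y * (3 * q * T ^ 2 * U + T ^ 3 * (q * s)) * U * N1 + (1 + y * T ^ 3 * U) * ((q * s) * N1 + U * (q * (a4 + 2 * a2 * x + 3 * x ^ 2) + (3 * q * T ^ 2 * U + T ^ 3 * (q * s)) * ((y ^ 2 - (x ^ 3 + a2 * x ^ 2 + a4 * x)) + y ^ 2 - a2 * x ^ 2 - 2 * x ^ 3)))) * D + 3 * (1 + y * T ^ 3 * U) * U * N1 * x * (2 * q * T * U + T ^ 2 * (q * s)) := by
    rw [hN', hD']; ring
  rw [key, hs]
  subst hN hD hq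
  linear_combination (exp := 1) 
    (a4 + 2 * x * a2 + 3 * x ^ 2 + 12 * T * U * x * y + 2 * T ^ 2 * U * x * a4 + 4 * T ^ 2 * U * x ^ 2 * a2 + 6 * T ^ 2 * U * x ^ 3 + 12 * T ^ 4 * U ^ 2 * x * y ^ 2 - 3 * T ^ 4 * U ^ 2 * x ^ 2 * a4 - 6 * T ^ 4 * U ^ 2 * x ^ 3 * a2 - 9 * T ^ 4 * U ^ 2 * x ^ 4) * hU

end Pool.Agent.TWT
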