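import Pool.Agent.TWT.StT1
import Pool.Agent.TWT.Ode0

/-!
# TWT_ODE: the differential equations of the formal group law (helper30)
-/

set_option autoImplicit false

open PowerSeries

namespace Pool.Agent.TWT

namespace ODE

theorem fin1 {A : Type*} [CommRing A] (q κ e D D' P R S y : A) (hR : R = 2 * S * D')
    (W : A) (he : e * D = 1) (hκ : κ * q = 1)
    (h : q * (P * D) - 2 * q * S * D' = 2 * (-y * D ^ 3 + W)) :
    P * e ^ 2 - R * e ^ 3 = κ * (2 * (-y + W * e ^ 3)) := by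
  subst hR
  linear_combination (κ * e ^ 3) * h + (-(P * e ^ 2 * (e * D)) + 2 * S * D' * e ^ 3) * hκ +
    (-(P * e ^ 2) - 2 * κ * y * (1 + e * D + (e * D) ^ 2)) * he

theorem fin2 {A : Type*} [CommRing A] (q κ e D D' Q S M x a2 a4 : A)
    (he : e * D = 1) (hκ : κ * q = 1)
    (h : q * Q * D - 3 * q * S * D' =
      3 * (x * D ^ 2 + M) ^ 2 + 2 * a2 * (x * D ^ 2 + M) * D ^ 2 + a4 * D ^ 4) :
    Q * e ^ 3 - 3 * S * D' * e ^ 4 =
      κ * (3 * (x + M * e ^ 2) ^ 2 + 2 * a2 * (x + M * e ^ 2) + a4) := by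
  linear_combination (κ * e ^ 4) * h + (-(Q * e ^ 3 * (e * D)) + 3 * S * D' * e ^ 4) * hκ +
    (-(Q * e ^ 3) + κ * (3 * x * (e * D + 1) * (x * (e * D) ^ 2 + x + 2 * M * e ^ 2) +
      2 * a2 * (e * D + 1) * (x * ((e * D) ^ 2 + 1) + M * e ^ 2) +
      a4 * (e * D + 1) * ((e * D) ^ 2 + 1))) * he

end ODE

theorem t_ODE : S_ODE := by
  intro A _ a2 a4 a6 x y hc U e κ hU he hκ gx gy hgx hgy
  have hc' : (C y : A⟦X⟧) ^ 2 = C x ^ 3 + C a2 * C x ^ 2 + C a4 * C x + C a6 := by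
    rw [← map_pow, hc]
    simp only [map_add, map_mul, map_pow]
  set T : A⟦X⟧ := PowerSeries.X with hT
  have dT : d⁄dX A T = 1 := by
    rw [hT]
    exact PowerSeries.derivative_X
  have dC : ∀ a : A, d⁄dX A (C a : A⟦X⟧) = 0 := fun a => PowerSeries.derivative_C
  have dm : ∀ f g : A⟦X⟧, d⁄dX A (f * g) = f * d⁄dX A g + g * d⁄dX A f := by
    intro f g
    rw [Derivation.leibniz, smul_eq_mul, smul_eq_mul]
  have dp : ∀ (f : A⟦X⟧) (n : ℕ), d⁄dX A (f ^ n) = n * f ^ (n - 1) * d⁄dX A f := by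
    intro f n
    rw [Derivation.leibniz_pow, nsmul_eq_mul, smul_eq_mul, mul_assoc]
  have d1 : d⁄dX A (1 : A⟦X⟧) = 0 := Derivation.map_one_eq_zero _
  have d2 : d⁄dX A (2 : A⟦X⟧) = 0 := by
    rw [← one_add_one_eq_two, map_add, d1, add_zero]
  have d3 : d⁄dX A (3 : A⟦X⟧) = 0 := by
    have : (3 : A⟦X⟧) = 2 + 1 := by norm_num
    rw [this, map_add, d1, d2, add_zero]
  set s : A⟦X⟧ := d⁄dX A U with hs0
  have hU' : U = 1 + C a2 * T ^ 2 * U + C a4 * T ^ 4 * U ^ 2 + C a6 * T ^ 6 * U ^ 3 := hU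
  set q : A⟦X⟧ := 1 - C a2 * T ^ 2 - 2 * C a4 * T ^ 4 * U - 3 * C a6 * T ^ 6 * U ^ 2 with hq
  have hκ' : κ * q = 1 := hκ
  have hs : q * s = T * (2 * C a2 * U + 4 * C a4 * T ^ 2 * U ^ 2 + 6 * C a6 * T ^ 4 * U ^ 3) := by
    have h1 := congrArg (d⁄dX A) hU'
    simp only [map_add, dm, dp, dT, dC, d1] at h1
    rw [← hs0] at h1
    rw [hq]
    norm_num at h1
    linear_combination h1
  set D : A⟦X⟧ := 1 - C x * T ^ 2 * U with hD
  have he' : e * D = 1 := he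
  set D' : A⟦X⟧ := -(C x * (2 * T * U + T ^ 2 * s)) with hD'
  have dD : d⁄dX A D = D' := by
    rw [hD, hD', map_sub, d1, dm, dm, dp, dT, dC]
    rw [← hs0]
    norm_num
    ring
  have de : d⁄dX A e = -(D' * e ^ 2) := by
    have h1 := congrArg (d⁄dX A) he'
    rw [dm, dD, d1] at h1
    linear_combination e * h1 - (d⁄dX A e) * he'
  set N : A⟦X⟧ := 2 * C y + T * (C a4 + 2 * C a2 * C x + 3 * C x ^ 2) +
    T ^ 3 * U * (C a6 + C y ^ 2 - C a2 * C x ^ 2 - 2 * C x ^ 3) with hN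
  set N' : A⟦X⟧ := (C a4 + 2 * C a2 * C x + 3 * C x ^ 2) +
    (3 * T ^ 2 * U + T ^ 3 * s) * (C a6 + C y ^ 2 - C a2 * C x ^ 2 - 2 * C x ^ 3) with hN'
  have dN : d⁄dX A N = N' := by
    rw [hN, hN']
    simp only [map_add, map_sub, dm, dp, dT, dC, d2, d3]
    rw [← hs0]
    norm_num
    ring
  have hgx' : gx = C x + T * U * N * e ^ 2 := hgx
  have hgy' : gy = -C y + (1 + C y * T ^ 3 * U) * U * N * e ^ 3 := hgy
  have o1 := ode1 T U s (C x) (C y) (C a2) (C a4) (C a6) hc' hU' q hq hs D N hD hN D' N' hD' hN'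
  have o2 := ode2 T U s (C x) (C y) (C a2) (C a4) (C a6) hc' hU' q hq hs D N hD hN D' N' hD' hN'
  constructor
  · have h1 := ODE.fin1 q κ e D D' ((U + T * s) * N + T * U * N') (2 * (T * U * N) * D')
      (T * U * N) (C y) rfl ((1 + C y * T ^ 3 * U) * U * N) he' hκ' (by
        linear_combination o1)
    rw [hgy']
    have h2 : d⁄dX A gx = ((U + T * s) * N + T * U * N') * e ^ 2 -
        2 * (T * U * N) * D' * e ^ 3 := by
      rw [hgx']
      simp only [map_add, dm, dp, dT, dC, dN, de]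
      rw [← hs0]
      norm_num
      ring
    rw [h2, h1]
  · have h1 := ODE.fin2 q κ e D D' (C y * (3 * T ^ 2 * U + T ^ 3 * s) * U * N +
        (1 + C y * T ^ 3 * U) * (s * N + U * N')) ((1 + C y * T ^ 3 * U) * U * N)
      (T * U * N) (C x) (C a2) (C a4) he' hκ' (by
        linear_combination o2)
    have h2 : d⁄dX A gy = (C y * (3 * T ^ 2 * U + T ^ 3 * s) * U * N +
        (1 + C y * T ^ 3 * U) * (s * N + U * N')) * e ^ 3 -
        3 * ((1 + C y * T ^ 3 * U) * U * N) * D' * e ^ 4 := by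
      rw [hgy']
      simp only [map_add, map_neg, dm, dp, dT, dC, dN, de, d1]
      rw [← hs0]
      norm_num
      ring
    rw [h2, h1, hgx']

end Pool.Agent.TWT
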