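import Pool.Agent.TWT.StT1

/-!
# TWT_PRD: the product over the multiples, modulo `p`
-/

set_option autoImplicit false

open PowerSeries

namespace Pool.Agent.TWT

namespace PRD

/-- Power sums modulo `p`. -/
lemma pow_sum_dvd {p : ℕ} (hp : p.Prime) {j : ℕ} (h0 : 0 < j) (h1 : j < p - 1) :
    p ∣ ∑ c ∈ Finset.Icc 1 (p - 1), c ^ j := by
  have : Fact p.Prime := ⟨hp⟩
  rw [← ZMod.natCast_eq_zero_iff, Nat.cast_sum]
  have h2 := FiniteField.sum_pow_lt_card_sub_one (ZMod p) j (by rw [ZMod.card]; exact h1)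
  have h3 : ∑ x : ZMod p, x ^ j = ∑ c ∈ Finset.range p, ((c ^ j : ℕ) : ZMod p) := by
    obtain ⟨n, rfl⟩ : ∃ n, p = n + 1 := ⟨p - 1, by have := hp.pos; omega⟩
    rw [← Fin.sum_univ_eq_sum_range (fun c => ((c ^ j : ℕ) : ZMod (n + 1))) (n + 1)]
    refine Finset.sum_congr rfl fun x _ => ?_
    rw [Nat.cast_pow]
    congr 1
    exact (ZMod.natCast_zmod_val (n := n + 1) x).symm
  rw [h2] at h3
  have h4 : Finset.range p = insert 0 (Finset.Icc 1 (p - 1)) := by
    ext c
    simp only [Finset.mem_range, Finset.mem_insert, Finset.mem_Icc]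
    have := hp.pos
    omega
  rw [h4, Finset.sum_insert (by simp)] at h3
  have h5 : ((0 ^ j : ℕ) : ZMod p) = 0 := by
    rw [zero_pow h0.ne', Nat.cast_zero]
  rw [h5, zero_add] at h3
  exact h3.symm

variable {A : Type} [CommRing A]

lemma rescale_X_der (E : A⟦X⟧) (c : A) :
    X * d⁄dX A (rescale c E) = rescale c (X * d⁄dX A E) := by
  ext n
  rw [coeff_rescale]
  rcases n with _ | n
  · simp
  · rw [coeff_succ_X_mul, coeff_succ_X_mul, coeff_derivative, coeff_derivative, coeff_rescale]
    ring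

lemma der_prod (E E' : A⟦X⟧) (hE : E * E' = 1) (s : Finset ℕ) :
    X * d⁄dX A (∏ c ∈ s, rescale (c : A) E) =
      (∏ c ∈ s, rescale (c : A) E) * ∑ c ∈ s, rescale (c : A) (X * d⁄dX A E * E') := by
  classical
  induction s using Finset.induction_on with
  | empty => simp
  | insert a s ha ih =>
    rw [Finset.prod_insert ha, Finset.sum_insert ha, Derivation.leibniz, smul_eq_mul, smul_eq_mul,
      mul_add]
    have h1 : X * ((rescale (a : A) E) * d⁄dX A (∏ c ∈ s, rescale (c : A) E)) =
        (rescale (a : A) E) * (X * d⁄dX A (∏ c ∈ s, rescale (c : A) E)) := by ring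
    have h2 : X * ((∏ c ∈ s, rescale (c : A) E) * d⁄dX A (rescale (a : A) E)) =
        (∏ c ∈ s, rescale (c : A) E) * (X * d⁄dX A (rescale (a : A) E)) := by ring
    have h3 : rescale (a : A) E * rescale (a : A) E' = 1 := by
      rw [← map_mul, hE, map_one]
    rw [h1, h2, ih, rescale_X_der, map_mul (rescale (a : A)) (X * d⁄dX A E) E']
    linear_combination (-(∏ c ∈ s, rescale (c : A) E) * rescale (a : A) (X * d⁄dX A E)) * h3

end PRD

open PRD in
theorem t_PRD : S_PRD := by
  intro A _ p hp E E' hE0 hEE Q G hQ hG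
  classical
  have hp1 := hp.one_lt
  have hpos := hp.pos
  have h0G : coeff 0 G = 0 := by
    rw [hG, map_sum]
    refine Finset.sum_eq_zero fun c _ => ?_
    rw [coeff_rescale]
    simp
  have h0Q : coeff 0 Q = 1 := by
    rw [hQ, coeff_zero_eq_constantCoeff, map_prod]
    refine Finset.prod_eq_one fun c _ => ?_
    rw [← coeff_zero_eq_constantCoeff, coeff_rescale, coeff_zero_eq_constantCoeff, hE0]
    simp
  have hGd : ∀ j, 0 < j → j < p - 1 → (p : A) ∣ coeff j G := by
    intro j hj0 hj1
    have h1 : coeff j G = ((∑ c ∈ Finset.Icc 1 (p - 1), c ^ j : ℕ) : A) *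
        coeff j (X * d⁄dX A E * E') := by
      rw [hG, map_sum, Nat.cast_sum, Finset.sum_mul]
      refine Finset.sum_congr rfl fun c _ => ?_
      rw [coeff_rescale, Nat.cast_pow]
    rw [h1]
    exact Dvd.dvd.mul_right (Nat.cast_dvd_cast (pow_sum_dvd hp hj0 hj1)) _
  refine ⟨h0Q, h0G, ?_, hGd⟩
  intro j hj0 hj1
  have hder : X * d⁄dX A Q = Q * G := by
    rw [hQ, hG]
    exact der_prod E E' hEE _
  have hc : (j : A) * coeff j Q = coeff j (Q * G) := by
    rw [← hder]
    obtain ⟨i, rfl⟩ : ∃ i, j = i + 1 := ⟨j - 1, by omega⟩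
    rw [coeff_succ_X_mul, coeff_derivative]
    push_cast
    ring
  have hd : (p : A) ∣ (j : A) * coeff j Q - coeff j G := by
    rw [hc, coeff_mul, ← Finset.add_sum_erase (Finset.HasAntidiagonal.antidiagonal j) _
      (a := ((0, j) : ℕ × ℕ)) (by simp), h0Q, one_mul, add_sub_cancel_left]
    refine Finset.dvd_sum fun x hx => ?_
    rw [Finset.mem_erase, Finset.HasAntidiagonal.mem_antidiagonal] at hx
    obtain ⟨hx1, hx2⟩ := hx
    rcases Nat.eq_zero_or_pos x.2 with h | h
    · rw [h, h0G, mul_zero]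
      exact dvd_zero _
    · refine Dvd.dvd.mul_left (hGd x.2 h ?_) _
      have : x.1 ≠ 0 := by
        intro h3
        apply hx1
        ext
        · exact h3
        · simp only
          omega
      omega
  rw [map_add]
  rcases Nat.lt_or_ge j (p - 1) with h | h
  · have h2 := hGd j hj0 h
    have h3 : (p : A) ∣ (j : A) * coeff j Q := by
      have := dvd_add hd h2
      rwa [sub_add_cancel] at this
    have hcop : IsCoprime (j : ℤ) (p : ℤ) := by
      rw [Nat.isCoprime_iff_coprime]
      exact ((Nat.Prime.coprime_iff_not_dvd hp).2 (Nat.not_dvd_of_pos_of_lt hj0 hj1)).symm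
    obtain ⟨r, s, hrs⟩ := hcop
    have hrs' : (r : A) * (j : A) + (s : A) * (p : A) = 1 := by
      exact_mod_cast congrArg (fun z : ℤ => (z : A)) hrs
    have h4 : coeff j Q = (r : A) * ((j : A) * coeff j Q) + (p : A) * ((s : A) * coeff j Q) := by
      linear_combination (-(coeff j Q)) * hrs'
    have h5 : (p : A) ∣ coeff j Q := by
      rw [h4]
      exact dvd_add (Dvd.dvd.mul_left h3 _) (dvd_mul_right _ _)
    exact dvd_add h5 h2
  · have hj : (j : A) = (p : A) - 1 := by
      have h6 : j + 1 = p := by omega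
      rw [← h6]
      push_cast
      ring
    have h7 : coeff j Q + coeff j G =
        (p : A) * coeff j Q - ((j : A) * coeff j Q - coeff j G) := by
      rw [hj]
      ring
    rw [h7]
    exact dvd_sub (dvd_mul_right _ _) hd

end Pool.Agent.TWT
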