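import Pool.Agent.TWT.StT1b
import Pool.Agent.MUX.XLib

/-!
# TWT, block A, PTA (helper33): the points `pt R p i y0`
-/

set_option autoImplicit false

namespace Pool.Agent.TWT

open _root_.MU3 Pool.Agent.MU3A Pool.Agent.MU3B Pool.Agent.MUX Pool.Agent.MUXU

noncomputable section

namespace PTA

/-- `om emb y / p` is a point of `E[P]` on `om emb O` for `y ∈ cjI P`. -/
theorem tor0 {p : ℕ} {A B : ℤ} {P : Ideal (OO A B)} (cq : CQ A B) (pp : p.Prime)
    (hP : IsPN p P) {L : PeriodPair} {om : ℂ} (hL : IsLI (⊤ : Ideal (OO A B)) L om)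
    {y0 : OO A B} (hy : y0 ∈ cjI P) : Tor P L (om * emb y0 / p) := by
  have hp0 : ((p : ℕ) : ℂ) ≠ 0 := by exact_mod_cast pp.ne_zero
  have hbot : P ≠ ⊥ := by
    intro h
    have h1 := hP.mem
    rw [h, Ideal.mem_bot] at h1
    exact natCast_ne_zero' cq pp.ne_zero h1
  intro x hx
  have h1 : x * y0 ∈ P * cjI P := Ideal.mul_mem_mul hx hy
  rw [mul_cjI cq hbot, hP.norm] at h1
  obtain ⟨c, hc⟩ := Ideal.mem_span_singleton'.1 h1
  refine (hL.mem _).2 ⟨c, trivial, ?_⟩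
  have h2 : emb x * emb y0 = emb c * p := by
    rw [← emb_mul cq, ← hc, emb_mul cq, emb_natCast cq]
  rw [mul_div_assoc', div_eq_iff hp0]
  linear_combination om * h2

/-- `om emb y / p` is not in `om emb O` for `y ∉ P`. -/
theorem nmem0 {p : ℕ} {A B : ℤ} {P : Ideal (OO A B)} (cq : CQ A B) (pp : p.Prime)
    (hP : IsPN p P) {L : PeriodPair} {om : ℂ} (hL : IsLI (⊤ : Ideal (OO A B)) L om)
    {y0 : OO A B} (hy : y0 ∉ P) : om * emb y0 / p ∉ L.lattice := by
  have hp0 : ((p : ℕ) : ℂ) ≠ 0 := by exact_mod_cast pp.ne_zero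
  intro h
  obtain ⟨c, _, hc⟩ := (hL.mem _).1 h
  rw [div_eq_iff hp0, mul_assoc] at hc
  have h1 := mul_left_cancel₀ hL.om_ne hc
  have h2 : y0 = c * ((p : ℕ) : OO A B) := by
    apply emb_inj cq
    rw [emb_mul cq, emb_natCast cq]
    exact h1
  exact hy (h2 ▸ P.mul_mem_left c hP.mem)

end PTA

open PTA in
/-- PTA -/
theorem t_PTA : S_PTA := by
  intro p A B P V f hS ι R y0 hy hyP
  have hL : IsLI (⊤ : Ideal (OO A B)) (R.L R.i0) (R.om R.i0) := by
    have h := (R.nl R.i0).toIsLI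
    rwa [R.b0] at h
  have h1 := tor0 hS.cq hS.pp hS.hP hL hy
  have h3 : ∀ i, pt R p i y0 = muX R i * (R.om R.i0 * emb y0 / p) := by
    intro i
    have h0 := hL.om_ne
    unfold pt muX
    field_simp
  refine ⟨h1, nmem0 hS.cq hS.pp hS.hP hL hyP, h3, fun i hI => ?_⟩
  have h4 : Tor P (R.L i) (pt R p i y0) := by
    intro x hx
    have h5 := hI _ (h1 x hx)
    rw [h3 i]
    have e : emb x * (muX R i * (R.om R.i0 * emb y0 / p)) =
      muX R i * (emb x * (R.om R.i0 * emb y0 / p)) := by ring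
    rw [e]
    exact h5
  refine ⟨h4, ?_⟩
  have h6 := h4 _ hS.hP.mem
  rwa [emb_natCast hS.cq] at h6

end

end Pool.Agent.TWT
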