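import Pool.Agent.TWT.StT1
import Pool.Agent.MUX.VX

/-!
# TWT, block A, module PTS: the addition formula (helper85)
-/

set_option autoImplicit false

open WeierstrassCurve

namespace Pool.Agent.TWT

open _root_.MU3 Pool.Agent.MU3A Pool.Agent.MU3B Pool.Agent.MUX Pool.Agent.MUXU
open Pool.Agent.MUXV (GR InK tX)

namespace PTS

open Pool.Agent.MU3.Val

/-- the addition law for different first coordinates -/
theorem add_form {F : Type*} [Field F] {Γ₀ : Type*} [LinearOrderedCommGroupWithZero Γ₀]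
    {v : Valuation F Γ₀} {W : Affine F} [DecidableEq F] (hW : IntW v W) {x₁ y₁ x₂ y₂ : F}
    (h₁ : W.Nonsingular x₁ y₁) (h₂ : W.Nonsingular x₂ y₂) (hx : x₁ ≠ x₂) :
    ∃ (x₃ y₃ l : F) (h₃ : W.Nonsingular x₃ y₃),
      Affine.Point.some x₁ y₁ h₁ + Affine.Point.some x₂ y₂ h₂ = Affine.Point.some x₃ y₃ h₃ ∧
      l * (x₁ - x₂) = y₁ - y₂ ∧ x₃ = l ^ 2 - W.a₂ - x₁ - x₂ ∧ y₃ = -(l * (x₃ - x₁) + y₁) := by
  have hadd := Affine.Point.add_of_X_ne hx (h₁ := h₁) (h₂ := h₂)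
  have hsl := Affine.slope_of_X_ne (W := W) (y₁ := y₁) (y₂ := y₂) hx
  have h₃ := Affine.nonsingular_add h₁ h₂ (fun h => hx h.1)
  refine ⟨W.addX x₁ x₂ (W.slope x₁ x₂ y₁ y₂), W.addY x₁ x₂ y₁ (W.slope x₁ x₂ y₁ y₂),
    W.slope x₁ x₂ y₁ y₂, h₃, hadd, ?_, ?_, ?_⟩
  · rw [hsl, div_mul_cancel₀ _ (sub_ne_zero.2 hx)]
  · rw [Affine.addX, hW.a1]; ring
  · rw [Affine.addY, Affine.negAddY, Affine.negY, hW.a1, hW.a3]; ring

/-- the algebra -/
theorem alg {F : Type} [Field F] (a2 a4 a6 x y t u e l x₂ y₂ x₃ y₃ : F) (ht : t ≠ 0)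
    (hu : u ≠ 0) (he : e * (1 - x * t ^ 2 * u) = 1) (hx₂ : x₂ * (t ^ 2 * u) = 1)
    (hy₂ : y₂ * (t ^ 3 * u) = -1) (hU : EqU a2 a4 a6 t u)
    (hl : l * (x - x₂) = y - y₂) (hx₃ : x₃ = l ^ 2 - a2 - x - x₂)
    (hy₃ : y₃ = -(l * (x₃ - x) + y)) :
    x₃ = xF a2 a4 a6 x y t u e ∧ y₃ = yF a2 a4 a6 x y t u e := by
  have hl' : l * t = -((1 + y * t ^ 3 * u) * e) := by
    linear_combination (-(e * t ^ 3 * u)) * hl + (-(l * t)) * he + e * hy₂ + (-(l * t * e)) * hx₂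
  have htu : t ^ 2 * u ≠ 0 := mul_ne_zero (pow_ne_zero 2 ht) hu
  have hX : x₃ = xF a2 a4 a6 x y t u e := by
    unfold EqU at hU
    refine mul_left_cancel₀ htu ?_
    rw [hx₃]
    unfold xF nF
    linear_combination (u * (l * t - (1 + y * t ^ 3 * u) * e)) * hl' - hx₂ + e ^ 2 * hU +
      ((t ^ 2 * u * (a2 + 2 * x) + 1) * (e * (1 - x * t ^ 2 * u) + 1)) * he
  refine ⟨hX, ?_⟩
  rw [hy₃, hX]
  unfold xF yF
  linear_combination (-(u * nF a2 a4 a6 x y t u * e ^ 2)) * hl'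

end PTS

open PTS Pool.Agent.MU3.Val in
theorem t_PTS : S_PTS := by
  intro V W L X Y ξ G z R hz hR hRL t u ht hu
  obtain ⟨hzL, hXz⟩ := Pool.Agent.MUXV.int_X hz
  obtain ⟨vt, vt0, vxt⟩ := Pool.Agent.MUXV.v_tX_lt G hR hRL
  obtain ⟨hzR, -, -, -⟩ := Pool.Agent.MUXV.near G hz hR hRL
  obtain ⟨h1, e1⟩ := G.some z hzL
  obtain ⟨h2, e2⟩ := G.some R hRL
  obtain ⟨h3, e3⟩ := G.some (z + R) (Pool.Agent.MUXV.int_X hzR).1
  rw [← ht] at vt vt0 vxt
  have hX0 : X R ≠ 0 := by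
    intro h
    rw [h, map_zero, zero_mul] at vxt
    exact zero_ne_one vxt
  have ht0 : t ≠ 0 := fun h => vt0 (by rw [h, map_zero])
  have hY0 : Y R ≠ 0 := by
    intro h
    apply ht0
    rw [ht]
    unfold Pool.Agent.MUXV.tX
    rw [h, div_zero, neg_zero]
  have vu : V.valuation u = 1 := by
    rw [hu, map_div₀, map_one, map_mul, map_pow, vxt, div_one]
  have hu0 : u ≠ 0 := by
    intro h
    rw [h, map_zero] at vu
    exact zero_ne_one vu
  have hx₂ : X R = 1 / (t ^ 2 * u) := by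
    rw [hu]; field_simp
  have hy₂ : Y R = -(1 / (t ^ 3 * u)) := by
    have h4 : Y R * t = -X R := by
      rw [ht]
      unfold Pool.Agent.MUXV.tX
      field_simp
    have h5 : Y R = -X R / t := by rw [← h4]; field_simp
    rw [h5, hx₂]
    field_simp
  have hU : EqU W.a₂ W.a₄ W.a₆ t u := by
    have h4 := eqn G.int h2
    rw [hx₂, hy₂] at h4
    unfold EqU
    field_simp at h4
    linear_combination h4
  have vs : V.valuation (X z * t ^ 2 * u) < 1 := by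
    rw [map_mul, map_mul, map_pow, vu, mul_one]
    refine lt_of_le_of_lt (mul_le_of_le_one_left' hXz) (pow_lt_one₀ zero_le vt (by norm_num))
  have vD : V.valuation (1 - X z * t ^ 2 * u) = 1 := by
    rw [sub_eq_add_neg, V.valuation.map_add_eq_of_lt_left, map_one]
    rw [Valuation.map_neg, map_one]
    exact vs
  have hD : 1 - X z * t ^ 2 * u ≠ 0 := by
    intro h
    rw [h, map_zero] at vD
    exact zero_ne_one vD
  have hx : X z ≠ X R := by
    intro h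
    rw [hx₂] at h
    apply hD
    rw [h]
    field_simp
    ring
  obtain ⟨x₃, y₃, l, h₃, hadd, hl, hx₃, hy₃⟩ := add_form G.int h1 h2 hx
  rw [← e1, ← e2, ← map_add, e3] at hadd
  obtain ⟨rfl, rfl⟩ : X (z + R) = x₃ ∧ Y (z + R) = y₃ := by
    simpa using hadd
  have key := alg W.a₂ W.a₄ W.a₆ (X z) (Y z) t u (1 / (1 - X z * t ^ 2 * u)) l (X R) (Y R) _ _
    ht0 hu0 (one_div_mul_cancel hD) (by rw [hx₂]; field_simp) (by rw [hy₂]; field_simp) hU hl
    hx₃ hy₃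
  exact ⟨vu, hU, vD, key.1, key.2⟩

end Pool.Agent.TWT
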