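import Pool.Agent.TWT.StT1

/-!
# TWT, module TAF: the formal Taylor expansion modulo `T^p`
-/

set_option autoImplicit false

open PowerSeries

namespace Pool.Agent.TWT

namespace TAF

section
variable {A : Type} [CommRing A]

/-- the derivation at the variables -/
theorem dW_X (a2 a4 : A) (i : Fin 2) : dW a2 a4 (MvPolynomial.X i) =
    ![2 * MvPolynomial.X 1,
      3 * MvPolynomial.X 0 ^ 2 + 2 * MvPolynomial.C a2 * MvPolynomial.X 0 + MvPolynomial.C a4] i := by
  unfold dW
  exact MvPolynomial.mkDerivation_X _ _ _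

/-- the derivative of a polynomial in `gx, gy` -/
theorem d_aeval (a2 a4 : A) (gx gy κ : A⟦X⟧) (h1 : d⁄dX A gx = κ * (2 * gy))
    (h2 : d⁄dX A gy = κ * (3 * gx ^ 2 + 2 * PowerSeries.C a2 * gx + PowerSeries.C a4))
    (f : MvPolynomial (Fin 2) A) :
    d⁄dX A (MvPolynomial.aeval ![gx, gy] f) =
      κ * MvPolynomial.aeval ![gx, gy] (dW a2 a4 f) := by
  have hX : ∀ i : Fin 2, d⁄dX A ((![gx, gy] : Fin 2 → A⟦X⟧) i) =
      κ * MvPolynomial.aeval ![gx, gy] (dW a2 a4 (MvPolynomial.X i)) := by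
    intro i
    rw [dW_X]
    fin_cases i
    · simp only [Fin.zero_eta, Fin.isValue, Matrix.cons_val_zero, map_mul, map_ofNat,
        MvPolynomial.aeval_X, Matrix.cons_val_one, Matrix.cons_val_fin_one]
      exact h1
    · simp only [Fin.mk_one, Fin.isValue, Matrix.cons_val_one, Matrix.cons_val_fin_one, map_add,
        map_mul, map_ofNat, map_pow, MvPolynomial.aeval_X, Matrix.cons_val_zero,
        MvPolynomial.aeval_C]
      exact h2
  induction f using MvPolynomial.induction_on with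
  | C a =>
    have e1 : dW a2 a4 (MvPolynomial.C a) = 0 := (dW a2 a4).map_algebraMap a
    rw [e1, map_zero, mul_zero, MvPolynomial.aeval_C]
    exact (d⁄dX A).map_algebraMap a
  | add p q hp hq => rw [map_add, map_add, hp, hq, map_add, map_add, mul_add]
  | mul_X p i hp =>
    rw [map_mul, MvPolynomial.aeval_X, Derivation.leibniz, hp, hX i, Derivation.leibniz, map_add,
      smul_eq_mul, smul_eq_mul, smul_eq_mul, smul_eq_mul, map_mul, map_mul, MvPolynomial.aeval_X]
    ring

/-- the derivative of the truncated logarithm -/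
theorem coeff_d_lam {p : ℕ} (hu : ∀ j : ℕ, 0 < j → j < p → IsUnit (j : A)) (κ : A⟦X⟧) {j : ℕ}
    (hj : j + 1 < p) : PowerSeries.coeff j (d⁄dX A (lamF p κ)) = PowerSeries.coeff j κ := by
  rw [PowerSeries.coeff_derivative, lamF, PowerSeries.coeff_mk, if_pos ⟨Nat.succ_pos j, hj⟩,
    Nat.add_sub_cancel, mul_assoc]
  have h := Ring.inverse_mul_cancel _ (hu (j + 1) (Nat.succ_pos j) hj)
  push_cast at h ⊢
  rw [h, mul_one]

/-- the constant coefficient of the logarithm -/
theorem X_dvd_lam (p : ℕ) (κ : A⟦X⟧) : (PowerSeries.X : A⟦X⟧) ∣ lamF p κ := by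
  rw [PowerSeries.X_dvd_iff, lamF, ← PowerSeries.coeff_zero_eq_constantCoeff_apply,
    PowerSeries.coeff_mk, if_neg (by omega)]

/-- the factorials below `p` are units -/
theorem isUnit_fac {p : ℕ} (hu : ∀ j : ℕ, 0 < j → j < p → IsUnit (j : A)) :
    ∀ k : ℕ, k < p → IsUnit (k.factorial : A) := by
  intro k
  induction k with
  | zero => intro _; simp
  | succ k ih =>
    intro hk
    rw [Nat.factorial_succ, Nat.cast_mul]
    exact (hu (k + 1) (Nat.succ_pos k) hk).mul (ih (by omega))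

/-- `(k+1) / (k+1)! = 1 / k!` -/
theorem inv_fac {p : ℕ} (hu : ∀ j : ℕ, 0 < j → j < p → IsUnit (j : A)) {k : ℕ} (hk : k + 1 < p) :
    Ring.inverse ((k + 1).factorial : A) * ((k + 1 : ℕ) : A) = Ring.inverse (k.factorial : A) := by
  rw [Nat.factorial_succ, Nat.cast_mul, Ring.mul_inverse_rev, mul_assoc,
    Ring.inverse_mul_cancel _ (hu (k + 1) (Nat.succ_pos k) hk), mul_one]

/-- the coefficients of the expansion -/
noncomputable def cf (a2 a4 x y : A) (f : MvPolynomial (Fin 2) A) (k : ℕ) : A :=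
  MvPolynomial.aeval ![x, y] ((dW a2 a4)^[k] f) * Ring.inverse (k.factorial : A)

theorem cf_succ {p : ℕ} (hu : ∀ j : ℕ, 0 < j → j < p → IsUnit (j : A)) (a2 a4 x y : A)
    (f : MvPolynomial (Fin 2) A) {k : ℕ} (hk : k + 1 < p) :
    cf a2 a4 x y f (k + 1) * ((k + 1 : ℕ) : A) = cf a2 a4 x y (dW a2 a4 f) k := by
  unfold cf
  rw [mul_assoc, inv_fac hu hk, Function.iterate_succ_apply]

/-- the expansion -/
noncomputable def ex (p : ℕ) (a2 a4 x y : A) (κ : A⟦X⟧) (f : MvPolynomial (Fin 2) A) : A⟦X⟧ :=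
  ∑ k ∈ Finset.range p, PowerSeries.C (cf a2 a4 x y f k) * lamF p κ ^ k

/-- the derivative of the expansion -/
theorem d_ex {p : ℕ} (hu : ∀ j : ℕ, 0 < j → j < p → IsUnit (j : A)) (a2 a4 x y : A) (κ : A⟦X⟧)
    (f : MvPolynomial (Fin 2) A) {j : ℕ} (hj : j + 1 < p) :
    PowerSeries.coeff j (d⁄dX A (ex p a2 a4 x y κ f)) =
      PowerSeries.coeff j (κ * ex p a2 a4 x y κ (dW a2 a4 f)) := by
  obtain ⟨P, rfl⟩ : ∃ P, p = P + 1 := ⟨p - 1, by omega⟩
  obtain ⟨S, hS⟩ : ∃ S : A⟦X⟧, S = ∑ k ∈ Finset.range P,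
      PowerSeries.C (cf a2 a4 x y (dW a2 a4 f) k) * lamF (P + 1) κ ^ k := ⟨_, rfl⟩
  have e1 : d⁄dX A (ex (P + 1) a2 a4 x y κ f) = S * d⁄dX A (lamF (P + 1) κ) := by
    unfold ex
    rw [map_sum, Finset.sum_range_succ', hS, Finset.sum_mul]
    have e0 : d⁄dX A (PowerSeries.C (cf a2 a4 x y f 0) * lamF (P + 1) κ ^ 0) = 0 := by
      rw [pow_zero, mul_one]
      exact (d⁄dX A).map_algebraMap _
    rw [e0, add_zero]
    refine Finset.sum_congr rfl fun k hk => ?_
    have hk' : k + 1 < P + 1 := by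
      have := Finset.mem_range.1 hk
      omega
    rw [← PowerSeries.smul_eq_C_mul, Derivation.map_smul, Derivation.leibniz_pow,
      Nat.add_sub_cancel, ← cf_succ hu a2 a4 x y f hk', PowerSeries.smul_eq_C_mul, map_mul,
      map_natCast, nsmul_eq_mul, smul_eq_mul]
    ring
  have e2 : ex (P + 1) a2 a4 x y κ (dW a2 a4 f) =
      S + PowerSeries.C (cf a2 a4 x y (dW a2 a4 f) P) * lamF (P + 1) κ ^ P := by
    unfold ex
    rw [Finset.sum_range_succ, hS]
  have e3 : ∀ b < P, PowerSeries.coeff b (lamF (P + 1) κ ^ P) = 0 :=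
    PowerSeries.X_pow_dvd_iff.1 (pow_dvd_pow_of_dvd (X_dvd_lam (P + 1) κ) P)
  rw [e1, e2, mul_comm S, PowerSeries.coeff_mul, PowerSeries.coeff_mul]
  refine Finset.sum_congr rfl fun ab hab => ?_
  have h4 := Finset.HasAntidiagonal.mem_antidiagonal.1 hab
  rw [coeff_d_lam hu κ (by omega : ab.1 + 1 < P + 1), map_add, PowerSeries.coeff_C_mul,
    e3 ab.2 (by omega), mul_zero, add_zero]

/-- the constant coefficient -/
theorem coeff_zero {p : ℕ} (hp : 0 < p) (a2 a4 : A) (gx gy κ : A⟦X⟧)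
    (f : MvPolynomial (Fin 2) A) :
    PowerSeries.coeff 0 (MvPolynomial.aeval ![gx, gy] f) =
      PowerSeries.coeff 0 (ex p a2 a4 (PowerSeries.constantCoeff gx)
        (PowerSeries.constantCoeff gy) κ f) := by
  obtain ⟨P, rfl⟩ : ∃ P, p = P + 1 := ⟨p - 1, by omega⟩
  have e1 : PowerSeries.coeff 0 (ex (P + 1) a2 a4 (PowerSeries.constantCoeff gx)
      (PowerSeries.constantCoeff gy) κ f) = MvPolynomial.aeval
        ![PowerSeries.constantCoeff gx, PowerSeries.constantCoeff gy] f := by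
    unfold ex
    rw [map_sum, Finset.sum_range_succ']
    have h0 : ∀ k ∈ Finset.range P, PowerSeries.coeff 0 (PowerSeries.C (cf a2 a4
        (PowerSeries.constantCoeff gx) (PowerSeries.constantCoeff gy) f (k + 1)) *
          lamF (P + 1) κ ^ (k + 1)) = 0 := by
      intro k _
      have h := PowerSeries.X_dvd_iff.1 (X_dvd_lam (P + 1) κ)
      rw [PowerSeries.coeff_zero_eq_constantCoeff_apply, map_mul, map_pow, h, pow_succ, mul_zero,
        mul_zero]
    rw [Finset.sum_eq_zero h0, zero_add, pow_zero, mul_one,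
      PowerSeries.coeff_zero_eq_constantCoeff_apply, PowerSeries.constantCoeff_C]
    unfold cf
    simp
  rw [e1, PowerSeries.coeff_zero_eq_constantCoeff_apply]
  clear e1
  induction f using MvPolynomial.induction_on with
  | C a =>
    rw [MvPolynomial.aeval_C, MvPolynomial.aeval_C]
    exact PowerSeries.constantCoeff_C a
  | add p q hp hq =>
    rw [map_add, map_add, map_add, hp, hq]
  | mul_X p i hp =>
    rw [map_mul, map_mul, map_mul, hp, MvPolynomial.aeval_X, MvPolynomial.aeval_X]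
    fin_cases i <;> rfl

/-- the expansion, by induction on the coefficient -/
theorem main {p : ℕ} (hu : ∀ j : ℕ, 0 < j → j < p → IsUnit (j : A)) (a2 a4 : A)
    (gx gy κ : A⟦X⟧) (h1 : d⁄dX A gx = κ * (2 * gy))
    (h2 : d⁄dX A gy = κ * (3 * gx ^ 2 + 2 * PowerSeries.C a2 * gx + PowerSeries.C a4)) :
    ∀ (j : ℕ), j < p → ∀ f : MvPolynomial (Fin 2) A,
      PowerSeries.coeff j (MvPolynomial.aeval ![gx, gy] f) =
        PowerSeries.coeff j (ex p a2 a4 (PowerSeries.constantCoeff gx)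
          (PowerSeries.constantCoeff gy) κ f) := by
  intro j
  induction j using Nat.strong_induction_on with
  | _ j ih =>
    intro hj f
    rcases Nat.eq_zero_or_pos j with h0 | h0
    · rw [h0]
      exact coeff_zero (by omega) a2 a4 gx gy κ f
    · obtain ⟨i, rfl⟩ : ∃ i, j = i + 1 := ⟨j - 1, by omega⟩
      have hunit : IsUnit ((i : A) + 1) := by
        have := hu (i + 1) (Nat.succ_pos i) hj
        push_cast at this
        exact this
      refine hunit.mul_right_cancel ?_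
      rw [← PowerSeries.coeff_derivative, ← PowerSeries.coeff_derivative,
        d_aeval a2 a4 gx gy κ h1 h2, d_ex hu _ _ _ _ _ _ hj, PowerSeries.coeff_mul,
        PowerSeries.coeff_mul]
      refine Finset.sum_congr rfl fun ab hab => ?_
      have h4 := Finset.HasAntidiagonal.mem_antidiagonal.1 hab
      rw [ih ab.2 (by omega) (by omega)]

end

end TAF

theorem t_TAF : S_TAF := by
  intro A _ p hu a2 a4 gx gy κ h1 h2 f j hj
  exact TAF.main hu a2 a4 gx gy κ h1 h2 j hj f

end Pool.Agent.TWT
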