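import Pool.Agent.TWT.StT1

/-!
# TWT, block A: the Taylor expansion at the points
-/

set_option autoImplicit false

open WeierstrassCurve Polynomial PowerSeries

namespace Pool.Agent.TWT

open _root_.MU3 Pool.Agent.MU3A Pool.Agent.MU3B Pool.Agent.MUX Pool.Agent.MUXU
open Pool.Agent.MUXV (GR InK tX)

namespace TAY

section
variable {A B : Type} [CommRing A] [CommRing B] (φ : A →+* B)

lemma map_qF (a2 a4 a6 T U : A) :
    φ (qF a2 a4 a6 T U) = qF (φ a2) (φ a4) (φ a6) (φ T) (φ U) := by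
  simp only [qF, map_sub, map_mul, map_pow, map_one, map_ofNat]

lemma map_nF (a2 a4 a6 x y T U : A) :
    φ (nF a2 a4 a6 x y T U) = nF (φ a2) (φ a4) (φ a6) (φ x) (φ y) (φ T) (φ U) := by
  simp only [nF, map_sub, map_add, map_mul, map_pow, map_ofNat]

lemma map_xF (a2 a4 a6 x y T U e : A) :
    φ (xF a2 a4 a6 x y T U e) = xF (φ a2) (φ a4) (φ a6) (φ x) (φ y) (φ T) (φ U) (φ e) := by
  simp only [xF, map_add, map_mul, map_pow, map_nF]

lemma map_yF (a2 a4 a6 x y T U e : A) :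
    φ (yF a2 a4 a6 x y T U e) = yF (φ a2) (φ a4) (φ a6) (φ x) (φ y) (φ T) (φ U) (φ e) := by
  simp only [yF, map_add, map_mul, map_pow, map_nF, map_neg, map_one]

lemma map_EqU {a2 a4 a6 T U : A} (h : EqU a2 a4 a6 T U) :
    EqU (φ a2) (φ a4) (φ a6) (φ T) (φ U) := by
  unfold EqU at h ⊢
  have := congrArg φ h
  simpa only [map_add, map_mul, map_pow, map_one] using this

lemma inj_EqU (hφ : Function.Injective φ) {a2 a4 a6 T U : A}
    (h : EqU (φ a2) (φ a4) (φ a6) (φ T) (φ U)) : EqU a2 a4 a6 T U := by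
  unfold EqU at h ⊢
  apply hφ
  simpa only [map_add, map_mul, map_pow, map_one] using h

end

/-- evaluation of a polynomial and ring homomorphisms -/
lemma map_ev {A B S : Type} [CommRing A] [CommRing B] [CommRing S] [Algebra A B] (φ : B →+* S)
    (π : A →+* S) (hπ : ∀ a, φ (algebraMap A B a) = π a) (g h : B) (f : MvPolynomial (Fin 2) A) :
    φ (MvPolynomial.aeval ![g, h] f) = MvPolynomial.eval₂ π ![φ g, φ h] f := by
  rw [MvPolynomial.aeval_def, MvPolynomial.hom_eval₂]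
  have e1 : φ.comp (algebraMap A B) = π := RingHom.ext hπ
  rw [e1]
  congr 1
  funext i
  fin_cases i <;> rfl

lemma coe_ev (V : ValuationSubring ℂ) (g h : V) (f : MvPolynomial (Fin 2) V) :
    ((MvPolynomial.aeval ![g, h] f : V) : ℂ) = MvPolynomial.aeval ![(g : ℂ), (h : ℂ)] f := by
  have := map_ev (algebraMap V ℂ) (algebraMap V ℂ) (fun _ => rfl) g h f
  rw [MvPolynomial.aeval_def ![(g : ℂ), (h : ℂ)]]
  exact this

end TAY

open TAY

theorem t_TAY (hEVH : S_EVH) (hUEX : S_UEX) (hUQN : S_UQN) (hODE : S_ODE) (hTAF : S_TAF)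
    (hPTS : S_PTS) : S_TAY := by
  intro V W L X Y ξ G p hp hv a2 a4 ha2 ha4
  obtain ⟨a6, ha6⟩ : ∃ a6 : V, (a6 : ℂ) = W.a₆ :=
    ⟨⟨W.a₆, (ValuationSubring.valuation_le_one_iff _ _).1 G.int.a6⟩, rfl⟩
  have hinj : Function.Injective (algebraMap V ℂ) := Subtype.val_injective
  have hunit : ∀ j : ℕ, 0 < j → j < p → IsUnit (j : V) := by
    intro j h0 hj
    refine (ValuationSubring.valuation_eq_one_iff V (j : V)).2 ?_
    have := hv j h0 hj
    simpa using this
  have hfac : ∀ k : ℕ, k < p → IsUnit (k.factorial : V) := by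
    intro k
    induction k with
    | zero => intro _; simp
    | succ k ih =>
      intro hk
      rw [Nat.factorial_succ, Nat.cast_mul]
      exact (hunit (k + 1) (Nat.succ_pos k) hk).mul (ih (by omega))
  obtain ⟨U, hU0, hU⟩ := hUEX V a2 a4 a6
  have hq0 : PowerSeries.constantCoeff (qF (PowerSeries.C a2) (PowerSeries.C a4)
      (PowerSeries.C a6) PowerSeries.X U) = 1 := by
    simp [qF]
  obtain ⟨κ, hκ⟩ : ∃ κ : V⟦X⟧, κ * qF (PowerSeries.C a2) (PowerSeries.C a4) (PowerSeries.C a6)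
      PowerSeries.X U = 1 := by
    have h1 : IsUnit (qF (PowerSeries.C a2) (PowerSeries.C a4) (PowerSeries.C a6)
      PowerSeries.X U) := by
      rw [PowerSeries.isUnit_iff_constantCoeff, hq0]
      exact isUnit_one
    obtain ⟨u, hu⟩ := h1
    exact ⟨↑u⁻¹, by rw [← hu]; exact u.inv_mul⟩
  have hκ0 : PowerSeries.constantCoeff κ = 1 := by
    have := congrArg PowerSeries.constantCoeff hκ
    rwa [map_mul, hq0, mul_one, map_one] at this
  refine ⟨fun j => ((PowerSeries.coeff j (lamF p κ) : V) : ℂ), ?_, ?_, ?_, ?_⟩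
  · simp [lamF]
  · have h1 : (1 : ℕ) < p := hp
    simp [lamF, h1, hκ0]
  · intro j
    exact (ValuationSubring.valuation_le_one_iff _ _).2 (PowerSeries.coeff j (lamF p κ)).2
  · intro R hR hRL z hz f
    obtain ⟨hvt, hvt0, hvt2⟩ := Pool.Agent.MUXV.v_tX_lt G hR hRL
    obtain ⟨hu1, hEq, he1, hXe, hYe⟩ := hPTS V W L X Y ξ G z R hz hR hRL _ _ rfl rfl
    obtain ⟨t, ht⟩ : ∃ t : V, (t : ℂ) = tX X Y R :=
      ⟨⟨_, (ValuationSubring.valuation_le_one_iff _ _).1 hvt.le⟩, rfl⟩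
    obtain ⟨u, hu⟩ : ∃ u : V, (u : ℂ) = 1 / (X R * (tX X Y R) ^ 2) :=
      ⟨⟨_, (ValuationSubring.valuation_le_one_iff _ _).1 hu1.le⟩, rfl⟩
    obtain ⟨x, hx⟩ : ∃ x : V, (x : ℂ) = X z :=
      ⟨⟨_, (ValuationSubring.valuation_le_one_iff _ _).1 (Pool.Agent.MUXV.int_X hz).2⟩, rfl⟩
    obtain ⟨y, hy⟩ : ∃ y : V, (y : ℂ) = Y z :=
      ⟨⟨_, (ValuationSubring.valuation_le_one_iff _ _).1 (Pool.Agent.MUXV.int_Y G hz)⟩, rfl⟩
    have hcurve : y ^ 2 = x ^ 3 + a2 * x ^ 2 + a4 * x + a6 := by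
      obtain ⟨h1, -⟩ := G.some z (Pool.Agent.MUXV.int_X hz).1
      have h2 := (Affine.equation_iff _ _).1 h1.1
      rw [G.int.a1, G.int.a3] at h2
      apply Subtype.val_injective
      push_cast
      rw [hx, hy, ha2, ha4, ha6]
      linear_combination h2
    rw [← ht] at hu hEq he1 hXe hYe hvt ⊢
    rw [← hu] at hEq he1 hXe hYe
    rw [← hx] at he1 hXe hYe
    rw [← hy] at hXe hYe
    rw [← ha2, ← ha4, ← ha6] at hEq hXe hYe
    have hEqV : EqU a2 a4 a6 t u := inj_EqU (algebraMap V ℂ) hinj hEq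
    obtain ⟨e, he⟩ : ∃ e : V, (e : ℂ) = 1 / (1 - (x : ℂ) * (t : ℂ) ^ 2 * u) :=
      ⟨⟨_, (ValuationSubring.valuation_le_one_iff _ _).1 (by
        rw [map_div₀, map_one, he1, div_one])⟩, rfl⟩
    have hne : (1 - (x : ℂ) * (t : ℂ) ^ 2 * u) ≠ 0 := by
      intro h0
      rw [h0, map_zero] at he1
      exact zero_ne_one he1
    have heV : e * (1 - x * t ^ 2 * u) = 1 := by
      apply Subtype.val_injective
      push_cast
      rw [he]
      field_simp
    rw [← he] at hXe hYe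
    -- the quotient
    obtain ⟨I, hI⟩ : ∃ I : Ideal V, I = Ideal.span {t ^ p} := ⟨_, rfl⟩
    obtain ⟨π, hπ⟩ : ∃ π : V →+* V ⧸ I, π = Ideal.Quotient.mk I := ⟨_, rfl⟩
    have hsp : (π t) ^ p = 0 := by
      rw [← map_pow, hπ, Ideal.Quotient.eq_zero_iff_mem, hI]
      exact Ideal.mem_span_singleton_self _
    obtain ⟨φ, hφX, hφC, hφ⟩ := hEVH V (V ⧸ I) π (π t) p hsp hp
    have hφU : φ U = π u := by
      refine hUQN (V ⧸ I) (π a2) (π a4) (π a6) (π t) _ _ p hsp ?_ (map_EqU π hEqV)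
      have := map_EqU φ hU
      rwa [hφC, hφC, hφC, hφX] at this
    obtain ⟨E, hE⟩ : ∃ E : V⟦X⟧, E * (1 - PowerSeries.C x * PowerSeries.X ^ 2 * U) = 1 := by
      have h1 : IsUnit (1 - PowerSeries.C x * PowerSeries.X ^ 2 * U) := by
        rw [PowerSeries.isUnit_iff_constantCoeff]
        simp
      obtain ⟨w, hw⟩ := h1
      exact ⟨↑w⁻¹, by rw [← hw]; exact w.inv_mul⟩
    have hE0 : PowerSeries.constantCoeff E = 1 := by
      have := congrArg PowerSeries.constantCoeff hE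
      rw [map_mul] at this
      simpa using this
    have hφE : φ E = π e := by
      have h1 := congrArg φ hE
      rw [map_mul, map_sub, map_one, map_mul, map_mul, map_pow, hφC, hφX, hφU] at h1
      have h2 := congrArg π heV
      rw [map_mul, map_sub, map_one, map_mul, map_mul, map_pow] at h2
      calc φ E = φ E * (π e * (1 - π x * π t ^ 2 * π u)) := by rw [h2, mul_one]
        _ = π e * (φ E * (1 - π x * π t ^ 2 * π u)) := by ring
        _ = π e := by rw [h1, mul_one]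
    obtain ⟨gx, hgx⟩ : ∃ gx : V⟦X⟧, gx = xF (PowerSeries.C a2) (PowerSeries.C a4)
      (PowerSeries.C a6) (PowerSeries.C x) (PowerSeries.C y) PowerSeries.X U E := ⟨_, rfl⟩
    obtain ⟨gy, hgy⟩ : ∃ gy : V⟦X⟧, gy = yF (PowerSeries.C a2) (PowerSeries.C a4)
      (PowerSeries.C a6) (PowerSeries.C x) (PowerSeries.C y) PowerSeries.X U E := ⟨_, rfl⟩
    obtain ⟨hdx, hdy⟩ := hODE V a2 a4 a6 x y hcurve U E κ hU hE hκ gx gy hgx hgy
    have hT := hTAF V p hunit a2 a4 gx gy κ hdx hdy f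
    have hgx0 : PowerSeries.constantCoeff gx = x := by
      rw [hgx]; simp [xF]
    have hgy0 : PowerSeries.constantCoeff gy = y := by
      have h2 : PowerSeries.constantCoeff (2 : V⟦X⟧) = 2 := map_ofNat _ 2
      rw [hgy]
      simp [yF, nF, hU0, hE0, h2]
      ring
    rw [hgx0, hgy0] at hT
    obtain ⟨XV, hXV⟩ : ∃ XV : V, XV = xF a2 a4 a6 x y t u e := ⟨_, rfl⟩
    obtain ⟨YV, hYV⟩ : ∃ YV : V, YV = yF a2 a4 a6 x y t u e := ⟨_, rfl⟩
    have hXVc : X (z + R) = (XV : ℂ) := by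
      rw [hXe, hXV]
      exact (map_xF (algebraMap V ℂ) a2 a4 a6 x y t u e).symm
    have hYVc : Y (z + R) = (YV : ℂ) := by
      rw [hYe, hYV]
      exact (map_yF (algebraMap V ℂ) a2 a4 a6 x y t u e).symm
    have hφgx : φ gx = π XV := by
      rw [hgx, hXV, map_xF, map_xF, hφC, hφC, hφC, hφC, hφC, hφX, hφU, hφE]
    have hφgy : φ gy = π YV := by
      rw [hgy, hYV, map_yF, map_yF, hφC, hφC, hφC, hφC, hφC, hφX, hφU, hφE]
    obtain ⟨w, hw⟩ : ∃ w : V, w = ∑ j ∈ Finset.range p, PowerSeries.coeff j (lamF p κ) * t ^ j :=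
      ⟨_, rfl⟩
    have hφl : φ (lamF p κ) = π w := by
      rw [hφ, hw, map_sum]
      simp only [map_mul, map_pow]
    obtain ⟨c, hc⟩ : ∃ c : ℕ → V, c = fun k => MvPolynomial.aeval ![x, y] ((dW a2 a4)^[k] f) *
      Ring.inverse (k.factorial : V) := ⟨_, rfl⟩
    have hL : π (MvPolynomial.aeval ![XV, YV] f) =
        π (∑ k ∈ Finset.range p, c k * w ^ k) := by
      have h1 : φ (MvPolynomial.aeval ![gx, gy] f) = π (MvPolynomial.aeval ![XV, YV] f) := by
        rw [map_ev φ π (fun a => hφC a) gx gy f, hφgx, hφgy,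
          ← map_ev π π (fun _ => rfl) XV YV f]
      have h2 : φ (MvPolynomial.aeval ![gx, gy] f) =
          φ (∑ k ∈ Finset.range p, PowerSeries.C (c k) * lamF p κ ^ k) := by
        rw [hφ, hφ]
        refine Finset.sum_congr rfl fun k hk => ?_
        rw [hT k (Finset.mem_range.1 hk), hc]
      rw [← h1, h2, map_sum, map_sum]
      refine Finset.sum_congr rfl fun k _ => ?_
      rw [map_mul, map_pow, hφC, hφl, map_mul, map_pow]
    rw [hπ] at hL
    have hmem := Ideal.Quotient.eq.1 hL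
    rw [hI] at hmem
    obtain ⟨r, hr⟩ := Ideal.mem_span_singleton'.1 hmem
    have hwc : (w : ℂ) = vpi (fun j => ((PowerSeries.coeff j (lamF p κ) : V) : ℂ)) p (t : ℂ) := by
      rw [hw]
      simp only [vpi]
      push_cast
      rfl
    have key : MvPolynomial.aeval ![X (z + R), Y (z + R)] f -
        ∑ k ∈ Finset.range p, MvPolynomial.aeval ![X z, Y z] ((dW a2 a4)^[k] f) /
          (k.factorial : ℂ) *
          vpi (fun j => ((PowerSeries.coeff j (lamF p κ) : V) : ℂ)) p (t : ℂ) ^ k =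
        ((r * t ^ p : V) : ℂ) := by
      rw [hr, ← hwc, hXVc, hYVc, ← coe_ev, ← hx, ← hy]
      push_cast
      congr 1
      refine Finset.sum_congr rfl fun k hk => ?_
      rw [hc, ← coe_ev]
      have hk1 := hfac k (Finset.mem_range.1 hk)
      have hk2 := Ring.inverse_mul_cancel _ hk1
      have hk3 : ((Ring.inverse (k.factorial : V) : V) : ℂ) * (k.factorial : ℂ) = 1 := by
        have := congrArg (fun a : V => (a : ℂ)) hk2
        simpa using this
      have hk4 : ((Ring.inverse (k.factorial : V) : V) : ℂ) = 1 / (k.factorial : ℂ) :=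
        eq_div_of_mul_eq (by exact_mod_cast k.factorial_ne_zero) hk3
      push_cast
      rw [hk4]
      ring
    rw [key]
    push_cast
    rw [map_mul, map_pow]
    calc V.valuation (r : ℂ) * V.valuation (t : ℂ) ^ p ≤ 1 * V.valuation (t : ℂ) ^ p :=
          mul_le_mul_left ((ValuationSubring.valuation_le_one_iff _ _).2 r.2) _
      _ = V.valuation (t : ℂ) ^ p := one_mul _

end Pool.Agent.TWT
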