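import Pool.Agent.TWT.StT1
import Pool.Agent.MU3.BAll

/-!
# TWT, module THT (helper49): `Θ_a` and its logarithmic derivative as polynomials
-/

set_option autoImplicit false

open WeierstrassCurve

namespace Pool.Agent.TWT

open _root_.MU3 Pool.Agent.MU3A Pool.Agent.MU3B Pool.Agent.MUX Pool.Agent.MUXU
open Pool.Agent.MUXV (GR InK tX)

noncomputable section

namespace THT

lemma aeval_prod {V : ValuationSubring ℂ} (a2 a4 : V) (x y : ℂ) (c : ℂ → V) (H : Finset ℂ)
    (h : ∀ q ∈ H, x - (c q : ℂ) ≠ 0) :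
    MvPolynomial.aeval ![x, y] (∏ q ∈ H, (MvPolynomial.X 0 - MvPolynomial.C (c q))) =
      ∏ q ∈ H, (x - (c q : ℂ)) ∧
    MvPolynomial.aeval ![x, y]
      (dW a2 a4 (∏ q ∈ H, (MvPolynomial.X 0 - MvPolynomial.C (c q)))) =
      (∏ q ∈ H, (x - (c q : ℂ))) * ∑ q ∈ H, 2 * y / (x - (c q : ℂ)) := by
  classical
  have e0 : ∀ q, MvPolynomial.aeval ![x, y]
      (MvPolynomial.X 0 - MvPolynomial.C (c q) : MvPolynomial (Fin 2) V) = x - (c q : ℂ) := by
    intro q
    rw [map_sub, MvPolynomial.aeval_X, MvPolynomial.aeval_C]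
    rfl
  have e1 : ∀ q, MvPolynomial.aeval ![x, y]
      (dW a2 a4 (MvPolynomial.X 0 - MvPolynomial.C (c q) : MvPolynomial (Fin 2) V)) = 2 * y := by
    intro q
    rw [map_sub]
    have h1 : dW a2 a4 (MvPolynomial.X 0) = 2 * MvPolynomial.X 1 := by
      unfold dW
      rw [MvPolynomial.mkDerivation_X]
      rfl
    have h2 : dW a2 a4 (MvPolynomial.C (c q)) = 0 := by
      exact MvPolynomial.derivation_C _ _
    rw [h1, h2, sub_zero, map_mul, MvPolynomial.aeval_X, map_ofNat]
    rfl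
  induction H using Finset.induction_on with
  | empty => simp
  | insert q H hq ih =>
    obtain ⟨i1, i2⟩ := ih fun q' hq' => h q' (Finset.mem_insert_of_mem hq')
    have hn := h q (Finset.mem_insert_self _ _)
    rw [Finset.prod_insert hq, Finset.prod_insert hq, Finset.sum_insert hq]
    refine ⟨by rw [map_mul, e0, i1], ?_⟩
    rw [Derivation.leibniz, map_add, smul_eq_mul, smul_eq_mul, map_mul, map_mul, i2, e0, e1, i1]
    field_simp
    ring

end THT

open THT in
theorem t_THT : S_THT := by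
  intro V W L ξ G a H ha hva hH a2 a4
  classical
  have hK : ∀ q ∈ H, ¬ InK V L (xn L) q := by
    intro q hq hk
    have h1 := Pool.Agent.MUXV.mem_of_nat_mul G hk hva (hH.mem q hq)
    apply hH.ne q hq
    rw [two_mul]
    exact add_mem h1 h1
  let c : ℂ → V := fun q => if h : xn L q ∈ V then ⟨xn L q, h⟩ else 0
  have hc : ∀ q ∈ H, (c q : ℂ) = xn L q := by
    intro q hq
    have h1 : xn L q ∈ V :=
      (ValuationSubring.valuation_le_one_iff _ _).1 (Pool.Agent.MUXV.int_X (hK q hq)).2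
    show ((if h : xn L q ∈ V then (⟨xn L q, h⟩ : V) else 0 : V) : ℂ) = xn L q
    rw [dif_pos h1]
  refine ⟨∏ q ∈ H, (MvPolynomial.X 0 - MvPolynomial.C (c q)), ?_⟩
  intro z hz haz
  have hsub : ∀ q ∈ H, V.valuation (xn L z - (c q : ℂ)) = 1 := by
    intro q hq
    rw [hc q hq]
    have hq' : InK V L (xn L) ((a : ℂ) * q) := Or.inl (hH.mem q hq)
    apply Pool.Agent.MUXV.v_X_sub G hz (hK q hq)
    · intro hk
      apply haz
      have h1 := Pool.Agent.MUXV.inK_nat G hk a
      refine (Pool.Agent.MUXV.inK_congr G (z := (a : ℂ) * (z + q)) (w := (a : ℂ) * z) ?_).1 h1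
      have : (a : ℂ) * (z + q) - (a : ℂ) * z = (a : ℂ) * q := by ring
      rw [this]
      exact hq'
    · intro hk
      apply haz
      have h1 := Pool.Agent.MUXV.inK_nat G hk a
      refine (Pool.Agent.MUXV.inK_congr G (z := (a : ℂ) * (z - q)) (w := (a : ℂ) * z) ?_).1 h1
      have : (a : ℂ) * (z - q) - (a : ℂ) * z = -((a : ℂ) * q) := by ring
      rw [this]
      exact Pool.Agent.MUXV.inK_neg G hq'
  have hne : ∀ q ∈ H, xn L z - (c q : ℂ) ≠ 0 := by
    intro q hq h0
    have := hsub q hq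
    rw [h0, map_zero] at this
    exact zero_ne_one this
  obtain ⟨e1, e2⟩ := aeval_prod a2 a4 (xn L z) (yy L z) c H hne
  have hT : ∏ q ∈ H, (xn L z - (c q : ℂ)) = ThetaH L H z := by
    unfold ThetaH
    refine Finset.prod_congr rfl fun q hq => ?_
    rw [hc q hq]
    unfold xn
    ring
  have hazL : (a : ℂ) * z ∉ L.lattice := fun h => haz (Or.inl h)
  have hnn : ‖(a : ℂ)‖ = (a : ℝ) := by simp
  obtain ⟨d1, -⟩ := b_TDL L (a : ℂ) H (by
      have : a ≠ 0 := by omega
      exact_mod_cast this) (by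
      intro w hw
      have := nsmul_mem hw a
      rwa [nsmul_eq_mul] at this) hH z hazL
  have hS : ∑ q ∈ H, 2 * yy L z / (xn L z - (c q : ℂ)) = dlX L a z := by
    have h1 : ∑ q ∈ H, 2 * yy L z / (xn L z - (c q : ℂ)) =
        ∑ q ∈ H, L.derivWeierstrassP z / (L.weierstrassP z - L.weierstrassP q) := by
      refine Finset.sum_congr rfl fun q hq => ?_
      rw [hc q hq]
      unfold xn yy
      congr 1 <;> ring
    rw [h1, d1]
    unfold dlX
    rw [hnn]
    push_cast
    ring
  refine ⟨by rw [e1, hT], ?_, by rw [e2, hT, hS], ?_⟩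
  · rw [← hT, map_prod]
    exact Finset.prod_eq_one hsub
  · rw [← hS]
    refine V.valuation.map_sum_le fun q hq => ?_
    rw [map_div₀, map_mul, hsub q hq, div_one, G.two, one_mul]
    exact Pool.Agent.MUXV.int_Y G hz

end

end Pool.Agent.TWT
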