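import Pool.Agent.TWT.StT1

/-!
# TWT (UEX): existence of the power series `U = w / T³` by fixed point iteration
-/

set_option autoImplicit false

open WeierstrassCurve Polynomial PowerSeries

namespace Pool.Agent.TWT

noncomputable section

namespace UEX

variable {A : Type} [CommRing A]

/-- the right side of the equation of `U` -/
def Phi (a2 a4 a6 : A) (F : A⟦X⟧) : A⟦X⟧ :=
  1 + PowerSeries.C a2 * PowerSeries.X ^ 2 * F + PowerSeries.C a4 * PowerSeries.X ^ 4 * F ^ 2 +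
    PowerSeries.C a6 * PowerSeries.X ^ 6 * F ^ 3

theorem phi_dvd (a2 a4 a6 : A) (k : ℕ) (F G : A⟦X⟧)
    (h : (PowerSeries.X : A⟦X⟧) ^ k ∣ F - G) :
    (PowerSeries.X : A⟦X⟧) ^ (k + 2) ∣ Phi a2 a4 a6 F - Phi a2 a4 a6 G := by
  obtain ⟨H, hH⟩ := h
  refine ⟨H * (PowerSeries.C a2 + PowerSeries.C a4 * PowerSeries.X ^ 2 * (F + G) +
    PowerSeries.C a6 * PowerSeries.X ^ 4 * (F ^ 2 + F * G + G ^ 2)), ?_⟩
  have : Phi a2 a4 a6 F - Phi a2 a4 a6 G = (F - G) * PowerSeries.X ^ 2 *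
      (PowerSeries.C a2 + PowerSeries.C a4 * PowerSeries.X ^ 2 * (F + G) +
    PowerSeries.C a6 * PowerSeries.X ^ 4 * (F ^ 2 + F * G + G ^ 2)) := by
    unfold Phi
    ring
  rw [this, hH, pow_add]
  ring

/-- the iterates -/
def It (a2 a4 a6 : A) (n : ℕ) : A⟦X⟧ := (Phi a2 a4 a6)^[n] 1

theorem it_succ (a2 a4 a6 : A) (n : ℕ) :
    It a2 a4 a6 (n + 1) = Phi a2 a4 a6 (It a2 a4 a6 n) := by
  unfold It
  rw [Function.iterate_succ_apply']

theorem it_step (a2 a4 a6 : A) (n : ℕ) :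
    (PowerSeries.X : A⟦X⟧) ^ (n + 1) ∣ It a2 a4 a6 (n + 1) - It a2 a4 a6 n := by
  induction n with
  | zero =>
    rw [it_succ]
    have h0 : It a2 a4 a6 0 = 1 := rfl
    rw [h0]
    refine ⟨PowerSeries.C a2 * PowerSeries.X + PowerSeries.C a4 * PowerSeries.X ^ 3 +
      PowerSeries.C a6 * PowerSeries.X ^ 5, ?_⟩
    unfold Phi
    ring
  | succ n ih =>
    rw [it_succ a2 a4 a6 (n + 1), it_succ a2 a4 a6 n]
    rw [it_succ a2 a4 a6 n] at ih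
    exact dvd_trans (pow_dvd_pow _ (by omega)) (phi_dvd a2 a4 a6 (n + 1) _ _ ih)

theorem it_far (a2 a4 a6 : A) (n j : ℕ) :
    (PowerSeries.X : A⟦X⟧) ^ (n + 1) ∣ It a2 a4 a6 (n + j) - It a2 a4 a6 n := by
  induction j with
  | zero => simp
  | succ j ih =>
    have h1 : (PowerSeries.X : A⟦X⟧) ^ (n + 1) ∣
        It a2 a4 a6 (n + j + 1) - It a2 a4 a6 (n + j) :=
      dvd_trans (pow_dvd_pow _ (by omega)) (it_step a2 a4 a6 (n + j))
    have h2 := dvd_add h1 ih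
    have h3 : It a2 a4 a6 (n + j + 1) - It a2 a4 a6 (n + j) +
        (It a2 a4 a6 (n + j) - It a2 a4 a6 n) = It a2 a4 a6 (n + (j + 1)) - It a2 a4 a6 n := by
      rw [← add_assoc]
      ring
    rwa [h3] at h2

theorem it_coeff (a2 a4 a6 : A) (n m : ℕ) (h : n ≤ m) :
    PowerSeries.coeff n (It a2 a4 a6 m) = PowerSeries.coeff n (It a2 a4 a6 n) := by
  obtain ⟨j, rfl⟩ := Nat.exists_eq_add_of_le h
  have h1 := it_far a2 a4 a6 n j
  rw [PowerSeries.X_pow_dvd_iff] at h1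
  have h2 := h1 n (Nat.lt_succ_self n)
  rw [map_sub] at h2
  exact sub_eq_zero.mp h2

/-- the limit -/
def Lim (a2 a4 a6 : A) : A⟦X⟧ :=
  PowerSeries.mk fun n => PowerSeries.coeff n (It a2 a4 a6 n)

theorem lim_dvd (a2 a4 a6 : A) (m : ℕ) :
    (PowerSeries.X : A⟦X⟧) ^ (m + 1) ∣ Lim a2 a4 a6 - It a2 a4 a6 m := by
  rw [PowerSeries.X_pow_dvd_iff]
  intro k hk
  rw [map_sub, Lim, PowerSeries.coeff_mk, it_coeff a2 a4 a6 k m (by omega), sub_self]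

theorem lim_fix (a2 a4 a6 : A) : Lim a2 a4 a6 = Phi a2 a4 a6 (Lim a2 a4 a6) := by
  have key : ∀ m : ℕ, (PowerSeries.X : A⟦X⟧) ^ (m + 1) ∣
      Lim a2 a4 a6 - Phi a2 a4 a6 (Lim a2 a4 a6) := by
    intro m
    have h1 : (PowerSeries.X : A⟦X⟧) ^ (m + 1) ∣ Lim a2 a4 a6 - It a2 a4 a6 (m + 1) :=
      dvd_trans (pow_dvd_pow _ (by omega)) (lim_dvd a2 a4 a6 (m + 1))
    have h2 : (PowerSeries.X : A⟦X⟧) ^ (m + 1) ∣
        Phi a2 a4 a6 (Lim a2 a4 a6) - Phi a2 a4 a6 (It a2 a4 a6 m) :=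
      dvd_trans (pow_dvd_pow _ (by omega)) (phi_dvd a2 a4 a6 (m + 1) _ _ (lim_dvd a2 a4 a6 m))
    rw [← it_succ] at h2
    have h3 := dvd_sub h1 h2
    have h4 : Lim a2 a4 a6 - It a2 a4 a6 (m + 1) -
        (Phi a2 a4 a6 (Lim a2 a4 a6) - It a2 a4 a6 (m + 1)) =
        Lim a2 a4 a6 - Phi a2 a4 a6 (Lim a2 a4 a6) := by ring
    rwa [h4] at h3
  ext m
  have h := key m
  rw [PowerSeries.X_pow_dvd_iff] at h
  have h2 := h m (Nat.lt_succ_self m)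
  rw [map_sub] at h2
  exact sub_eq_zero.mp h2

end UEX

theorem t_UEX : S_UEX := by
  intro A _ a2 a4 a6
  refine ⟨UEX.Lim a2 a4 a6, ?_, ?_⟩
  · rw [← PowerSeries.coeff_zero_eq_constantCoeff_apply, UEX.Lim, PowerSeries.coeff_mk]
    have h0 : UEX.It a2 a4 a6 0 = 1 := rfl
    rw [h0]
    simp
  · exact UEX.lim_fix a2 a4 a6

end

end Pool.Agent.TWT
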