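import Pool.Agent.TWT.StT1

/-!
# TWT (UQN): uniqueness of the solution `u` of the equation of the Weierstrass series for nilpotent `s`
-/

set_option autoImplicit false

open WeierstrassCurve Polynomial PowerSeries

namespace Pool.Agent.TWT

noncomputable section

namespace UQN

theorem key {S : Type} [CommRing S] (a2 a4 a6 s u u' : S) (h : EqU a2 a4 a6 s u)
    (h' : EqU a2 a4 a6 s u') :
    (1 - s * (s * (a2 + a4 * s ^ 2 * (u + u') + a6 * s ^ 4 * (u ^ 2 + u * u' + u' ^ 2)))) *
      (u - u') = 0 := by
  unfold EqU at h h'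
  linear_combination h - h'

end UQN

/-- the solution of the equation of `U` is unique when `s` is nilpotent -/
theorem t_UQN : S_UQN := by
  intro S _ a2 a4 a6 s u u' n hs h h'
  have hnil : IsNilpotent
      (s * (s * (a2 + a4 * s ^ 2 * (u + u') + a6 * s ^ 4 * (u ^ 2 + u * u' + u' ^ 2)))) := by
    refine ⟨n, ?_⟩
    rw [mul_pow, hs, zero_mul]
  have hunit := hnil.isUnit_one_sub
  have hk := UQN.key a2 a4 a6 s u u' h h'
  exact sub_eq_zero.mp ((hunit.mul_right_eq_zero).mp hk)

end

end Pool.Agent.TWT
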