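import Pool.Agent.TWT.KEYA
import Pool.Agent.TWT.KEP
import Pool.Agent.TWT.KEY
import Pool.Agent.TWT.TAY
import Pool.Agent.TWT.ADV
import Pool.Agent.TWT.THT
import Pool.Agent.TWT.KYR
import Pool.Agent.TWT.EVH
import Pool.Agent.TWT.UEX
import Pool.Agent.TWT.UQN
import Pool.Agent.TWT.ODE
import Pool.Agent.TWT.TAF
import Pool.Agent.TWT.PTS
import Pool.Agent.TWT.PRD
import Pool.Agent.TWT.FOI
import Pool.Agent.TWT.PTA

/-!
# TWT, block A: the result (helper3)
-/

set_option autoImplicit false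

namespace Pool.Agent.TWT

noncomputable section

theorem a_TAY : S_TAY := t_TAY t_EVH t_UEX t_UQN t_ODE t_TAF t_PTS

theorem a_KEY : S_KEY := t_KEY a_TAY t_ADV t_THT (t_KYR t_EVH t_PRD)

theorem a_KEYA : S_KEYA := t_KEYA a_KEY t_FOI t_PIS t_KEP t_PTA

end

end Pool.Agent.TWT
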