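import Pool.Agent.TWT.StT2
import Pool.Agent.MUX.U_ISO
import Pool.Agent.MUX.U_PFI
import Pool.Agent.MU3.BAll

/-!
# TWT, block B: module DTP (helper52): distribution relation of `ThetaH` over an isogeny
-/

set_option autoImplicit false

namespace Pool.Agent.TWT

open Pool.Agent.MU3B Pool.Agent.MUXU

noncomputable section

namespace DTP

theorem int_mul {L : PeriodPair} (c : ℤ) {x : ℂ} (h : x ∈ L.lattice) :
    (c : ℂ) * x ∈ L.lattice := by
  have h1 := L.lattice.smul_mem c h
  rwa [zsmul_eq_mul] at h1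

/-- a point which is killed by two coprime numbers is in the lattice -/
theorem cop {L : PeriodPair} {a n : ℕ} (h : a.Coprime n) {x : ℂ} (ha : (a : ℂ) * x ∈ L.lattice)
    (hn : (n : ℂ) * x ∈ L.lattice) : x ∈ L.lattice := by
  have h1 : ((Nat.gcd a n : ℕ) : ℤ) = a * Nat.gcdA a n + n * Nat.gcdB a n := Nat.gcd_eq_gcd_ab a n
  rw [Nat.Coprime.gcd_eq_one h] at h1
  have h2 : (1 : ℂ) = (a : ℂ) * (Nat.gcdA a n : ℤ) + (n : ℂ) * (Nat.gcdB a n : ℤ) := by
    have h3 := congrArg (fun k : ℤ => (k : ℂ)) h1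
    push_cast at h3
    exact h3
  have h4 : x = ((Nat.gcdA a n : ℤ) : ℂ) * ((a : ℂ) * x) + ((Nat.gcdB a n : ℤ) : ℂ) * ((n : ℂ) * x) := by
    calc x = 1 * x := by ring
      _ = _ := by rw [h2]; ring
  rw [h4]
  exact add_mem (int_mul _ ha) (int_mul _ hn)

variable {L M : PeriodPair} {mu : ℂ} {n a : ℕ} {H : Finset ℂ}

/-- points killed by `a` whose image is in `M` are in `L` -/
theorem ker (hn : ∀ z, mu * z ∈ M.lattice → (n : ℂ) * z ∈ L.lattice) (hc : a.Coprime n) {x : ℂ}
    (ha : (a : ℂ) * x ∈ L.lattice) (hx : mu * x ∈ M.lattice) : x ∈ L.lattice :=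
  cop hc ha (hn x hx)

theorem notin (hn : ∀ z, mu * z ∈ M.lattice → (n : ℂ) * z ∈ L.lattice) (hc : a.Coprime n)
    (hH : IsHalf L a H) {q : ℂ} (hq : q ∈ H) : mu * q ∉ M.lattice := by
  intro h
  have h1 := ker hn hc (hH.mem q hq) h
  refine hH.ne q hq ?_
  rw [two_mul]
  exact add_mem h1 h1

/-- the image of a half system is a half system -/
theorem half (hmu : mu ≠ 0) (hI : Isg L M mu)
    (hn : ∀ z, mu * z ∈ M.lattice → (n : ℂ) * z ∈ L.lattice) (hc : a.Coprime (2 * n))
    (hH : IsHalf L a H) : IsHalf M a (H.image fun q => mu * q) := by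
  have hc1 : a.Coprime n := Nat.Coprime.coprime_mul_left_right hc
  refine ⟨?_, ?_, ?_, ?_, ?_⟩
  · intro u hu
    obtain ⟨q, hq, rfl⟩ := Finset.mem_image.mp hu
    have h1 := hI _ (hH.mem q hq)
    have h2 : (a : ℂ) * (mu * q) = mu * (a * q) := by ring
    rwa [h2]
  · intro u hu
    obtain ⟨q, hq, rfl⟩ := Finset.mem_image.mp hu
    intro h
    have h1 : mu * (2 * q) ∈ M.lattice := by
      have h2 : mu * (2 * q) = 2 * (mu * q) := by ring
      rwa [h2]
    have h3 : ((2 * n : ℕ) : ℂ) * q ∈ L.lattice := by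
      have h4 := hn _ h1
      have h5 : ((2 * n : ℕ) : ℂ) * q = (n : ℂ) * (2 * q) := by
        push_cast
        ring
      rwa [h5]
    have h6 : q ∈ L.lattice := cop hc (hH.mem q hq) h3
    refine hH.ne q hq ?_
    rw [two_mul]
    exact add_mem h6 h6
  · intro u hu u' hu' h
    obtain ⟨q, hq, rfl⟩ := Finset.mem_image.mp hu
    obtain ⟨q', hq', rfl⟩ := Finset.mem_image.mp hu'
    have h1 : mu * (q - q') ∈ M.lattice := by rwa [mul_sub]
    have h2 : (a : ℂ) * (q - q') ∈ L.lattice := by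
      rw [mul_sub]
      exact sub_mem (hH.mem q hq) (hH.mem q' hq')
    rw [hH.inj q hq q' hq' (ker hn hc1 h2 h1)]
  · intro u hu u' hu' h
    obtain ⟨q, hq, rfl⟩ := Finset.mem_image.mp hu
    obtain ⟨q', hq', rfl⟩ := Finset.mem_image.mp hu'
    have h1 : mu * (q + q') ∈ M.lattice := by rwa [mul_add]
    have h2 : (a : ℂ) * (q + q') ∈ L.lattice := by
      rw [mul_add]
      exact add_mem (hH.mem q hq) (hH.mem q' hq')
    exact hH.neg q hq q' hq' (ker hn hc1 h2 h1)
  · intro u hau hu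
    have h1 : ((Nat.gcd a n : ℕ) : ℤ) = a * Nat.gcdA a n + n * Nat.gcdB a n :=
      Nat.gcd_eq_gcd_ab a n
    rw [Nat.Coprime.gcd_eq_one hc1] at h1
    set s : ℤ := Nat.gcdB a n with hs
    set t : ℤ := Nat.gcdA a n with ht
    have h2 : (1 : ℂ) = (a : ℂ) * t + (n : ℂ) * s := by
      have h3 := congrArg (fun k : ℤ => (k : ℂ)) h1
      push_cast at h3
      exact h3
    set z : ℂ := u / mu with hz
    have hz1 : mu * z = u := by
      rw [hz]
      field_simp
    have h3 : (n : ℂ) * ((a : ℂ) * z) ∈ L.lattice := by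
      refine hn _ ?_
      have h4 : mu * ((a : ℂ) * z) = a * u := by
        rw [← hz1]
        ring
      rwa [h4]
    have h5 : (a : ℂ) * ((s : ℂ) * n * z) ∈ L.lattice := by
      have h6 : (a : ℂ) * ((s : ℂ) * n * z) = (s : ℂ) * ((n : ℂ) * ((a : ℂ) * z)) := by ring
      rw [h6]
      exact int_mul _ h3
    have h7 : u - mu * ((s : ℂ) * n * z) ∈ M.lattice := by
      have h8 : u - mu * ((s : ℂ) * n * z) = (t : ℂ) * ((a : ℂ) * u) := by
        have h9 : mu * ((s : ℂ) * n * z) = (s : ℂ) * n * (mu * z) := by ring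
        rw [h9, hz1]
        linear_combination u * h2
      rw [h8]
      exact int_mul _ hau
    have h10 : (s : ℂ) * n * z ∉ L.lattice := by
      intro h11
      apply hu
      have h12 := add_mem h7 (hI _ h11)
      rwa [sub_add_cancel] at h12
    obtain ⟨q, hq, h13 | h13⟩ := hH.surj _ h5 h10
    · refine ⟨mu * q, Finset.mem_image_of_mem _ hq, Or.inl ?_⟩
      have h14 : u - mu * q = (u - mu * ((s : ℂ) * n * z)) + mu * ((s : ℂ) * n * z - q) := by ring
      rw [h14]
      exact add_mem h7 (hI _ h13)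
    · refine ⟨mu * q, Finset.mem_image_of_mem _ hq, Or.inr ?_⟩
      have h14 : u + mu * q = (u - mu * ((s : ℂ) * n * z)) + mu * ((s : ℂ) * n * z + q) := by ring
      rw [h14]
      exact add_mem h7 (hI _ h13)

end DTP

theorem t_DTP : S_DTP := by
  intro L M mu hmu hI Rp hR hev n hn0 hn a H H' ha0 hc hH hH'
  have hc1 : a.Coprime n := Nat.Coprime.coprime_mul_left_right hc
  have hPFI : Su_PFI := tu_PFI tu_ISO
  have hout : ∀ q ∈ H, mu * q ∉ M.lattice := fun q hq => DTP.notin hn hc1 hH hq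
  have hqL : ∀ q ∈ H, q ∉ L.lattice := by
    intro q hq h
    exact hout q hq (hI _ h)
  refine ⟨∏ q ∈ H, (mu ^ 2 * ∏ r ∈ Rp, (L.weierstrassP q - L.weierstrassP r)), ?_, ?_⟩
  · refine Finset.prod_ne_zero_iff.mpr fun q hq => mul_ne_zero (pow_ne_zero 2 hmu) ?_
    refine Finset.prod_ne_zero_iff.mpr fun r hr => ?_
    intro h0
    rw [sub_eq_zero] at h0
    rcases b_NEQ L r q (hR.ne r hr) (hqL q hq) h0 with h1 | h1
    · apply hout q hq
      have h2 : mu * q = mu * (q - r) + mu * r := by ring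
      rw [h2]
      exact add_mem (hI _ h1) (hR.mem r hr)
    · apply hout q hq
      have h2 : mu * q = mu * (q + r) - mu * r := by ring
      rw [h2]
      exact sub_mem (hI _ h1) (hR.mem r hr)
  · intro z hz
    have hT := (b_TIN M (a : ℂ) _ H' (DTP.half hmu hI hn hc hH) hH').1 (mu * z)
    rw [← hT]
    have hinj : Function.Injective fun q : ℂ => mu * q := mul_right_injective₀ hmu
    unfold ThetaH
    rw [Finset.prod_image fun x _ y _ h => hinj h, Finset.prod_comm, ← Finset.prod_mul_distrib,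
      ← Finset.prod_mul_distrib]
    refine Finset.prod_congr rfl fun q hq => ?_
    have h1 := hPFI L M mu Rp hmu hI hR z hz q (hout q hq)
    have h2 : ∏ r ∈ Rp, (L.weierstrassP q - L.weierstrassP (z + r)) =
        ∏ r ∈ Rp, (L.weierstrassP (z + r) - L.weierstrassP q) := by
      have h3 : ∀ r ∈ Rp, L.weierstrassP q - L.weierstrassP (z + r) =
          (-1) * (L.weierstrassP (z + r) - L.weierstrassP q) := fun r _ => by ring
      rw [Finset.prod_congr rfl h3, Finset.prod_mul_distrib, Finset.prod_const, hev.neg_one_pow,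
        one_mul]
    rw [h2] at h1
    linear_combination h1

end

end Pool.Agent.TWT
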