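import Pool.Agent.TWT.StT2

/-!
# TWT, module EAB: algebra of the products `EtT` modulo `p`-th powers
-/

set_option autoImplicit false

namespace Pool.Agent.TWT

namespace EAB

/-- the subgroup of `p`-th powers -/
def Pw (Mt : Type) [CommGroup Mt] (p : ℕ) : Subgroup Mt := (powMonoidHom p : Mt →* Mt).range

/-- classes modulo `p`-th powers -/
def mq {Mt : Type} [CommGroup Mt] (p : ℕ) : Mt →* Mt ⧸ Pw Mt p := QuotientGroup.mk' (Pw Mt p)

theorem mq_one_iff {Mt : Type} [CommGroup Mt] {p : ℕ} {x : Mt} :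
    mq p x = 1 ↔ ∃ y : Mt, y ^ p = x := by
  unfold mq
  rw [QuotientGroup.mk'_apply, QuotientGroup.eq_one_iff]
  exact Iff.rfl

theorem mq_pow {Mt : Type} [CommGroup Mt] {p : ℕ} (x : Mt) : mq p x ^ p = 1 := by
  rw [← map_pow, mq_one_iff]
  exact ⟨x, rfl⟩

variable {G Fr Mt : Type} [Group G] [Fintype G] [Field Fr] [CommGroup Mt] {p : ℕ}

theorem pow_val_add [Fact p.Prime] (x : Mt) (a b : ZMod p) :
    mq p x ^ (a + b).val = mq p x ^ a.val * mq p x ^ b.val := by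
  rw [ZMod.val_add, ← pow_add]
  exact (pow_eq_pow_mod _ (mq_pow x)).symm

theorem mq_EtT (χ : G →* Frˣ) (t : Fr →+ ZMod p) (g : G → Mt) :
    mq p (EtT p χ t g) = ∏ τ : G, mq p (g τ) ^ (t ((χ τ)⁻¹ : Frˣ)).val := by
  unfold EtT
  rw [map_prod]
  exact Finset.prod_congr rfl fun τ _ => map_pow _ _ _

theorem E_add [Fact p.Prime] (χ : G →* Frˣ) (t t' : Fr →+ ZMod p) (g : G → Mt) :
    mq p (EtT p χ (t + t') g) = mq p (EtT p χ t g) * mq p (EtT p χ t' g) := by
  rw [mq_EtT, mq_EtT, mq_EtT, ← Finset.prod_mul_distrib]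
  exact Finset.prod_congr rfl fun τ _ => pow_val_add _ _ _

theorem E_mul (χ : G →* Frˣ) (t : Fr →+ ZMod p) (g g' : G → Mt) :
    EtT p χ t (fun τ => g τ * g' τ) = EtT p χ t g * EtT p χ t g' := by
  unfold EtT
  rw [← Finset.prod_mul_distrib]
  exact Finset.prod_congr rfl fun τ _ => mul_pow _ _ _

theorem E_div (χ : G →* Frˣ) (t : Fr →+ ZMod p) (g g' : G → Mt) :
    EtT p χ t (fun τ => g τ / g' τ) = EtT p χ t g / EtT p χ t g' := by
  unfold EtT
  rw [← Finset.prod_div_distrib]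
  exact Finset.prod_congr rfl fun τ _ => div_pow _ _ _

theorem E_pow (χ : G →* Frˣ) (t : Fr →+ ZMod p) (g : G → Mt) (n : ℕ) :
    EtT p χ t (fun τ => g τ ^ n) = EtT p χ t g ^ n := by
  unfold EtT
  rw [← Finset.prod_pow]
  refine Finset.prod_congr rfl fun τ _ => ?_
  rw [← pow_mul, ← pow_mul, mul_comm]

theorem E_shift (χ : G →* Frˣ) (t : Fr →+ ZMod p) (g : G → Mt) (φ : G) :
    EtT p χ t (fun τ => g (τ * φ)) =
      EtT p χ (t.comp (AddMonoidHom.mulLeft ((χ φ : Frˣ) : Fr))) g := by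
  unfold EtT
  refine Fintype.prod_equiv (Equiv.mulRight φ) _ _ fun τ => ?_
  have h : ((χ φ : Frˣ) : Fr) * (((χ (τ * φ))⁻¹ : Frˣ) : Fr) = (((χ τ)⁻¹ : Frˣ) : Fr) := by
    rw [← Units.val_mul, map_mul, mul_inv_rev, mul_inv_cancel_left]
  simp only [Equiv.coe_mulRight, AddMonoidHom.coe_comp, Function.comp_apply,
    AddMonoidHom.coe_mulLeft, h]

/-- if `E t' k` is invariant under `t' ↦ t' ∘ (u *)`, `u ≠ 1`, then all `E t k` are trivial -/
theorem E_triv [Fact p.Prime] (χ : G →* Frˣ) (k : G → Mt) (u : Frˣ) (hu : u ≠ 1)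
    (h : ∀ t : Fr →+ ZMod p, mq p (EtT p χ t k) =
      mq p (EtT p χ (t.comp (AddMonoidHom.mulLeft (u : Fr))) k)) (t : Fr →+ ZMod p) :
    mq p (EtT p χ t k) = 1 := by
  have hu1 : (u : Fr) - 1 ≠ 0 := fun h0 => hu (Units.ext (by
    rw [Units.val_one]
    exact sub_eq_zero.1 h0))
  set t' : Fr →+ ZMod p := t.comp (AddMonoidHom.mulLeft ((u : Fr) - 1)⁻¹) with ht'
  have h1 : t'.comp (AddMonoidHom.mulLeft (u : Fr)) = t + t' := by
    ext x
    simp only [ht', AddMonoidHom.coe_comp, Function.comp_apply, AddMonoidHom.coe_mulLeft,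
      AddMonoidHom.add_apply]
    rw [← map_add]
    congr 1
    have h2 : x = ((u : Fr) - 1)⁻¹ * (((u : Fr) - 1) * x) := by
      rw [inv_mul_cancel_left₀ hu1]
    calc ((u : Fr) - 1)⁻¹ * ((u : Fr) * x) =
          ((u : Fr) - 1)⁻¹ * (((u : Fr) - 1) * x) + ((u : Fr) - 1)⁻¹ * x := by ring
      _ = x + ((u : Fr) - 1)⁻¹ * x := by rw [← h2]
  have h3 := h t'
  rw [h1, E_add] at h3
  have h4 : (1 : Mt ⧸ Pw Mt p) * mq p (EtT p χ t' k) =
      mq p (EtT p χ t k) * mq p (EtT p χ t' k) := by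
    rw [one_mul]
    exact h3
  exact (mul_right_cancel h4).symm

end EAB

open EAB in
/-- EAB -/
theorem t_EAB : S_EAB := by
  intro p _ G Fr Mt _ _ _ _ _ χ
  refine ⟨fun k g₀ hg hk t => ?_, fun C C'' K φ hφ hrel hC hK t => ?_⟩
  · rw [← mq_one_iff]
    refine E_triv χ k (χ g₀) hg (fun t' => ?_) t
    rw [← E_shift]
    congr 1
    congr 1
    funext τ
    exact (hk τ).symm
  · have h1 : ∀ t : Fr →+ ZMod p, mq p (EtT p χ t C) = 1 := fun t => mq_one_iff.2 (hC t)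
    have h2 : ∀ t : Fr →+ ZMod p, mq p (EtT p χ t K) = 1 := fun t => mq_one_iff.2 (hK t)
    have h3 : ∀ t : Fr →+ ZMod p, mq p (EtT p χ t C'') = 1 := by
      refine E_triv χ C'' (χ φ) hφ fun t' => ?_
      have h4 : EtT p χ t' (fun τ => C τ ^ (p - 1) * C'' τ) =
          EtT p χ t' (fun τ => K τ * C'' (τ * φ)) := by
        congr 1
        funext τ
        exact hrel τ
      rw [E_mul, E_mul, E_pow, E_shift] at h4
      have h5 := congrArg (mq p) h4
      rw [map_mul, map_mul, map_pow, h1, h2, one_pow, one_mul, one_mul] at h5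
      exact h5
    rw [← mq_one_iff, E_pow, E_div, map_pow, map_div, h1, h3, div_one, one_pow]

end Pool.Agent.TWT
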