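import Pool.Agent.MUX.WAll
import Pool.Agent.MUX.XFAll
import Pool.Agent.MUX.YAll
import Pool.Agent.MUX.I_IAF
import Pool.Agent.MUX.I_IAG
import Pool.Agent.MUX.I_RPR
import Pool.Agent.MUX.I_HIT
import Pool.Agent.MUX.I_ARF
import Pool.Agent.MUX.I_XXF
import Pool.Agent.MUX.I_PTP

/-!
# TWT: the theorems of block I of MUX which do not depend on `p`, with few imports (helper59)
-/

set_option autoImplicit false

namespace Pool.Agent.TWT

open Pool.Agent.MUXF Pool.Agent.MUXU Pool.Agent.MUXY Pool.Agent.MUXI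

theorem j_IAF : Si_IAF := ti_IAF u_DET
theorem j_IAG : Si_IAG := ti_IAG j_IAF
theorem j_RPR : Si_RPR := ti_RPR xf_ALG xf_IDL xf_NIM
theorem j_HIT : Si_HIT := ti_HIT j_IAF j_IAG j_RPR y_MUI y_UNJ xf_ALG
theorem j_ARF : Si_ARF := ti_ARF j_IAF j_IAG
theorem j_XXF : Si_XXF := ti_XXF j_HIT j_ARF j_RPR j_IAF
theorem j_PTP : Si_PTP := ti_PTP

end Pool.Agent.TWT
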