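import Pool.Agent.TWT.StT2
import Pool.Agent.TWT.I0

/-!
# TWT, module HTF (helper49): automorphisms of `F = RF (idl M)` and points
-/

set_option autoImplicit false

open WeierstrassCurve Polynomial NumberField IsDedekindDomain

namespace Pool.Agent.TWT

open _root_.MU3 Pool.Agent.MU3A Pool.Agent.MU3B Pool.Agent.MU3C Pool.Agent.RI Pool.Agent.RID
open Pool.Agent.MUX Pool.Agent.MUXU Pool.Agent.MUXW
open Pool.Agent.MU3V (cls Sub GD algDF)
open Pool.Agent.MUXV (GR InK tX)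
open Pool.Agent.MUXI (IA RE AR)
open OnePoint

noncomputable section

namespace HTF

variable {A B : ℤ}

/-- `M` does not divide `2` -/
lemma not_dvd_two (M : ℕ) (hM : 3 ≤ M) : ¬ ((M : ℕ) : OO A B) ∣ 2 := by
  rintro ⟨y, hy⟩
  have h5 : (2 : ℤ) = (M : ℤ) * y.re := by
    have := congrArg QuadraticAlgebra.re hy
    simpa [QuadraticAlgebra.re_ofNat] using this
  have h6 : (M : ℤ) ∣ 2 := ⟨y.re, h5⟩
  have h7 := Int.le_of_dvd (by norm_num) h6
  omega

/-- the action on all points of level `M` -/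
lemma act_pt (hc : CQ A B) {n₀ : ℕ} {ι : Type} (R : Reps A B n₀ ι) (m : ℕ) (hm : 2 ≤ m)
    (hcop : ∀ i, (nI (R.b i)).Coprime m) (σ : ℂ ≃+* ℂ) (i : ι) (x : OO A B)
    (hx : IsCoprime x (m : OO A B)) (hIA : IA σ (idl m) (sp x * cjI (R.b i))) (x' : OO A B)
    (hx' : x' ∉ idl (A := A) (B := B) m) :
    kap (R.L i) = σ (kap (R.L R.i0)) ∧
    σ (xn (R.L R.i0) (Pool.Agent.MUX.pt R m R.i0 x')) =
      xn (R.L i) (Pool.Agent.MUX.pt R m i (x * x')) ∧
    Pool.Agent.MUX.pt R m i (x * x') ∉ (R.L i).lattice ∧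
    Pool.Agent.MUX.pt R m R.i0 x' ∉ (R.L R.i0).lattice ∧
    emb ((m : ℕ) : OO A B) * Pool.Agent.MUX.pt R m R.i0 x' ∈ (R.L R.i0).lattice := by
  obtain ⟨hmul, hz, hint, -, -⟩ := Pool.Agent.MUXF.xf_ALG A B (Pool.Agent.MUXY.cqF hc)
  have hem : ∀ x y : OO A B, emb (x * y) = emb x * emb y := fun x y => (hmul x y).1
  have heZ : ∀ k : ℤ, emb ((k : ℤ) : OO A B) = (k : ℂ) := fun k => (hint k).1
  have heN : ∀ k : ℕ, emb ((k : ℕ) : OO A B) = (k : ℂ) := fun k => by
    have := heZ (k : ℤ)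
    rwa [Int.cast_natCast, Int.cast_natCast] at this
  have he1 : emb (1 : OO A B) = 1 := by
    have := heN 1
    rwa [Nat.cast_one, Nat.cast_one] at this
  have hm0 : m ≠ 0 := by omega
  have hmC : (m : ℂ) ≠ 0 := by exact_mod_cast hm0
  have hx0 : x ≠ 0 := Pool.Agent.MUXI.Hit.cop_ne m hm x hx
  have hex0 : emb x ≠ 0 := fun h => hx0 ((hz x).1.1 h)
  obtain ⟨b', L', om', mu, hnl', hact⟩ := hIA.act _ _ _ (R.nl R.i0)
  have hq : IsQ (cjI (R.b i)) (R.L R.i0) (R.L i) (muX R i) :=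
    Pool.Agent.MUXY.y_MUI A B hc n₀ ι R i
  have hq2 : IsQ (sp x * cjI (R.b i)) (R.L R.i0) (R.L i) (emb x * muX R i) := by
    refine ⟨mul_ne_zero hex0 hq.1, fun z => ?_⟩
    have e1 : emb x * muX R i * z = muX R i * (emb x * z) := by ring
    rw [e1, hq.2]
    constructor
    · intro h y hy
      obtain ⟨y', hy', rfl⟩ := Ideal.mem_span_singleton_mul.1 hy
      have := h y' hy'
      rw [hem]
      have e2 : emb x * emb y' * z = emb y' * (emb x * z) := by ring
      rw [e2]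
      exact this
    · intro h y hy
      have := h (x * y) (Ideal.mem_span_singleton_mul.2 ⟨y, hy, rfl⟩)
      rw [hem] at this
      have e2 : emb x * emb y * z = emb y * (emb x * z) := by ring
      rw [e2] at this
      exact this
  obtain ⟨hlat, hpm⟩ :=
    Pool.Agent.MUXI.Hit.lat_eq _ _ _ _ _ _ hnl'.nrm (R.nl i).nrm hact.isq hq2
  obtain ⟨hxn, hkap⟩ := Pool.Agent.MUXI.Hit.same L' (R.L i) hlat
  have hN0 : nI (R.b R.i0) = 1 := by
    rw [R.b0]
    change Nat.card (OO A B ⧸ (⊤ : Ideal (OO A B))) = 1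
    have : Subsingleton (OO A B ⧸ (⊤ : Ideal (OO A B))) :=
      Ideal.Quotient.subsingleton_iff.2 rfl
    exact Nat.card_unique
  have hom0 : R.om R.i0 ≠ 0 := (R.nl R.i0).om_ne
  have hz0 : Pool.Agent.MUX.pt R m R.i0 x' = R.om R.i0 * emb x' / m := by
    unfold Pool.Agent.MUX.pt
    rw [hN0]
    simp
  have hmm : emb ((m : ℕ) : OO A B) * Pool.Agent.MUX.pt R m R.i0 x' ∈ (R.L R.i0).lattice := by
    refine ((R.nl R.i0).mem _).2 ⟨x', by rw [R.b0]; trivial, ?_⟩
    rw [heN, hz0]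
    field_simp
  have hTor : Tor (idl (A := A) (B := B) m) (R.L R.i0) (Pool.Agent.MUX.pt R m R.i0 x') := by
    intro y hy
    obtain ⟨t, rfl⟩ := Ideal.mem_span_singleton.1 hy
    refine ((R.nl R.i0).mem _).2 ⟨t * x', by rw [R.b0]; trivial, ?_⟩
    rw [hem, heN, hz0, hem]
    field_simp
  have hz0L : Pool.Agent.MUX.pt R m R.i0 x' ∉ (R.L R.i0).lattice := by
    intro h
    exact hx' (Pool.Agent.MUXI.Hit.pt_mem hc Pool.Agent.MUXF.xf_ALG R m hm0 R.i0 (hcop _) x' h)
  have hpt : emb x * muX R i * Pool.Agent.MUX.pt R m R.i0 x' =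
      Pool.Agent.MUX.pt R m i (x * x') := by
    rw [hz0]
    unfold Pool.Agent.MUX.pt muX
    rw [hem]
    field_simp
  refine ⟨by rw [hkap, hact.kap], ?_⟩
  rcases hact.act _ hTor with ⟨h1, -⟩ | ⟨-, h2, h3, -⟩
  · exact absurd h1 hz0L
  · rcases hpm with e | e
    · have e1 : Pool.Agent.MUX.pt R m i (x * x') = mu * Pool.Agent.MUX.pt R m R.i0 x' := by
        rw [← hpt, e]
      refine ⟨?_, ?_, hz0L, hmm⟩
      · rw [h3, hxn, e1]
      · rw [e1, ← hlat]
        exact h2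
    · have e1 : Pool.Agent.MUX.pt R m i (x * x') = -(mu * Pool.Agent.MUX.pt R m R.i0 x') := by
        rw [← hpt, e]; ring
      refine ⟨?_, ?_, hz0L, hmm⟩
      · rw [h3, hxn, e1]
        unfold xn
        rw [PeriodPair.weierstrassP_neg]
      · rw [e1, ← hlat, neg_mem_iff]
        exact h2

end HTF

open HTF in
theorem t_HTF : S_HTF := by
  intro A B hQ hT n ι R M hM hcop
  have hM2 : 2 ≤ M := by omega
  have hM0 : M ≠ 0 := by omega
  have hex : ∃ (b : Ideal (OO A B)) (L : PeriodPair) (om : ℂ), IsNL b L om :=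
    ⟨_, _, _, R.nl R.i0⟩
  have hbot : ∀ m : ℕ, m ≠ 0 → (idl (A := A) (B := B) m) ≠ ⊥ := by
    intro m hm h
    have h4 : ((m : ℕ) : OO A B) = 0 := by
      have : ((m : ℕ) : OO A B) ∈ (idl (A := A) (B := B) m) := Ideal.mem_span_singleton_self _
      rw [h] at this
      exact this
    have h5 := congrArg QuadraticAlgebra.re h4
    simp at h5
    omega
  have hMb := hbot M hM0
  have h2 : ¬ ((M : ℕ) : OO A B) ∣ 2 := not_dvd_two M hM
  obtain ⟨i1, i2, -, -, i5, -, i7, -⟩ := j_IAF A B hQ hT hex _ hMb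
  obtain ⟨p1, -⟩ := j_RPR A B hQ n ι R M hM0 hcop
  have hMO : ((M : ℕ) : OO A B) ≠ 0 := by
    intro h
    apply hMb
    rw [Ideal.span_singleton_eq_bot]
    exact h
  have h1M : (1 : OO A B) ∉ idl (A := A) (B := B) M := by
    intro h
    obtain ⟨t, ht⟩ := Ideal.mem_span_singleton.1 h
    exact Pool.Agent.MUXI.Hit.not_unit M hM2 t ht
  have hL : IsNL (⊤ : Ideal (OO A B)) (R.L R.i0) (R.om R.i0) := by
    have := R.nl R.i0
    rwa [R.b0] at this
  -- the base point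
  have hpt1 : Pool.Agent.MUX.pt R M R.i0 1 = R.om R.i0 / M := by
    have hN0 : nI (R.b R.i0) = 1 := by
      rw [R.b0]
      change Nat.card (OO A B ⧸ (⊤ : Ideal (OO A B))) = 1
      have : Subsingleton (OO A B ⧸ (⊤ : Ideal (OO A B))) :=
        Ideal.Quotient.subsingleton_iff.2 rfl
      exact Nat.card_unique
    obtain ⟨-, -, hint, -, -⟩ := Pool.Agent.MUXF.xf_ALG A B (Pool.Agent.MUXY.cqF hQ)
    have he1 : emb (1 : OO A B) = 1 := by
      have := (hint 1).1
      simpa using this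
    unfold Pool.Agent.MUX.pt
    rw [hN0, he1]
    simp
  have hz1 : Pool.Agent.MUX.pt R M R.i0 1 ∉ (R.L R.i0).lattice := fun h =>
    h1M (Pool.Agent.MUXI.Hit.pt_mem hQ Pool.Agent.MUXF.xf_ALG R M hM0 R.i0 (hcop _) 1 h)
  have hTor1 : Tor (idl (A := A) (B := B) M) (R.L R.i0) (Pool.Agent.MUX.pt R M R.i0 1) := by
    obtain ⟨hmul, -, hint, -, -⟩ := Pool.Agent.MUXF.xf_ALG A B (Pool.Agent.MUXY.cqF hQ)
    have heN : ∀ k : ℕ, emb ((k : ℕ) : OO A B) = (k : ℂ) := fun k => by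
      have := (hint (k : ℤ)).1
      rwa [Int.cast_natCast, Int.cast_natCast] at this
    have hmC : (M : ℂ) ≠ 0 := by exact_mod_cast hM0
    intro y hy
    obtain ⟨t, rfl⟩ := Ideal.mem_span_singleton.1 hy
    refine (hL.mem _).2 ⟨t, trivial, ?_⟩
    rw [(hmul _ _).1, heN, hpt1]
    field_simp
  have hkF : kap (R.L R.i0) ∈ (RF (idl M) : IntermediateField (kk A B) ℂ) :=
    IntermediateField.subset_adjoin _ _ ⟨_, _, _, hL, Or.inl rfl⟩
  have hxF : xn (R.L R.i0) (Pool.Agent.MUX.pt R M R.i0 1) ∈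
      (RF (idl M) : IntermediateField (kk A B) ℂ) :=
    IntermediateField.subset_adjoin _ _ ⟨_, _, _, hL, Or.inr ⟨_, hTor1, hz1, rfl⟩⟩
  -- `Hits` depends only on the restriction
  have htr : ∀ s s' : ℂ ≃+* ℂ,
      (∀ y : (RF (idl M) : IntermediateField (kk A B) ℂ), s y = s' y) →
      ∀ i x, Hits R M s i x → Hits R M s' i x := by
    intro s s' hss i x hx'
    refine ⟨?_, ?_, hx'.2.2⟩
    · rw [hx'.1]; exact hss ⟨_, hkF⟩
    · rw [← hx'.2.1]; exact (hss ⟨_, hxF⟩).symm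
  refine ⟨?_, ?_, ?_, ?_, ?_, ?_⟩
  · -- (1)
    intro σ
    obtain ⟨s, hs, hsv⟩ := Pool.Agent.MUXW.CXW.extn hT hMb σ
    obtain ⟨i, x, hx, hh, -, -⟩ := y_HIT A B hQ hT n ι R M hM0 hcop h2 s hs
    exact ⟨i, x, hx, s, hs, hsv, hh⟩
  · -- (2)
    intro i x hx
    have hcop' := p1 i x hx
    have hab : sp x * cjI (R.b i) ≠ ⊥ := by
      intro h
      rw [h] at hcop'
      have h3 : idl (A := A) (B := B) M = ⊤ := by
        have := isCoprime_zero_left.1 (show IsCoprime (0 : Ideal (OO A B)) (idl M) from hcop')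
        exact Ideal.isUnit_iff.1 this
      exact h1M (by rw [h3]; trivial)
    obtain ⟨s, hs⟩ := i2 _ hab hcop'
    have hh := (j_HIT A B hQ hT n ι R M hM2 hcop s hs.fix i x hx).2 hs
    obtain ⟨σ, hσ⟩ := Pool.Agent.MUXW.CXW.restr hT hMb hs.fix
    exact ⟨σ, hx, s, hs.fix, fun y => (hσ y).symm, hh⟩
  · -- (3)
    rintro σ i j x y ⟨hx, s, hs, hsv, hh⟩ hy
    obtain ⟨i₀, x₀, -, -, -, hiff⟩ := y_HIT A B hQ hT n ι R M hM0 hcop h2 s hs
    obtain ⟨e0, e1⟩ := (hiff i x).1 hh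
    have hmem : ∀ z : OO A B, z ∈ idl (A := A) (B := B) M ↔ ((M : ℕ) : OO A B) ∣ z :=
      fun z => Ideal.mem_span_singleton
    constructor
    · rintro ⟨-, s', hs', hsv', hh'⟩
      have h3 := htr s' s (fun y => by rw [hsv', hsv]) _ _ hh'
      obtain ⟨f0, f1⟩ := (hiff j y).1 h3
      refine ⟨by rw [f0, e0], ?_⟩
      rw [hmem, hmem]
      rcases e1 with e1 | e1 <;> rcases f1 with f1 | f1
      · left; have := dvd_sub e1 f1; rwa [show x - x₀ - (y - x₀) = x - y by ring] at this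
      · right; have := dvd_add e1 f1; rwa [show x - x₀ + (y + x₀) = x + y by ring] at this
      · right; have := dvd_add e1 f1; rwa [show x + x₀ + (y - x₀) = x + y by ring] at this
      · left; have := dvd_sub e1 f1; rwa [show x + x₀ - (y + x₀) = x - y by ring] at this
    · rintro ⟨rfl, h3⟩
      refine ⟨hy, s, hs, hsv, (hiff _ y).2 ⟨e0, ?_⟩⟩
      rw [hmem, hmem] at h3
      rcases e1 with e1 | e1 <;> rcases h3 with h3 | h3
      · left; have := dvd_sub e1 h3; rwa [show x - x₀ - (x - y) = y - x₀ by ring] at this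
      · right; have := dvd_sub h3 e1; rwa [show x + y - (x - x₀) = y + x₀ by ring] at this
      · right; have := dvd_sub e1 h3; rwa [show x + x₀ - (x - y) = y + x₀ by ring] at this
      · left; have := dvd_sub h3 e1; rwa [show x + y - (x + x₀) = y - x₀ by ring] at this
  · -- (4)
    rintro σ σ' i x ⟨hx, s, hs, hsv, hh⟩ ⟨-, s', hs', hsv', hh'⟩
    have h3 := Pool.Agent.MUXW.CXW.same_of u_DET Pool.Agent.MUXV.q_EMB hQ hT R hM0 hpt1 hz1
      hs hs' hh hh'
    apply AlgEquiv.ext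
    intro y
    apply Subtype.ext
    rw [← hsv, ← hsv']
    exact h3 y y.2
  · -- (5)
    rintro σ i x ⟨hx, s, hs, hsv, hh⟩ x' hx' a H H' ha hH hH'
    have hIA := (j_HIT A B hQ hT n ι R M hM2 hcop s hs i x hx).1 hh
    obtain ⟨k1, k2, k3, k4, k5⟩ := act_pt hQ R M hM2 hcop s i x hx hIA x' hx'
    obtain ⟨hk, hxx, hzz, hTH, -⟩ := y_THG A B hQ hT ⊤ (R.L R.i0) (R.om R.i0) hL
      ((M : ℕ) : OO A B) hMO (a : ℤ) H (by exact_mod_cast ha)
      (by rw [Int.cast_natCast]; exact hH) _ k5 k4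
    refine ⟨hzz, ?_⟩
    exact hTH σ (R.b i) (R.L i) (R.om i) H' (Pool.Agent.MUX.pt R M i (x * x'))
      (R.nl _) (by rw [Int.cast_natCast]; exact hH') k3
      (by rw [← hsv]; exact k1.symm) (by rw [← hsv]; exact k2)
  · -- (6)
    intro m hmM hm3 D h hD
    letI := algC h
    rintro τ σ i x hE ⟨hx, s, hs, hsv, hh⟩
    have hm0 : m ≠ 0 := by omega
    have hle : idl (A := A) (B := B) M ≤ idl m := by
      obtain ⟨k, rfl⟩ := hmM
      rw [Ideal.span_singleton_le_span_singleton]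
      exact ⟨((k : ℕ) : OO A B), by push_cast; ring⟩
    have hcopm : ∀ i, (nI (R.b i)).Coprime m := fun i => (hcop i).coprime_dvd_right hmM
    have hxm : IsCoprime x ((m : ℕ) : OO A B) := by
      obtain ⟨k, rfl⟩ := hmM
      refine IsCoprime.of_mul_right_left (z := ((k : ℕ) : OO A B)) ?_
      rw [← Nat.cast_mul]
      exact hx
    have hIA := (j_HIT A B hQ hT n ι R M hM2 hcop s hs i x hx).1 hh
    have hIAm := i7 s _ (idl m) hle hIA
    have hhm := (j_HIT A B hQ hT n ι R m (by omega) hcopm s hs i x hxm).2 hIAm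
    obtain ⟨i₀, x₀, -, -, -, hiff⟩ :=
      y_HIT A B hQ hT n ι R m hm0 hcopm (not_dvd_two m hm3) s hs
    obtain ⟨e0, e1⟩ := (hiff i x).1 hhm
    have hout : Quotient.out (Ideal.Quotient.mk (idl (A := A) (B := B) m) x) - x ∈
        idl (A := A) (B := B) m := by
      rw [← Ideal.Quotient.eq]
      exact Quotient.out_eq _
    obtain ⟨w, hw⟩ := Ideal.mem_span_singleton.1 hout
    have hw' : Quotient.out (Ideal.Quotient.mk (idl (A := A) (B := B) m) x) =
        x + ((m : ℕ) : OO A B) * w := by rw [← hw]; ring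
    refine ⟨?_, s, hs, ?_, ?_⟩
    · show IsCoprime (Quotient.out (Ideal.Quotient.mk (idl (A := A) (B := B) m) x)) _
      rw [hw']
      exact hxm.add_mul_left_left w
    · intro y
      have hy : (y : ℂ) ∈ (RF (idl M) : IntermediateField (kk A B) ℂ) :=
        hT.mono _ _ hle (hD y y.2)
      have h3 := hE y hy
      rw [← hsv] at h3
      exact h3
    · show Hits R m s i (Quotient.out (Ideal.Quotient.mk (idl (A := A) (B := B) m) x))
      rw [hw']
      refine (hiff i _).2 ⟨e0, ?_⟩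
      rcases e1 with e1 | e1
      · left
        have := dvd_add e1 (Dvd.intro w rfl : ((m : ℕ) : OO A B) ∣ ((m : ℕ) : OO A B) * w)
        rwa [show x - x₀ + ((m : ℕ) : OO A B) * w = x + ((m : ℕ) : OO A B) * w - x₀ by ring]
          at this
      · right
        have := dvd_add e1 (Dvd.intro w rfl : ((m : ℕ) : OO A B) ∣ ((m : ℕ) : OO A B) * w)
        rwa [show x + x₀ + ((m : ℕ) : OO A B) * w = x + ((m : ℕ) : OO A B) * w + x₀ by ring]
          at this

end

end Pool.Agent.TWT
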