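import Pool.Agent.TWT.StT2
import Pool.Agent.MUX.XLib

/-!
# TWT, block B, module KRP (helper44): the kernel `E[P]` as a system of representatives
-/

set_option autoImplicit false

open WeierstrassCurve Polynomial NumberField IsDedekindDomain

namespace Pool.Agent.TWT

open _root_.MU3 Pool.Agent.MU3A Pool.Agent.MU3B Pool.Agent.MU3C Pool.Agent.RI Pool.Agent.RID
open Pool.Agent.MUX Pool.Agent.MUXU Pool.Agent.MUXW

noncomputable section

namespace KRP

variable {p : ℕ} {A B : ℤ} {P : Ideal (OO A B)} {V : ValuationSubring ℂ} {f : ℕ} {ι : Type}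

theorem int_mem (hI : S_IDP) (h : SetG p A B P V f) (c : ℤ) :
    (c : OO A B) ∈ P ↔ (p : ℤ) ∣ c :=
  (hI p A B P V f h).2.1 c

theorem N_cop (h : SetG p A B P V f) (R : Reps A B (p * f) ι) (i : ι) :
    ¬ (p : ℤ) ∣ ((nI (R.b i) : ℕ) : ℤ) := by
  intro h1
  have h3 : p ∣ nI (R.b i) := by exact_mod_cast h1
  have h4 : p ∣ 1 := by
    rw [← (R.cop i)]
    exact Nat.dvd_gcd h3 (dvd_mul_right p f)
  exact h.pp.one_lt.ne' (Nat.dvd_one.1 h4)

theorem N_notMem (hI : S_IDP) (h : SetG p A B P V f) (R : Reps A B (p * f) ι) (i : ι) :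
    ((nI (R.b i) : ℕ) : OO A B) ∉ P := by
  intro hm
  apply N_cop h R i
  rw [← int_mem hI h, Int.cast_natCast]
  exact hm

theorem N_mem (h : SetG p A B P V f) (R : Reps A B (p * f) ι) (i : ι) :
    ((nI (R.b i) : ℕ) : OO A B) ∈ R.b i := Pool.Agent.MUX.nI_mem h.cq (R.nl i).b_ne

theorem diff_mem (hI : S_IDP) (h : SetG p A B P V f) (R : Reps A B (p * f) ι) (i : ι)
    (y : OO A B) (hy : y ∉ P) (d : ℤ) :
    (d : ℂ) * pt R p i y ∈ (R.L i).lattice ↔ (p : ℤ) ∣ d := by
  have hC := h.cq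
  have hp0 : (p : ℂ) ≠ 0 := by exact_mod_cast h.pp.ne_zero
  have ho := (R.nl i).om_ne
  constructor
  · intro hm
    obtain ⟨u, _, hu⟩ := ((R.nl i).mem _).1 hm
    have h1 : (d : OO A B) * ((nI (R.b i) : ℕ) : OO A B) * y = ((p : ℕ) : OO A B) * u := by
      apply Pool.Agent.MUX.emb_inj hC
      rw [Pool.Agent.MUX.emb_mul hC, Pool.Agent.MUX.emb_mul hC, Pool.Agent.MUX.emb_intCast hC,
        Pool.Agent.MUX.emb_natCast hC, Pool.Agent.MUX.emb_mul hC, Pool.Agent.MUX.emb_natCast hC]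
      apply mul_left_cancel₀ ho
      calc R.om i * ((d : ℂ) * ((nI (R.b i) : ℕ) : ℂ) * emb y)
          = p * ((d : ℂ) * pt R p i y) := by
            unfold pt
            field_simp
        _ = _ := by
            rw [hu]
            ring
    have h2 : (d : OO A B) * ((nI (R.b i) : ℕ) : OO A B) * y ∈ P := by
      rw [h1]
      exact P.mul_mem_right _ h.hP.mem
    rcases h.hP.prime.mem_or_mem h2 with h3 | h3
    · rcases h.hP.prime.mem_or_mem h3 with h4 | h4
      · exact (int_mem hI h d).1 h4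
      · exact absurd h4 (N_notMem hI h R i)
    · exact absurd h3 hy
  · rintro ⟨e, rfl⟩
    refine ((R.nl i).mem _).2 ⟨(e : OO A B) * y * ((nI (R.b i) : ℕ) : OO A B),
      Ideal.mul_mem_left _ _ (N_mem h R i), ?_⟩
    rw [Pool.Agent.MUX.emb_mul hC, Pool.Agent.MUX.emb_mul hC, Pool.Agent.MUX.emb_intCast hC,
      Pool.Agent.MUX.emb_natCast hC]
    unfold pt
    push_cast
    field_simp

theorem ker_mem (hI : S_IDP) (h : SetG p A B P V f) (R : Reps A B (p * f) ι) (i : ι)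
    (y : OO A B) (hy : y ∈ cjI P) (x : OO A B) (hx : x ∈ P) (c : ℕ) :
    emb x * ((c : ℂ) * pt R p i y) ∈ (R.L i).lattice := by
  have hC := h.cq
  have hp0 : (p : ℂ) ≠ 0 := by exact_mod_cast h.pp.ne_zero
  have h1 : x * y ∈ (idl p : Ideal (OO A B)) := by
    rw [← (hI p A B P V f h).2.2.1]
    exact Ideal.mul_mem_mul hx hy
  obtain ⟨t, ht⟩ := Ideal.mem_span_singleton'.1 h1
  have h2 : emb t * (p : ℂ) = emb x * emb y := by
    rw [← Pool.Agent.MUX.emb_natCast hC (A := A) (B := B) p, ← Pool.Agent.MUX.emb_mul hC, ht,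
      Pool.Agent.MUX.emb_mul hC]
  refine ((R.nl i).mem _).2 ⟨((c : ℕ) : OO A B) * t * ((nI (R.b i) : ℕ) : OO A B),
    Ideal.mul_mem_left _ _ (N_mem h R i), ?_⟩
  rw [Pool.Agent.MUX.emb_mul hC, Pool.Agent.MUX.emb_mul hC, Pool.Agent.MUX.emb_natCast hC,
    Pool.Agent.MUX.emb_natCast hC]
  apply mul_left_cancel₀ hp0
  calc (p : ℂ) * (emb x * ((c : ℂ) * pt R p i y))
      = c * R.om i * ((nI (R.b i) : ℕ) : ℂ) * (emb x * emb y) := by
        unfold pt
        field_simp
    _ = _ := by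
        rw [← h2]
        ring

theorem cop_b (h : SetG p A B P V f) (R : Reps A B (p * f) ι) (i : ι) :
    IsCoprime P (R.b i) := by
  obtain ⟨a, e, hab⟩ :=
    ((Nat.prime_iff_prime_int.1 h.pp).coprime_iff_not_dvd).2 (N_cop h R i)
  rw [Ideal.isCoprime_iff_exists]
  refine ⟨(a : OO A B) * ((p : ℕ) : OO A B), P.mul_mem_left _ h.hP.mem,
    (e : OO A B) * ((nI (R.b i) : ℕ) : OO A B), Ideal.mul_mem_left _ _ (N_mem h R i), ?_⟩
  have h3 := congrArg (fun t : ℤ => (t : OO A B)) hab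
  push_cast at h3
  exact h3

theorem surj (hI : S_IDP) (h : SetG p A B P V f) (R : Reps A B (p * f) ι) (i : ι)
    (y : OO A B) (hy : y ∈ cjI P) (hyP : y ∉ P) (z : ℂ)
    (hx : ∀ x ∈ P, emb x * z ∈ (R.L i).lattice) (hzL : z ∉ (R.L i).lattice) :
    ∃ c : ℕ, 1 ≤ c ∧ c ≤ p - 1 ∧ z - (c : ℂ) * pt R p i y ∈ (R.L i).lattice := by
  have hC := h.cq
  have hp0 : (p : ℂ) ≠ 0 := by exact_mod_cast h.pp.ne_zero
  have ho := (R.nl i).om_ne
  have hI1 := hI p A B P V f h
  have hPc := hI1.2.2.1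
  obtain ⟨u, hu, hzu⟩ := ((R.nl i).mem _).1 (hx _ h.hP.mem)
  rw [Pool.Agent.MUX.emb_natCast hC] at hzu
  have hub : u ∈ cjI P * R.b i := by
    have h2 : P * sp u ≤ idl p * R.b i := by
      rw [Ideal.mul_le]
      intro x hxP w hw
      obtain ⟨t, rfl⟩ := Ideal.mem_span_singleton'.1 hw
      obtain ⟨v, hv, hxv⟩ := ((R.nl i).mem _).1 (hx x hxP)
      have h3 : x * u = ((p : ℕ) : OO A B) * v := by
        apply Pool.Agent.MUX.emb_inj hC
        rw [Pool.Agent.MUX.emb_mul hC, Pool.Agent.MUX.emb_mul hC, Pool.Agent.MUX.emb_natCast hC]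
        apply mul_left_cancel₀ ho
        calc R.om i * (emb x * emb u) = emb x * (R.om i * emb u) := by ring
          _ = p * (emb x * z) := by
              rw [← hzu]
              ring
          _ = _ := by
              rw [hxv]
              ring
      have h4 : x * (t * u) = ((p : ℕ) : OO A B) * (t * v) := by
        calc x * (t * u) = t * (x * u) := by ring
          _ = _ := by
              rw [h3]
              ring
      rw [h4]
      exact Ideal.mul_mem_mul (Ideal.mem_span_singleton_self _) (Ideal.mul_mem_left _ _ hv)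
    have h5 : (idl p : Ideal (OO A B)) * sp u ≤ idl p * (cjI P * R.b i) := by
      calc (idl p : Ideal (OO A B)) * sp u = cjI P * (P * sp u) := by
            rw [← hPc]
            ring
        _ ≤ cjI P * (idl p * R.b i) := Ideal.mul_mono_right h2
        _ = _ := by ring
    have h6 : (idl p : Ideal (OO A B)) ≠ ⊥ := by
      intro h7
      rw [Ideal.span_singleton_eq_bot] at h7
      exact Pool.Agent.MUX.natCast_ne_zero' hC h.pp.ne_zero h7
    exact (Pool.Agent.MUX.mul_le_mul_iff hC h6).1 h5 (Ideal.mem_span_singleton_self _)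
  have hcop : IsCoprime P (cjI P * R.b i) := hI1.2.2.2.1.mul_right (cop_b h R i)
  obtain ⟨c2, _, hc2⟩ := hI1.1 (((nI (R.b i) : ℕ) : OO A B) * y)
  have hc2p : ¬ (p : ℤ) ∣ (c2 : ℤ) := by
    intro h7
    have h8 := (int_mem hI h c2).2 h7
    rw [Int.cast_natCast] at h8
    have h9 : ((nI (R.b i) : ℕ) : OO A B) * y ∈ P := by
      have := P.add_mem hc2 h8
      rwa [sub_add_cancel] at this
    rcases h.hP.prime.mem_or_mem h9 with h10 | h10
    · exact N_notMem hI h R i h10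
    · exact hyP h10
  obtain ⟨a, e, hab⟩ := ((Nat.prime_iff_prime_int.1 h.pp).coprime_iff_not_dvd).2 hc2p
  obtain ⟨c, hcp, hc⟩ := hI1.1 ((e : OO A B) * u)
  have hab' : (a : OO A B) * ((p : ℕ) : OO A B) + (e : OO A B) * ((c2 : ℕ) : OO A B) = 1 := by
    have h3 := congrArg (fun t : ℤ => (t : OO A B)) hab
    push_cast at h3
    exact h3
  have h10 : u - ((c : ℕ) : OO A B) * (((nI (R.b i) : ℕ) : OO A B) * y) ∈ P := by
    have h11 : u - ((c : ℕ) : OO A B) * (((nI (R.b i) : ℕ) : OO A B) * y) =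
        u * (a : OO A B) * ((p : ℕ) : OO A B) +
        (((c2 : ℕ) : OO A B) * ((e : OO A B) * u - ((c : ℕ) : OO A B)) -
          ((c : ℕ) : OO A B) * (((nI (R.b i) : ℕ) : OO A B) * y - ((c2 : ℕ) : OO A B))) := by
      linear_combination (-u) * hab'
    rw [h11]
    exact P.add_mem (P.mul_mem_left _ h.hP.mem)
      (P.sub_mem (P.mul_mem_left _ hc) (P.mul_mem_left _ hc2))
  have h12 : u - ((c : ℕ) : OO A B) * (((nI (R.b i) : ℕ) : OO A B) * y) ∈ cjI P * R.b i := by
    refine Ideal.sub_mem _ hub (Ideal.mul_mem_left _ _ ?_)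
    rw [mul_comm (((nI (R.b i) : ℕ) : OO A B)) y]
    exact Ideal.mul_mem_mul hy (N_mem h R i)
  have h13 : u - ((c : ℕ) : OO A B) * (((nI (R.b i) : ℕ) : OO A B) * y) ∈
      (idl p : Ideal (OO A B)) * R.b i := by
    have h14 : (idl p : Ideal (OO A B)) * R.b i = P ⊓ (cjI P * R.b i) := by
      rw [← Ideal.mul_eq_inf_of_isCoprime hcop, ← hPc, mul_assoc]
    rw [h14]
    exact ⟨h10, h12⟩
  obtain ⟨v, hv, hpv⟩ := Ideal.mem_span_singleton_mul.1 h13
  have h15 : (p : ℂ) * emb v = emb u - c * (((nI (R.b i) : ℕ) : ℂ) * emb y) := by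
    have h16 := congrArg emb hpv
    rw [Pool.Agent.MUX.emb_mul hC, Pool.Agent.MUX.emb_natCast hC, Pool.Agent.MUX.emb_sub hC,
      Pool.Agent.MUX.emb_mul hC, Pool.Agent.MUX.emb_mul hC, Pool.Agent.MUX.emb_natCast hC,
      Pool.Agent.MUX.emb_natCast hC] at h16
    exact h16
  have h17 : z - (c : ℂ) * pt R p i y ∈ (R.L i).lattice := by
    refine ((R.nl i).mem _).2 ⟨v, hv, ?_⟩
    apply mul_left_cancel₀ hp0
    calc (p : ℂ) * (z - (c : ℂ) * pt R p i y)
        = (p : ℂ) * z - R.om i * (c * (((nI (R.b i) : ℕ) : ℂ) * emb y)) := by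
          unfold pt
          field_simp
      _ = R.om i * ((p : ℂ) * emb v) := by
          rw [hzu, h15]
          ring
      _ = _ := by ring
  refine ⟨c, ?_, Nat.le_sub_one_of_lt hcp, h17⟩
  rcases Nat.eq_zero_or_pos c with h18 | h18
  · exfalso
    apply hzL
    rw [h18] at h17
    simpa using h17
  · exact h18

end KRP

theorem t_KRP (h : S_IDP) : S_KRP := by
  intro p A B P V f hS ι R i L' mu hQ y hy hyP
  have hC := hS.cq
  have hd : ∀ c c' : ℤ, (c : ℂ) * pt R p i y - c' * pt R p i y ∈ (R.L i).lattice ↔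
      (p : ℤ) ∣ c - c' := by
    intro c c'
    have h1 : (c : ℂ) * pt R p i y - c' * pt R p i y = ((c - c' : ℤ) : ℂ) * pt R p i y := by
      push_cast
      ring
    rw [h1]
    exact KRP.diff_mem h hS R i y hyP (c - c')
  have hinj : ∀ c c' : ℕ, c ∈ Finset.Icc 1 (p - 1) → c' ∈ Finset.Icc 1 (p - 1) →
      (c : ℂ) * pt R p i y - c' * pt R p i y ∈ (R.L i).lattice → c = c' := by
    intro c c' hc hc' hm
    have h1 := (hd (c : ℤ) (c' : ℤ)).1 (by exact_mod_cast hm)
    rw [Finset.mem_Icc] at hc hc'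
    have hp := hS.pp.pos
    obtain ⟨k, hk⟩ := h1
    have h2 : k = 0 := by
      by_contra h3
      rcases lt_or_gt_of_ne h3 with h4 | h4
      · have h5 : (p : ℤ) * k ≤ (p : ℤ) * (-1) :=
          mul_le_mul_of_nonneg_left (by omega) (by omega)
        omega
      · have h5 : (p : ℤ) * 1 ≤ (p : ℤ) * k :=
          mul_le_mul_of_nonneg_left (by omega) (by omega)
        omega
    rw [h2, mul_zero] at hk
    omega
  refine ⟨?_, ?_, hd, ⟨?_, ?_, ?_, ?_⟩, ?_⟩
  · intro w hw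
    rw [hQ.2]
    intro x _
    obtain ⟨u, hu, rfl⟩ := ((R.nl i).mem _).1 hw
    refine ((R.nl i).mem _).2 ⟨x * u, Ideal.mul_mem_left _ _ hu, ?_⟩
    rw [Pool.Agent.MUX.emb_mul hC]
    ring
  · intro z hz
    have h1 := (hQ.2 z).1 hz _ hS.hP.mem
    rwa [Pool.Agent.MUX.emb_natCast hC] at h1
  · intro q hq
    obtain ⟨c, _, rfl⟩ := Finset.mem_image.1 hq
    rw [hQ.2]
    intro x hx
    exact KRP.ker_mem h hS R i y hy x hx c
  · intro q hq hL
    obtain ⟨c, hc, rfl⟩ := Finset.mem_image.1 hq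
    have h1 := (KRP.diff_mem h hS R i y hyP (c : ℤ)).1 (by exact_mod_cast hL)
    rw [Finset.mem_Icc] at hc
    have h2 := Int.le_of_dvd (by omega) h1
    have hp := hS.pp.pos
    omega
  · intro q hq q' hq' hm
    obtain ⟨c, hc, rfl⟩ := Finset.mem_image.1 hq
    obtain ⟨c', hc', rfl⟩ := Finset.mem_image.1 hq'
    rw [hinj c c' hc hc' hm]
  · intro z hz hzL
    obtain ⟨c, h1, h2, h3⟩ := KRP.surj h hS R i y hy hyP z ((hQ.2 z).1 hz) hzL
    exact ⟨_, Finset.mem_image.2 ⟨c, Finset.mem_Icc.2 ⟨h1, h2⟩, rfl⟩, h3⟩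
  · rw [Finset.card_image_of_injOn, Nat.card_Icc]
    · omega
    · intro c hc c' hc' he
      refine hinj c c' hc hc' ?_
      have he' : (c : ℂ) * pt R p i y = (c' : ℂ) * pt R p i y := he
      rw [he', sub_self]
      exact (R.L i).lattice.zero_mem

end

end Pool.Agent.TWT
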