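import Pool.Agent.TWT.StT2

/-!
# TWT, block B: KUM
-/

set_option autoImplicit false

namespace Pool.Agent.TWT

namespace KUM

/-- first two terms of the binomial expansion -/
theorem expand {R : Type*} [CommRing R] (x : R) (n : ℕ) :
    ∃ s : R, (1 + x) ^ n = 1 + n * x + x ^ 2 * s := by
  induction n with
  | zero => exact ⟨0, by simp⟩
  | succ n ih =>
    obtain ⟨s, hs⟩ := ih
    refine ⟨n + s + x * s, ?_⟩
    rw [pow_succ, hs]
    push_cast
    ring

end KUM

theorem t_KUM : S_KUM := by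
  intro V p hp hv y hy hle
  set v := V.valuation with hvdef
  have hp0 : (p : ℂ) ≠ 0 := by exact_mod_cast hp.ne_zero
  have hvp0 : v (p : ℂ) ≠ 0 := (Valuation.ne_zero_iff _).2 hp0
  -- v y = 1
  have h1 : v (y ^ p) = 1 := by
    have e : y ^ p = 1 + (y ^ p - 1) := by ring
    rw [e]
    exact Valuation.map_one_add_of_lt _ (lt_of_le_of_lt hle hv)
  have hy1 : v y ≤ 1 := by
    rw [map_pow] at h1
    exact (pow_le_one_iff hp.ne_zero).1 h1.le
  have hu1 : v (y - 1) ≤ 1 := by
    refine (Valuation.map_sub _ _ _).trans ?_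
    rw [map_one]
    exact max_le hy1 le_rfl
  -- v (y - 1) < 1
  have hmem : y - 1 ∈ V := (ValuationSubring.valuation_le_one_iff V _).1 hu1
  have hu2 : v (y - 1) < 1 := by
    obtain ⟨r, hr⟩ := exists_add_pow_prime_eq hp (1 : V) ⟨y - 1, hmem⟩
    have hr2 : y ^ p = 1 + (y - 1) ^ p + p * ((y - 1) * (r : ℂ)) := by
      have := congrArg (fun z : V => (z : ℂ)) hr
      push_cast at this
      rw [one_pow, mul_one, mul_assoc] at this
      rw [← this]
      congr 1
      ring
    have hr3 : (y - 1) ^ p = (y ^ p - 1) - p * ((y - 1) * (r : ℂ)) := by rw [hr2]; ring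
    have h2 : v ((y - 1) ^ p) < 1 := by
      rw [hr3]
      refine lt_of_le_of_lt (Valuation.map_sub _ _ _) (max_lt (lt_of_le_of_lt hle hv) ?_)
      rw [map_mul]
      refine lt_of_le_of_lt ?_ hv
      refine mul_le_of_le_one_right' ?_
      rw [map_mul]
      exact mul_le_one' hu1 ((ValuationSubring.valuation_le_one_iff V _).2 r.2)
    rw [map_pow] at h2
    exact (pow_lt_one_iff hp.ne_zero).1 h2
  by_cases hz : y - 1 = 0
  · have : y = 1 := sub_eq_zero.1 hz
    rw [this, one_pow, sub_self, map_zero]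
    exact zero_le'
  obtain ⟨k, hk⟩ := hy hz
  have hk1 : 1 ≤ k := by
    by_contra hcon
    have hk0 : k ≤ 0 := by omega
    have : (1 : V.ValueGroup) ≤ v (p : ℂ) ^ k := by
      obtain ⟨j, rfl⟩ : ∃ j : ℕ, k = -(j : ℤ) := ⟨k.natAbs, by omega⟩
      rw [zpow_neg, zpow_natCast]
      exact (one_le_inv₀ (pow_pos (zero_lt_iff.2 hvp0) j)).2 (pow_le_one' hv.le j)
    rw [← hk] at this
    exact absurd hu2 (not_lt.2 this)
  have hup : v (y - 1) ≤ v (p : ℂ) := by
    obtain ⟨j, rfl⟩ : ∃ j : ℕ, k = (j : ℤ) + 1 := ⟨(k - 1).toNat, by omega⟩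
    rw [hk, zpow_add₀ hvp0, zpow_one, zpow_natCast]
    exact mul_le_of_le_one_left' (pow_le_one' hv.le j)
  have hw : v ((y - 1) / p) ≤ 1 := by
    rw [map_div₀]
    exact div_le_one_of_le₀ hup zero_le'
  have hwm : (y - 1) / p ∈ V := (ValuationSubring.valuation_le_one_iff V _).1 hw
  obtain ⟨s, hs⟩ := KUM.expand ((p : V) * ⟨(y - 1) / p, hwm⟩) p
  have hs2 : y ^ p - 1 = (p : ℂ) ^ 2 * ((y - 1) / p + ((y - 1) / p) ^ 2 * (s : ℂ)) := by
    have := congrArg (fun z : V => (z : ℂ)) hs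
    push_cast at this
    have e : (1 + (p : ℂ) * ((y - 1) / p)) = y := by
      field_simp
      ring
    rw [e] at this
    rw [this]
    ring
  rw [hs2, map_mul, map_pow]
  refine mul_le_of_le_one_right' ?_
  refine (Valuation.map_add _ _ _).trans (max_le hw ?_)
  rw [map_mul, map_pow]
  exact mul_le_one' (pow_le_one' hw 2) ((ValuationSubring.valuation_le_one_iff V _).2 s.2)

end Pool.Agent.TWT
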