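import Pool.Agent.TWT.StT2
import Pool.Agent.MUX.W_MEM

/-!
# TWT, block B, module NMF: relative norms (helper40)
-/

set_option autoImplicit false

open WeierstrassCurve Polynomial NumberField IsDedekindDomain

namespace Pool.Agent.TWT

open _root_.MU3 Pool.Agent.MU3A Pool.Agent.MU3B Pool.Agent.MU3C Pool.Agent.RI Pool.Agent.RID
open Pool.Agent.MUX Pool.Agent.MUXU Pool.Agent.MUXW
open Pool.Agent.MU3V (cls Sub GD algDF)

noncomputable section

namespace NMF

/-- the ideal of a nonzero natural number is not zero -/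
lemma idl_ne {A B : ℤ} {M : ℕ} (hM : M ≠ 0) : idl (A := A) (B := B) M ≠ ⊥ := by
  rw [Ne, Ideal.span_singleton_eq_bot]
  intro h
  have h1 := congrArg QuadraticAlgebra.re h
  rw [QuadraticAlgebra.re_natCast] at h1
  exact hM (by exact_mod_cast h1)

variable {A B : ℤ} {F : IntermediateField (kk A B) ℂ} {D : IntermediateField ℚ ℂ}

/-- multiplicativity -/
theorem mul_inv [FiniteDimensional (kk A B) F] (h : kk A B ≤ D) (x y : F) :
    letI := algC h
    ∀ τ : D ≃ₐ[kk A B] D, cWt h (x * y) τ = cWt h x τ * cWt h y τ ∧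
      cWt h x⁻¹ τ = (cWt h x τ)⁻¹ := by
  intro τ
  let _ := algC h
  constructor
  · unfold cWt
    rw [← finprod_mul_distrib (Set.toFinite _) (Set.toFinite _)]
    exact finprod_congr fun σ => by rw [map_mul]; rfl
  · unfold cWt
    rw [← finprod_inv_distrib]
    exact finprod_congr fun σ => by rw [map_inv₀]; rfl

/-- translation -/
theorem trans (h : kk A B ≤ D) (hs : Sub D F) (x : F) :
    letI := algC h
    ∀ (τ τψ : D ≃ₐ[kk A B] D) (ψ : F ≃ₐ[kk A B] F), Ext1 h τψ ψ →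
      cWt h (ψ x) τ = cWt h x (τ * τψ) := by
  intro τ τψ ψ hψ
  let _ := algC h
  let e : {σ : F ≃ₐ[kk A B] F // Ext1 h τ σ} ≃ {σ : F ≃ₐ[kk A B] F // Ext1 h (τ * τψ) σ} :=
    { toFun := fun σ => ⟨σ.1 * ψ, Mem.ext1_mul h hs _ _ _ _ σ.2 hψ⟩
      invFun := fun σ => ⟨σ.1 * ψ⁻¹, by
        have h2 := Mem.ext1_mul h hs _ _ _ _ σ.2 (Mem.ext1_inv h hs _ _ hψ)
        rwa [mul_inv_cancel_right] at h2⟩
      left_inv := fun σ => Subtype.ext (mul_inv_cancel_right _ _)
      right_inv := fun σ => Subtype.ext (inv_mul_cancel_right _ _) }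
  exact finprod_comp_equiv (f := fun σ : {σ : F ≃ₐ[kk A B] F // Ext1 h (τ * τψ) σ} =>
    ((σ.1 x : F) : ℂ)) e

/-- the norm of an element of a normal subfield `H` is in `H` -/
theorem mem_H (H : IntermediateField (kk A B) ℂ) [Normal (kk A B) H] (hHF : H ≤ F)
    (h : kk A B ≤ D) (x : F) (hx : (x : ℂ) ∈ H) : cW h x ∈ H := by
  unfold cW
  refine finprod_induction (fun z : ℂ => z ∈ H) H.one_mem (fun _ _ => H.mul_mem) ?_
  intro σ
  let φ : H →ₐ[kk A B] ℂ := F.val.comp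
    (((σ : F ≃ₐ[kk A B] F) : F →ₐ[kk A B] F).comp (IntermediateField.inclusion hHF))
  have h1 : φ.fieldRange = H := AlgHom.fieldRange_of_normal φ
  have h2 : φ ⟨x, hx⟩ ∈ φ.fieldRange := ⟨⟨x, hx⟩, rfl⟩
  rw [h1] at h2
  exact h2

end NMF

open NMF in
theorem t_NMF : S_NMF := by
  intro A B _ T M hM D h hs x y hx _
  let _ := algC h
  have hb := idl_ne (A := A) (B := B) hM
  have _ : FiniteDimensional (kk A B) (RF (idl (A := A) (B := B) M) :
    IntermediateField (kk A B) ℂ) := T.fin _ hb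
  have _ : IsGalois (kk A B) (RF (idl (A := A) (B := B) M) : IntermediateField (kk A B) ℂ) :=
    T.gal _ hb
  have htop : (⊤ : Ideal (OO A B)) ≠ ⊥ := top_ne_bot
  have _ : IsGalois (kk A B) (RF (⊤ : Ideal (OO A B)) : IntermediateField (kk A B) ℂ) :=
    T.gal _ htop
  refine ⟨mul_inv h x y, fun τ τψ ψ hψ => trans h hs x τ τψ ψ hψ, ?_⟩
  intro hxH g hg τ
  obtain ⟨_, h2, h3, _, _⟩ := ty_MEM A B _ (T.fin _ hb) (T.gal _ hb) (T.comm _ hb) D h hs x hx
  have h1 := (h2 1).1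
  have h4 : cW h x ∈ D := by
    have e := (ty_MEM A B _ (T.fin _ hb) (T.gal _ hb) (T.comm _ hb) D h hs x hx).1
    rw [e]
    exact h1
  rw [← h3 (τ * g) h4, ← h3 τ h4, AlgEquiv.mul_apply]
  rw [hg ⟨cW h x, h4⟩ (mem_H _ (T.mono ⊤ (idl M) le_top) h x hxH)]

end

end Pool.Agent.TWT
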