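import Pool.Agent.TWT.StT2
import Pool.Agent.TWT.I0

/-!
# TWT, block B, module PHI (helper25): `χ(φ) ≠ 1`
-/

set_option autoImplicit false

open WeierstrassCurve Polynomial NumberField IsDedekindDomain

namespace Pool.Agent.TWT

open _root_.MU3 Pool.Agent.MU3A Pool.Agent.MU3B Pool.Agent.MU3C Pool.Agent.RI Pool.Agent.RID
open Pool.Agent.MUX Pool.Agent.MUXU Pool.Agent.MUXW
open Pool.Agent.MU3V (cls Sub GD algDF)
open Pool.Agent.MUXV (GR InK tX)
open Pool.Agent.MUXI (IA RE AR)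
open OnePoint

noncomputable section

namespace PHI

variable {A B : ℤ}

lemma cast_re (m : ℕ) : ((m : ℕ) : OO A B).re = (m : ℤ) := by
  simp

lemma cast_im (m : ℕ) : ((m : ℕ) : OO A B).im = 0 := by
  simp

lemma cast_ne {m : ℕ} (hm : m ≠ 0) : ((m : ℕ) : OO A B) ≠ 0 := by
  intro h
  have h1 : ((m : ℕ) : OO A B).re = (0 : OO A B).re := by rw [h]
  rw [cast_re] at h1
  have h2 : (m : ℤ) = 0 := by simpa using h1
  exact hm (by exact_mod_cast h2)

lemma idl_ne {m : ℕ} (hm : m ≠ 0) : (idl m : Ideal (OO A B)) ≠ ⊥ := by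
  intro h
  rw [Ideal.span_singleton_eq_bot] at h
  exact cast_ne hm h

lemma nm_per {m : ℕ} {x y : OO A B} (h : x - y ∈ idl (A := A) (B := B) m) :
    (m : ℤ) ∣ nm x - nm y := by
  rw [Ideal.mem_span_singleton'] at h
  obtain ⟨z, hz⟩ := h
  have hr : x.re - y.re = z.re * m := by
    have := congrArg QuadraticAlgebra.re hz
    rw [QuadraticAlgebra.re_mul, cast_re, cast_im, QuadraticAlgebra.re_sub] at this
    linear_combination -this
  have hi : x.im - y.im = z.im * m := by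
    have := congrArg QuadraticAlgebra.im hz
    rw [QuadraticAlgebra.im_mul, cast_re, cast_im, QuadraticAlgebra.im_sub] at this
    linear_combination -this
  have hr' : x.re = y.re + z.re * m := by linarith
  have hi' : x.im = y.im + z.im * m := by linarith
  unfold nm
  rw [hr', hi']
  refine ⟨2 * y.re * z.re + z.re ^ 2 * m + B * (y.re * z.im + z.re * y.im + z.re * z.im * m) -
    A * (2 * y.im * z.im + z.im ^ 2 * m), ?_⟩
  ring

end PHI

open PHI in
theorem t_PHI : S_PHI := by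
  intro p _ A B P V f S T ι _ R kp eta hC l N hl hlf ψ hψ1 r y hPy hv D h hs
  let _ := algC h
  intro χ hχ s₀ τφ hs0 hext hone
  have hm0 : f * l ^ N ≠ 0 := mul_ne_zero S.f0 (pow_ne_zero _ hl.ne_zero)
  have hI0 : (idl (f * l ^ N) : Ideal (OO A B)) ≠ ⊥ := idl_ne hm0
  have h2f : 2 ≤ f := by
    have h1 : (2 : ℤ) ∣ (f : ℤ) := (Dvd.intro _ rfl).trans S.fD
    have h2 : 2 ∣ f := by exact_mod_cast h1
    exact Nat.le_of_dvd (Nat.pos_of_ne_zero S.f0) h2
  have hm2 : 2 ≤ f * l ^ N :=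
    h2f.trans (Nat.le_mul_of_pos_right _ (pow_pos hl.pos _))
  have hcop : ∀ i, (nI (R.b i)).Coprime (f * l ^ N) := by
    intro i
    have h1 : (nI (R.b i)).Coprime f := (R.cop i).coprime_dvd_right (Dvd.intro_left _ rfl)
    exact Nat.Coprime.mul_right h1 ((h1.coprime_dvd_right hlf).pow_right _)
  have hG : IsGalois (kk A B) D := kx_galD (T.gal _ hI0) (T.fin _ hI0) (T.comm _ hI0) h hs
  have hE : ∃ (b : Ideal (OO A B)) (L : PeriodPair) (om : ℂ), IsNL b L om :=
    ⟨_, _, _, R.nl R.i0⟩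
  obtain ⟨a1, -, -, -, a5, -, -⟩ := j_ARF A B S.cq T hE (idl (f * l ^ N)) hI0 D h hs hG
  have hAR : AR h (idl (f * l ^ N)) τφ P := ⟨s₀, hs0, hext⟩
  have hpow : ∀ k : ℕ, AR h (idl (f * l ^ N)) (τφ ^ k) (P ^ k) := by
    intro k
    induction k with
    | zero => rw [pow_zero, pow_zero, Ideal.one_eq_top]; exact a1
    | succ k ih => rw [pow_succ, pow_succ]; exact a5 _ _ _ _ ih hAR
  have hcjt : cjI (R.b R.i0) = ⊤ := by
    rw [R.b0]; exact Ideal.comap_top
  have h3 : AR h (idl (f * l ^ N)) (τφ ^ r) (sp y * cjI (R.b R.i0)) := by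
    rw [hcjt, Ideal.mul_top, ← hPy]; exact hpow r
  have h4 : IsCoprime y ((f * l ^ N : ℕ) : OO A B) := by
    have h5 : IsCoprime (P ^ r) (idl (f * l ^ N)) := hs0.cop.pow_left
    rw [hPy] at h5
    exact (Ideal.isCoprime_span_singleton_iff _ _).1 h5
  have hX := j_XXF A B S.cq T (p * f) ι R (f * l ^ N) hm2 hcop D h hs hG
  have h5 := (hX.1 (τφ ^ r) R.i0 y h4).2 h3
  have h6 := hχ (τφ ^ r) _ h5
  rw [map_pow, hone, one_pow, inv_one, Units.val_one] at h6
  dsimp only at h6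
  set x := (Quotient.out (Ideal.Quotient.mk (idl (A := A) (B := B) (f * l ^ N)) y)) with hx
  have hxy : x - y ∈ idl (A := A) (B := B) (f * l ^ N) := by
    rw [← Ideal.Quotient.mk_eq_mk_iff_sub_mem]
    exact Ideal.Quotient.mk_out _
  have hth : thT R kp eta ψ R.i0 x = thT R kp eta ψ R.i0 y := by
    unfold thT
    have e1 : eta x = eta y := by
      apply hC.per
      have h7 : (idl (f * l ^ N) : Ideal (OO A B)) ≤ idl f := by
        rw [Ideal.span_singleton_le_span_singleton]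
        push_cast
        exact Dvd.intro _ rfl
      exact h7 hxy
    have e2 : ((nm x * nI (R.b R.i0) : ℤ) : ZMod (l ^ N)) =
        ((nm y * nI (R.b R.i0) : ℤ) : ZMod (l ^ N)) := by
      rw [ZMod.intCast_eq_intCast_iff_dvd_sub]
      have h8 : ((l ^ N : ℕ) : ℤ) ∣ nm x - nm y :=
        (by push_cast; exact Dvd.intro_left _ rfl : ((l ^ N : ℕ) : ℤ) ∣ ((f * l ^ N : ℕ) : ℤ)).trans
          (nm_per hxy)
      have h9 : nm y * (nI (R.b R.i0) : ℤ) - nm x * (nI (R.b R.i0) : ℤ) =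
        (nm x - nm y) * (-(nI (R.b R.i0) : ℤ)) := by ring
      rw [h9]
      exact h8.mul_right _
    rw [e1, e2]
  rw [hth] at h6
  unfold rsd at h6
  split_ifs at h6 with hmem
  · have h10 : IsLocalRing.residue V (1 - ⟨thT R kp eta ψ R.i0 y, hmem⟩) = 0 := by
      rw [map_sub, map_one, h6, sub_self]
    rw [IsLocalRing.residue_eq_zero_iff] at h10
    have h11 := (ValuationSubring.valuation_lt_one_iff V _).1 h10
    have h12 : (((1 - ⟨thT R kp eta ψ R.i0 y, hmem⟩ : V) : V) : ℂ) =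
      1 - thT R kp eta ψ R.i0 y := rfl
    rw [h12, hv] at h11
    exact lt_irrefl _ h11
  · exact zero_ne_one h6

end

end Pool.Agent.TWT
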