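import Pool.Agent.TWT.StT2

set_option autoImplicit false

namespace Pool.Agent.TWT

namespace PRO

variable {K Γ₀ : Type*} [Field K] [LinearOrderedCommGroupWithZero Γ₀] (v : Valuation K Γ₀)

/-- `u ≡ 1 + e`, `e` of size `w`, up to an error `r` -/
def Near (w r : Γ₀) (u e : K) : Prop := v e ≤ w ∧ v (u - 1 - e) ≤ r

theorem near_one (w r : Γ₀) : Near v w r 1 0 := by
  refine ⟨?_, ?_⟩ <;> simp

theorem near_mul {w r : Γ₀} (hw : w ≤ 1) (hr : r ≤ w) (hwr : w ^ 2 ≤ r) {u e u' e' : K}
    (h : Near v w r u e) (h' : Near v w r u' e') :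
    Near v w r (u * u') (e + e') := by
  obtain ⟨h1, h2⟩ := h
  obtain ⟨h1', h2'⟩ := h'
  have hu' : v u' ≤ 1 := by
    have e1 : u' = (u' - 1 - e') + (1 + e') := by ring
    rw [e1]
    refine (v.map_add _ _).trans (max_le (h2'.trans (hr.trans hw)) ?_)
    refine (v.map_add _ _).trans (max_le ?_ (h1'.trans hw))
    rw [v.map_one]
  have he : v (1 + e) ≤ 1 := by
    refine (v.map_add _ _).trans (max_le ?_ (h1.trans hw))
    rw [v.map_one]
  refine ⟨(v.map_add _ _).trans (max_le h1 h1'), ?_⟩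
  have e2 : u * u' - 1 - (e + e') = (u - 1 - e) * u' + ((1 + e) * (u' - 1 - e') + e * e') := by
    ring
  rw [e2]
  refine (v.map_add _ _).trans (max_le ?_ ((v.map_add _ _).trans (max_le ?_ ?_)))
  · rw [v.map_mul]
    calc v (u - 1 - e) * v u' ≤ r * 1 := mul_le_mul' h2 hu'
      _ = r := mul_one _
  · rw [v.map_mul]
    calc v (1 + e) * v (u' - 1 - e') ≤ 1 * r := mul_le_mul' he h2'
      _ = r := one_mul _
  · rw [v.map_mul]
    refine le_trans (mul_le_mul' h1 h1') ?_
    rw [← pow_two]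
    exact hwr

theorem near_pow {w r : Γ₀} (hw : w ≤ 1) (hr : r ≤ w) (hwr : w ^ 2 ≤ r) {u e : K}
    (h : Near v w r u e) (n : ℕ) : Near v w r (u ^ n) ((n : K) * e) := by
  induction n with
  | zero => simpa using near_one v w r
  | succ n ih =>
    have h1 := near_mul v hw hr hwr ih h
    have e1 : ((n + 1 : ℕ) : K) * e = (n : K) * e + e := by push_cast; ring
    rw [pow_succ, e1]
    exact h1

theorem near_prod {w r : Γ₀} (hw : w ≤ 1) (hr : r ≤ w) (hwr : w ^ 2 ≤ r) {J : Type*}
    (S : Finset J) (u e : J → K) (n : J → ℕ) (h : ∀ j ∈ S, Near v w r (u j) (e j)) :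
    Near v w r (∏ j ∈ S, u j ^ n j) (∑ j ∈ S, (n j : K) * e j) := by
  classical
  induction S using Finset.induction_on with
  | empty => simpa using near_one v w r
  | insert a S ha ih =>
    rw [Finset.prod_insert ha, Finset.sum_insert ha]
    exact near_mul v hw hr hwr
      (near_pow v hw hr hwr (h a (Finset.mem_insert_self a S)) (n a))
      (ih fun j hj => h j (Finset.mem_insert_of_mem hj))

end PRO

/-- (PROG) products, with a general error bound `q`. -/
theorem t_PROG : ∀ (V : ValuationSubring ℂ) (p q : ℂ), V.valuation p < 1 →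
    V.valuation p ^ 2 ≤ V.valuation q → V.valuation q ≤ V.valuation p → ∀ (J : Type)
    (S : Finset J) (u e : J → ℂ) (n : J → ℕ), (∀ j ∈ S, V.valuation (e j) ≤ V.valuation p) →
    (∀ j ∈ S, V.valuation (u j - 1 - e j) ≤ V.valuation q) →
    V.valuation (∏ j ∈ S, u j ^ n j - 1 - ∑ j ∈ S, (n j : ℂ) * e j) ≤ V.valuation q := by
  intro V p q hp hq hqp J S u e n h1 h2
  exact (PRO.near_prod V.valuation hp.le hqp hq S u e n fun j hj => ⟨h1 j hj, h2 j hj⟩).2

theorem t_PRO : S_PRO := by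
  intro V p _ hv J S u e n h1 h2
  have h3 : V.valuation ((p : ℂ) ^ 2) = V.valuation (p : ℂ) ^ 2 := map_pow _ _ _
  have h := t_PROG V (p : ℂ) ((p : ℂ) ^ 2) hv (by rw [h3]) (by
    rw [h3, pow_two]
    calc V.valuation (p : ℂ) * V.valuation (p : ℂ) ≤ V.valuation (p : ℂ) * 1 :=
          mul_le_mul_right hv.le _
      _ = V.valuation (p : ℂ) := mul_one _) J S u e n h1 (by
    intro j hj
    rw [h3]
    exact h2 j hj)
  rw [h3] at h
  exact h

end Pool.Agent.TWT
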