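import Pool.Agent.TWT.StT2

/-!
# TWT, RSF: functionals on the residue field
-/

set_option autoImplicit false

namespace Pool.Agent.TWT

namespace RSF

theorem main (p : ℕ) [Fact p.Prime] (Fr : Type) [Field Fr] [CharP Fr p] (T : Type) [Fintype T]
    (c b : T → Fr) (h : ∀ t : Fr →+ ZMod p, ∑ τ : T, (((t (c τ)).val : ℕ) : Fr) * b τ = 0) :
    ∑ τ : T, c τ * b τ = 0 := by
  classical
  let _ : Algebra (ZMod p) Fr := ZMod.algebra Fr p
  let B := Module.Basis.ofVectorSpace (ZMod p) Fr
  have hsm : ∀ (a : ZMod p) (x : Fr), a • x = ((a.val : ℕ) : Fr) * x := by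
    intro a x
    conv_lhs => rw [← ZMod.natCast_zmod_val a]
    rw [Algebra.smul_def, map_natCast]
  have h2 : ∀ j, ∑ τ : T, (((B.repr (c τ) j).val : ℕ) : Fr) * b τ = 0 := fun j =>
    h (B.coord j).toAddMonoidHom
  let S : Finset _ := Finset.univ.biUnion fun τ : T => (B.repr (c τ)).support
  have h3 : ∀ τ : T, c τ = ∑ j ∈ S, (((B.repr (c τ) j).val : ℕ) : Fr) * B j := by
    intro τ
    have h4 := B.linearCombination_repr (c τ)
    rw [Finsupp.linearCombination_apply] at h4
    have h5 := Finsupp.sum_of_support_subset (B.repr (c τ))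
      (Finset.subset_biUnion_of_mem (fun τ : T => (B.repr (c τ)).support) (Finset.mem_univ τ))
      (fun j (a : ZMod p) => a • B j) (fun i _ => zero_smul _ _)
    rw [h5] at h4
    refine h4.symm.trans (Finset.sum_congr rfl fun j _ => ?_)
    exact hsm _ _
  calc ∑ τ : T, c τ * b τ = ∑ τ : T, (∑ j ∈ S, (((B.repr (c τ) j).val : ℕ) : Fr) * B j) * b τ :=
        Finset.sum_congr rfl fun τ _ => by rw [← h3 τ]
    _ = ∑ j ∈ S, B j * ∑ τ : T, (((B.repr (c τ) j).val : ℕ) : Fr) * b τ := by
        simp only [Finset.sum_mul, Finset.mul_sum]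
        rw [Finset.sum_comm]
        refine Finset.sum_congr rfl fun j _ => Finset.sum_congr rfl fun τ _ => ?_
        ring
    _ = 0 := Finset.sum_eq_zero fun j _ => by rw [h2 j, mul_zero]

end RSF

theorem t_RSF : S_RSF := fun p _ Fr _ _ T _ c b h => RSF.main p Fr T c b h

end Pool.Agent.TWT
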