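import Pool.Agent.TWT.StT2
import Pool.Agent.MUX.I_PTP

/-!
# TWT_SDE: from the logarithmic derivatives to `ee`
-/

set_option autoImplicit false

open WeierstrassCurve Polynomial NumberField IsDedekindDomain

namespace Pool.Agent.TWT

open _root_.MU3 Pool.Agent.MU3A Pool.Agent.MU3B Pool.Agent.MU3C Pool.Agent.RI Pool.Agent.RID
open Pool.Agent.MUX Pool.Agent.MUXU Pool.Agent.MUXW
open Pool.Agent.MU3V (cls Sub GD algDF)
open Pool.Agent.MUXV (GR InK tX)
open Pool.Agent.MUXI (IA RE AR)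

noncomputable section

namespace SDE

variable {A B : ℤ}

lemma nat_dvd_iff (n : ℕ) (x : OO A B) :
    ((n : ℕ) : OO A B) ∣ x ↔ (n : ℤ) ∣ x.re ∧ (n : ℤ) ∣ x.im := by
  constructor
  · rintro ⟨t, rfl⟩
    refine ⟨⟨t.re, ?_⟩, ⟨t.im, ?_⟩⟩
    · rw [QuadraticAlgebra.re_mul]; simp
    · rw [QuadraticAlgebra.im_mul]; simp
  · rintro ⟨⟨s, hs⟩, ⟨t, ht⟩⟩
    refine ⟨⟨s, t⟩, ?_⟩
    apply QuadraticAlgebra.ext
    · rw [QuadraticAlgebra.re_mul]; simp [hs]
    · rw [QuadraticAlgebra.im_mul]; simp [ht]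

lemma mk_eq_iff (m x y : OO A B) :
    Ideal.Quotient.mk (Ideal.span {m}) x = Ideal.Quotient.mk (Ideal.span {m}) y ↔ m ∣ x - y := by
  rw [Ideal.Quotient.eq, Ideal.mem_span_singleton]

lemma finR (n : ℕ) (hn : n ≠ 0) : Finite (OO A B ⧸ Ideal.span {((n : ℕ) : OO A B)}) := by
  have : NeZero n := ⟨hn⟩
  refine Finite.of_injective (fun q : OO A B ⧸ Ideal.span {((n : ℕ) : OO A B)} =>
    (((Quotient.out q).re : ZMod n), ((Quotient.out q).im : ZMod n))) ?_
  intro q q' h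
  simp only [Prod.mk.injEq] at h
  rw [← Ideal.Quotient.mk_out q, ← Ideal.Quotient.mk_out q', mk_eq_iff, nat_dvd_iff]
  refine ⟨?_, ?_⟩
  · rw [QuadraticAlgebra.re_sub, ← ZMod.intCast_zmod_eq_zero_iff_dvd, Int.cast_sub, sub_eq_zero]
    exact h.1
  · rw [QuadraticAlgebra.im_sub, ← ZMod.intCast_zmod_eq_zero_iff_dvd, Int.cast_sub, sub_eq_zero]
    exact h.2

lemma sumMod_mul {m a : OO A B} (ha : IsCoprime a m) {F : OO A B → ℂ}
    (hF : ∀ x y, x - y ∈ Ideal.span {m} → F x = F y) :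
    sumMod m (fun x => F (a * x)) = sumMod m F := by
  obtain ⟨u, v, huv⟩ := ha
  have h1 : Ideal.Quotient.mk (Ideal.span {m}) a * Ideal.Quotient.mk (Ideal.span {m}) u = 1 := by
    rw [← map_mul, ← map_one (Ideal.Quotient.mk (Ideal.span {m})), Ideal.Quotient.eq,
      Ideal.mem_span_singleton]
    exact ⟨-v, by linear_combination huv⟩
  let e : (OO A B ⧸ Ideal.span {m}) ≃ (OO A B ⧸ Ideal.span {m}) :=
    (Units.mkOfMulEqOne _ _ h1).mulLeft
  unfold sumMod
  rw [← finsum_comp_equiv (f := fun q : OO A B ⧸ Ideal.span {m} => F (Quotient.out q)) e]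
  refine finsum_congr fun q => ?_
  refine hF _ _ ?_
  rw [← Ideal.Quotient.eq, map_mul, Ideal.Quotient.mk_out]
  have h2 : Ideal.Quotient.mk (Ideal.span {m}) (Quotient.out (e q)) = e q :=
    Ideal.Quotient.mk_out _
  rw [h2]
  rfl

lemma sumMod_sub {m : OO A B} (_ : Finite (OO A B ⧸ Ideal.span {m})) (F F' : OO A B → ℂ) :
    sumMod m (fun x => F x - F' x) = sumMod m F - sumMod m F' := by
  unfold sumMod
  exact finsum_sub_distrib (Set.toFinite _) (Set.toFinite _)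

lemma sumMod_cmul {m : OO A B} (c : ℂ) (F : OO A B → ℂ) :
    sumMod m (fun x => c * F x) = c * sumMod m F := by
  unfold sumMod
  exact (mul_finsum _ _).symm

lemma nm_per (N : ℕ) {x y : OO A B} (h : x - y ∈ idl (A := A) (B := B) N) :
    (N : ℤ) ∣ nm x - nm y := by
  rw [Ideal.mem_span_singleton, nat_dvd_iff, QuadraticAlgebra.re_sub, QuadraticAlgebra.im_sub] at h
  obtain ⟨⟨s, hs⟩, ⟨t, ht⟩⟩ := h
  have h1 : x.re = y.re + N * s := by linarith
  have h2 : x.im = y.im + N * t := by linarith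
  refine ⟨2 * y.re * s + N * s ^ 2 + B * (y.re * t + s * y.im + N * s * t) -
    A * (2 * y.im * t + N * t ^ 2), ?_⟩
  unfold nm
  rw [h1, h2]
  ring

lemma nm_nat_mul (a : ℕ) (x : OO A B) : nm ((a : OO A B) * x) = (a : ℤ) ^ 2 * nm x := by
  unfold nm
  rw [QuadraticAlgebra.re_mul, QuadraticAlgebra.im_mul]
  simp
  ring

lemma nm_nat (a : ℕ) : nm ((a : OO A B)) = (a : ℤ) ^ 2 := by
  unfold nm
  simp

lemma nI_top : nI (⊤ : Ideal (OO A B)) = 1 := by
  unfold nI
  have : Subsingleton (OO A B ⧸ (⊤ : Ideal (OO A B))) := Ideal.Quotient.subsingleton_iff.2 rfl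
  exact Nat.card_unique

/-- a root of unity has valuation one -/
lemma val_root (V : ValuationSubring ℂ) {x : ℂ} {r : ℕ} (hr : r ≠ 0) (h : x ^ r = 1) :
    V.valuation x = 1 := by
  have h1 : V.valuation x ^ r = 1 := by rw [← map_pow, h, map_one]
  exact (pow_eq_one_iff.1 h1).resolve_right hr

end SDE

open SDE in
theorem t_SDE (h1 : S_IDP) (h2 : S_VPG) : S_SDE := by
  intro p A B P V f hS ι _ R w hw kp eta hC l N hl hlf ψ a ha1 hac hunit
  obtain ⟨-, id2, -⟩ := h1 p A B P V f hS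
  obtain ⟨vp, -⟩ := h2 p A B P V f hS
  have hcq := hS.cq
  set M : ℕ := f * l ^ N * p with hM
  have hM0 : M ≠ 0 := mul_ne_zero (mul_ne_zero hS.f0 (pow_ne_zero _ hl.ne_zero)) hS.pp.ne_zero
  -- coprimality
  have haf : a.Coprime f := Nat.Coprime.coprime_dvd_right ⟨6 * p, by ring⟩ hac
  have hap : a.Coprime p := Nat.Coprime.coprime_dvd_right ⟨6 * f, by ring⟩ hac
  have hal : a.Coprime l := Nat.Coprime.coprime_dvd_right hlf haf
  have haM : a.Coprime M := by
    rw [hM]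
    exact Nat.Coprime.mul_right (Nat.Coprime.mul_right haf (Nat.Coprime.pow_right _ hal)) hap
  have hcO : ∀ b : ℕ, a.Coprime b → IsCoprime ((a : ℕ) : OO A B) ((b : ℕ) : OO A B) := by
    intro b hb
    have h5 := (Nat.isCoprime_iff_coprime.2 hb).map (Int.castRingHom (OO A B))
    simpa using h5
  have haP : ((a : ℕ) : OO A B) ∉ P := by
    intro h
    have h3 := (id2 (a : ℤ)).1 (by simpa using h)
    have h4 : p ∣ a := by exact_mod_cast h3
    have h5 : p ∣ 1 := by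
      rw [← hap.gcd_eq_one]
      exact Nat.dvd_gcd h4 dvd_rfl
    exact hS.pp.one_lt.ne' (Nat.dvd_one.1 h5)
  have hwa : w (a : OO A B) ≠ 0 := fun h => haP ((hw.zero _).1 h)
  have hpM : ((M : ℕ) : OO A B) ∈ P := by
    rw [hM, Nat.cast_mul]
    exact P.mul_mem_left _ hS.hP.mem
  have hMP : ∀ x : OO A B, x ∈ idl (A := A) (B := B) M → x ∈ P := by
    intro x hx
    obtain ⟨t, rfl⟩ := Ideal.mem_span_singleton.1 hx
    exact P.mul_mem_right _ hpM
  have hMs : ∀ x : OO A B, x ∈ idl (A := A) (B := B) M → star x ∈ P := by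
    intro x hx
    obtain ⟨t, rfl⟩ := Ideal.mem_span_singleton.1 hx
    rw [star_mul', star_natCast]
    exact P.mul_mem_right _ hpM
  have hMf : ∀ x : OO A B, x ∈ idl (A := A) (B := B) M → x ∈ idl (A := A) (B := B) f := by
    intro x hx
    obtain ⟨t, rfl⟩ := Ideal.mem_span_singleton.1 hx
    rw [Ideal.mem_span_singleton]
    refine Dvd.dvd.mul_right ?_ _
    exact Nat.cast_dvd_cast ⟨l ^ N * p, by rw [hM]; ring⟩
  have hMl : ∀ x : OO A B, x ∈ idl (A := A) (B := B) M → x ∈ idl (A := A) (B := B) (l ^ N) := by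
    intro x hx
    obtain ⟨t, rfl⟩ := Ideal.mem_span_singleton.1 hx
    rw [Ideal.mem_span_singleton]
    refine Dvd.dvd.mul_right ?_ _
    exact Nat.cast_dvd_cast ⟨f * p, by rw [hM]; ring⟩
  -- the character
  have hth : ∀ (i : ι) (x : OO A B), thT R kp eta ψ i ((a : OO A B) * x) =
      thT R kp eta ψ R.i0 (a : OO A B) * thT R kp eta ψ i x := by
    intro i x
    unfold thT
    rw [hC.mul, hC.kp0, R.b0, nI_top, nm_nat_mul, nm_nat]
    have e1 : (((a : ℤ) ^ 2 * nm x * (nI (R.b i) : ℤ) : ℤ) : ZMod (l ^ N)) =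
        (((a : ℤ) ^ 2 * ((1 : ℕ) : ℤ) : ℤ) : ZMod (l ^ N)) *
          ((nm x * (nI (R.b i) : ℤ) : ℤ) : ZMod (l ^ N)) := by
      push_cast
      ring
    rw [e1, map_mul]
    ring
  have hone : ∀ x : OO A B, oneT w ((a : OO A B) * x) = oneT w x := by
    intro x
    unfold oneT
    rw [star_mul', star_natCast, hw.mul, mul_inv]
    field_simp
  have hth_per : ∀ (i : ι) (x y : OO A B), x - y ∈ idl (A := A) (B := B) M →
      thT R kp eta ψ i x = thT R kp eta ψ i y := by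
    intro i x y hxy
    unfold thT
    rw [hC.per x y (hMf _ hxy)]
    have h3 := nm_per (l ^ N) (hMl _ hxy)
    have h4 : ((nm x * (nI (R.b i) : ℤ) : ℤ) : ZMod (l ^ N)) =
        ((nm y * (nI (R.b i) : ℤ) : ℤ) : ZMod (l ^ N)) := by
      rw [← sub_eq_zero, ← Int.cast_sub, ZMod.intCast_zmod_eq_zero_iff_dvd, ← sub_mul]
      exact h3.mul_right _
    rw [h4]
  have hone_per : ∀ x y : OO A B, x - y ∈ idl (A := A) (B := B) M → oneT w x = oneT w y := by
    intro x y hxy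
    unfold oneT
    rw [hw.per (star x) (star y) (by rw [← star_sub]; exact hMs _ hxy)]
  set c0 : ℂ := thT R kp eta ψ R.i0 (a : OO A B) with hc0
  -- `c0` has valuation one
  have hv0 : V.valuation c0 = 1 := by
    rw [hc0]
    unfold thT
    rw [hC.kp0, one_mul, map_mul]
    obtain ⟨r, hr, -, hr2⟩ := hC.fin
    have hr0 : r ≠ 0 := fun h => hr (h ▸ dvd_zero p)
    have he : eta (a : OO A B) ≠ 0 := by
      rw [hC.supp, Ideal.isCoprime_span_singleton_iff]
      exact hcO f haf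
    rw [val_root V hr0 (hr2 _ he), one_mul, R.b0, nI_top, nm_nat]
    have hu : IsUnit ((((a : ℤ) ^ 2 * ((1 : ℕ) : ℤ) : ℤ)) : ZMod (l ^ N)) := by
      have h5 : ((((a : ℤ) ^ 2 * ((1 : ℕ) : ℤ) : ℤ)) : ZMod (l ^ N)) =
          ((a : ℕ) : ZMod (l ^ N)) ^ 2 := by push_cast; ring
      rw [h5]
      exact ((ZMod.isUnit_iff_coprime a (l ^ N)).2 (Nat.Coprime.pow_right _ hal)).pow 2
    obtain ⟨u, hu⟩ := hu
    rw [← hu]
    have : NeZero (l ^ N) := ⟨pow_ne_zero _ hl.ne_zero⟩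
    refine val_root V (r := Fintype.card (ZMod (l ^ N))ˣ) Fintype.card_ne_zero ?_
    rw [← map_pow, ← Units.val_pow_eq_pow_val, pow_card_eq_one, Units.val_one, map_one]
  have hc00 : c0 ≠ 0 := by
    intro h
    rw [h, map_zero] at hv0
    exact zero_ne_one hv0
  -- valuation of `w a`
  have hvw : V.valuation (w (a : OO A B)) = 1 :=
    val_root V (Nat.sub_ne_zero_of_lt hS.pp.one_lt) (hw.root _ haP)
  have hint : V.valuation ((a : ℂ) - w (a : OO A B)) < 1 := by
    have h3 := hw.int (a : ℤ)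
    rw [Valuation.map_sub_swap]
    refine lt_of_le_of_lt ?_ vp
    simpa using h3
  have hq : V.valuation ((a : ℂ) / w (a : OO A B) - 1) < 1 := by
    rw [show (a : ℂ) / w (a : OO A B) - 1 = ((a : ℂ) - w (a : OO A B)) / w (a : OO A B) by
      field_simp, map_div₀, hvw, div_one]
    exact hint
  -- the sums
  have hfin := finR (A := A) (B := B) M hM0
  have key : ∀ i : ι, sumMod ((M : ℕ) : OO A B) (fun x =>
      thT R kp eta ψ i x * oneT w x * w x * dlX (R.L i) a (pt R M i x)) =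
      ((a : ℂ) * (c0 * w (a : OO A B))⁻¹ - (a : ℂ) ^ 2) * sumMod ((M : ℕ) : OO A B) (fun x =>
      thT R kp eta ψ i x * oneT w x * w x * ee (R.L i) (pt R M i x)) := by
    intro i
    obtain ⟨ptp1, ptp2⟩ := Pool.Agent.MUXI.ti_PTP A B hcq (p * f) ι R M hM0 i
    set G : OO A B → ℂ := fun x =>
      thT R kp eta ψ i x * oneT w x * w x * ee (R.L i) (pt R M i x) with hG
    have hGp : ∀ x y, x - y ∈ Ideal.span {((M : ℕ) : OO A B)} → G x = G y := by
      intro x y hxy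
      simp only [hG]
      rw [hth_per i x y hxy, hone_per x y hxy, hw.per x y (hMP _ hxy), (ptp1 x y hxy).2.1]
    have e1 := sumMod_mul (hcO M haM) hGp
    have e2 : sumMod ((M : ℕ) : OO A B) (fun x =>
        thT R kp eta ψ i x * oneT w x * w x * dlX (R.L i) a (pt R M i x)) =
        (a : ℂ) * (c0 * w (a : OO A B))⁻¹ *
          sumMod ((M : ℕ) : OO A B) (fun x => G (((a : ℕ) : OO A B) * x)) -
        (a : ℂ) ^ 2 * sumMod ((M : ℕ) : OO A B) G := by
      rw [← sumMod_cmul, ← sumMod_cmul, ← sumMod_sub hfin]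
      congr 1
      funext x
      simp only [hG]
      rw [hth, hone, hw.mul, ← ptp2]
      unfold dlX
      field_simp
    rw [e2, e1]
    ring
  have hSDT : SDT R M a (thT R kp eta ψ) w =
      ((a : ℂ) * (c0 * w (a : OO A B))⁻¹ - (a : ℂ) ^ 2) * SST R M (thT R kp eta ψ) w := by
    unfold SDT SST
    rw [Finset.mul_sum]
    refine Finset.sum_congr rfl fun i _ => ?_
    rw [key i]
    ring
  have hfac : (a : ℂ) * (c0 * w (a : OO A B))⁻¹ - (a : ℂ) ^ 2 =
      c0⁻¹ * (((a : ℂ) / w (a : OO A B) - 1) + (1 - (a : ℂ) ^ 2 * c0)) := by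
    field_simp
    ring
  have hvf : V.valuation ((a : ℂ) * (c0 * w (a : OO A B))⁻¹ - (a : ℂ) ^ 2) = 1 := by
    rw [hfac, map_mul, map_inv₀, hv0, inv_one, one_mul, Valuation.map_add_eq_of_lt_right]
    · exact hunit
    · rw [hunit]
      exact hq
  rw [hSDT, map_mul, hvf, one_mul]

end

end Pool.Agent.TWT
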