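import Pool.Agent.TWT.StT2
import Pool.Agent.TWT.I0
import Pool.Agent.MUX.I_TSH

/-!
# TWT, block B, module SIG: the sum over the Galois group in terms of `SDT`
-/

set_option autoImplicit false

open WeierstrassCurve Polynomial NumberField IsDedekindDomain

namespace Pool.Agent.TWT

open _root_.MU3 Pool.Agent.MU3A Pool.Agent.MU3B Pool.Agent.MU3C Pool.Agent.RI Pool.Agent.RID
open Pool.Agent.MUX Pool.Agent.MUXU Pool.Agent.MUXW
open Pool.Agent.MU3V (cls Sub GD algDF)
open Pool.Agent.MUXV (GR InK tX)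
open Pool.Agent.MUXI (IA RE AR)
open OnePoint

noncomputable section

namespace SIG

variable {A B : ℤ} {n : ℕ} {ι : Type}

lemma emb_neg' (x : OO A B) : emb (-x) = -emb x := by
  simp only [emb, QuadraticAlgebra.re_neg, QuadraticAlgebra.im_neg]
  push_cast
  ring

lemma nm_neg' (x : OO A B) : nm (-x) = nm x := by
  simp only [nm, QuadraticAlgebra.re_neg, QuadraticAlgebra.im_neg]
  ring

lemma pt_neg (R : Reps A B n ι) (m : ℕ) (i : ι) (x : OO A B) : pt R m i (-x) = -pt R m i x := by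
  unfold pt
  rw [emb_neg']
  ring

lemma dlX_neg (L : PeriodPair) (a : ℕ) (z : ℂ) : dlX L a (-z) = -dlX L a z := by
  unfold dlX
  rw [mul_neg, (Pool.Agent.MU3B.b_PER L).2, (Pool.Agent.MU3B.b_PER L).2]
  ring

lemma v_one {V : ValuationSubring ℂ} {x : ℂ} {r : ℕ} (hr : r ≠ 0) (h : x ^ r = 1) :
    V.valuation x = 1 := by
  have h1 : V.valuation x ^ r = 1 := by rw [← map_pow, h, map_one]
  exact (pow_eq_one_iff.1 h1).resolve_right hr

lemma v_chi {V : ValuationSubring ℂ} {q : ℕ} [NeZero q] (ψ : DirichletCharacter ℂ q)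
    (z : ZMod q) : V.valuation (ψ z) ≤ 1 := by
  by_cases hz : IsUnit z
  · obtain ⟨u, rfl⟩ := hz
    refine le_of_eq (v_one (r := Fintype.card (ZMod q)ˣ) Fintype.card_ne_zero ?_)
    rw [← map_pow, ← Units.val_pow_eq_pow_val, pow_card_eq_one]
    simp
  · rw [ψ.map_nonunit hz, map_zero]
    exact zero_le_one

lemma v_th {V : ValuationSubring ℂ} {p f : ℕ} {R : Reps A B n ι} {kp : ι → ℂ}
    {eta : OO A B → ℂ} (hC : ChD p f R kp eta) {q : ℕ} [NeZero q] (ψ : DirichletCharacter ℂ q)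
    (i : ι) (x : OO A B) : V.valuation (thT R kp eta ψ i x) ≤ 1 := by
  obtain ⟨r, hr, h1, h2⟩ := hC.fin
  have hr0 : r ≠ 0 := by
    rintro rfl
    exact hr (dvd_zero _)
  unfold thT
  rw [map_mul, map_mul, v_one hr0 (h1 i), one_mul]
  refine mul_le_one' ?_ (v_chi ψ _)
  by_cases he : eta x = 0
  · rw [he, map_zero]
    exact zero_le_one
  · exact le_of_eq (v_one hr0 (h2 x he))

lemma th_neg {p f : ℕ} {R : Reps A B n ι} {kp : ι → ℂ}
    {eta : OO A B → ℂ} (hC : ChD p f R kp eta) {q : ℕ} (ψ : DirichletCharacter ℂ q)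
    (i : ι) (x : OO A B) : thT R kp eta ψ i (-x) = thT R kp eta ψ i x := by
  unfold thT
  have h1 : eta (-x) = eta x := by
    rw [← neg_one_mul, hC.mul, hC.neg, one_mul]
  rw [h1, nm_neg']

lemma th_per {p f : ℕ} {R : Reps A B n ι} {kp : ι → ℂ}
    {eta : OO A B → ℂ} (hC : ChD p f R kp eta) {q m : ℕ} (ψ : DirichletCharacter ℂ q)
    (hf : f ∣ m) (hq : q ∣ m) (i : ι) {x y : OO A B} (h : x - y ∈ idl (A := A) (B := B) m) :
    thT R kp eta ψ i x = thT R kp eta ψ i y := by
  unfold thT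
  have h1 : eta x = eta y := by
    refine hC.per _ _ ?_
    have h2 : idl (A := A) (B := B) m ≤ idl f := by
      rw [Ideal.span_singleton_le_span_singleton]
      exact Nat.cast_dvd_cast hf
    exact h2 h
  have h3 : ((nm x * nI (R.b i) : ℤ) : ZMod q) = ((nm y * nI (R.b i) : ℤ) : ZMod q) := by
    rw [ZMod.intCast_eq_intCast_iff_dvd_sub]
    have h4 := Pool.Agent.MUXI.TSH.nm_per m h
    have h5 : (q : ℤ) ∣ nm x - nm y := (Int.natCast_dvd_natCast.2 hq).trans h4
    obtain ⟨t, ht⟩ := h5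
    exact ⟨-t * nI (R.b i), by linear_combination (-(nI (R.b i) : ℤ)) * ht⟩
  rw [h1, h3]

lemma w_neg_one {p : ℕ} {P : Ideal (OO A B)} {V : ValuationSubring ℂ} {w : OO A B → ℂ}
    (hw : TeiP p P V w) (hp : V.valuation (p : ℂ) < 1) (h2 : V.valuation (2 : ℂ) = 1) :
    w (-1) = -1 := by
  have h1 : w (-1) * w (-1) = 1 := by
    rw [← hw.mul, neg_mul_neg, one_mul, hw.one]
  have h3 : (w (-1) - 1) * (w (-1) + 1) = 0 := by linear_combination h1
  rcases mul_eq_zero.1 h3 with h | h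
  · exfalso
    have h4 := hw.int (-1)
    have h5 : ((-1 : ℤ) : OO A B) = -1 := by simp
    rw [h5] at h4
    have h6 : w (-1) = 1 := by linear_combination h
    rw [h6] at h4
    have h7 : (1 : ℂ) - ((-1 : ℤ) : ℂ) = 2 := by push_cast; ring
    rw [h7, h2] at h4
    exact absurd (lt_of_le_of_lt h4 hp) (lt_irrefl _)
  · linear_combination h

lemma w_neg {p : ℕ} {P : Ideal (OO A B)} {V : ValuationSubring ℂ} {w : OO A B → ℂ}
    (hw : TeiP p P V w) (hp : V.valuation (p : ℂ) < 1) (h2 : V.valuation (2 : ℂ) = 1)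
    (x : OO A B) : w (-x) = -w x := by
  rw [← neg_one_mul, hw.mul, w_neg_one hw hp h2, neg_one_mul]

lemma oneT_neg {p : ℕ} {P : Ideal (OO A B)} {V : ValuationSubring ℂ} {w : OO A B → ℂ}
    (hw : TeiP p P V w) (hp : V.valuation (p : ℂ) < 1) (h2 : V.valuation (2 : ℂ) = 1)
    (x : OO A B) : oneT w (-x) = oneT w x := by
  unfold oneT
  rw [star_neg, w_neg hw hp h2, inv_neg, neg_mul_neg]

lemma oneT_per {p : ℕ} {P : Ideal (OO A B)} {V : ValuationSubring ℂ} {w : OO A B → ℂ}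
    (hw : TeiP p P V w) {x y : OO A B} (h : x - y ∈ cjI P) : oneT w x = oneT w y := by
  unfold oneT
  have h1 : w (star x) = w (star y) := by
    refine hw.per _ _ ?_
    rw [← star_sub]
    exact h
  rw [h1]

lemma oneT_one {p : ℕ} {P : Ideal (OO A B)} {V : ValuationSubring ℂ} {w : OO A B → ℂ}
    (hw : TeiP p P V w) {x : OO A B} (h : x ∉ cjI P) : oneT w x = 1 := by
  unfold oneT
  refine mul_inv_cancel₀ ?_
  intro h0
  exact h ((hw.zero _).1 h0)

lemma oneT_zero {p : ℕ} {P : Ideal (OO A B)} {V : ValuationSubring ℂ} {w : OO A B → ℂ}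
    (hw : TeiP p P V w) {x : OO A B} (h : x ∈ cjI P) : oneT w x = 0 := by
  unfold oneT
  rw [(hw.zero (star x)).2 h, zero_mul]

end SIG

open SIG in
theorem t_SIG (h1 : S_IDP) (h2 : S_VPG) (h3 : S_MUG) (h4 : S_CNT) : S_SIG := by
  intro p A B P V f hS hT ι _ R hG w hw kp eta hC l N hl hlf ψ hψ x0 y0 hx0 hx1 hy0 hy1
  obtain ⟨-, id2, id3, -, -, -, -⟩ := h1 p A B P V f hS
  obtain ⟨vp1, -, -, vp4, vp5, -, -⟩ := h2 p A B P V f hS
  have mug := h3 p A B P V f hS ι R hG
  obtain ⟨-, alg2, -, -, -⟩ := Pool.Agent.MUXF.xf_ALG A B (Pool.Agent.MUXY.cqF hS.cq)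
  have hp0 : p ≠ 0 := hS.pp.ne_zero
  have hl0 : l ^ N ≠ 0 := pow_ne_zero _ hl.ne_zero
  have : NeZero (l ^ N) := ⟨hl0⟩
  have hm0 : f * l ^ N ≠ 0 := mul_ne_zero hS.f0 hl0
  have hM0 : f * l ^ N * p ≠ 0 := mul_ne_zero hm0 hp0
  have hpl : ¬ p ∣ l := fun h => hS.fp (h.trans hlf)
  have hpm : ¬ p ∣ f * l ^ N := by
    intro h
    rcases (Nat.Prime.dvd_mul hS.pp).1 h with h | h
    · exact hS.fp h
    · exact hpl (hS.pp.dvd_of_dvd_pow h)
  have hLv : LvM p f (f * l ^ N) R := by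
    refine ⟨hm0, dvd_mul_right _ _, hpm, fun i => ?_⟩
    have h5 := R.cop i
    have h6 : (nI (R.b i)).Coprime p := Nat.Coprime.coprime_mul_right_right h5
    have h7 : (nI (R.b i)).Coprime f := Nat.Coprime.coprime_mul_left_right h5
    have h8 : (nI (R.b i)).Coprime l := Nat.Coprime.coprime_dvd_right hlf h7
    exact Nat.Coprime.mul_right (Nat.Coprime.mul_right h7 (Nat.Coprime.pow_right _ h8)) h6
  have hPp : P.IsPrime := hS.hP.prime
  have hpP : ((p : ℕ) : OO A B) ∈ P := hS.hP.mem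
  have hpc : ((p : ℕ) : OO A B) ∈ cjI P := by
    change (starRingEnd (OO A B)) ((p : ℕ) : OO A B) ∈ P
    rw [map_natCast]
    exact hpP
  have hMc : idl (A := A) (B := B) (f * l ^ N * p) ≤ cjI P := by
    rw [Ideal.span_singleton_le_iff_mem, Nat.cast_mul]
    exact Ideal.mul_mem_left _ _ hpc
  have hMP : idl (A := A) (B := B) (f * l ^ N * p) ≤ P := by
    rw [Ideal.span_singleton_le_iff_mem, Nat.cast_mul]
    exact Ideal.mul_mem_left _ _ hpP
  have hx1c : x0 - 1 ∈ cjI P := Ideal.mul_le_right hx1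
  have hx1m : x0 - 1 ∈ idl (A := A) (B := B) (f * l ^ N) :=
    Ideal.mul_le_left hx1
  -- elements prime to `M`
  have hcopP : ∀ x : OO A B, IsCoprime x ((f * l ^ N * p : ℕ) : OO A B) → x ∉ P ∧ x ∉ cjI P := by
    intro x hx
    obtain ⟨u, v, huv⟩ := hx
    constructor
    · intro hxP
      apply hPp.ne_top
      rw [Ideal.eq_top_iff_one, ← huv]
      exact P.add_mem (P.mul_mem_left _ hxP)
        (P.mul_mem_left _ (hMP (Ideal.mem_span_singleton_self _)))
    · intro hxP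
      have h5 : (1 : OO A B) ∈ cjI P := by
        rw [← huv]
        exact (cjI P).add_mem ((cjI P).mul_mem_left _ hxP)
          ((cjI P).mul_mem_left _ (hMc (Ideal.mem_span_singleton_self _)))
      apply hPp.ne_top
      rw [Ideal.eq_top_iff_one]
      have h6 : (starRingEnd (OO A B)) (1 : OO A B) ∈ P := h5
      rwa [map_one] at h6
  have hcop' : ∀ x : OO A B, eta x ≠ 0 → x ∉ P → x ∉ cjI P →
      IsCoprime x ((f * l ^ N * p : ℕ) : OO A B) := by
    intro x he hxP hxc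
    have h5 : IsCoprime x ((f : ℕ) : OO A B) := by
      have h6 := (hC.supp x).1 he
      rwa [Ideal.isCoprime_span_singleton_iff] at h6
    have h7 : IsCoprime x ((l : ℕ) : OO A B) :=
      IsCoprime.of_isCoprime_of_dvd_right h5 (Nat.cast_dvd_cast hlf)
    have h8 : IsCoprime x ((p : ℕ) : OO A B) := by
      have h9 : ¬ (p : ℤ) ∣ nm x := by
        intro h
        have h10 : ((nm x : ℤ) : OO A B) ∈ P := (id2 _).2 h
        rw [← (alg2 x).2.2.2.2.1] at h10
        rcases hPp.mem_or_mem h10 with h | h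
        · exact hxP h
        · exact hxc h
      have h11 : IsCoprime ((nm x : ℤ)) (p : ℤ) :=
        ((Nat.prime_iff_prime_int.1 hS.pp).coprime_iff_not_dvd.2 h9).symm
      have h12 := h11.map (Int.castRingHom (OO A B))
      simp only [eq_intCast, Int.cast_natCast] at h12
      rw [← (alg2 x).2.2.2.2.1] at h12
      exact h12.of_mul_left_left
    push_cast
    exact (h5.mul_right h7.pow_right).mul_right h8
  have hwr : ∀ x, x ∉ P → V.valuation (w x) = 1 := fun x hx =>
    v_one (r := p - 1) (by have := hS.p5; omega) (hw.root x hx)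
  have hmyP : (((f * l ^ N : ℕ) : OO A B) * y0) ∉ P := by
    intro h
    rcases hPp.mem_or_mem h with h | h
    · have h5 : (((f * l ^ N : ℕ) : ℤ) : OO A B) ∈ P := by
        rw [Int.cast_natCast]
        exact h
      exact hpm (Int.natCast_dvd_natCast.1 ((id2 _).1 h5))
    · exact hy1 h
  have hpC : ((p : ℂ) - 1) ≠ 0 := by
    have h5 : (1 : ℂ) ≠ (p : ℂ) := by
      have := hS.p5
      exact_mod_cast (show (1 : ℕ) ≠ p by omega)
    exact sub_ne_zero.2 h5.symm
  have hvp1 : V.valuation ((p : ℂ) - 1) = 1 := by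
    have h5 := vp4 ((p : ℤ) - 1) (by
      intro h
      have h6 : (p : ℤ) ∣ 1 := by
        have := dvd_sub (dvd_refl (p : ℤ)) h
        simpa using this
      have h7 := Int.natCast_dvd_natCast.1 (by simpa using h6 : ((p : ℕ) : ℤ) ∣ ((1 : ℕ) : ℤ))
      have := hS.p5
      have := Nat.le_of_dvd one_pos h7
      omega)
    push_cast at h5
    exact h5
  refine ⟨2 * w (((f * l ^ N : ℕ) : OO A B) * y0) / ((p : ℂ) - 1), ?_, ?_⟩
  · rw [map_div₀, map_mul, vp5, hwr _ hmyP, hvp1]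
    simp
  intro a ha1 hacop _ I X hhit hint
  set W0 : ℂ := w (((f * l ^ N : ℕ) : OO A B) * y0) with hW0
  -- the function
  let G : ι → OO A B → ℂ := fun i x => muX R i *
    (thT R kp eta ψ i x * oneT w x * w x * dlX (R.L i) a (pt R (f * l ^ N * p) i x))
  have hcnt := h4 p A B P V f hS hT ι R (f * l ^ N) hLv x0 y0 hx0 hx1 hy0 hy1 G
    (by
      intro i x y hxy
      have e1 := th_per hC ψ (m := f * l ^ N * p) (by
        rw [mul_assoc]; exact dvd_mul_right _ _) (by
        rw [mul_comm f, mul_assoc]; exact dvd_mul_right _ _) i hxy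
      have e2 := oneT_per hw (hMc hxy)
      have e3 := hw.per x y (hMP hxy)
      have e4 := ((j_PTP A B hS.cq (p * f) ι R (f * l ^ N * p) hM0 i).1 x y hxy).2.2 a
      simp only [G]
      rw [e1, e2, e3, e4])
    (by
      intro i x
      simp only [G]
      rw [th_neg hC, oneT_neg hw vp1 vp5, w_neg hw vp1 vp5, pt_neg, dlX_neg]
      ring)
    (by
      intro i x hx
      simp only [G]
      by_cases he : eta x = 0
      · unfold thT
        rw [he]
        ring
      by_cases hxP : x ∈ P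
      · rw [(hw.zero x).2 hxP]
        ring
      by_cases hxc : x ∈ cjI P
      · rw [oneT_zero hw hxc]
        ring
      exact absurd (hcop' x he hxP hxc) hx) I X hhit
  have hsdt : ∑ i, sumMod ((f * l ^ N * p : ℕ) : OO A B) (G i) =
      SDT R (f * l ^ N * p) a (thT R kp eta ψ) w := by
    unfold SDT
    refine Finset.sum_congr rfl fun i _ => ?_
    exact Pool.Agent.MUXI.TSH.sumMod_cmul _ _
  rw [hsdt] at hcnt
  -- the values of `G`
  have hG' : ∀ σ : GalF A B (f * l ^ N * p), ∀ c : ℕ,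
      G (I σ) (X σ * x0 + c * (f * l ^ N : ℕ) * y0) = W0 *
        (thT R kp eta ψ (I σ) (X σ) * (muX R (I σ) * (w ((c : ℕ) : OO A B) *
          dlX (R.L (I σ)) a (pt R (f * l ^ N * p) (I σ)
            (X σ * x0 + c * (f * l ^ N : ℕ) * y0))))) := by
    intro σ c
    have hX := hcopP _ (hhit σ).1
    have e1 : thT R kp eta ψ (I σ) (X σ * x0 + c * (f * l ^ N : ℕ) * y0) =
        thT R kp eta ψ (I σ) (X σ) := by
      refine th_per hC ψ (m := f * l ^ N) (dvd_mul_right _ _) (dvd_mul_left _ _) _ ?_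
      have h5 : X σ * x0 + c * (f * l ^ N : ℕ) * y0 - X σ =
          X σ * (x0 - 1) + (c * y0) * ((f * l ^ N : ℕ) : OO A B) := by ring
      rw [h5]
      exact Ideal.add_mem _ (Ideal.mul_mem_left _ _ hx1m)
        (Ideal.mul_mem_left _ _ (Ideal.mem_span_singleton_self _))
    have e2 : oneT w (X σ * x0 + c * (f * l ^ N : ℕ) * y0) = 1 := by
      rw [oneT_per hw (y := X σ) ?_, oneT_one hw hX.2]
      have h5 : X σ * x0 + c * (f * l ^ N : ℕ) * y0 - X σ =
          X σ * (x0 - 1) + (c * ((f * l ^ N : ℕ) : OO A B)) * y0 := by ring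
      rw [h5]
      exact Ideal.add_mem _ (Ideal.mul_mem_left _ _ hx1c) (Ideal.mul_mem_left _ _ hy0)
    have e3 : w (X σ * x0 + c * (f * l ^ N : ℕ) * y0) = w ((c : ℕ) : OO A B) * W0 := by
      rw [hW0, ← hw.mul]
      refine hw.per _ _ ?_
      have h5 : X σ * x0 + c * (f * l ^ N : ℕ) * y0 -
          ((c : ℕ) : OO A B) * (((f * l ^ N : ℕ) : OO A B) * y0) = X σ * x0 := by ring
      rw [h5]
      exact Ideal.mul_mem_left _ _ hx0
    simp only [G]
    rw [e1, e2, e3]
    ring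
  have hcnt2 : 2 * (W0 * ∑ σ : GalF A B (f * l ^ N * p), thT R kp eta ψ (I σ) (X σ) *
      (muX R (I σ) * ∑ c ∈ Finset.Icc 1 (p - 1), w ((c : ℕ) : OO A B) *
        dlX (R.L (I σ)) a (pt R (f * l ^ N * p) (I σ)
          (X σ * x0 + c * (f * l ^ N : ℕ) * y0)))) =
      ((p : ℂ) - 1) * SDT R (f * l ^ N * p) a (thT R kp eta ψ) w := by
    rw [← hcnt]
    congr 1
    rw [Finset.mul_sum]
    refine Finset.sum_congr rfl fun σ _ => ?_
    rw [Finset.mul_sum, Finset.mul_sum, Finset.mul_sum]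
    refine Finset.sum_congr rfl fun c _ => ?_
    rw [hG' σ c]
  set SD : ℂ := SDT R (f * l ^ N * p) a (thT R kp eta ψ) w with hSD
  have hSD2 : SD = 2 * W0 / ((p : ℂ) - 1) * ∑ σ : GalF A B (f * l ^ N * p),
      thT R kp eta ψ (I σ) (X σ) *
      (muX R (I σ) * ∑ c ∈ Finset.Icc 1 (p - 1), w ((c : ℕ) : OO A B) *
        dlX (R.L (I σ)) a (pt R (f * l ^ N * p) (I σ)
          (X σ * x0 + c * (f * l ^ N : ℕ) * y0))) := by
    rw [div_mul_eq_mul_div, eq_div_iff hpC, mul_comm SD, ← hcnt2]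
    ring
  rw [hSD2, ← mul_sub, map_mul]
  have hu : V.valuation (2 * W0 / ((p : ℂ) - 1)) = 1 := by
    rw [map_div₀, map_mul, vp5, hwr _ hmyP, hvp1]
    simp
  rw [hu, one_mul, ← Finset.sum_sub_distrib]
  refine V.valuation.map_sum_le fun σ _ => ?_
  rw [← mul_sub, ← mul_sub, ← Finset.sum_sub_distrib, map_mul, map_mul, mug, one_mul]
  refine mul_le_of_le_one_of_le (v_th hC ψ _ _) ?_
  refine V.valuation.map_sum_le fun c _ => ?_
  rw [← sub_mul, map_mul]
  refine mul_le_of_le_of_le_one ?_ ((V.valuation_le_one_iff _).2 (hint σ c))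
  rw [← neg_sub, Valuation.map_neg]
  have h5 := hw.int (c : ℤ)
  rw [Int.cast_natCast, Int.cast_natCast] at h5
  exact h5

end

end Pool.Agent.TWT
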