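import Pool.Agent.TWT.StT2
import Pool.Agent.MUX.W_ACM
import Pool.Agent.MUX.W_INV
import Pool.Agent.MUX.W_HIT
import Pool.Agent.MUX.Q_EMB

/-!
# TWT, block B, module UNRG (helper22): `RF (idl m) / k` is unramified at `V` for `p ∤ m`
-/

set_option autoImplicit false

open WeierstrassCurve Polynomial NumberField IsDedekindDomain

namespace Pool.Agent.TWT

open _root_.MU3 Pool.Agent.MU3A Pool.Agent.MU3B Pool.Agent.MU3C Pool.Agent.RI Pool.Agent.RID
open Pool.Agent.MUX Pool.Agent.MUXU Pool.Agent.MUXW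
open Pool.Agent.MU3V (cls Sub GD algDF)
open Pool.Agent.MUXV (GR InK tX)

noncomputable section

namespace UNRG

/-- an automorphism of `ℂ / k` which fixes the invariants of all normalised lattices is trivial on `RF ⊤` -/
lemma fixTop {A B : ℤ} (he : Pool.Agent.MUXV.Sq_EMB) (hC : CQ A B) {s : ℂ ≃+* ℂ}
    (hs : FixK A B s)
    (hk : ∀ (b : Ideal (OO A B)) (L : PeriodPair) (om : ℂ), IsNL b L om → s (kap L) = kap L) :
    ∀ y ∈ (RF (⊤ : Ideal (OO A B)) : IntermediateField (kk A B) ℂ), s y = y := by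
  have he1 : emb (1 : OO A B) = 1 := by
    have := (he A B (KER.cqF hC)).2.2.2.2.1 1
    simpa using this
  intro y hy
  unfold RF at hy
  induction hy using IntermediateField.adjoin_induction with
  | mem x hx =>
    obtain ⟨b, L, om, hL, h | ⟨z, hz, hz', -⟩⟩ := hx
    · rw [h]
      exact hk b L om hL
    · exfalso
      apply hz'
      have h1 := hz 1 trivial
      rwa [he1, one_mul] at h1
  | algebraMap x => exact KER.fix hs _ x.2
  | add x y _ _ hx hy => rw [map_add, hx, hy]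
  | inv x _ hx => rw [map_inv₀, hx]
  | mul x y _ _ hx hy => rw [map_mul, hx, hy]

end UNRG

open UNRG in
theorem t_UNRG (hVPG : S_VPG) (hRAM : S_RAMG) : S_UNRG := by
  intro p A B P V f hS T ι _ R hR m hm hpm
  have he : Pool.Agent.MUXV.Sq_EMB := Pool.Agent.MUXV.tq_EMB
  have hC := hS.cq
  obtain ⟨-, -, -, eint, enat, einj, -⟩ := he A B (KER.cqF hC)
  have e0 : emb (0 : OO A B) = 0 := by simpa using eint 0
  have hm0 : ((m : ℕ) : OO A B) ≠ 0 := by
    intro h
    have h1 := enat m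
    rw [h, e0] at h1
    exact hm (by exact_mod_cast h1.symm)
  have hmn : (idl m : Ideal (OO A B)) ≠ ⊥ := by
    rwa [Ne, Ideal.span_singleton_eq_bot]
  have := T.fin (idl m) hmn
  have := T.gal (idl m) hmn
  refine fun y hy hy0 => hRAM p A B P V f hS (RF (idl m)) ?_ y hy hy0
  intro σ hσ
  obtain ⟨-, -, -, -, -, -, hgr⟩ := hVPG p A B P V f hS
  have hgr' := hgr ι R hR
  have hL : IsNL (⊤ : Ideal (OO A B)) (R.L R.i0) (R.om R.i0) := by
    have := R.nl R.i0
    rwa [R.b0] at this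
  -- the extension to `ℂ`
  let D : IntermediateField ℚ ℂ :=
    (RF (idl m) : IntermediateField (kk A B) ℂ).restrictScalars ℚ
  have hle : kk A B ≤ D := fun x hx =>
    (RF (idl m) : IntermediateField (kk A B) ℂ).algebraMap_mem ⟨x, hx⟩
  have hDy : ∀ y ∈ D, y ∈ (RF (idl m) : IntermediateField (kk A B) ℂ) := fun y hy => hy
  obtain ⟨s, hs, hs2⟩ : ∃ s : ℂ ≃+* ℂ, FixK A B s ∧
      ∀ y : (RF (idl m) : IntermediateField (kk A B) ℂ),
        ((σ y : (RF (idl m) : IntermediateField (kk A B) ℂ)) : ℂ) = s y := by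
    letI := algC hle
    let τ : D ≃ₐ[kk A B] D := AlgEquiv.ofRingEquiv (f := (σ.toRingEquiv : D ≃+* D))
      (fun r => σ.commutes r)
    obtain ⟨s, hs, hs1⟩ := T.ext (idl m) hmn D hle hDy τ
    exact ⟨s, hs, fun y => (hs1 y).symm⟩
  obtain ⟨a, ha, ha'⟩ := T.act (idl m) hmn s hs
  have hki : ∀ i, s (kap (R.L i)) = kap (R.L i) := by
    intro i
    obtain ⟨b', L', om', mu, hL', hA⟩ := ha' _ _ _ (R.nl i)
    obtain ⟨j, hj, -, -⟩ := HIT.repr he hC R hL'
    have h1 : kap (R.L i) ∈ (RF (idl m) : IntermediateField (kk A B) ℂ) :=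
      IntermediateField.subset_adjoin _ _ ⟨_, _, _, R.nl i, Or.inl rfl⟩
    have h2 := hσ ⟨kap (R.L i), h1⟩ (hR.kap i).le
    have h3 : s (kap (R.L i)) = kap (R.L j) := by rw [← hj, hA.kap]
    rw [hs2] at h2
    change V.valuation (s (kap (R.L i)) - kap (R.L i)) < 1 at h2
    rw [h3] at h2
    have h4 := hR.inj j i h2
    rw [h3, h4]
  have hkL : ∀ (b : Ideal (OO A B)) (L : PeriodPair) (om : ℂ), IsNL b L om →
      s (kap L) = kap L := by
    intro b L om hL
    obtain ⟨j, hj, -, -⟩ := HIT.repr he hC R hL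
    rw [hj]
    exact hki j
  have htop := fixTop he hC hs hkL
  have hTr : TrH σ := by
    intro x hx
    apply Subtype.ext
    rw [hs2]
    exact htop _ hx
  obtain ⟨c, hc⟩ := (ty_KER he A B hC T ((m : ℕ) : OO A B) hm0).1 σ hTr
  have hK : ∀ z, emb ((m : ℕ) : OO A B) * z ∈ (R.L R.i0).lattice →
      InK V (R.L R.i0) (fun z => (R.L R.i0).weierstrassP z - 1 / 12) z →
      z ∈ (R.L R.i0).lattice := by
    intro z hz hz'
    rw [enat] at hz
    exact (hgr' R.i0).2 m z hpm hz hz'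
  have hinv := ty_INV he A B hC (R.L R.i0) (R.om R.i0) hL ((m : ℕ) : OO A B) hm0 V
    (hgr' R.i0).1 hK (RF (idl m)) le_rfl σ
    (fun x hx => hσ x ((ValuationSubring.valuation_le_one_iff _ _).2 hx)) c hc
  obtain ⟨-, acm2, -, -, acm5, acm6, -, -⟩ :=
    ty_ACM he A B hC (R.L R.i0) (R.om R.i0) hL ((m : ℕ) : OO A B) hm0
  have h1 := acm2 _ σ c 1 hinv hc
  exact acm5 σ 1 1 h1 (acm6 _)

end

end Pool.Agent.TWT
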