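import Pool.Agent.TWT.StT2
import Pool.Agent.MUX.RQAll

/-!
# TWT, block B, module VPG: the valuation
-/

set_option autoImplicit false

open WeierstrassCurve Polynomial NumberField IsDedekindDomain

namespace Pool.Agent.TWT

open _root_.MU3 Pool.Agent.MU3A Pool.Agent.MU3B Pool.Agent.MU3C Pool.Agent.RI Pool.Agent.RID
open Pool.Agent.MUX Pool.Agent.MUXU Pool.Agent.MUXW
open Pool.Agent.MUXV (GR InK tX)

noncomputable section

namespace VPG

variable {A B : ℤ}

lemma cqF (h : CQ A B) : MUXF.CQ A B := ⟨h.hB, h.neg, h.fund1, h.fund0⟩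

lemma sq_eq (x : OO A B) :
    x * x = ((2 * x.re + B * x.im : ℤ) : OO A B) * x - ((nm x : ℤ) : OO A B) := by
  have key : ∀ t n : ℤ, t = 2 * x.re + B * x.im → n = nm x →
      x * x = (t : OO A B) * x - (n : OO A B) := by
    intro t n ht hn
    unfold nm at hn
    apply QuadraticAlgebra.ext
    · simp only [QuadraticAlgebra.re_mul, QuadraticAlgebra.re_sub, QuadraticAlgebra.re_intCast,
        QuadraticAlgebra.im_intCast, Int.cast_id]
      rw [ht, hn]
      ring
    · simp only [QuadraticAlgebra.im_mul, QuadraticAlgebra.im_sub, QuadraticAlgebra.re_intCast,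
        QuadraticAlgebra.im_intCast, Int.cast_id]
      rw [ht]
      ring
  exact key _ _ rfl rfl

lemma val_le (h : CQ A B) (V : ValuationSubring ℂ) (x : OO A B) : V.valuation (emb x) ≤ 1 := by
  obtain ⟨hmul, -, hsub, hint, -⟩ := Pool.Agent.MUXV.q_EMB A B (cqF h)
  rw [ValuationSubring.valuation_le_one_iff]
  by_contra hx
  have h1 := congrArg emb (sq_eq x)
  rw [hmul, hsub, hmul, hint, hint] at h1
  rcases V.mem_or_inv_mem (emb x) with h2 | h2
  · exact hx h2
  · have h0 : emb x ≠ 0 := by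
      intro h0
      rw [h0] at hx
      exact hx V.zero_mem
    apply hx
    have h3 : emb x = ((2 * x.re + B * x.im : ℤ) : ℂ) - ((nm x : ℤ) : ℂ) * (emb x)⁻¹ := by
      field_simp
      linear_combination h1
    rw [h3]
    exact sub_mem (intCast_mem V _) (mul_mem (intCast_mem V _) h2)

lemma emb_pow (h : CQ A B) (x : OO A B) (n : ℕ) : emb (x ^ n) = emb x ^ n := by
  obtain ⟨hmul, -, -, hint, -⟩ := Pool.Agent.MUXV.q_EMB A B (cqF h)
  induction n with
  | zero =>
    have := hint 1
    rw [Int.cast_one, Int.cast_one] at this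
    rw [pow_zero, pow_zero, this]
  | succ n ih => rw [pow_succ, pow_succ, hmul, ih]

lemma pow_sub {p : ℕ} (hpp : p.Prime) {P : Ideal (OO A B)} (hP : P.IsPrime) (hn : nI P = p)
    {x : OO A B} (hx : x ∉ P) : x ^ (p - 1) - 1 ∈ P := by
  have hfin : Finite (OO A B ⧸ P) := by
    apply Nat.finite_of_card_ne_zero
    change nI P ≠ 0
    rw [hn]
    exact hpp.ne_zero
  have hmax : P.IsMaximal :=
    Ideal.Quotient.maximal_of_isField P (Finite.isField_of_domain (OO A B ⧸ P))
  let _ := Ideal.Quotient.field P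
  have : Fintype (OO A B ⧸ P) := Fintype.ofFinite _
  have hc : Fintype.card (OO A B ⧸ P) = p := by
    rw [← Nat.card_eq_fintype_card]
    exact hn
  have h0 : Ideal.Quotient.mk P x ≠ 0 := by
    rw [Ne, Ideal.Quotient.eq_zero_iff_mem]
    exact hx
  have h1 := FiniteField.pow_card_sub_one_eq_one (Ideal.Quotient.mk P x) h0
  rw [hc, ← map_pow, ← map_one (Ideal.Quotient.mk P), Ideal.Quotient.eq] at h1
  exact h1

end VPG

open VPG in
/-- VPG -/
theorem t_VPG : S_VPG := by
  intro p A B P V f h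
  obtain ⟨hmul, -, hsub, hint, hnat, hinj, -⟩ := Pool.Agent.MUXV.q_EMB A B (cqF h.cq)
  have hlt : ∀ x : OO A B, V.valuation (emb x) < 1 ↔ x ∈ P := by
    intro x
    rw [← h.hV x]
    exact (ValuationSubring.mem_nonunits_iff (A := V)).symm
  have hone : emb (1 : OO A B) = 1 := by
    have := hint 1
    rwa [Int.cast_one, Int.cast_one] at this
  have hpv : V.valuation (p : ℂ) < 1 := by
    rw [← hnat p, hlt]
    exact h.hP.mem
  have hp0 : V.valuation (p : ℂ) ≠ 0 := by
    rw [Ne, map_eq_zero]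
    exact_mod_cast h.pp.ne_zero
  have hmemn : ∀ n : ℤ, ¬ (p : ℤ) ∣ n → (n : OO A B) ∉ P := by
    intro n hn hnP
    have hco : IsCoprime (p : ℤ) n :=
      (Prime.coprime_iff_not_dvd (Nat.prime_iff_prime_int.1 h.pp)).2 hn
    obtain ⟨r, s, hrs⟩ := hco
    apply h.hP.prime.ne_top
    rw [Ideal.eq_top_iff_one]
    have h1 : ((r * (p : ℤ) + s * n : ℤ) : OO A B) ∈ P := by
      push_cast
      exact P.add_mem (P.mul_mem_left _ h.hP.mem) (P.mul_mem_left _ hnP)
    rw [hrs, Int.cast_one] at h1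
    exact h1
  have hnv : ∀ n : ℤ, ¬ (p : ℤ) ∣ n → V.valuation (n : ℂ) = 1 := by
    intro n hn
    apply le_antisymm
    · rw [ValuationSubring.valuation_le_one_iff]
      exact intCast_mem V n
    · rw [← not_lt, ← hint n, hlt]
      exact hmemn n hn
  have h2 : V.valuation (2 : ℂ) = 1 := by
    have := hnv 2 (by
      intro hd
      have := Int.le_of_dvd (by norm_num) hd
      have := h.p5
      omega)
    exact_mod_cast this
  have h3 : V.valuation (3 : ℂ) = 1 := by
    have := hnv 3 (by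
      intro hd
      have := Int.le_of_dvd (by norm_num) hd
      have := h.p5
      omega)
    exact_mod_cast this
  refine ⟨hpv, hp0, fun x => ⟨val_le h.cq V x, hlt x⟩, hnv, h2, h3, ?_⟩
  intro ι R hR i
  have hdis : V.valuation (12 * (R.L i).g₂) = 1 := by
    have h4 : 12 * (R.L i).g₂ = 1 + 1728 * MUX.kap (R.L i) := by
      unfold MUX.kap
      ring
    rw [h4]
    exact hR.dis i
  obtain ⟨W, ξ, G⟩ := Pool.Agent.MUXV.x_NGR V (R.L i) (R.nl i).nrm h2 (hR.kap i) hdis
  refine ⟨⟨W, ξ, G⟩, ?_⟩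
  intro m z hm hz hE
  refine Pool.Agent.MUXV.mem_of_nat_mul G hE (n := m) ?_ hz
  have := hnv m (by exact_mod_cast hm)
  exact_mod_cast this

end

end Pool.Agent.TWT
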