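import Pool.Agent.TWT.StT2
import Pool.Agent.MUX.I_PTP
import Pool.Agent.MUX.XLib
import Pool.Agent.MU3.BAll

/-!
# TWT, block B, XPC (helper33): the conjugates of `∏ γ_c θ / θ''^(p-1)` to the first order
-/

set_option autoImplicit false

open Finset

namespace Pool.Agent.TWT

open _root_.MU3 Pool.Agent.MU3A Pool.Agent.MU3B Pool.Agent.MUX Pool.Agent.MUXU Pool.Agent.MUXW
open Pool.Agent.MUXV (GR InK tX inK_nat)

noncomputable section

namespace XPC

/-! ## Elementary facts -/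

theorem nat_idl {A B : ℤ} {m n : ℕ} (h : ((n : ℕ) : OO A B) ∈ idl (A := A) (B := B) m) :
    m ∣ n := by
  obtain ⟨z, hz⟩ := Ideal.mem_span_singleton'.1 h
  have h1 := congrArg QuadraticAlgebra.re hz
  rw [QuadraticAlgebra.re_mul, QuadraticAlgebra.re_natCast, QuadraticAlgebra.im_natCast,
    QuadraticAlgebra.re_natCast] at h1
  have h2 : (m : ℤ) ∣ n := ⟨z.re, by linear_combination -h1⟩
  exact_mod_cast h2

theorem one_nmem {A B : ℤ} {m : ℕ} (hm : m ≠ 1) : (1 : OO A B) ∉ idl (A := A) (B := B) m := by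
  intro h
  have h1 : ((1 : ℕ) : OO A B) ∈ idl (A := A) (B := B) m := by rwa [Nat.cast_one]
  exact hm (Nat.dvd_one.1 (nat_idl h1))

theorem cop_nmem {A B : ℤ} {m : ℕ} (hm : m ≠ 1) {x : OO A B}
    (hx : IsCoprime x ((m : ℕ) : OO A B)) : x ∉ idl (A := A) (B := B) m := by
  intro h
  obtain ⟨u, v, huv⟩ := hx
  refine one_nmem (A := A) (B := B) hm ?_
  rw [← huv]
  exact add_mem (Ideal.mul_mem_left _ _ h)
    (Ideal.mul_mem_left _ _ (Ideal.mem_span_singleton_self _))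

theorem idl_mul_le {A B : ℤ} (m p : ℕ) :
    (idl (m * p) : Ideal (OO A B)) ≤ idl m := by
  rw [Ideal.span_singleton_le_span_singleton]
  exact ⟨(p : OO A B), by push_cast; ring⟩

theorem pt_add' {A B : ℤ} (cq : CQ A B) {n : ℕ} {ι : Type} (R : Reps A B n ι) (m : ℕ) (i : ι)
    (x y : OO A B) : pt R m i (x + y) = pt R m i x + pt R m i y := by
  unfold pt
  rw [emb_add cq]
  ring

theorem pt_low {A B : ℤ} (cq : CQ A B) {n : ℕ} {ι : Type} (R : Reps A B n ι) {m p : ℕ}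
    (hm : m ≠ 0) (i : ι) (c : ℕ) (y : OO A B) :
    pt R (m * p) i (c * m * y) = c * pt R p i y := by
  have hm' : (m : ℂ) ≠ 0 := by exact_mod_cast hm
  unfold pt
  rw [emb_mul cq, emb_mul cq, emb_natCast cq, emb_natCast cq]
  push_cast
  rcases eq_or_ne (p : ℂ) 0 with hp | hp
  · rw [hp]; simp
  · field_simp

theorem pt_sum {A B : ℤ} (cq : CQ A B) {n : ℕ} {ι : Type} (R : Reps A B n ι) {m p : ℕ}
    (hm : m ≠ 0) (i : ι) (c : ℕ) (x y : OO A B) :
    pt R (m * p) i (x + c * m * y) = pt R (m * p) i x + c * pt R p i y := by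
  rw [pt_add' cq, pt_low cq R hm]

theorem theta_per {L : PeriodPair} (H : Finset ℂ) (z : ℂ) {w : ℂ} (hw : w ∈ L.lattice) :
    ThetaH L H (z + w) = ThetaH L H z := by
  unfold ThetaH
  refine prod_congr rfl fun q _ => ?_
  rw [L.weierstrassP_add_coe z ⟨w, hw⟩]

theorem theta_congr {L : PeriodPair} (H : Finset ℂ) {z w : ℂ} (hw : z - w ∈ L.lattice) :
    ThetaH L H z = ThetaH L H w := by
  have h := theta_per H w hw
  rwa [add_sub_cancel] at h

theorem nat_mem' {L : PeriodPair} {z : ℂ} (hz : z ∈ L.lattice) (n : ℕ) :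
    (n : ℂ) * z ∈ L.lattice := by
  rw [← nsmul_eq_mul]
  exact nsmul_mem hz n

/-! ## Products over the nonzero classes modulo `p` -/

theorem prod_zmod {p : ℕ} [Fact p.Prime] (H : ZMod p → ℂ) :
    ∏ c ∈ Icc 1 (p - 1), H (c : ZMod p) = ∏ u ∈ univ.erase (0 : ZMod p), H u := by
  have hp := (Fact.out : p.Prime).pos
  refine prod_nbij (fun c : ℕ => (c : ZMod p)) ?_ ?_ ?_ (fun _ _ => rfl)
  · intro c hc
    rw [mem_Icc] at hc
    rw [mem_erase]
    refine ⟨fun h => ?_, mem_univ _⟩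
    rw [ZMod.natCast_eq_zero_iff] at h
    have := Nat.le_of_dvd (by omega) h
    omega
  · intro c hc c' hc' h
    rw [mem_coe, mem_Icc] at hc hc'
    have h' : (c : ZMod p) = c' := h
    rw [ZMod.natCast_eq_natCast_iff'] at h'
    rwa [Nat.mod_eq_of_lt (by omega), Nat.mod_eq_of_lt (by omega)] at h'
  · intro u hu
    rw [mem_coe, mem_erase] at hu
    have h1 := ZMod.val_lt u
    have h2 : u.val ≠ 0 := fun h => hu.1 ((ZMod.val_eq_zero u).1 h)
    refine ⟨u.val, ?_, ZMod.natCast_zmod_val u⟩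
    rw [mem_coe, mem_Icc]
    omega

theorem prod_mul' {p : ℕ} [Fact p.Prime] (H : ZMod p → ℂ) {n : ZMod p} (hn : n ≠ 0) :
    ∏ u ∈ univ.erase (0 : ZMod p), H (u * n) = ∏ u ∈ univ.erase (0 : ZMod p), H u := by
  refine prod_nbij (fun u => u * n) ?_ ?_ ?_ (fun _ _ => rfl)
  · intro u hu
    rw [mem_erase] at hu ⊢
    exact ⟨mul_ne_zero hu.1 hn, mem_univ _⟩
  · intro u _ u' _ h
    exact mul_right_cancel₀ hn h
  · intro u hu
    rw [mem_coe, mem_erase] at hu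
    refine ⟨u * n⁻¹, ?_, by simp [hn]⟩
    rw [mem_coe, mem_erase]
    exact ⟨mul_ne_zero hu.1 (inv_ne_zero hn), mem_univ _⟩

theorem val_theta {p : ℕ} [Fact p.Prime] {L : PeriodPair} (H : Finset ℂ) (z : ℂ) {r : ℂ}
    (hr : (p : ℂ) * r ∈ L.lattice) (k : ℕ) :
    ThetaH L H (z + k * r) = ThetaH L H (z + ((k : ZMod p).val : ℂ) * r) := by
  refine theta_congr H ?_
  rw [ZMod.val_natCast]
  have h1 : (k : ℂ) = ((k % p : ℕ) : ℂ) + (p : ℂ) * ((k / p : ℕ) : ℂ) := by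
    exact_mod_cast (Nat.mod_add_div k p).symm
  have h2 : z + (k : ℂ) * r - (z + ((k % p : ℕ) : ℂ) * r) = ((k / p : ℕ) : ℂ) * (p * r) := by
    linear_combination r * h1
  rw [h2]
  exact nat_mem' hr _

/-- the product over the multiples of `n r` -/
theorem prod_theta {p : ℕ} (pp : p.Prime) {L : PeriodPair} (H : Finset ℂ) (z : ℂ) {r : ℂ}
    (hr : (p : ℂ) * r ∈ L.lattice) {n : ℕ} (hn : ¬ p ∣ n) :
    ∏ c ∈ Icc 1 (p - 1), ThetaH L H (z + c * (n * r)) =
      ∏ c ∈ Icc 1 (p - 1), ThetaH L H (z + c * r) := by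
  have : Fact p.Prime := ⟨pp⟩
  have hn' : (n : ZMod p) ≠ 0 := fun h => hn ((ZMod.natCast_eq_zero_iff n p).1 h)
  have e1 : ∏ c ∈ Icc 1 (p - 1), ThetaH L H (z + c * (n * r)) =
      ∏ c ∈ Icc 1 (p - 1), (fun u : ZMod p => ThetaH L H (z + ((u * n : ZMod p).val : ℂ) * r))
        (c : ZMod p) := by
    refine prod_congr rfl fun c _ => ?_
    have h1 : z + (c : ℂ) * ((n : ℂ) * r) = z + ((c * n : ℕ) : ℂ) * r := by push_cast; ring
    rw [h1, val_theta H z hr, Nat.cast_mul]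
  have e2 : ∏ c ∈ Icc 1 (p - 1), ThetaH L H (z + c * r) =
      ∏ c ∈ Icc 1 (p - 1), (fun u : ZMod p => ThetaH L H (z + ((u : ZMod p).val : ℂ) * r))
        (c : ZMod p) := by
    refine prod_congr rfl fun c _ => ?_
    rw [val_theta H z hr]
  rw [e1, e2, prod_zmod (fun u : ZMod p => ThetaH L H (z + ((u * n : ZMod p).val : ℂ) * r)),
    prod_zmod (fun u : ZMod p => ThetaH L H (z + ((u : ZMod p).val : ℂ) * r))]
  exact prod_mul' (fun u : ZMod p => ThetaH L H (z + ((u : ZMod p).val : ℂ) * r)) hn'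

/-! ## The level -/

theorem three_le {p : ℕ} {A B : ℤ} {P : Ideal (OO A B)} {V : ValuationSubring ℂ} {f m : ℕ}
    (hS : SetG p A B P V f) (hm : m ≠ 0) (hfm : f ∣ m) : 3 ≤ m := by
  have h0 : 0 < absD A B := absD_pos hS.cq
  have h1 : (2 * absD A B) ∣ (m : ℤ) := hS.fD.trans (by exact_mod_cast hfm)
  have h2 : absD A B ≠ 1 := by
    intro h
    unfold absD at h
    have h3 : B * B + 4 * A = -1 := by linarith
    have h4 : B * B % 4 = 0 ∨ B * B % 4 = 1 := by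
      rcases Int.even_or_odd' B with ⟨k, hk | hk⟩ <;> subst hk <;> ring_nf <;> omega
    omega
  have h5 : 2 * absD A B ≤ m := Int.le_of_dvd (by exact_mod_cast Nat.pos_of_ne_zero hm) h1
  omega

/-- the points are not in the kernel of reduction -/
theorem not_inEn (hVPG : S_VPG) {p : ℕ} {A B : ℤ} {P : Ideal (OO A B)} {V : ValuationSubring ℂ}
    {f : ℕ} (hS : SetG p A B P V f) {ι : Type} {R : Reps A B (p * f) ι} (hG : GRd V R) {m : ℕ}
    (hm : LvM p f m R) {i : ι} {y : OO A B} (hy : IsCoprime y ((m : ℕ) : OO A B)) {k : ℕ}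
    (hk : ¬ m ∣ k) : ¬ InEn V (R.L i) (k * pt R (m * p) i y) := by
  intro h
  have hcq := hS.cq
  obtain ⟨⟨W, ξ, hW⟩, hV⟩ := (hVPG p A B P V f hS).2.2.2.2.2.2 ι R hG i
  have h1 : InEn V (R.L i) ((p : ℕ) * (k * pt R (m * p) i y)) := inK_nat hW h p
  have hp0 : (p : ℂ) ≠ 0 := by exact_mod_cast hS.pp.ne_zero
  have hm0 : (m : ℂ) ≠ 0 := by exact_mod_cast hm.m0
  have h2 : ((p : ℕ) : ℂ) * (k * pt R (m * p) i y) = R.om i * nI (R.b i) * (k * emb y) / m := by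
    unfold pt
    push_cast
    field_simp
  rw [h2] at h1
  have hL := (R.nl i).toIsLI
  have h3 : (m : ℂ) * (R.om i * nI (R.b i) * (k * emb y) / m) ∈ (R.L i).lattice := by
    refine (hL.mem _).2 ⟨((nI (R.b i) : ℕ) : OO A B) * (((k : ℕ) : OO A B) * y),
      Ideal.mul_mem_right _ _ (nI_mem hcq hL.b_ne), ?_⟩
    rw [emb_mul hcq, emb_mul hcq, emb_natCast hcq, emb_natCast hcq]
    field_simp
  have h4 := hV m _ hm.pm h3 h1
  obtain ⟨b, _, hb⟩ := (hL.mem _).1 h4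
  rw [div_eq_iff hm0, mul_assoc, mul_assoc] at hb
  have h5 := mul_left_cancel₀ hL.om_ne hb
  have h6 : ((nI (R.b i) : ℕ) : OO A B) * (((k : ℕ) : OO A B) * y) = b * ((m : ℕ) : OO A B) := by
    apply emb_inj hcq
    rw [emb_mul hcq, emb_mul hcq, emb_natCast hcq, emb_natCast hcq, emb_mul hcq, emb_natCast hcq]
    exact h5
  have h7 : ((m : ℕ) : OO A B) ∣ ((nI (R.b i) : ℕ) : OO A B) * (((k : ℕ) : OO A B) * y) :=
    ⟨b, by rw [h6, mul_comm]⟩
  have h8 : IsCoprime ((m : ℕ) : OO A B) ((nI (R.b i) : ℕ) : OO A B) := by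
    have h9 : (nI (R.b i)).Coprime m := Nat.Coprime.coprime_mul_right_right (hm.cop i)
    have h10 := (Nat.isCoprime_iff_coprime.2 h9).symm
    have h11 := h10.map (Int.castRingHom (OO A B))
    simpa using h11
  have h12 := h8.dvd_of_dvd_mul_left h7
  have h13 : ((m : ℕ) : OO A B) ∣ ((k : ℕ) : OO A B) := hy.symm.dvd_of_dvd_mul_right h12
  exact hk (nat_idl (A := A) (B := B) (Ideal.mem_span_singleton.2 h13))

/-- half systems exist -/
theorem exists_half (L : PeriodPair) {a : ℕ} (h1 : a ≠ 0) (h2 : a.Coprime 2) :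
    ∃ H : Finset ℂ, IsHalf L a H := by
  refine b_HAL L a (by exact_mod_cast h1) (fun w hw => nat_mem' hw a) fun z hz hz2 => ?_
  have h3 : Odd a := Nat.coprime_two_right.1 h2
  obtain ⟨k, rfl⟩ := h3
  have h4 : z = ((2 * k + 1 : ℕ) : ℂ) * z - (k : ℂ) * (2 * z) := by push_cast; ring
  rw [h4]
  exact sub_mem hz (nat_mem' hz2 k)

/-- the last division -/
theorem val_div {V : ValuationSubring ℂ} {Pr D e w : ℂ} {g : V.ValueGroup}
    (hD : V.valuation D = 1) (h : V.valuation (Pr - D * (1 - e * w)) ≤ g) :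
    V.valuation (Pr / D - 1 + e * w) ≤ g := by
  have hD0 : D ≠ 0 := by
    rintro rfl
    simp at hD
  have h1 : Pr / D - 1 + e * w = (Pr - D * (1 - e * w)) / D := by
    field_simp
    ring
  rw [h1, map_div₀, hD, div_one]
  exact h

theorem x0_cop {A B : ℤ} {m : ℕ} {I : Ideal (OO A B)} {x0 : OO A B}
    (h : x0 - 1 ∈ idl m * I) : IsCoprime x0 ((m : ℕ) : OO A B) := by
  have h1 : (idl m : Ideal (OO A B)) * I ≤ idl m := Ideal.mul_le_left
  have h2 : x0 - 1 ∈ (idl m : Ideal (OO A B)) := h1 h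
  obtain ⟨u, hu⟩ := Ideal.mem_span_singleton.1 h2
  refine ⟨1, -u, ?_⟩
  rw [one_mul, neg_mul, mul_comm u, ← hu, ← sub_eq_add_neg, sub_sub_cancel]

theorem xx_cop {A B : ℤ} {m p : ℕ} {x x0 : OO A B} (hxM : IsCoprime x ((m * p : ℕ) : OO A B))
    (hx0c : IsCoprime x0 ((m : ℕ) : OO A B)) : IsCoprime (x * x0) ((m : ℕ) : OO A B) := by
  rw [Nat.cast_mul] at hxM
  exact hxM.of_mul_right_left.mul_left hx0c

theorem x0_nmem {A B : ℤ} {m p : ℕ} {x0 : OO A B} (hm : m ≠ 1)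
    (hx0c : IsCoprime x0 ((m : ℕ) : OO A B)) : x0 ∉ idl (A := A) (B := B) (m * p) := fun h =>
  cop_nmem hm hx0c (idl_mul_le m p h)

/-- the image of the quotient under an automorphism of a field `F` -/
theorem field_part {A B : ℤ} {F : IntermediateField (kk A B) ℂ} (σ : F ≃ₐ[kk A B] F)
    (γ : ℕ → (F ≃ₐ[kk A B] F)) (θ θ'' : F) (T : ℕ → ℂ) (D : ℂ) (p : ℕ)
    (h1 : ∀ c : ℕ, 1 ≤ c → c < p → ((σ (γ c θ) : F) : ℂ) = T c)
    (h2 : ((σ θ'' : F) : ℂ) = D) :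
    ((σ ((∏ c ∈ Icc 1 (p - 1), γ c θ) / θ'' ^ (p - 1)) : F) : ℂ) =
      (∏ c ∈ Icc 1 (p - 1), T c) / D ^ (p - 1) := by
  have e0 : ((σ ((∏ c ∈ Icc 1 (p - 1), γ c θ) / θ'' ^ (p - 1)) : F) : ℂ) =
      (F.val.comp (σ : F →ₐ[kk A B] F)) ((∏ c ∈ Icc 1 (p - 1), γ c θ) / θ'' ^ (p - 1)) := rfl
  rw [e0, map_div₀, map_prod, map_pow]
  congr 1
  · refine prod_congr rfl fun c hc => ?_
    rw [mem_Icc] at hc
    exact h1 c hc.1 (by omega)
  · rw [← h2]
    rfl

end XPC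

open XPC in
/-- XPC -/
theorem t_XPC (hKEYA : S_KEYA) (hIDP : S_IDP) (hVPG : S_VPG) (hHTF : S_HTF) : S_XPC := by
  intro p A B P V f hS hT ι _ R hG m hm x0 y0 hx0 hx01 hy0 hy0P
  have hcq := hS.cq
  have hp5 := hS.p5
  have hpp := hS.pp
  obtain ⟨t0, ht0, ht00, hK⟩ := hKEYA p A B P V f hS ι R hG y0 hy0 hy0P
  obtain ⟨hI1, hI2, hI3, -⟩ := hIDP p A B P V f hS
  have hm3 : 3 ≤ m := three_le hS hm.m0 hm.fm
  have hM3 : 3 ≤ m * p := by nlinarith
  have hM1 : m * p ≠ 1 := by omega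
  obtain ⟨-, -, -, -, hT5, -⟩ := hHTF A B hcq hT (p * f) ι R (m * p) hM3 hm.cop
  refine ⟨t0, ht00, ht0, ?_⟩
  intro a H ha hac hH θ θ'' hθ hθ'' γ hγ σ i x hσ
  have ha0 : a ≠ 0 := by omega
  have hac2 : a.Coprime 2 := by
    have h1 : a.Coprime (2 * (m * p)) := by rwa [← mul_assoc]
    exact Nat.Coprime.coprime_mul_right_right h1
  have hacm : a.Coprime m := by
    have h1 : a.Coprime (2 * m) := Nat.Coprime.coprime_mul_right_right hac
    exact Nat.Coprime.coprime_mul_left_right h1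
  have hacp : a.Coprime (2 * p) := by
    have h1 : a.Coprime p := Nat.Coprime.coprime_mul_left_right hac
    exact Nat.Coprime.mul_right hac2 h1
  obtain ⟨H', hH'⟩ := exists_half (R.L i) ha0 hac2
  have hx0c : IsCoprime x0 ((m : ℕ) : OO A B) := x0_cop hx01
  have hxM : IsCoprime x ((m * p : ℕ) : OO A B) := hσ.1
  have hxx : IsCoprime (x * x0) ((m : ℕ) : OO A B) := xx_cop hxM hx0c
  have hx0n : x0 ∉ idl (A := A) (B := B) (m * p) := x0_nmem (by omega) hx0c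
  -- the conjugates of the factors
  have hγθ : ∀ c : ℕ, 1 ≤ c → c < p → ∃ hz : ThetaH (R.L R.i0) H (pt R (m * p) R.i0
      (x0 + c * m * y0)) ∈ (RF (idl (m * p)) : IntermediateField (kk A B) ℂ),
      γ c θ = ⟨_, hz⟩ := by
    intro c h1 h2
    obtain ⟨hz, e⟩ := hT5 (γ c) R.i0 _ (hγ c h1 h2) 1 (one_nmem hM1) a H H ha0 hH hH
    have e1 : θ = ⟨_, hz⟩ := Subtype.ext hθ
    rw [← e1, mul_one] at e
    exact ⟨e ▸ (γ c θ).2, Subtype.ext e⟩
  have hσγ : ∀ c : ℕ, 1 ≤ c → c < p → ((σ (γ c θ) : (RF (idl (m * p)) :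
      IntermediateField (kk A B) ℂ)) : ℂ) =
      ThetaH (R.L i) H' (pt R (m * p) i (x * (x0 + c * m * y0))) := by
    intro c h1 h2
    obtain ⟨hz, e⟩ := hγθ c h1 h2
    obtain ⟨hz', e'⟩ := hT5 σ i x hσ (x0 + c * m * y0)
      (cop_nmem hM1 (hγ c h1 h2).1) a H H' ha0 hH hH'
    rw [e]
    exact e'
  have hσθ : ((σ θ'' : (RF (idl (m * p)) : IntermediateField (kk A B) ℂ)) : ℂ) =
      ThetaH (R.L i) H' (pt R (m * p) i (x * x0)) := by
    obtain ⟨hz', e'⟩ := hT5 σ i x hσ x0 hx0n a H H' ha0 hH hH'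
    have e1 : θ'' = ⟨_, hz'⟩ := Subtype.ext hθ''
    rw [e1]
    exact e'
  -- the points
  obtain ⟨z, hz⟩ : ∃ z, z = pt R (m * p) i (x * x0) := ⟨_, rfl⟩
  obtain ⟨r, hr⟩ : ∃ r, r = pt R p i y0 := ⟨_, rfl⟩
  have hptc : ∀ c : ℕ, pt R (m * p) i (x * x0 + c * m * y0) = z + c * r := by
    intro c
    rw [pt_sum hcq R hm.m0, ← hz, ← hr]
  have hptx : ∀ c : ℕ, pt R (m * p) i (x * (x0 + c * m * y0)) = z + c * pt R p i (x * y0) := by
    intro c
    have e : x * (x0 + c * m * y0) = x * x0 + c * m * (x * y0) := by ring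
    rw [e, pt_sum hcq R hm.m0, ← hz]
  have hPT := Pool.Agent.MUXI.ti_PTP A B hcq (p * f) ι R p hpp.ne_zero i
  have hpr : (p : ℂ) * r ∈ (R.L i).lattice := by
    have h1 := (hPT.1 (((p : ℕ) : OO A B) * y0) 0 (by
      rw [sub_zero]
      exact Ideal.mul_mem_right _ _ (Ideal.mem_span_singleton_self _))).1
    have h2 : pt R p i (0 : OO A B) = 0 := by
      unfold pt
      rw [emb_zero hcq]
      simp
    rw [h2, sub_zero, ← hPT.2 p y0, ← hr] at h1
    exact h1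
  -- `x` modulo `P`
  obtain ⟨n, -, hn⟩ := hI1 x
  have hxP : x ∉ P := by
    intro h
    obtain ⟨u, v, huv⟩ := hxM
    refine hS.hP.prime.ne_top ((Ideal.eq_top_iff_one P).2 ?_)
    rw [← huv]
    refine add_mem (P.mul_mem_left _ h) (P.mul_mem_left _ ?_)
    rw [Nat.cast_mul]
    exact P.mul_mem_left _ hS.hP.mem
  have hpn : ¬ p ∣ n := by
    intro h
    have h1 : ((n : ℤ) : OO A B) ∈ P := (hI2 n).2 (by exact_mod_cast h)
    rw [Int.cast_natCast] at h1
    exact hxP (by simpa using add_mem hn h1)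
  have hxn : pt R p i (x * y0) - n * r ∈ (R.L i).lattice := by
    have h1 : x * y0 - ((n : ℕ) : OO A B) * y0 ∈ idl (A := A) (B := B) p := by
      rw [← hI3, ← sub_mul]
      exact Ideal.mul_mem_mul hn hy0
    have h2 := (hPT.1 _ _ h1).1
    rwa [← hPT.2 n y0, ← hr] at h2
  have hprod : ∏ c ∈ Icc 1 (p - 1), ThetaH (R.L i) H' (z + c * pt R p i (x * y0)) =
      ∏ c ∈ Icc 1 (p - 1), ThetaH (R.L i) H' (z + c * r) := by
    rw [← prod_theta hpp H' z hpr hpn]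
    refine prod_congr rfl fun c _ => theta_congr H' ?_
    have h1 : z + (c : ℂ) * pt R p i (x * y0) - (z + (c : ℂ) * (n * r)) =
        (c : ℂ) * (pt R p i (x * y0) - n * r) := by ring
    rw [h1]
    exact nat_mem' hxn c
  -- the points are not in the kernel of reduction
  have hn1 : ¬ m ∣ 1 := fun h => by
    have := Nat.le_of_dvd one_pos h
    omega
  have hn2 : ¬ m ∣ 2 := fun h => by
    have := Nat.le_of_dvd two_pos h
    omega
  have hna : ¬ m ∣ a := fun h => by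
    have h1 : m ∣ 1 := by
      rw [← (Nat.coprime_iff_gcd_eq_one.1 hacm)]
      exact Nat.dvd_gcd h (dvd_refl m)
    exact hn1 h1
  have hE1 : ¬ InEn V (R.L i) z := by
    have h := not_inEn hVPG hS hG hm (i := i) hxx hn1
    rwa [Nat.cast_one, one_mul, ← hz] at h
  have hE2 : ¬ InEn V (R.L i) (2 * z) := by
    have h := not_inEn hVPG hS hG hm (i := i) hxx hn2
    rw [← hz] at h
    exact_mod_cast h
  have hEa : ¬ InEn V (R.L i) (a * z) := by
    have h := not_inEn hVPG hS hG hm (i := i) hxx hna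
    rwa [← hz] at h
  obtain ⟨hK1, hK2, hK3⟩ := hK i a H' ha hacp hH' z hE1 hE2 hEa
  rw [← hr] at hK1 hK2 hK3
  have hsum : ∑ c ∈ Icc 1 (p - 1), (c : ℂ) * dlX (R.L i) a
      (pt R (m * p) i (x * x0 + c * m * y0)) =
      ∑ c ∈ Icc 1 (p - 1), (c : ℂ) * dlX (R.L i) a (z + c * r) :=
    sum_congr rfl fun c _ => by rw [hptc]
  rw [hsum]
  refine ⟨?_, hK3, fun c => ?_⟩
  · rw [field_part σ γ θ θ'' (fun c => ThetaH (R.L i) H' (z + c * pt R p i (x * y0)))
      (ThetaH (R.L i) H' z) p (fun c h1 h2 => by rw [hσγ c h1 h2, hptx]) (by rw [hσθ, ← hz]), hprod]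
    have hD : V.valuation (ThetaH (R.L i) H' z ^ (p - 1)) = 1 := by
      have h := (hK1 0).1
      rw [Nat.cast_zero, zero_mul, add_zero] at h
      rw [map_pow, h, one_pow]
    exact val_div hD hK2
  · rw [hptc]
    exact (hK1 c).2

end

end Pool.Agent.TWT
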