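import Pool.Agent.TWT.CRIT
import Pool.Agent.TWT.IDP
import Pool.Agent.TWT.VPG
import Pool.Agent.TWT.RAMG
import Pool.Agent.TWT.UNRG
import Pool.Agent.TWT.MUG
import Pool.Agent.TWT.KUM
import Pool.Agent.TWT.PRO
import Pool.Agent.TWT.RSF
import Pool.Agent.TWT.EAB
import Pool.Agent.TWT.NMF
import Pool.Agent.TWT.HTF
import Pool.Agent.TWT.DTP
import Pool.Agent.TWT.KRP
import Pool.Agent.TWT.NRR
import Pool.Agent.TWT.XPC
import Pool.Agent.TWT.CNT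
import Pool.Agent.TWT.SIG
import Pool.Agent.TWT.SDE
import Pool.Agent.TWT.PHI
import Pool.Agent.TWT.AAll

/-!
# TWT, block B complete (helper59): `S_CRIT`, without hypotheses
-/

set_option autoImplicit false

namespace Pool.Agent.TWT

theorem t_CRIT (hKEYA : S_KEYA) : S_CRIT :=
  CRIT.main t_IDP t_VPG (t_UNRG t_VPG (t_RAMG t_VPG)) (t_MUG t_VPG) t_KUM
    t_PROG t_RSF t_EAB t_NMF t_HTF (t_NRR t_IDP t_HTF t_DTP (t_KRP t_IDP))
    (t_XPC hKEYA t_IDP t_VPG t_HTF)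
    (t_SIG t_IDP t_VPG (t_MUG t_VPG) (t_CNT t_IDP t_HTF))
    (t_SDE t_IDP t_VPG) t_PHI

theorem a_CRIT : S_CRIT := t_CRIT a_KEYA

end Pool.Agent.TWT
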