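import Pool.Agent.TWT.StT1b
import Pool.Agent.MUX.RQAll
import Pool.Agent.MUX.XLib
import Pool.Agent.MUX.C_QCR
import Pool.Agent.MUX.C_TRO

/-!
# TWT, block A, module PIS (helper44): the lattices `P⁻¹ L_i`, good reduction, the multipliers
-/

set_option autoImplicit false

open WeierstrassCurve Polynomial

namespace Pool.Agent.TWT

open _root_.MU3 Pool.Agent.MU3A Pool.Agent.MU3B Pool.Agent.MUX Pool.Agent.MUXU
open Pool.Agent.MUXV (GR InK tX)

noncomputable section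

namespace PIS

variable {p : ℕ} {A B : ℤ} {P : Ideal (OO A B)} {V : ValuationSubring ℂ} {f : ℕ}

theorem val_lt (h : SetG p A B P V f) : V.valuation (p : ℂ) < 1 := by
  have h1 : emb ((p : ℕ) : OO A B) ∈ V.nonunits := (h.hV _).2 h.hP.mem
  rw [Pool.Agent.MUX.emb_natCast h.cq] at h1
  exact V.mem_nonunits_iff.1 h1

theorem val_int (h : SetG p A B P V f) (j : ℤ) (hj : ¬ (p : ℤ) ∣ j) :
    V.valuation (j : ℂ) = 1 := by
  have h1 : ((j : ℤ) : OO A B) ∉ P := by
    intro hm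
    have hc : IsCoprime (p : ℤ) j :=
      ((Nat.prime_iff_prime_int.1 h.pp).coprime_iff_not_dvd).2 hj
    obtain ⟨a, b, hab⟩ := hc
    apply h.hP.prime.ne_top
    rw [Ideal.eq_top_iff_one]
    have h2 : (a : OO A B) * ((p : ℕ) : OO A B) + (b : OO A B) * ((j : ℤ) : OO A B) = 1 := by
      have h3 := congrArg (fun t : ℤ => (t : OO A B)) hab
      push_cast at h3
      exact h3
    rw [← h2]
    exact P.add_mem (P.mul_mem_left _ h.hP.mem) (P.mul_mem_left _ hm)
  have h2 : ¬ V.valuation (j : ℂ) < 1 := by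
    intro h3
    apply h1
    rw [← h.hV, Pool.Agent.MUX.emb_intCast h.cq]
    exact V.mem_nonunits_iff.2 h3
  have h4 : V.valuation (j : ℂ) ≤ 1 := (V.valuation_le_one_iff _).2 (intCast_mem V j)
  exact le_antisymm h4 (not_lt.1 h2)

theorem good (h : SetG p A B P V f) {ι : Type} (R : Reps A B (p * f) ι) (hR : GRd V R) (i : ι) :
    ∃ (W : WeierstrassCurve.Affine ℂ) (ξ : ℂ →+ W.Point),
      GR V W (R.L i) (fun z => (R.L i).weierstrassP z - 1 / 12)
        (fun z => (R.L i).derivWeierstrassP z / 2) ξ := by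
  have h5 := h.p5
  have h2 : V.valuation (2 : ℂ) = 1 := by
    have h3 := val_int h 2 (fun h4 => by
      have h6 := Int.le_of_dvd (by norm_num) h4
      omega)
    have h7 : ((2 : ℤ) : ℂ) = 2 := by norm_num
    rwa [h7] at h3
  refine Pool.Agent.MUXV.x_NGR V (R.L i) (R.nl i).nrm h2 (hR.kap i) ?_
  have h3 := hR.dis i
  have h4 : (1 : ℂ) + 1728 * Pool.Agent.MUX.kap (R.L i) = 12 * (R.L i).g₂ := by
    unfold Pool.Agent.MUX.kap
    ring
  rwa [h4] at h3

theorem P_ne (h : SetG p A B P V f) : P ≠ ⊥ := by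
  intro h0
  have h1 := h.hP.mem
  rw [h0, Ideal.mem_bot] at h1
  exact Pool.Agent.MUX.natCast_ne_zero' h.cq h.pp.ne_zero h1

theorem isq (h : SetG p A B P V f) {ι : Type} (R : Reps A B (p * f) ι) (i : ι) :
    ∃ (j : ι) (mu : ℂ), IsQ P (R.L i) (R.L j) mu := by
  have hC := h.cq
  have hP0 : P ≠ ⊥ := P_ne h
  have : IsDomain (OO A B) := Pool.Agent.MUX.isDomain hC
  have hp0 : ((p : ℕ) : OO A B) ≠ 0 := Pool.Agent.MUX.natCast_ne_zero' hC h.pp.ne_zero
  have hc : cjI P * R.b i ≠ ⊥ :=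
    Pool.Agent.MUX.mul_ne_bot hC (Pool.Agent.MUX.cjI_ne_bot hC hP0) (R.nl i).b_ne
  obtain ⟨j, x, y, hx, hy, hxy⟩ := R.surj _ hc
  have e : sp (x * ((p : ℕ) : OO A B)) * R.b i = sp y * (P * R.b j) := by
    have h1 : P * cjI P = sp ((p : ℕ) : OO A B) := by
      rw [Pool.Agent.MUX.mul_cjI hC hP0, h.hP.norm]
    calc sp (x * ((p : ℕ) : OO A B)) * R.b i = sp x * sp ((p : ℕ) : OO A B) * R.b i := by
          rw [Ideal.span_singleton_mul_span_singleton]
      _ = P * (sp x * (cjI P * R.b i)) := by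
          rw [← h1]
          ring
      _ = P * (sp y * R.b j) := by rw [hxy]
      _ = _ := by ring
  exact ⟨j, _, Pool.Agent.MUXC.tc_QCR Pool.Agent.MUXC.tc_TRO A B hC P (R.b i) (R.b j) (R.L i)
    (R.L j) (R.om i) (R.om j) (R.nl i).toIsLI (R.nl j).toIsLI hP0 _ _ (mul_ne_zero hx hp0) hy e⟩

theorem mult (h : SetG p A B P V f) {ι : Type} (R : Reps A B (p * f) ι) (hR : GRd V R) (i : ι) :
    muX R i ≠ 0 ∧ Isg (R.L R.i0) (R.L i) (muX R i) ∧ V.valuation (muX R i) = 1 ∧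
      Odd (nI (R.b i)) ∧ V.valuation ((nI (R.b i) : ℕ) : ℂ) = 1 ∧
      ∀ z, muX R i * z ∈ (R.L i).lattice →
        ((nI (R.b i) : ℕ) : ℂ) * z ∈ (R.L R.i0).lattice := by
  have hC := h.cq
  have hn0 : nI (R.b i) ≠ 0 := Pool.Agent.MUX.nI_ne_zero hC (R.nl i).b_ne
  have hnC : ((nI (R.b i) : ℕ) : ℂ) ≠ 0 := by exact_mod_cast hn0
  have ho := (R.nl i).om_ne
  have ho0 := (R.nl R.i0).om_ne
  have hmu : muX R i ≠ 0 := div_ne_zero (mul_ne_zero ho hnC) ho0
  have hisg : Isg (R.L R.i0) (R.L i) (muX R i) := by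
    intro w hw
    obtain ⟨x, _, rfl⟩ := ((R.nl R.i0).mem w).1 hw
    refine ((R.nl i).mem _).2 ⟨((nI (R.b i) : ℕ) : OO A B) * x,
      Ideal.mul_mem_right _ _ (Pool.Agent.MUX.nI_mem hC (R.nl i).b_ne), ?_⟩
    rw [Pool.Agent.MUX.emb_mul hC, Pool.Agent.MUX.emb_natCast hC]
    unfold muX
    field_simp
  have hker : ∀ z, muX R i * z ∈ (R.L i).lattice →
      ((nI (R.b i) : ℕ) : ℂ) * z ∈ (R.L R.i0).lattice := by
    intro z hz
    obtain ⟨x, _, hxz⟩ := ((R.nl i).mem _).1 hz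
    refine ((R.nl R.i0).mem _).2 ⟨x, by rw [R.b0]; exact Submodule.mem_top, ?_⟩
    have h1 : R.om i * (((nI (R.b i) : ℕ) : ℂ) * z) = R.om i * (R.om R.i0 * emb x) := by
      calc R.om i * (((nI (R.b i) : ℕ) : ℂ) * z) = R.om R.i0 * (muX R i * z) := by
            unfold muX
            field_simp
        _ = _ := by
            rw [hxz]
            ring
    exact mul_left_cancel₀ ho h1
  have hodd : Odd (nI (R.b i)) := by
    have h1 : (2 : ℤ) ∣ (f : ℤ) := dvd_trans (dvd_mul_right 2 _) h.fD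
    have h2 : 2 ∣ f := by exact_mod_cast h1
    exact Nat.coprime_two_right.1 ((R.cop i).coprime_dvd_right (dvd_mul_of_dvd_right h2 p))
  have hvn : V.valuation ((nI (R.b i) : ℕ) : ℂ) = 1 := by
    have h1 : ¬ (p : ℤ) ∣ ((nI (R.b i) : ℕ) : ℤ) := by
      intro h2
      have h3 : p ∣ nI (R.b i) := by exact_mod_cast h2
      have h4 : p ∣ 1 := by
        rw [← (R.cop i)]
        exact Nat.dvd_gcd h3 (dvd_mul_right p f)
      exact h.pp.one_lt.ne' (Nat.dvd_one.1 h4)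
    have h5 := val_int h _ h1
    rwa [Int.cast_natCast] at h5
  exact ⟨hmu, hisg, Pool.Agent.MUXV.x_MUN V (R.L R.i0) (R.L i) (1 / 12) (1 / 12) (muX R i)
    (nI (R.b i)) (good h R hR R.i0) (good h R hR i) hmu hisg hodd hvn hker, hodd, hvn, hker⟩

end PIS

theorem t_PIS : S_PIS := by
  intro p A B P V f h ι R hR
  exact ⟨fun i => PIS.good h R hR i, PIS.val_lt h, PIS.val_int h, fun i => PIS.isq h R i,
    fun i => PIS.mult h R hR i⟩

end

end Pool.Agent.TWT
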