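import Pool.Agent.MUX.StQX
import Pool.Agent.MUX.DefsX2
import Pool.Agent.MUX.StWX

/-!
# TWT, block A (helper3): `∏_(R ∈ E[P] - 0) Θ(z + R) / Θ(z)^(p-1)` to the first order

`W : y² = x³ + a₂ x² + a₄ x + a₆`, `t = -x/y`, `w = -1/y = t³ u` with `u = 1 + a₂ t² u + a₄ t⁴ u² + a₆ t⁶ u³`. The point `(x, y) + (point of parameter T)` has the
coordinates `xF, yF` (rational functions, regular at `T = 0`), and `q dX/dT = 2 Y`, `q dY/dT = 3 X² + 2 a₂ X + a₄`, `q = qF` (invariance of `dx/2y`). So modulo `T^p`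
`f(z + T) = Σ_(k<p) (D^k f)(z)/k! λ(T)^k`, `D x = 2 y`, `D y = 3 x² + 2 a₂ x + a₄`, `λ' = 1/q`: only `1, .., p - 1` have to be invertible. All of this is algebra in `A⟦T⟧` and is
evaluated in the ring `V / (t^p)`.

Every `def S_X : Prop` below is the statement of a module, which proves `theorem t_X : S_X` (or `theorem t_X (h : S_Y) : S_X` with the statements named
under USES) in `Pool/Agent/TWT/X.lean`, namespace `Pool.Agent.TWT` (`StT1b.lean` has the last three and uses `DefsT.lean`). Proved facts of block R of MUX (`Sx_..`, `Sq_..`): `Pool/Agent/MUX/RQ0.lean`, theorems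
`Pool.Agent.MUXV.x_POL`, `x_HAL`, `x_R2`, `x_TRA`, `x_MIN`, `x_MUN`, `x_MLT`, `q_ISQ`, `q_AEL`, `q_VQI`, `q_YUN`, ..; `Pool.Agent.MU3B.b_TDL` in `Pool/Agent/MU3/BAll.lean`. Module files may import them.
-/

set_option autoImplicit false

open WeierstrassCurve Polynomial PowerSeries

namespace Pool.Agent.TWT

open _root_.MU3 Pool.Agent.MU3A Pool.Agent.MU3B Pool.Agent.MUX Pool.Agent.MUXU
open Pool.Agent.MUXV (GR InK tX)

noncomputable section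

/-! ## Definitions -/

section
variable {A : Type} [CommRing A]

/-- `q = 1 - a₂ T² - 2 a₄ T⁴ U - 3 a₆ T⁶ U²` -/
def qF (a2 a4 a6 T U : A) : A := 1 - a2 * T ^ 2 - 2 * a4 * T ^ 4 * U - 3 * a6 * T ^ 6 * U ^ 2

/-- the equation of `U = w / T³` -/
def EqU (a2 a4 a6 T U : A) : Prop :=
  U = 1 + a2 * T ^ 2 * U + a4 * T ^ 4 * U ^ 2 + a6 * T ^ 6 * U ^ 3

/-- the numerator -/
def nF (a2 a4 a6 x y T U : A) : A :=
  2 * y + T * (a4 + 2 * a2 * x + 3 * x ^ 2) + T ^ 3 * U * (a6 + y ^ 2 - a2 * x ^ 2 - 2 * x ^ 3)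

/-- the first coordinate of `(x, y) + (T)`; `e (1 - x T² U) = 1` -/
def xF (a2 a4 a6 x y T U e : A) : A := x + T * U * nF a2 a4 a6 x y T U * e ^ 2

/-- the second coordinate of `(x, y) + (T)` -/
def yF (a2 a4 a6 x y T U e : A) : A :=
  -y + (1 + y * T ^ 3 * U) * U * nF a2 a4 a6 x y T U * e ^ 3

/-- the derivation `D x = 2 y`, `D y = 3 x² + 2 a₂ x + a₄` of `A[x, y]` (`x = X 0`, `y = X 1`) -/
def dW (a2 a4 : A) : Derivation A (MvPolynomial (Fin 2) A) (MvPolynomial (Fin 2) A) :=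
  MvPolynomial.mkDerivation A ![2 * MvPolynomial.X 1,
    3 * MvPolynomial.X 0 ^ 2 + 2 * MvPolynomial.C a2 * MvPolynomial.X 0 + MvPolynomial.C a4]

/-- the truncated logarithm: `λ = Σ_(0<j<p) κ_(j-1)/j T^j` -/
def lamF (p : ℕ) (κ : A⟦X⟧) : A⟦X⟧ :=
  PowerSeries.mk fun j => if 0 < j ∧ j < p then PowerSeries.coeff (j - 1) κ * Ring.inverse (j : A)
    else 0

end

/-- `Σ_(j<p) lam_j t^j` -/
def vpi (lam : ℕ → ℂ) (p : ℕ) (t : ℂ) : ℂ := ∑ j ∈ Finset.range p, lam j * t ^ j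

/-- Taylor expansion modulo `t^p` at all points `z` outside the kernel of reduction, `t = t(R)`, `R` in the kernel of reduction;
`a2, a4` are the coefficients of the curve. -/
structure HasTay (V : ValuationSubring ℂ) (L : PeriodPair) (X Y : ℂ → ℂ) (p : ℕ) (a2 a4 : V)
    (lam : ℕ → ℂ) : Prop where
  lam0 : lam 0 = 0
  lam1 : lam 1 = 1
  int : ∀ j, V.valuation (lam j) ≤ 1
  tay : ∀ R, InK V L X R → R ∉ L.lattice → ∀ z, ¬ InK V L X z → ∀ f : MvPolynomial (Fin 2) V,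
    V.valuation (MvPolynomial.aeval ![X (z + R), Y (z + R)] f -
      ∑ k ∈ Finset.range p, MvPolynomial.aeval ![X z, Y z] ((dW a2 a4)^[k] f) / (k.factorial : ℂ) *
        vpi lam p (tX X Y R) ^ k) ≤ V.valuation (tX X Y R) ^ p

/-! ## Formal part -/

/-- (EVH) evaluation of power series at an element with `s^n = 0`.

PROOF. Define `φ F` by the third formula. `φ 1 = 1`, additivity: clear (if `n = 0` then `1 = 0` in `S`). Multiplicativity: `f(coeff k (F G)) s^k = Σ_(i+j=k) f(F_i) s^i f(G_j) s^j` (`PowerSeries.coeff_mul`), and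
`(Σ_(i<n) ..)(Σ_(j<n) ..) = Σ_(i,j<n) f(F_i) f(G_j) s^(i+j)`; the terms with `i + j ≥ n` are `0`. (`Finset.Nat.sum_antidiagonal_eq_sum_range_succ`, or sum over `range n ×ˢ range n` filtered by `i + j < n`; or `Finset.range_mul`-free: use `PowerSeries.trunc n`:
`φ F = (trunc n F).eval₂ f s`, `trunc n (F * G)` and `(trunc n F) * (trunc n G)` have the same coefficients below `n`, and `eval₂` of `X^n * r` is `0`.) -/
def S_EVH : Prop :=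
  ∀ (A S : Type) [CommRing A] [CommRing S] (f : A →+* S) (s : S) (n : ℕ), s ^ n = 0 → 2 ≤ n →
    ∃ φ : A⟦X⟧ →+* S, φ PowerSeries.X = s ∧ (∀ a, φ (PowerSeries.C a) = f a) ∧
      ∀ F, φ F = ∑ k ∈ Finset.range n, f (PowerSeries.coeff k F) * s ^ k

/-- (UEX) existence of the series `U`.

PROOF. `Φ(F) = 1 + a₂ T² F + a₄ T⁴ F² + a₆ T⁶ F³`. If `F ≡ G` modulo `T^k` then `Φ(F) ≡ Φ(G)` modulo `T^(k+2)` (`Φ(F) - Φ(G) = T² (F - G)(..)`). `F_0 = 1`, `F_(n+1) = Φ(F_n)`: `F_(n+1) ≡ F_n` modulo `T^(2n+2)` (induction), so for `m ≥ n`: `coeff n F_m = coeff n F_n`.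
`U := mk (fun n => coeff n F_n)`; `U ≡ F_m` modulo `T^(m+1)` for all `m`, so `Φ(U) ≡ Φ(F_m) = F_(m+1) ≡ U` modulo `T^(m+1)` for all `m`. (`PowerSeries.X_pow_dvd_iff`.) -/
def S_UEX : Prop :=
  ∀ (A : Type) [CommRing A] (a2 a4 a6 : A), ∃ U : A⟦X⟧, PowerSeries.constantCoeff U = 1 ∧
    EqU (PowerSeries.C a2) (PowerSeries.C a4) (PowerSeries.C a6) PowerSeries.X U

/-- (UQN) uniqueness of `U` for nilpotent `s`.

PROOF. `δ = u - u'`: `δ = s² c δ` with `c = a₂ + a₄ s² (u + u') + a₆ s⁴ (u² + u u' + u'²)`; `s² c` is nilpotent, so `1 - s² c` is a unit (`IsNilpotent.isUnit_one_sub`). -/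
def S_UQN : Prop :=
  ∀ (S : Type) [CommRing S] (a2 a4 a6 s u u' : S) (n : ℕ), s ^ n = 0 → EqU a2 a4 a6 s u →
    EqU a2 a4 a6 s u' → u = u'

/-- (ODE) the differential equations.

PROOF. `d = d⁄dX`. Put `T = X`, `s = d U`. From (EqU): `qF s = T (2 a₂ U + 4 a₄ T² U² + 6 a₆ T⁴ U³)`. `D = 1 - x T² U`, `d D = -x (2 T U + T² s)`, `d e = - (d D) e²` (from `e D = 1`), `d nF = (a₄ + 2 a₂ x + 3 x²) + (3 T² U + T³ s)(a₆ + y² - a₂ x² - 2 x³)`.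
Then `d xF`, `d yF` by the product rule, and multiply by `qF D³`, `qF D⁴` (units). The two polynomial identities are PROVED (Lean, `linear_combination`) in `Pool/Agent/TWT/Ode0.lean`: `ode1`, `ode2`. -/
def S_ODE : Prop :=
  ∀ (A : Type) [CommRing A] (a2 a4 a6 x y : A), y ^ 2 = x ^ 3 + a2 * x ^ 2 + a4 * x + a6 →
    ∀ U e κ : A⟦X⟧,
    EqU (PowerSeries.C a2) (PowerSeries.C a4) (PowerSeries.C a6) PowerSeries.X U →
    e * (1 - PowerSeries.C x * PowerSeries.X ^ 2 * U) = 1 →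
    κ * qF (PowerSeries.C a2) (PowerSeries.C a4) (PowerSeries.C a6) PowerSeries.X U = 1 →
    ∀ gx gy : A⟦X⟧,
    gx = xF (PowerSeries.C a2) (PowerSeries.C a4) (PowerSeries.C a6) (PowerSeries.C x)
      (PowerSeries.C y) PowerSeries.X U e →
    gy = yF (PowerSeries.C a2) (PowerSeries.C a4) (PowerSeries.C a6) (PowerSeries.C x)
      (PowerSeries.C y) PowerSeries.X U e →
    d⁄dX A gx = κ * (2 * gy) ∧
    d⁄dX A gy = κ * (3 * gx ^ 2 + 2 * PowerSeries.C a2 * gx + PowerSeries.C a4)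

/-- (TAF) the formal Taylor expansion modulo `T^p`.

PROOF. `h_f = aeval ![gx, gy] f`, `x = gx(0)`, `y = gy(0)`, `e_f = Σ_(k<p) C((D^k f)(x, y)/k!) λ^k`, `λ = lamF p κ`. (1) `d h_f = κ h_(D f)`: induction on `f` (`MvPolynomial.induction_on`: constants, sums, product with `X i`; `dW` is a derivation with `dW (X 0) = 2 X 1` and so on:
`MvPolynomial.mkDerivation_X`). (2) `d λ` has the same coefficients as `κ` below `p - 1` (`(j+1) κ_j/(j+1) = κ_j`, `j + 1 < p` is a unit). `d(λ^k) = k λ^(k-1) d λ`, `k/k! = 1/(k-1)!` for `1 ≤ k < p`, so `d e_f = (d λ) (e_(D f) - C(..) λ^(p-1))`; `λ^(p-1)` has no coefficients below `p - 1` (`λ(0) = 0`).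
So `coeff j (d e_f) = coeff j (κ e_(D f))` for `j < p - 1`. (3) Induction on `j` for all `f` simultaneously (strong): `coeff 0`: both are `f(x, y)` (`λ(0) = 0`, `0! = 1`; `constantCoeff` is a ring homomorphism). `(j+1) coeff (j+1) h_f = coeff j (κ h_(Df)) = Σ_(i≤j) κ_(j-i) coeff i h_(D f)`, the same for `e_f`, and `j + 1` is a
unit for `j + 1 < p` (`PowerSeries.coeff_derivative`). -/
def S_TAF : Prop :=
  ∀ (A : Type) [CommRing A] (p : ℕ), (∀ j : ℕ, 0 < j → j < p → IsUnit (j : A)) →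
    ∀ (a2 a4 : A) (gx gy κ : A⟦X⟧), d⁄dX A gx = κ * (2 * gy) →
    d⁄dX A gy = κ * (3 * gx ^ 2 + 2 * PowerSeries.C a2 * gx + PowerSeries.C a4) →
    ∀ (f : MvPolynomial (Fin 2) A) (j : ℕ), j < p →
      PowerSeries.coeff j (MvPolynomial.aeval ![gx, gy] f) =
        PowerSeries.coeff j (∑ k ∈ Finset.range p, PowerSeries.C (MvPolynomial.aeval
          ![PowerSeries.constantCoeff gx, PowerSeries.constantCoeff gy] ((dW a2 a4)^[k] f) *
            Ring.inverse (k.factorial : A)) * lamF p κ ^ k)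

/-- (PRD) the product over the multiples, modulo `p`.

PROOF. `N = p - 1`, `Q = ∏_c rescale c E`, `G = X (d E) E'`. (1) `X d(rescale c E) = rescale c (X d E)` (coefficients `j c^j e_j`), so `X d Q = Q Σ_c rescale c G` (`rescale c E' = (rescale c E)⁻¹`, `rescale` is a ring homomorphism; product rule, induction on the finite set). (2) `coeff j (Σ_c rescale c G) = (Σ_c c^j) g_j`, and
`p ∣ Σ_(c=1)^(p-1) c^j` for `0 < j < p - 1`, `p ∣ 1 + Σ_c c^(p-1)` (Mathlib: `FiniteField.sum_pow_lt_card_sub_one`, `ZMod.pow_card_sub_one_eq_one`; transfer `ZMod p → A/(p)` or `(p : ℤ) ∣ ..` and cast to `A`). `g_0 = 0`. So `Σ_c rescale c G ≡ -g_N X^N` modulo `(p, X^(N+1))`. (3) Let `q_j = coeff j Q`, `q_0 = 1`.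
`coeff j (X d Q) = j q_j = Σ_(i ≤ j) q_(j-i) coeff i (Σ_c rescale c G)`: `p ∣ j q_j` for `0 < j < N`, so `p ∣ q_j` (`j` is prime to `p`: `1 = r j + s p`); and `N q_N ≡ -g_N`, `N ≡ -1`: `q_N ≡ g_N` modulo `p`. -/
def S_PRD : Prop :=
  ∀ (A : Type) [CommRing A] (p : ℕ), p.Prime → ∀ E E' : A⟦X⟧, PowerSeries.constantCoeff E = 1 →
    E * E' = 1 → ∀ Q G : A⟦X⟧, Q = ∏ c ∈ Finset.Icc 1 (p - 1), PowerSeries.rescale (c : A) E →
    G = ∑ c ∈ Finset.Icc 1 (p - 1),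
      PowerSeries.rescale (c : A) (PowerSeries.X * d⁄dX A E * E') →
    PowerSeries.coeff 0 Q = 1 ∧ PowerSeries.coeff 0 G = 0 ∧
    (∀ j, 0 < j → j < p → (p : A) ∣ PowerSeries.coeff j (Q + G)) ∧
    ∀ j, 0 < j → j < p - 1 → (p : A) ∣ PowerSeries.coeff j G

/-- (KYR) evaluation at `ϖ` modulo an ideal `I` with `ϖ^p, p ϖ ∈ I`. `f c = Θ(z + c R)/Θ(z)`, `g c = (Θ'/Θ)(z + c R)`.

USES EVH, PRD. PROOF. `E = Σ_(k<p) e_k X^k` (`PowerSeries.mk`, zero for `k ≥ p`); `E' ` its inverse (`constantCoeff E = 1`: `PowerSeries.isUnit_iff_constantCoeff` or `invOfUnit`). `S = A ⧸ I`, `φ_c` = (EVH) for `Ideal.Quotient.mk I`, `s = c ϖ`, `n = p`; `φ_c F = φ_1 (rescale c F)`. `φ_c E = f c`, `φ_c (X d E) = c ϖ g_c f_c` by the hypotheses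
(`coeff k (X d E) = k e_k`), so `φ_c (X d E E') = c ϖ g_c f_c φ_c(E') = c ϖ g_c` (`f_c φ_c(E') = 1`). So `φ_1 Q = ∏ f_c`, `φ_1 G = ϖ Σ c g_c` (in `S`). (PRD): `φ_1(Q + G) = Σ_(k<p) coeff k (Q + G) ϖ^k = 1` in `S`, as `p ϖ = 0` there; and `φ_1 G = coeff (p-1) G ϖ^(p-1)`. -/
def S_KYR : Prop :=
  ∀ (A : Type) [CommRing A] (p : ℕ), p.Prime → ∀ (I : Ideal A) (w : A), w ^ p ∈ I → p * w ∈ I →
    ∀ (e f g : ℕ → A), e 0 = 1 →
    (∀ c ∈ Finset.Icc 1 (p - 1), f c - ∑ k ∈ Finset.range p, e k * (c * w) ^ k ∈ I) →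
    (∀ c ∈ Finset.Icc 1 (p - 1),
      c * w * (g c * f c) - ∑ k ∈ Finset.range p, k * e k * (c * w) ^ k ∈ I) →
    ∏ c ∈ Finset.Icc 1 (p - 1), f c - 1 + w * ∑ c ∈ Finset.Icc 1 (p - 1), (c : A) * g c ∈ I ∧
    ∃ r : A, w * ∑ c ∈ Finset.Icc 1 (p - 1), (c : A) * g c - r * w ^ (p - 1) ∈ I

/-! ## Points -/

/-- (PTS) the addition formula.

PROOF. `(x₂, y₂) = (X R, Y R)`, `t = -x₂/y₂`, `v(x₂) v(t)² = 1`, `0 < v t < 1` (`v_tX_lt` of `VX.lean`), `u = 1/(x₂ t²)`, `y₂ = -x₂/t = -1/(t³ u)`. (EqU) is the equation of the curve at `(x₂, y₂)` times `t⁶ u³`. `v(x t² u) < 1`. `x ≠ x₂` (`v x ≤ 1 < v x₂`): addition law (as in `Val.add_near`, `Pool/Agent/MU3/VCong.lean`: there `addX`, `addY`, slope `l = (y - y₂)/(x - x₂)`):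
`x₃ = l² - a₂ - x - x₂`, `y₃ = -(y + l (x₃ - x))`. Insert `x₂ = 1/(t² u)`, `y₂ = -1/(t³ u)`: `l = (1 + y t³ u)/(t (x t² u - 1)) = -(1 + y t³ u) e/t`, `l² - x₂ = (a₂ + a₄ t² u + a₆ t⁴ u² + 2 x + 2 y t u + y² t⁴ u² - x² t² u) e²` (use EqU), which gives the formulas (`field_simp`, `linear_combination (..) * hU + (..) * curve`; `1 - x t² u ≠ 0`, `t, u ≠ 0`). -/
def S_PTS : Prop :=
  ∀ (V : ValuationSubring ℂ) (W : WeierstrassCurve.Affine ℂ) (L : PeriodPair) (X Y : ℂ → ℂ)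
    (ξ : ℂ →+ W.Point), GR V W L X Y ξ → ∀ z R : ℂ, ¬ InK V L X z → InK V L X R →
    R ∉ L.lattice → ∀ t u : ℂ, t = tX X Y R → u = 1 / (X R * t ^ 2) →
      V.valuation u = 1 ∧ EqU W.a₂ W.a₄ W.a₆ t u ∧ V.valuation (1 - X z * t ^ 2 * u) = 1 ∧
      X (z + R) = xF W.a₂ W.a₄ W.a₆ (X z) (Y z) t u (1 / (1 - X z * t ^ 2 * u)) ∧
      Y (z + R) = yF W.a₂ W.a₄ W.a₆ (X z) (Y z) t u (1 / (1 - X z * t ^ 2 * u))

/-- (TAY) the Taylor expansion at the points.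

USES EVH, UEX, UQN, ODE, TAF, PTS. PROOF. `A = V` (as a ring; `1, .., p-1` are units of `V`), `a₂, a₄, a₆ ∈ V` (`G.int`). `U` (UEX), `κ` the inverse of `qF` in `V⟦T⟧` (constant coefficient `1`), `lam j = coeff j (lamF p κ)` (`lam 1 = κ_0 = 1`, as `2 ≤ p`). Let `R, z` be given, `t = tX R ∈ V`, `v t < 1`; `I` = the ideal `(t^p)` of `V`, `S = V/I`; `r ∈ I` iff
`v r ≤ v(t)^p`. `x = X z, y = Y z ∈ V` (`int_X`, `int_Y`), `e` = inverse of `1 - x T² U` in `V⟦T⟧`, `gx, gy` as in (ODE); `gx(0) = x`, `gy(0) = y` (`nF(0) = 2y`, `e(0) = U(0) = 1`). (EVH): `φ : V⟦T⟧ → S`, `T ↦ t`. `φ U` and the class of `u` (PTS) satisfy `EqU` in `S`, so they are equal (UQN); `φ e` and the class of `1/(1 - x t² u)` are inverses of the same element; so by (PTS)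
`φ gx = X(z + R)`, `φ gy = Y(z + R)` in `S`. For `f`: `φ (aeval ![gx, gy] f) = ` class of `f(X(z+R), Y(z+R))` (`φ` is a ring homomorphism, constants to constants), and by (TAF) and the third property of (EVH) (only the coefficients below `p` matter) it is `φ(Σ_k C(..) λ^k) = Σ_k (D^k f)(x,y)/k! φ(λ)^k`, `φ(λ) = Σ_(j<p) lam_j t^j`. The inclusion `V → ℂ` is injective and `Ring.inverse (k! : V)` is
`1/k!`, `aeval ![(x : V), y]` and `aeval ![X z, Y z]` agree (`MvPolynomial.aeval` of a polynomial over `V` in `V`, then in `ℂ`). -/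
def S_TAY : Prop :=
  ∀ (V : ValuationSubring ℂ) (W : WeierstrassCurve.Affine ℂ) (L : PeriodPair) (X Y : ℂ → ℂ)
    (ξ : ℂ →+ W.Point), GR V W L X Y ξ → ∀ p : ℕ, 2 ≤ p →
    (∀ j : ℕ, 0 < j → j < p → V.valuation (j : ℂ) = 1) → ∀ a2 a4 : V, (a2 : ℂ) = W.a₂ →
    (a4 : ℂ) = W.a₄ → ∃ lam : ℕ → ℂ, HasTay V L X Y p a2 a4 lam

/-- (ADV) `ϖ(c R) = c ϖ(R)` modulo `τ^p`.

USES Sq_YUN. PROOF. Let `ϖ(R) = vpi lam p (tX R)`; `v(ϖ(R)) ≤ v(tX R)` (`lam 0 = 0`). (1) ADDITIVITY: `R, R'`, `R + R'` in the kernel of reduction, not in `L`, `v(tX R), v(tX R') ≤ τ < 1`; `v(tX (R + R')) ≤ τ` (`v_tX_add`). `z = L.ω₁/3`: `3 z ∈ L`, `z, 2 z ∉ L`, `v 3 = 1` (`3 < p`), so `z, 2 z` are not in the kernel of reduction (`mem_of_nat_mul`) and `v(Y z) = 1` (YUN).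
Let `d_k = (D^k X_0)(z)/k!` (`X_0` the variable `MvPolynomial.X 0`; `d_1 = 2 Y z`), in `V` for `k < p`. Taylor at `z + R` (not in the kernel of reduction) with `R'`, then at `z` with `R` for the polynomials `D^k X_0`, `k < p`: `X(z + R + R') ≡ Σ_(k,j<p) (D^(k+j) X_0)(z)/(k! j!) ϖ(R)^j ϖ(R')^k ≡ Σ_(n<p) d_n (ϖ(R) + ϖ(R'))^n` modulo `τ^p` (the terms with `k + j ≥ p` are `≤ τ^p`; binomial theorem).
Taylor at `z` with `R + R'`: `≡ Σ d_n ϖ(R + R')^n`. The difference of the two is `(ϖ(R + R') - ϖ(R) - ϖ(R')) (2 Y z + (something of valuation ≤ τ))`. So `v(ϖ(R + R') - ϖ(R) - ϖ(R')) ≤ τ^p`. (2) induction on `c`. (`c R` is in the kernel of reduction: `inK_nat`; `c R ∉ L` is the hypothesis; `v(tX (c R)) = v(tX R)`: `v_tX_nat`.) -/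
def S_ADV : Prop :=
  ∀ (V : ValuationSubring ℂ) (W : WeierstrassCurve.Affine ℂ) (L : PeriodPair) (X Y : ℂ → ℂ)
    (ξ : ℂ →+ W.Point), GR V W L X Y ξ → ∀ p : ℕ, 4 ≤ p →
    (∀ j : ℕ, 0 < j → j < p → V.valuation (j : ℂ) = 1) → ∀ (a2 a4 : V), (a2 : ℂ) = W.a₂ →
    (a4 : ℂ) = W.a₄ → ∀ lam : ℕ → ℂ, HasTay V L X Y p a2 a4 lam →
    ∀ R, InK V L X R → (∀ c : ℕ, 0 < c → c < p → (c : ℂ) * R ∉ L.lattice) →
    ∀ c : ℕ, 0 < c → c < p →
      V.valuation (vpi lam p (tX X Y (c * R)) - c * vpi lam p (tX X Y R)) ≤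
        V.valuation (tX X Y R) ^ p

/-- (THT) `Θ_a` and its logarithmic derivative as polynomials in `x, y`.

USES St_TDL (`Pool.Agent.MU3B.b_TDL`). PROOF. `q ∈ H`: `q ∉ L` (`2 q ∉ L`), `a q ∈ L`, `v a = 1`: `q` is not in the kernel of reduction (`mem_of_nat_mul`), `xn L q ∈ V`; `a (z ± q) ≡ a z`, so `z ± q` is not in the kernel of reduction (`inK_nat`, `inK_congr`): `v(xn L z - xn L q) = 1` (`v_X_sub`). `θ = ∏_(q ∈ H) (X 0 - C (xn L q))`,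
`℘ z - ℘ q = xn L z - xn L q`. `dW θ = Σ_q 2 X 1 ∏_(q' ≠ q) (X 0 - C (xn L q'))` (Leibniz), so `(dW θ)(x z, y z) = ThetaH z Σ_q ℘'(z)/(℘ z - ℘ q) = ThetaH z (a e(a z) - a² e(z))` (TDL; `‖(a : ℂ)‖² = a²`). -/
def S_THT : Prop :=
  ∀ (V : ValuationSubring ℂ) (W : WeierstrassCurve.Affine ℂ) (L : PeriodPair)
    (ξ : ℂ →+ W.Point), GR V W L (xn L) (yy L) ξ → ∀ (a : ℕ) (H : Finset ℂ), 1 < a →
    V.valuation (a : ℂ) = 1 → IsHalf L (a : ℂ) H → ∀ (a2 a4 : V),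
    ∃ θ : MvPolynomial (Fin 2) V, ∀ z : ℂ, ¬ InK V L (xn L) z → ¬ InK V L (xn L) (a * z) →
      MvPolynomial.aeval ![xn L z, yy L z] θ = ThetaH L H z ∧ V.valuation (ThetaH L H z) = 1 ∧
      MvPolynomial.aeval ![xn L z, yy L z] (dW a2 a4 θ) = ThetaH L H z * dlX L a z ∧
      V.valuation (dlX L a z) ≤ 1

/-- (KEY) the result for one lattice and one point `R` of order `p` in the kernel of reduction with `v(t(R))^(p-1) = v(p)`.

USES TAY, ADV, THT, KYR. PROOF. `τ = v(tX R)`, `ϖ = vpi lam p (tX R)`, `v ϖ = τ` (`lam 0 = 0`, `lam 1 = 1`). For `0 < c < p`: `c R ∉ L` (`p R ∈ L`, `p` prime), `c R` in the kernel of reduction, `v(tX (c R)) = τ` (`v_tX_nat`), `z + c R`, `a (z + c R)` not in the kernel of reduction. `θ` (THT), `T₀ = ThetaH z`, `e_k = (D^k θ)(z)/(k! T₀) ∈ V` for `k < p`, `e_0 = 1`.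
`f_c = ThetaH(z + c R)/T₀`, `g_c = dlX (z + c R)`. (TAY) for `θ`, `c R`, and (ADV): `f_c ≡ Σ_(k<p) e_k (c ϖ)^k` modulo `τ^p`; for `dW θ`: `g_c f_c ≡ Σ_(k<p) (D^(k+1) θ)(z)/(k! T₀) (c ϖ)^k`, times `c ϖ`: the term `k = p - 1` is `≤ τ^p`, the others are `(k+1) e_(k+1) (c ϖ)^(k+1)`. `A = V`, `I = {r : v r ≤ τ^p}` `= (ϖ^p)`; `v(p ϖ) = τ^p`. (KYR). The last two
claims: multiply by `T₀^(p-1)` (a unit), `τ^p = v(p) τ`; `v(ϖ Σ c g_c) ≤ τ^(p-1)`, divide by `ϖ`. For `c` arbitrary `v(ThetaH(z + c R)) = 1`, `v(dlX (z + c R)) ≤ 1`: (THT) at `z + c R`. -/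
def S_KEY : Prop :=
  ∀ (V : ValuationSubring ℂ) (W : WeierstrassCurve.Affine ℂ) (L : PeriodPair)
    (ξ : ℂ →+ W.Point), GR V W L (xn L) (yy L) ξ → ∀ p : ℕ, p.Prime → 5 ≤ p →
    V.valuation (p : ℂ) < 1 → (∀ j : ℕ, 0 < j → j < p → V.valuation (j : ℂ) = 1) →
    ∀ R : ℂ, InK V L (xn L) R → R ∉ L.lattice → (p : ℂ) * R ∈ L.lattice →
    V.valuation (tX (xn L) (yy L) R) ^ (p - 1) = V.valuation (p : ℂ) →
    ∃ w : ℂ, V.valuation (w - tX (xn L) (yy L) R) ≤ V.valuation (tX (xn L) (yy L) R) ^ 2 ∧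
    ∀ (a : ℕ) (H : Finset ℂ), 1 < a → V.valuation (a : ℂ) = 1 → IsHalf L (a : ℂ) H →
    ∀ z : ℂ, ¬ InK V L (xn L) z → ¬ InK V L (xn L) (a * z) →
      (∀ c : ℕ, V.valuation (ThetaH L H (z + c * R)) = 1 ∧
        V.valuation (dlX L a (z + c * R)) ≤ 1) ∧
      V.valuation (∑ c ∈ Finset.Icc 1 (p - 1), (c : ℂ) * dlX L a (z + c * R)) ≤
        V.valuation (tX (xn L) (yy L) R) ^ (p - 2) ∧
      V.valuation (∏ c ∈ Finset.Icc 1 (p - 1), ThetaH L H (z + c * R) -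
          ThetaH L H z ^ (p - 1) * (1 - w *
            ∑ c ∈ Finset.Icc 1 (p - 1), (c : ℂ) * dlX L a (z + c * R))) ≤
        V.valuation (tX (xn L) (yy L) R) ^ p

/-! ## The points of `E[P]`, and the lattices `L_i` -/

/-- (FOI) the parameter under an isogeny of odd order prime to the residue characteristic, to first order.

USES Sx_POL, Sx_HAL, Su_BAC. PROOF. (0) `C = {z : mu z ∈ M}`, killed by `n` modulo `L`; `C ∩ K₁(L) = L`, `K₁` the kernel of reduction (`mem_of_nat_mul`); no point of order two in `C/L` (`n` odd): half system `H` (HAL); for `q ∈ H`: `q ∉ K₁(L)`, `xn L q ∈ V`. `w = L.ω₁/2`, `e = xn L w`, `e' = ℘_M(mu w)`; `w + q ∉ K₁(L)` (`2 (w + q) ≡ 2 q`; `K₁` is a group, and `2 q ∈ K₁` gives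
`2 q ∈ L`), `w ∉ K₁`, `mu w ∉ K₁(M)` (order two): `e, e', xn L (w + q) ∈ V`. `mu u ∉ M` (otherwise `u ∈ C ∩ K₁ = L`). (1) (POL), second part, `c = 1/12`: for `mu z ∉ M`: `(℘_M(mu z) - e') Q(x)² = (x - e) B(x)²`, `x = xn L z`, `Q = mu ∏_(q ∈ H) (T - xn L q)`, `B = ∏_(q ∈ H) (T - xn L (w + q))`. (2) Differentiate in `z` (`HasDerivAt`; `℘' = 2 yy`; the set `mu z ∉ M` is open) at `z = u`:
`mu 2 yy_M(mu u) Q² + (℘_M(mu u) - e') 2 Q Q' 2 yy_L(u) = (B² + (x - e) 2 B B') 2 yy_L(u)`. (3) `x = xn L u`, `r = 1/x`, `v r = v(t u)² < 1` (`v_tX_lt`). For a finite product `F = ∏_(i<h) (T - a_i)`, `a_i ∈ V`: `v(F(x)/x^h - 1) ≤ v r`, `v(x F'(x)/x^h - h) ≤ v r` (induction on `h`: `(F (T - a))/x^(h+1) = (F/x^h)(1 - a r)`, `x (F (T-a))'/x^(h+1) = (x F'/x^h)(1 - a r) + F/x^h`). So with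
`b = B/x^h ≡ 1`, `q = Q/(mu x^h) ≡ 1`, `b' = x B'/x^h ≡ h`, `q' = x Q'/(mu x^h) ≡ h` modulo `r`: (1): `℘_M(mu u) - e' = mu⁻² x (1 - e r) b²/q²`; (2): `yy_M(mu u) = mu⁻³ yy_L(u) q⁻² [b² + 2 (1 - e r) b b' - 2 (1 - e r) b² q'/q] = mu⁻³ yy_L(u) (1 + O(r))` (`1 + 2h - 2h = 1`).
So `xn M (mu u) = mu⁻² x (1 + O(r))` (`v > 1`: `mu u ∈ K₁(M)`), and `tX = -x/y`: `t_M(mu u) = mu t_L(u) (1 + O(r))`, even `≤ v(t u)³`. -/
def S_FOI : Prop :=
  ∀ (V : ValuationSubring ℂ) (L M : PeriodPair) (mu : ℂ) (n : ℕ),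
    (∃ (W : WeierstrassCurve.Affine ℂ) (ξ : ℂ →+ W.Point), GR V W L (xn L) (yy L) ξ) →
    (∃ (W : WeierstrassCurve.Affine ℂ) (ξ : ℂ →+ W.Point), GR V W M (xn M) (yy M) ξ) →
    mu ≠ 0 → Isg L M mu → Odd n → V.valuation (n : ℂ) = 1 →
    (∀ z, mu * z ∈ M.lattice → (n : ℂ) * z ∈ L.lattice) → V.valuation mu = 1 →
    ∀ u, InK V L (xn L) u → u ∉ L.lattice → InK V M (xn M) (mu * u) ∧ mu * u ∉ M.lattice ∧
      V.valuation (tX (xn M) (yy M) (mu * u) - mu * tX (xn L) (yy L) u) ≤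
        V.valuation (tX (xn L) (yy L) u) ^ 2

end

end Pool.Agent.TWT
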