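import Pool.Agent.TWT.StT2

/-!
# TWT_CNT: counting
-/

set_option autoImplicit false

open WeierstrassCurve Polynomial NumberField IsDedekindDomain

namespace Pool.Agent.TWT

open _root_.MU3 Pool.Agent.MU3A Pool.Agent.MU3B Pool.Agent.MU3C Pool.Agent.RI Pool.Agent.RID
open Pool.Agent.MUX Pool.Agent.MUXU Pool.Agent.MUXW
open Pool.Agent.MU3V (cls Sub GD algDF)
open Pool.Agent.MUXV (GR InK tX)
open Pool.Agent.MUXI (IA RE AR)

noncomputable section

namespace CNT

variable {A B : ℤ}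

lemma nat_dvd_iff (n : ℕ) (x : OO A B) :
    ((n : ℕ) : OO A B) ∣ x ↔ (n : ℤ) ∣ x.re ∧ (n : ℤ) ∣ x.im := by
  constructor
  · rintro ⟨t, rfl⟩
    refine ⟨⟨t.re, ?_⟩, ⟨t.im, ?_⟩⟩
    · rw [QuadraticAlgebra.re_mul]; simp
    · rw [QuadraticAlgebra.im_mul]; simp
  · rintro ⟨⟨s, hs⟩, ⟨t, ht⟩⟩
    refine ⟨⟨s, t⟩, ?_⟩
    apply QuadraticAlgebra.ext
    · rw [QuadraticAlgebra.re_mul]; simp [hs]
    · rw [QuadraticAlgebra.im_mul]; simp [ht]

lemma mk_eq_iff (m x y : OO A B) :
    Ideal.Quotient.mk (Ideal.span {m}) x = Ideal.Quotient.mk (Ideal.span {m}) y ↔ m ∣ x - y := by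
  rw [Ideal.Quotient.eq, Ideal.mem_span_singleton]

lemma finR (n : ℕ) (hn : n ≠ 0) : Finite (OO A B ⧸ Ideal.span {((n : ℕ) : OO A B)}) := by
  have : NeZero n := ⟨hn⟩
  refine Finite.of_injective (fun q : OO A B ⧸ Ideal.span {((n : ℕ) : OO A B)} =>
    (((Quotient.out q).re : ZMod n), ((Quotient.out q).im : ZMod n))) ?_
  intro q q' h
  simp only [Prod.mk.injEq] at h
  rw [← Ideal.Quotient.mk_out q, ← Ideal.Quotient.mk_out q', mk_eq_iff, nat_dvd_iff]
  refine ⟨?_, ?_⟩
  · rw [QuadraticAlgebra.re_sub, ← ZMod.intCast_zmod_eq_zero_iff_dvd, Int.cast_sub, sub_eq_zero]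
    exact h.1
  · rw [QuadraticAlgebra.im_sub, ← ZMod.intCast_zmod_eq_zero_iff_dvd, Int.cast_sub, sub_eq_zero]
    exact h.2

lemma sumMod_mul {m a : OO A B} (ha : IsCoprime a m) {F : OO A B → ℂ}
    (hF : ∀ x y, x - y ∈ Ideal.span {m} → F x = F y) :
    sumMod m (fun x => F (a * x)) = sumMod m F := by
  obtain ⟨u, v, huv⟩ := ha
  have h1 : Ideal.Quotient.mk (Ideal.span {m}) a * Ideal.Quotient.mk (Ideal.span {m}) u = 1 := by
    rw [← map_mul, ← map_one (Ideal.Quotient.mk (Ideal.span {m})), Ideal.Quotient.eq,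
      Ideal.mem_span_singleton]
    exact ⟨-v, by linear_combination huv⟩
  let e : (OO A B ⧸ Ideal.span {m}) ≃ (OO A B ⧸ Ideal.span {m}) :=
    (Units.mkOfMulEqOne _ _ h1).mulLeft
  unfold sumMod
  rw [← finsum_comp_equiv (f := fun q : OO A B ⧸ Ideal.span {m} => F (Quotient.out q)) e]
  refine finsum_congr fun q => ?_
  refine hF _ _ ?_
  rw [← Ideal.Quotient.eq, map_mul, Ideal.Quotient.mk_out]
  have h2 : Ideal.Quotient.mk (Ideal.span {m}) (Quotient.out (e q)) = e q :=
    Ideal.Quotient.mk_out _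
  rw [h2]
  rfl

/-- A permutation of the nonzero classes. -/
lemma perm {p n : ℕ} (hp : p.Prime) (hn : ¬ p ∣ n) (F : ℕ → ℂ) (hF : ∀ c, F (c % p) = F c) :
    ∑ c ∈ Finset.Icc 1 (p - 1), F (n * c) = ∑ c ∈ Finset.Icc 1 (p - 1), F c := by
  have hpos := hp.pos
  have hmem : ∀ c, c ∈ Finset.Icc 1 (p - 1) ↔ 0 < c ∧ c < p := by
    intro c
    rw [Finset.mem_Icc]
    omega
  have hmaps : Set.MapsTo (fun c => (n * c) % p) (Finset.Icc 1 (p - 1) : Finset ℕ)
      (Finset.Icc 1 (p - 1) : Finset ℕ) := by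
    intro c hc
    rw [Finset.mem_coe, hmem] at hc ⊢
    refine ⟨?_, Nat.mod_lt _ hpos⟩
    rw [Nat.pos_iff_ne_zero]
    intro h0
    rcases (hp.dvd_mul.1 (Nat.dvd_of_mod_eq_zero h0)) with h1 | h1
    · exact hn h1
    · exact absurd (Nat.le_of_dvd hc.1 h1) (by omega)
  have hinj : Set.InjOn (fun c => (n * c) % p) (Finset.Icc 1 (p - 1) : Finset ℕ) := by
    intro c hc c' hc' hcc
    rw [Finset.mem_coe, hmem] at hc hc'
    have h1 : n * c ≡ n * c' [MOD p] := hcc
    have h2 : c ≡ c' [MOD p] :=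
      Nat.ModEq.cancel_left_of_coprime ((Nat.Prime.coprime_iff_not_dvd hp).2 hn) h1
    have h3 : c % p = c' % p := h2
    rwa [Nat.mod_eq_of_lt hc.2, Nat.mod_eq_of_lt hc'.2] at h3
  have hsurj := Finset.surjOn_of_injOn_of_card_le (fun c => (n * c) % p) hmaps hinj le_rfl
  refine Finset.sum_of_injOn (fun c => (n * c) % p) hinj hmaps (fun c hc hc' => ?_)
    (fun c _ => (hF (n * c)).symm)
  exact absurd (hsurj hc) hc'

/-- Sum over the Galois group against the sum over the classes. -/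
lemma count {ι Gt : Type} [Fintype ι] [Fintype Gt] {M : ℕ} (hM : 3 ≤ M)
    (Hit : Gt → ι → OO A B → Prop)
    (h2 : ∀ (i : ι) (x : OO A B), IsCoprime x ((M : ℕ) : OO A B) → ∃ σ, Hit σ i x)
    (h3 : ∀ (σ : Gt) (i j : ι) (x y : OO A B), Hit σ i x → IsCoprime y ((M : ℕ) : OO A B) →
      (Hit σ j y ↔ j = i ∧ (x - y ∈ idl (A := A) (B := B) M ∨
        x + y ∈ idl (A := A) (B := B) M)))
    (h4 : ∀ (σ σ' : Gt) (i : ι) (x : OO A B), Hit σ i x → Hit σ' i x → σ = σ')
    (F : ι → OO A B → ℂ) (hper : ∀ i x y, x - y ∈ idl (A := A) (B := B) M → F i x = F i y)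
    (heven : ∀ i x, F i (-x) = F i x)
    (hzero : ∀ i x, ¬ IsCoprime x ((M : ℕ) : OO A B) → F i x = 0)
    (I : Gt → ι) (X : Gt → OO A B) (hco : ∀ σ, IsCoprime (X σ) ((M : ℕ) : OO A B))
    (hX : ∀ σ, Hit σ (I σ) (X σ)) :
    2 * ∑ σ, F (I σ) (X σ) = ∑ i, sumMod ((M : ℕ) : OO A B) (F i) := by
  classical
  have hfin : Finite (OO A B ⧸ Ideal.span {((M : ℕ) : OO A B)}) := finR M (by omega)
  have hft := Fintype.ofFinite (OO A B ⧸ Ideal.span {((M : ℕ) : OO A B)})
  have e1 : ∑ i, sumMod ((M : ℕ) : OO A B) (F i) =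
      ∑ q : ι × (OO A B ⧸ Ideal.span {((M : ℕ) : OO A B)}), F q.1 (Quotient.out q.2) := by
    rw [Fintype.sum_prod_type]
    refine Finset.sum_congr rfl fun i _ => ?_
    unfold sumMod
    rw [finsum_eq_sum_of_fintype]
  have e2 : 2 * ∑ σ, F (I σ) (X σ) = ∑ q : Gt × Bool, F (I q.1) (X q.1) := by
    rw [Fintype.sum_prod_type, Finset.mul_sum]
    refine Finset.sum_congr rfl fun σ _ => ?_
    simp [two_mul]
  rw [e1, e2]
  let e : Gt × Bool → ι × (OO A B ⧸ Ideal.span {((M : ℕ) : OO A B)}) := fun q =>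
    (I q.1, Ideal.Quotient.mk _ (if q.2 then X q.1 else - X q.1))
  have htwo : ∀ σ, ¬ X σ + X σ ∈ idl (A := A) (B := B) M := by
    intro σ hσ
    obtain ⟨u, v, huv⟩ := hco σ
    obtain ⟨k, hk⟩ : ∃ k : ℕ, k = 2 := ⟨2, rfl⟩
    have h5 : ((k : ℕ) : OO A B) ∈ idl (A := A) (B := B) M := by
      have h6 : ((k : ℕ) : OO A B) = u * (X σ + X σ) + 2 * v * ((M : ℕ) : OO A B) := by
        rw [hk]
        push_cast
        linear_combination (-2 : OO A B) * huv
      rw [h6]
      exact Ideal.add_mem _ (Ideal.mul_mem_left _ _ hσ)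
        (Ideal.mul_mem_left _ _ (Ideal.subset_span rfl))
    rw [Ideal.mem_span_singleton, nat_dvd_iff] at h5
    have h6 := h5.1
    have h7 : ((k : ℕ) : OO A B).re = k := by simp
    rw [h7] at h6
    have h8 := Int.le_of_dvd (by omega) h6
    omega
  refine Finset.sum_of_injOn e ?_ (fun _ _ => Finset.mem_coe.2 (Finset.mem_univ _)) ?_ ?_
  · rintro ⟨σ, s⟩ - ⟨σ', s'⟩ - hq
    have hq1 : I σ = I σ' := congrArg Prod.fst hq
    have hq2 : Ideal.Quotient.mk (Ideal.span {((M : ℕ) : OO A B)})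
        (if s then X σ else - X σ) =
      Ideal.Quotient.mk (Ideal.span {((M : ℕ) : OO A B)}) (if s' then X σ' else - X σ') :=
      congrArg Prod.snd hq
    rw [Ideal.Quotient.eq] at hq2
    have h5 : X σ - X σ' ∈ idl (A := A) (B := B) M ∨ X σ + X σ' ∈ idl (A := A) (B := B) M := by
      cases s <;> cases s' <;> simp only [if_true, if_false, Bool.false_eq_true] at hq2
      · left
        have h6 := Ideal.neg_mem_iff _ |>.2 hq2
        have h7 : -(-X σ - -X σ') = X σ - X σ' := by ring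
        rwa [h7] at h6
      · right
        have h6 := Ideal.neg_mem_iff _ |>.2 hq2
        have h7 : -(-X σ - X σ') = X σ + X σ' := by ring
        rwa [h7] at h6
      · right
        have h7 : X σ - -X σ' = X σ + X σ' := by ring
        rwa [h7] at hq2
      · left
        exact hq2
    have h6 : Hit σ (I σ') (X σ') :=
      (h3 σ (I σ) (I σ') (X σ) (X σ') (hX σ) (hco σ')).2 ⟨hq1.symm, h5⟩
    have h7 : σ = σ' := h4 σ σ' (I σ') (X σ') h6 (hX σ')
    subst h7
    have h8 : s = s' := by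
      by_contra hne
      cases s <;> cases s' <;> simp only [if_true, if_false, Bool.false_eq_true] at hq2 hne
      · exact hne trivial
      · apply htwo σ
        have h6 := Ideal.neg_mem_iff _ |>.2 hq2
        have h7 : -(-X σ - X σ) = X σ + X σ := by ring
        rwa [h7] at h6
      · apply htwo σ
        have h7 : X σ - -X σ = X σ + X σ := by ring
        rwa [h7] at hq2
      · exact hne trivial
    rw [h8]
  · rintro ⟨i, q⟩ - hq
    by_contra hne
    apply hq
    have hcop : IsCoprime (Quotient.out q) ((M : ℕ) : OO A B) := by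
      by_contra hc
      exact hne (hzero i _ hc)
    obtain ⟨σ, hσ⟩ := h2 i _ hcop
    obtain ⟨hi, hx⟩ := (h3 σ (I σ) i (X σ) (Quotient.out q) (hX σ) hcop).1 hσ
    have hmk : Ideal.Quotient.mk (Ideal.span {((M : ℕ) : OO A B)}) (Quotient.out q) = q :=
      Ideal.Quotient.mk_out q
    rcases hx with hx | hx
    · refine ⟨(σ, true), Finset.mem_coe.2 (Finset.mem_univ _), ?_⟩
      apply Prod.ext
      · exact hi.symm
      · show Ideal.Quotient.mk _ (if true = true then X σ else - X σ) = q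
        rw [if_pos rfl]
        rw [← hmk]
        exact (Ideal.Quotient.eq).2 hx
    · refine ⟨(σ, false), Finset.mem_coe.2 (Finset.mem_univ _), ?_⟩
      apply Prod.ext
      · exact hi.symm
      · show Ideal.Quotient.mk _ (if false = true then X σ else - X σ) = q
        rw [if_neg (by decide)]
        rw [← hmk]
        refine (Ideal.Quotient.eq).2 ?_
        have h6 := Ideal.neg_mem_iff _ |>.2 hx
        have h7 : -(X σ + Quotient.out q) = -X σ - Quotient.out q := by ring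
        rwa [h7] at h6
  · rintro ⟨σ, s⟩ -
    show F (I σ) (X σ) = F (I σ) (Quotient.out (Ideal.Quotient.mk _ (if s then X σ else - X σ)))
    have h5 : F (I σ) (if s then X σ else - X σ) = F (I σ) (X σ) := by
      cases s
      · exact heven _ _
      · rfl
    rw [← h5]
    refine hper _ _ _ ?_
    rw [← Ideal.Quotient.eq, Ideal.Quotient.mk_out]

end CNT

open CNT in
theorem t_CNT (hIDP : S_IDP) (hHTF : S_HTF) : S_CNT := by
  intro p A B P V f hS hT ι _ R m hm x0 y0 hx0 hx1 hy0 hy1 G hper heven hzero _ I X hX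
  obtain ⟨d1, d2, d3, d4, d5, d6, d7⟩ := hIDP p A B P V f hS
  have hp := hS.pp
  have hp5 := hS.p5
  have hmpos : 0 < m := Nat.pos_of_ne_zero hm.m0
  have hM : 3 ≤ m * p := by nlinarith
  obtain ⟨-, t2, t3, t4, -, -⟩ := hHTF A B hS.cq hT (p * f) ι R (m * p) hM hm.cop
  obtain ⟨a1, -⟩ := d7 m x0 y0 hm.m0 hm.pm hx0 hx1 hy0 hy1
  have hpP : ((p : ℕ) : OO A B) ∈ P := hS.hP.mem
  -- the sum over the multiples
  have key : ∀ (i : ι) (x : OO A B), IsCoprime x ((m * p : ℕ) : OO A B) →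
      ∑ c ∈ Finset.Icc 1 (p - 1), G i (x * x0 + c * m * y0) =
        ∑ c ∈ Finset.Icc 1 (p - 1), G i (x * (x0 + c * m * y0)) := by
    intro i x hx
    obtain ⟨n, hn, hxn⟩ := d1 x
    have hpn : ¬ p ∣ n := by
      intro h0
      have h1 : n = 0 := by
        rcases Nat.eq_zero_or_pos n with h | h
        · exact h
        · exact absurd (Nat.le_of_dvd h h0) (by omega)
      rw [h1, Nat.cast_zero, sub_zero] at hxn
      obtain ⟨u, v, huv⟩ := hx
      apply hS.hP.prime.ne_top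
      rw [Ideal.eq_top_iff_one, ← huv]
      refine Ideal.add_mem _ (Ideal.mul_mem_left _ _ hxn) (Ideal.mul_mem_left _ _ ?_)
      rw [Nat.cast_mul]
      exact Ideal.mul_mem_left _ _ hpP
    have hxy : (x - n) * y0 ∈ idl (A := A) (B := B) p := by
      rw [← d3]
      exact Ideal.mul_mem_mul hxn hy0
    obtain ⟨t, ht⟩ := Ideal.mem_span_singleton.1 hxy
    have hF : ∀ c : ℕ, G i (x * x0 + (c % p : ℕ) * m * y0) = G i (x * x0 + c * m * y0) := by
      intro c
      refine hper _ _ _ ?_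
      rw [Ideal.mem_span_singleton]
      refine ⟨-((c / p : ℕ) : OO A B) * y0, ?_⟩
      have h1 : (c : OO A B) = (p : OO A B) * ((c / p : ℕ) : OO A B) + ((c % p : ℕ) : OO A B) := by
        exact_mod_cast (Nat.div_add_mod c p).symm
      rw [h1, Nat.cast_mul]
      ring
    rw [← perm hp hpn (fun c : ℕ => G i (x * x0 + c * m * y0)) hF]
    refine Finset.sum_congr rfl fun c _ => ?_
    refine (hper _ _ _ ?_).symm
    rw [Ideal.mem_span_singleton]
    refine ⟨(c : OO A B) * t, ?_⟩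
    push_cast
    linear_combination ((c : OO A B) * m) * ht
  let F : ι → OO A B → ℂ := fun i x => ∑ c ∈ Finset.Icc 1 (p - 1), G i (x * (x0 + c * m * y0))
  have hFper : ∀ i x y, x - y ∈ idl (A := A) (B := B) (m * p) → F i x = F i y := by
    intro i x y hxy
    refine Finset.sum_congr rfl fun c _ => hper _ _ _ ?_
    rw [← sub_mul]
    exact Ideal.mul_mem_right _ _ hxy
  have hFeven : ∀ i x, F i (-x) = F i x := by
    intro i x
    refine Finset.sum_congr rfl fun c _ => ?_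
    rw [neg_mul]
    exact heven _ _
  have hFzero : ∀ i x, ¬ IsCoprime x ((m * p : ℕ) : OO A B) → F i x = 0 := by
    intro i x hx
    refine Finset.sum_eq_zero fun c _ => hzero _ _ fun h => hx ?_
    exact IsCoprime.of_mul_left_left h
  have hc := count hM (fun σ i x => HitF R (m * p) _ σ i x) t2 t3 t4 F hFper hFeven hFzero I X
    (fun σ => (hX σ).1) hX
  have h1 : ∑ σ : GalF A B (m * p), ∑ c ∈ Finset.Icc 1 (p - 1),
      G (I σ) (X σ * x0 + c * m * y0) = ∑ σ : GalF A B (m * p), F (I σ) (X σ) :=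
    Finset.sum_congr rfl fun σ _ => key (I σ) (X σ) (hX σ).1
  rw [h1, hc, Finset.mul_sum]
  refine Finset.sum_congr rfl fun i _ => ?_
  have hfin : Finite (OO A B ⧸ Ideal.span {((m * p : ℕ) : OO A B)}) := finR (m * p) (by omega)
  have h2 : sumMod ((m * p : ℕ) : OO A B) (F i) =
      ∑ c ∈ Finset.Icc 1 (p - 1), sumMod ((m * p : ℕ) : OO A B)
        (fun x => G i ((x0 + c * m * y0) * x)) := by
    have hft := Fintype.ofFinite (OO A B ⧸ Ideal.span {((m * p : ℕ) : OO A B)})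
    unfold sumMod
    simp only [finsum_eq_sum_of_fintype]
    rw [Finset.sum_comm]
    refine Finset.sum_congr rfl fun q _ => ?_
    refine Finset.sum_congr rfl fun c _ => ?_
    rw [mul_comm]
  rw [h2]
  have h3 : ∀ c ∈ Finset.Icc 1 (p - 1), sumMod ((m * p : ℕ) : OO A B)
      (fun x => G i ((x0 + c * m * y0) * x)) = sumMod ((m * p : ℕ) : OO A B) (G i) := by
    intro c hc'
    rw [Finset.mem_Icc] at hc'
    exact sumMod_mul (a1 c hc'.1 (by omega)).1 (hper i)
  rw [Finset.sum_congr rfl h3, Finset.sum_const, Nat.card_Icc, nsmul_eq_mul]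
  have h4 : ((p - 1 + 1 - 1 : ℕ) : ℂ) = (p : ℂ) - 1 := by
    have h5 : p - 1 + 1 - 1 = p - 1 := by omega
    rw [h5, Nat.cast_sub (by omega), Nat.cast_one]
  rw [h4]

end

end Pool.Agent.TWT
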