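import Pool.Agent.TWT.CRB

/-!
# TWT, block B, assembly, part 3 (helper59): S_CRIT
-/

set_option autoImplicit false

open WeierstrassCurve Polynomial NumberField IsDedekindDomain

namespace Pool.Agent.TWT

open _root_.MU3 Pool.Agent.MU3A Pool.Agent.MU3B Pool.Agent.MU3C Pool.Agent.RI Pool.Agent.RID
open Pool.Agent.MUX Pool.Agent.MUXU Pool.Agent.MUXW
open Pool.Agent.MU3V (cls Sub GD algDF)
open Pool.Agent.MUXV (GR InK tX)
open Pool.Agent.MUXI (IA RE AR)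
open OnePoint

noncomputable section

namespace CRIT

theorem nm_per {A B : ℤ} (M : ℕ) {x y : OO A B} (h : x - y ∈ idl (A := A) (B := B) M) :
    (M : ℤ) ∣ nm x - nm y := by
  obtain ⟨z, hz⟩ := Ideal.mem_span_singleton'.1 h
  have h1 : x = y + z * ((M : ℕ) : OO A B) := by rw [hz]; ring
  have hr : ((M : ℕ) : OO A B).re = (M : ℤ) := by simp
  have hi : ((M : ℕ) : OO A B).im = 0 := by simp
  have e1 : x.re = y.re + z.re * M := by
    rw [h1, QuadraticAlgebra.re_add, QuadraticAlgebra.re_mul, hr, hi]; ring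
  have e2 : x.im = y.im + z.im * M := by
    rw [h1, QuadraticAlgebra.im_add, QuadraticAlgebra.im_mul, hr, hi]; ring
  unfold nm
  rw [e1, e2]
  refine ⟨2 * y.re * z.re + z.re ^ 2 * M + B * (y.re * z.im + z.re * y.im + z.re * z.im * M) -
    A * (2 * y.im * z.im + z.im ^ 2 * M), ?_⟩
  ring

theorem th_per {A B : ℤ} {n : ℕ} {ι : Type} (R : Reps A B n ι) {p f : ℕ} {kp : ι → ℂ}
    {eta : OO A B → ℂ} (hC : ChD p f R kp eta) {l N : ℕ} (ψ : DirichletCharacter ℂ (l ^ N))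
    (i : ι) {x y : OO A B} (h : x - y ∈ idl (A := A) (B := B) (f * l ^ N)) :
    thT R kp eta ψ i x = thT R kp eta ψ i y := by
  unfold thT
  have h1 : x - y ∈ idl (A := A) (B := B) f := CRA.idl_le f (l ^ N) h
  have h2 : x - y ∈ idl (A := A) (B := B) (l ^ N) := by
    rw [mul_comm] at h
    exact CRA.idl_le (l ^ N) f h
  have h3 : ((nm x * nI (R.b i) : ℤ) : ZMod (l ^ N)) = ((nm y * nI (R.b i) : ℤ) : ZMod (l ^ N)) := by
    rw [ZMod.intCast_eq_intCast_iff_dvd_sub]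
    have := nm_per (l ^ N) h2
    rw [← dvd_neg] at this
    refine (this.mul_right (nI (R.b i) : ℤ)).trans (dvd_of_eq ?_)
    ring
  rw [hC.per x y h1, h3]

theorem f_big {p : ℕ} {A B : ℤ} {P : Ideal (OO A B)} {V : ValuationSubring ℂ} {f : ℕ}
    (hS : SetG p A B P V f) : 3 ≤ f := by
  have h1 : 2 * absD A B ∣ (f : ℤ) := hS.fD
  have h2 : 3 ≤ absD A B := by
    have h3 := hS.cq.neg
    unfold absD
    rcases hS.cq.hB with h4 | h4 <;> rw [h4] at h3 ⊢ <;> omega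
  have h5 : (0 : ℤ) < f := by
    have := hS.f0
    omega
  have h6 := Int.le_of_dvd h5 h1
  omega

theorem main (hIDP : S_IDP) (hVPG : S_VPG) (hUNRG : S_UNRG) (hMUG : S_MUG) (hKUM : S_KUM)
    (hPRO : CRB.PROG) (hRSF : S_RSF) (hEAB : S_EAB) (hNMF : S_NMF) (hHTF : S_HTF)
    (hNRR : S_NRR) (hXPC : S_XPC) (hSIG : S_SIG) (hSDE : S_SDE) (hPHI : S_PHI) : S_CRIT := by
  intro p _ A B P V f hS hT ι _ R hG w hw kp eta hC l N hl hlf ψ hψ a ha1 hac hfac hry H hH θ hθ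
    D _ _ h hs
  let _ := algC h
  intro χ hχ hg c₀ hc₀ hbig
  by_contra hcon
  push Not at hcon
  have hp : p.Prime := Fact.out
  have hf0 := hS.f0
  have hpl : ¬ p ∣ l := by
    intro h1
    exact hS.fp (h1.trans hlf)
  have hm0 : f * l ^ N ≠ 0 := mul_ne_zero hf0 (pow_ne_zero _ hl.ne_zero)
  have hpm : ¬ p ∣ f * l ^ N := by
    intro h1
    rcases (hp.dvd_mul).1 h1 with h2 | h2
    · exact hS.fp h2
    · exact hpl (hp.dvd_of_dvd_pow h2)
  have hmp0 : f * l ^ N * p ≠ 0 := mul_ne_zero hm0 hp.ne_zero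
  have hLv : LvM p f (f * l ^ N) R := by
    refine ⟨hm0, Dvd.intro _ rfl, hpm, fun i => ?_⟩
    have h1 := R.cop i
    have h2 : (nI (R.b i)).Coprime p := Nat.Coprime.coprime_dvd_right (Dvd.intro _ rfl) h1
    have h3 : (nI (R.b i)).Coprime f := Nat.Coprime.coprime_dvd_right (Dvd.intro_left _ rfl) h1
    have h4 : (nI (R.b i)).Coprime l := Nat.Coprime.coprime_dvd_right hlf h3
    exact Nat.Coprime.mul_right (Nat.Coprime.mul_right h3 (h4.pow_right N)) h2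
  have hac2 : a.Coprime (2 * (f * l ^ N) * p) := by
    have h2 : a.Coprime 2 := Nat.Coprime.coprime_dvd_right ⟨3 * f * p, by ring⟩ hac
    have h3 : a.Coprime f := Nat.Coprime.coprime_dvd_right ⟨6 * p, by ring⟩ hac
    have h4 : a.Coprime p := Nat.Coprime.coprime_dvd_right ⟨6 * f, by ring⟩ hac
    have h5 : a.Coprime l := Nat.Coprime.coprime_dvd_right hlf h3
    exact Nat.Coprime.mul_right (Nat.Coprime.mul_right h2
      (Nat.Coprime.mul_right h3 (h5.pow_right N))) h4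
  have hf3 := f_big hS
  have hm3 : 3 ≤ f * l ^ N := hf3.trans (Nat.le_mul_of_pos_right f (pow_pos hl.pos N))
  have hM3 : 3 ≤ f * l ^ N * p := hm3.trans (Nat.le_mul_of_pos_right _ hp.pos)
  obtain ⟨i1, i2, i3, i4, i5, i6, i7⟩ := hIDP p A B P V f hS
  obtain ⟨x0, hx0, hx01⟩ := (i5 (f * l ^ N) hpm).2.2
  obtain ⟨y0, hy0, hy0P⟩ := i6
  obtain ⟨hv1, hv0, -, -, -, -, -⟩ := hVPG p A B P V f hS
  obtain ⟨θ'', κ, γ, φ, s₀, hθ'', hθ0, hθ''0, hκ0, hκ1, hγh, hγt, hrel, hIA, hs₀⟩ :=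
    hNRR p A B P V f hS hT ι R (f * l ^ N) hLv x0 y0 hx0 hx01 hy0 hy0P a H ha1 hac2 hH θ hθ
  have hsF := CRA.subF hT (f * l ^ N) p hs
  have hfin := hT.fin _ (CRA.idl_ne (A := A) (B := B) hmp0)
  have MEM := ty_MEM A B _ hfin (hT.gal _ (CRA.idl_ne hmp0))
    (hT.comm _ (CRA.idl_ne hmp0)) D h hsF
  obtain ⟨τφ, hτφ⟩ := (MEM θ hθ0).2.2.2.2 φ
  have hExt : ExtC h τφ s₀ := by
    intro y
    have h1 := hs₀ ⟨(y : ℂ), hsF y y.2⟩
    exact h1.trans (hτφ y (hsF y y.2))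
  obtain ⟨r, y, hPr, hy1⟩ := hry
  have hχφ := hPHI p A B P V f hS hT ι R kp eta hC l N hl hlf ψ hψ r y hPr hy1 D h hs χ hχ s₀ τφ
    hIA hExt
  obtain ⟨g, hg1, hgχ⟩ := hg
  haveI := CRB.charP_res V p hv1
  have hpow := CRA.partA hNMF hEAB p A B hS.cq hT (f * l ^ N) hm0 D h hs
    (IsLocalRing.ResidueField V) χ g hg1 hgχ θ θ'' κ γ φ τφ hθ0 hθ''0 hκ0 hκ1 hγt hrel hτφ hχφ c₀
    hc₀ hcon
  -- the points
  obtain ⟨q1, q2, q3, q4, q5, q6⟩ := hHTF A B hS.cq hT (p * f) ι R (f * l ^ N * p) hM3 hLv.cop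
  choose I X hIX using q1
  choose ρ hρ using (MEM θ hθ0).2.2.2.2
  obtain ⟨t0, ht00, ht0p, hX⟩ := hXPC p A B P V f hS hT ι R hG (f * l ^ N) hLv x0 y0 hx0 hx01 hy0
    hy0P
  have hX' := fun σ => hX a H ha1 hac2 hH θ θ'' hθ hθ'' γ hγh σ (I σ) (X σ) (hIX σ)
  letI : Fintype (GalF A B (f * l ^ N * p)) := by
    haveI := hfin
    exact Fintype.ofFinite _
  set S : GalF A B (f * l ^ N * p) → ℂ := fun σ => ∑ c ∈ Finset.Icc 1 (p - 1),
    (c : ℂ) * dlX (R.L (I σ)) a (pt R (f * l ^ N * p) (I σ)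
      (X σ * x0 + c * (f * l ^ N : ℕ) * y0)) with hSdef
  have hvt1 : V.valuation t0 < 1 := by
    by_contra h1
    rw [not_lt] at h1
    have h2 := one_le_pow₀ h1 (n := p - 1)
    rw [ht0p] at h2
    exact absurd hv1 (not_lt.2 h2)
  have hvt : V.valuation (p : ℂ) ≤ V.valuation t0 := by
    rw [← ht0p]
    refine pow_le_of_le_one zero_le hvt1.le ?_
    have := hS.p5
    omega
  have hB := CRB.partB hUNRG hKUM hPRO hRSF p A B P V f hS hT ι R hG hv1 hv0 (f * l ^ N) hm0 hpm D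
    h hs χ ((∏ c ∈ Finset.Icc 1 (p - 1), γ c θ) / θ'' ^ (p - 1)) ρ hρ
    (fun σ => -(muX R (I σ) * t0 * S σ)) (fun σ => thT R kp eta ψ (I σ) (X σ)) ((p : ℂ) * t0)
    (by
      rw [map_mul, pow_two]
      exact mul_le_mul' le_rfl hvt)
    (by
      rw [map_mul]
      exact mul_lt_of_lt_one_right (zero_lt_iff.2 hv0) hvt1)
    (fun σ => by
      rw [Valuation.map_neg, map_mul, map_mul, hMUG p A B P V f hS ι R hG, one_mul]
      exact (hX' σ).2.1)
    (fun σ => by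
      rw [map_mul, sub_neg_eq_add]
      exact (hX' σ).1)
    (fun σ => by
      rw [← hχ (ρ σ) _ (q6 (f * l ^ N) (Dvd.intro _ rfl) hm3 D h hs (ρ σ) σ (I σ) (X σ) (hρ σ)
        (hIX σ))]
      congr 1
      refine th_per R hC ψ (I σ) ?_
      rw [← Ideal.Quotient.eq]
      exact (Quotient.out_eq _).symm)
    hpow
  obtain ⟨u1, hu1, hSig⟩ := hSIG p A B P V f hS hT ι R hG w hw kp eta hC l N hl hlf ψ hψ x0 y0 hx0
    hx01 hy0 hy0P
  have hSig' := hSig a ha1 hac I X hIX (fun σ c => (hX' σ).2.2 c)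
  have hSde := hSDE p A B P V f hS ι R w hw kp eta hC l N hl hlf ψ a ha1 hac hfac
  rw [← hSde] at hbig
  set Z : ℂ := ∑ σ : GalF A B (f * l ^ N * p), thT R kp eta ψ (I σ) (X σ) *
    (muX R (I σ) * S σ) with hZ
  have e1 : (∑ σ : GalF A B (f * l ^ N * p), thT R kp eta ψ (I σ) (X σ) *
      -(muX R (I σ) * t0 * S σ)) = -(t0 * Z) := by
    rw [hZ, Finset.mul_sum, ← Finset.sum_neg_distrib]
    exact Finset.sum_congr rfl fun σ _ => by ring
  rw [e1, Valuation.map_neg, map_mul] at hB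
  set SD : ℂ := SDT R (f * l ^ N * p) a (thT R kp eta ψ) w with hSD
  have e2 : V.valuation (t0 * SD) < V.valuation (p : ℂ) := by
    have : t0 * SD = t0 * (u1 * Z) - t0 * (u1 * Z - SD) := by ring
    rw [this]
    refine (Valuation.map_sub _ _ _).trans_lt (max_lt ?_ ?_)
    · rw [map_mul, map_mul, hu1, one_mul]
      exact hB
    · rw [map_mul]
      calc V.valuation t0 * V.valuation (u1 * Z - SD) ≤ V.valuation t0 * V.valuation (p : ℂ) :=
            mul_le_mul' le_rfl hSig'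
        _ < V.valuation (p : ℂ) := mul_lt_of_lt_one_left (zero_lt_iff.2 hv0) hvt1
  have hp1 : p - 1 ≠ 0 := by
    have := hS.p5
    omega
  have e3 := pow_lt_pow_left₀ e2 zero_le hp1
  rw [map_mul, mul_pow, ht0p] at e3
  have e4 : V.valuation (p : ℂ) ^ (p - 1) = V.valuation (p : ℂ) * V.valuation (p : ℂ) ^ (p - 2) := by
    rw [← pow_succ']
    congr 1
    have := hS.p5
    omega
  rw [e4] at e3
  exact absurd (lt_of_mul_lt_mul_left' e3) (not_lt.2 hbig)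

end CRIT

end

end Pool.Agent.TWT
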