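import Pool.Agent.TWT.StT1b

/-!
# TWT, block A: assembly (helper3)
-/

set_option autoImplicit false

open WeierstrassCurve Polynomial

namespace Pool.Agent.TWT

open _root_.MU3 Pool.Agent.MU3A Pool.Agent.MU3B Pool.Agent.MUX Pool.Agent.MUXU
open Pool.Agent.MUXV (GR InK tX)

noncomputable section

theorem t_KEYA (hKEY : S_KEY) (hFOI : S_FOI) (hPIS : S_PIS) (hKEP : S_KEP) (hPTA : S_PTA) :
    S_KEYA := by
  intro p A B P V f hS ι _ R hG y0 hy0 hy0P
  obtain ⟨hGR, hp1, hint, -, hmu⟩ := hPIS p A B P V f hS ι R hG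
  obtain ⟨hT0, hR0, hpt, hTi⟩ := hPTA p A B P V f hS ι R y0 hy0 hy0P
  set R0 : ℂ := R.om R.i0 * emb y0 / p with hR0d
  have hunit : ∀ j : ℕ, 0 < j → j < p → V.valuation (j : ℂ) = 1 := by
    intro j h0 h1
    have := hint (j : ℤ) (fun h => by
      have h2 := Int.le_of_dvd (by exact_mod_cast h0) h
      have h3 : p ≤ j := by exact_mod_cast h2
      omega)
    simpa using this
  obtain ⟨hK0, hv0⟩ := hKEP p A B P V f hS ι R hG R.i0 R0 hT0 hR0
  set t0 := tX (xn (R.L R.i0)) (yy (R.L R.i0)) R0 with ht0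
  have hp0 : V.valuation (p : ℂ) ≠ 0 := by
    rw [(Valuation.ne_zero_iff _)]
    exact_mod_cast hS.pp.ne_zero
  have hp5 := hS.p5
  have hτ0 : V.valuation t0 ≠ 0 := by
    intro h
    rw [h, zero_pow (by omega)] at hv0
    exact hp0 hv0.symm
  have hτ1 : V.valuation t0 < 1 := by
    by_contra h
    push Not at h
    have h2 : 1 ≤ V.valuation t0 ^ (p - 1) := one_le_pow₀ h
    rw [hv0] at h2
    exact absurd h2 (not_le.2 hp1)
  set τ := V.valuation t0 with hτ
  refine ⟨t0, hv0, fun h => hτ0 (by rw [hτ, h, map_zero]), ?_⟩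
  intro i a H ha1 hac hH z hz hz2 haz
  obtain ⟨hμ0, hIsg, hvμ, hodd, hvn, hker⟩ := hmu i
  have hfoi := hFOI V (R.L R.i0) (R.L i) (muX R i) (nI (R.b i)) (hGR R.i0) (hGR i) hμ0 hIsg hodd
    hvn hker hvμ R0 hK0 hR0
  rw [← hpt i] at hfoi
  obtain ⟨hKi, hRi, hti⟩ := hfoi
  obtain ⟨hTori, hpRi⟩ := hTi i hIsg
  obtain ⟨-, hvi⟩ := hKEP p A B P V f hS ι R hG i (pt R p i y0) hTori hRi
  set ti := tX (xn (R.L i)) (yy (R.L i)) (pt R p i y0) with htid
  have hτ2 : τ ^ 2 < τ := by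
    rw [pow_two]
    exact mul_lt_of_lt_one_right (zero_lt_iff.2 hτ0) hτ1
  have hvti : V.valuation ti = τ := by
    have e : ti = muX R i * t0 + (ti - muX R i * t0) := by ring
    have h1 : V.valuation (muX R i * t0) = τ := by rw [map_mul, hvμ, one_mul]
    rw [e, Valuation.map_add_eq_of_lt_left, h1]
    rw [h1]
    exact lt_of_le_of_lt hti hτ2
  have hva : V.valuation (a : ℂ) = 1 := by
    have := hint (a : ℤ) (fun h => by
      have h1 : p ∣ a := by exact_mod_cast h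
      have h2 : p ∣ Nat.gcd a (2 * p) := Nat.dvd_gcd h1 (Dvd.intro_left 2 rfl)
      rw [hac] at h2
      exact hS.pp.one_lt.ne' (Nat.dvd_one.1 h2))
    simpa using this
  obtain ⟨W, ξ, hGi⟩ := hGR i
  obtain ⟨w, hw, hmain⟩ := hKEY V W (R.L i) ξ hGi p hS.pp hp5 hp1 hunit (pt R p i y0) hKi hRi hpRi
    hvi
  obtain ⟨h1, h2, h3⟩ := hmain a H ha1 hva hH z hz haz
  rw [← htid, hvti] at hw h2 h3
  set Sg := ∑ c ∈ Finset.Icc 1 (p - 1), (c : ℂ) * dlX (R.L i) a (z + c * pt R p i y0) with hSg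
  have hΘ : V.valuation (ThetaH (R.L i) H z) = 1 := by
    have := (h1 0).1
    simpa using this
  have hpt' : V.valuation (p : ℂ) * τ = τ ^ p := by
    rw [← hv0, ← pow_succ]
    congr 1
    omega
  refine ⟨fun c => ⟨(h1 c).1, (ValuationSubring.valuation_le_one_iff _ _).1 (h1 c).2⟩, ?_, ?_⟩
  · rw [hpt']
    have e : ∏ c ∈ Finset.Icc 1 (p - 1), ThetaH (R.L i) H (z + c * pt R p i y0) -
        ThetaH (R.L i) H z ^ (p - 1) * (1 - muX R i * t0 * Sg) =
        (∏ c ∈ Finset.Icc 1 (p - 1), ThetaH (R.L i) H (z + c * pt R p i y0) -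
        ThetaH (R.L i) H z ^ (p - 1) * (1 - w * Sg)) -
        ThetaH (R.L i) H z ^ (p - 1) * ((w - muX R i * t0) * Sg) := by ring
    rw [e]
    refine (Valuation.map_sub _ _ _).trans (max_le h3 ?_)
    rw [map_mul, map_pow, hΘ, one_pow, one_mul, map_mul]
    have h4 : V.valuation (w - muX R i * t0) ≤ τ ^ 2 := by
      have e2 : w - muX R i * t0 = (w - ti) + (ti - muX R i * t0) := by ring
      rw [e2]
      exact (Valuation.map_add _ _ _).trans (max_le hw hti)
    calc V.valuation (w - muX R i * t0) * V.valuation Sg ≤ τ ^ 2 * τ ^ (p - 2) :=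
          mul_le_mul' h4 h2
      _ = τ ^ p := by rw [← pow_add]; congr 1; omega
  · calc τ * V.valuation Sg ≤ τ * τ ^ (p - 2) := mul_le_mul' le_rfl h2
      _ = V.valuation (p : ℂ) := by
        rw [← hv0, ← pow_succ']
        congr 1
        omega

end

end Pool.Agent.TWT
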