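import Pool.Agent.TWT.DefsT
import Pool.Agent.TWT.StT1

/-!
# TWT, block A, part 2 (helper3): the points of `E[P]` on the lattices `L_i`

Same conventions as in `StT1.lean`. `Sx_..`, `Sq_..` of block R of MUX are proved in `Pool/Agent/MUX/RQ0.lean` (`Pool.Agent.MUXV.x_MIN`, `q_ISQ`, ..). `XLib.lean` (namespace `Pool.Agent.MUX`): `mul_cjI`, `mul_cancel`, `nI_ne_zero`, ...
-/

set_option autoImplicit false

open WeierstrassCurve Polynomial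

namespace Pool.Agent.TWT

open _root_.MU3 Pool.Agent.MU3A Pool.Agent.MU3B Pool.Agent.MUX Pool.Agent.MUXU
open Pool.Agent.MUXV (GR InK tX)

noncomputable section

/-- (PIS) the lattice `P⁻¹ L_i` is homothetic to some `L_j`; good reduction of the `L_i`.

USES `Sc_QCR` (or directly), `Sx_NGR` (`RQAll.lean`), `XLib.lean`. PROOF. `GR`: (NGR), `v 2 = 1`, `kp = kap` by definition, `12 g₂ = 1 + 1728 kap`. `R.surj (cjI P * b_i)`: `sp x * (cjI P * b_i) = sp y * b_j`, `x, y ≠ 0`; multiply by `P`: `sp (x p) * b_i = sp y * (P * b_j)` (`P * cjI P = sp p`, `mul_cjI`). (QCR): `IsQ P L_i L_j mu`, `mu = om_j emb (x p)/(om_i emb y)`. -/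
def S_PIS : Prop :=
  ∀ (p : ℕ) (A B : ℤ) (P : Ideal (OO A B)) (V : ValuationSubring ℂ) (f : ℕ),
    SetG p A B P V f → ∀ (ι : Type) (R : Reps A B (p * f) ι), GRd V R →
    (∀ i, ∃ (W : WeierstrassCurve.Affine ℂ) (ξ : ℂ →+ W.Point),
      GR V W (R.L i) (xn (R.L i)) (yy (R.L i)) ξ) ∧
    V.valuation (p : ℂ) < 1 ∧ (∀ j : ℤ, ¬ (p : ℤ) ∣ j → V.valuation (j : ℂ) = 1) ∧
    (∀ i, ∃ (j : ι) (mu : ℂ), IsQ P (R.L i) (R.L j) mu) ∧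
    ∀ i, muX R i ≠ 0 ∧ Isg (R.L R.i0) (R.L i) (muX R i) ∧ V.valuation (muX R i) = 1 ∧
      Odd (nI (R.b i)) ∧ V.valuation ((nI (R.b i) : ℕ) : ℂ) = 1 ∧
      ∀ z, muX R i * z ∈ (R.L i).lattice → ((nI (R.b i) : ℕ) : ℂ) * z ∈ (R.L R.i0).lattice

/-- (KEP) the valuation of the parameter of the points of `E[P]`.

USES PIS, Sq_ISQ, Sx_TRA, Sx_MLT, Sx_R2, Sq_AEL, Sq_VQI (all proved, see `Pool/Agent/MUX/RQAll.lean`). PROOF. `L = L_i`, `j, mu` (PIS), `M = L_j`. (1) (ISQ) for `Q = P`, `q = p` (`p ≠ 2`, `p ∤ B² + 4A = -absD`): `IsoV V L M (1/12) (1/12) mu p H` and `v mu < 1` (`P` is below `V`). (2) `v mu = v p`: let `Q = cjI P`, `mu' = p/mu`: `IsQ Q M L mu'`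
(`z = mu z'`: `mu' z = p z' ∈ L` iff `emb x emb y z' ∈ L` for all `x ∈ P`, `y ∈ Q` (`P * Q = sp p`) iff `emb y z = mu (emb y z') ∈ M` for all `y ∈ Q`). (AEL) for `Q` (norm `p`): `a ∈ Q`, `a ≠ 0`, `c` odd, `p ∤ c`, `emb a z ∈ M → emb y (c z) ∈ M` for all `y ∈ Q`. `a ∉ P`: otherwise take `z ∉ M` with `P z ⊆ M` (exists: `P⁻¹ M ≠ M`, e.g. by (PIS), (CYQ) or (TRB); or `z = mu z₁`, ..): `emb a z ∈ M`,
so `Q (c z) ⊆ M`, `P (c z) ⊆ M`, `P + Q = O` (`p ∤ D`), so `c z ∈ M`, `p z ∈ M`, `z ∈ M`. So `v(emb a) = 1` (VQI). (MLT) with `n = c` for `mu' : M → L`: `Isg L M (emb a/mu')` (`z ∈ L`, `z = mu' z'`, `Q z' ⊆ M`, `(emb a/mu') z = emb a z' ∈ M`), kernel: `emb a z' ∈ M` gives `Q (c z') ⊆ M`, `mu' (c z') = c z ∈ L`. So `v mu' = v(emb a) = 1`, `v mu = v p`.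
(3) (TRA): for `z ∈ P⁻¹ L`, `z ∉ L`: `v(mu) v(xn L z)^((p-1)/2) = 1`; (R2): `z` is in the kernel of reduction; `v(xn L z) v(tX z)² = 1` (`v_tX_lt`), so `v(tX z)^(p-1) = v(mu) = v(p)`. -/
def S_KEP : Prop :=
  ∀ (p : ℕ) (A B : ℤ) (P : Ideal (OO A B)) (V : ValuationSubring ℂ) (f : ℕ),
    SetG p A B P V f → ∀ (ι : Type) (R : Reps A B (p * f) ι), GRd V R → ∀ (i : ι) (z : ℂ),
    Tor P (R.L i) z → z ∉ (R.L i).lattice → InK V (R.L i) (xn (R.L i)) z ∧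
      V.valuation (tX (xn (R.L i)) (yy (R.L i)) z) ^ (p - 1) = V.valuation (p : ℂ)

/-- (PTA) the points `pt R p i y0`.

PROOF. `pt R p i y0 = mu_i (om_0 emb y0/p)`, `mu_i = om_i N(b_i)/om_0` (definitions). `R.b0`, `IsLI`: `L_0 = om_0 emb O`. `x ∈ P`: `x y0 ∈ P * cjI P = sp p` (`mul_cjI`, `nI P = p`), so `emb x (om_0 emb y0/p) ∈ L_0`. `om_0 emb y0/p ∈ L_0` would give `y0 = p x ∈ P`. `p ∈ P`. -/
def S_PTA : Prop :=
  ∀ (p : ℕ) (A B : ℤ) (P : Ideal (OO A B)) (V : ValuationSubring ℂ) (f : ℕ),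
    SetG p A B P V f → ∀ (ι : Type) (R : Reps A B (p * f) ι) (y0 : OO A B), y0 ∈ cjI P →
    y0 ∉ P → Tor P (R.L R.i0) (R.om R.i0 * emb y0 / p) ∧
      R.om R.i0 * emb y0 / p ∉ (R.L R.i0).lattice ∧
      (∀ i, pt R p i y0 = muX R i * (R.om R.i0 * emb y0 / p)) ∧
      ∀ i, Isg (R.L R.i0) (R.L i) (muX R i) → Tor P (R.L i) (pt R p i y0) ∧
        (p : ℂ) * pt R p i y0 ∈ (R.L i).lattice

end

end Pool.Agent.TWT
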